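import Pool.Agent.P.MP_ed1e41_co.AS.Iface

/-! Step BDEC. -/

namespace Pool.Agent.P.MP_ed1e41_co.AS

open Finset
open scoped Classical

theorem p_BDEC :
    S_BDEC := by
  intro t i e q R he hq hR
  obtain ⟨e, rfl⟩ : ∃ y, e = y + 1 := ⟨e - 1, by omega⟩
  have hR1 : 1 ≤ R := Nat.pos_of_ne_zero fun h => by rw [h] at hR; omega
  have hq1 : 1 ≤ q := le_trans (Nat.mul_pos hR1 (by omega)) hq
  obtain ⟨q, rfl⟩ : ∃ y, q = y + 1 := ⟨q - 1, by omega⟩
  rw [Nat.add_sub_cancel]
  have a1 : (t + 2 * (i + 1)).choose (i + 1) ≤ 2 * (t + 2 * i + 1).choose (i + 1) := by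
    have := Nat.choose_succ_succ' (t + 2 * i + 1) i
    have h2 : (t + 2 * i + 1).choose i ≤ (t + 2 * i + 1).choose (i + 1) :=
      Hull.choose_le_of (by omega) (by omega)
    rw [show t + 2 * (i + 1) = t + 2 * i + 1 + 1 by ring]
    omega
  have a2 := Nat.add_one_mul_choose_eq (t + 2 * i) i
  have a3 : (q + 1 - 2).choose e ≤ q.choose e := Nat.choose_le_choose e (by omega)
  have a4 := Nat.add_one_mul_choose_eq q e
  have a5 : R * q.choose e ≤ (q + 1).choose (e + 1) := by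
    refine Nat.le_of_mul_le_mul_right ?_ (show 0 < e + 1 by omega)
    rw [← a4]
    nlinarith [Nat.mul_le_mul_right (q.choose e) hq]
  have a6 : 4 * (t + 2 * i + 1).choose (i + 1) ≤ R * (t + 2 * i).choose i := by
    refine Nat.le_of_mul_le_mul_right ?_ (show 0 < i + 1 by omega)
    rw [mul_assoc, ← a2]
    nlinarith [Nat.mul_le_mul_right ((t + 2 * i).choose i) hR]
  calc _ ≤ 2 * (2 * (t + 2 * i + 1).choose (i + 1) * q.choose e) :=
        Nat.mul_le_mul_left _ (Nat.mul_le_mul a1 a3)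
    _ = 4 * (t + 2 * i + 1).choose (i + 1) * q.choose e := by ring
    _ ≤ R * (t + 2 * i).choose i * q.choose e := Nat.mul_le_mul_right _ a6
    _ = (t + 2 * i).choose i * (R * q.choose e) := by ring
    _ ≤ _ := Nat.mul_le_mul_left _ a5

end Pool.Agent.P.MP_ed1e41_co.AS
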