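import Pool.Agent.P.MP_ed1e41_co.AS.Iface

/-! Step CELLA. -/

namespace Pool.Agent.P.MP_ed1e41_co.AS

open Finset
open scoped Classical

theorem p_CELLA (hGC : S_GC) :
    S_CELLA := by
  intro n t d j m 𝓕 ht hA hs
  have hk : ∀ F ∈ 𝓕, F.card = t + d := fun F hF => (mem_powersetCard.1 (hA.1 hF)).2
  choose! c hc using fun F (hF : F ∈ 𝓕) => exists_class hs hA.2.1 hk hF
  have h1 := hGC (𝓕.filter fun F => ¬ Hi t j F) (fun F => t + 2 * c F)
    fun F hF F' hF' z hz z' hz' h h' e => by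
      rw [class_erase (hc F (mem_filter.1 hF).1) (hc F' (mem_filter.1 hF').1) hz hz' h h' e]
  have h2 : ((shadow (𝓕.filter fun F => ¬ Hi t j F)).card : ℚ) ≤ (shadow 𝓕).card := by
    exact_mod_cast card_le_card (shadow_mono (filter_subset _ _))
  have h3 : ((𝓕.filter fun F => ¬ Hi t j F).card : ℚ) * (((t : ℚ) + j) / (j + 1)) ≤
      (shadow 𝓕).card := by
    refine le_trans ?_ (h1.trans h2)
    rw [← nsmul_eq_mul]
    refine card_nsmul_le_sum _ _ _ fun F hF => ?_
    have a := hc F (mem_filter.1 hF).1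
    rw [a.2.1]
    refine (Hull.rho_anti (by exact_mod_cast ht) (IsClass_le a (mem_filter.1 hF).2)).trans_eq ?_
    push_cast
    congr 1
    ring
  rw [← mul_div_assoc, div_le_iff₀ (by positivity)] at h3
  rw [mul_comm (t + j), mul_comm (j + 1)]
  exact_mod_cast h3

end Pool.Agent.P.MP_ed1e41_co.AS
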