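import Pool.Agent.P.MP_ed1e41_co.AS.Iface

/-! Step CELLB. -/

namespace Pool.Agent.P.MP_ed1e41_co.AS

open Finset
open scoped Classical

/-- The boundary attached to a set. -/
def CELLB_B (t d j : ℕ) (𝓕 : Finset (Finset ℕ)) (F : Finset ℕ) (b : ℕ) : Prop :=
  ∃ c, IsClass t d c F ∧ ((c < j ∧ b = t + 2 * c) ∨ (c = j ∧ Gd t j 𝓕 F ∧ b = t + 2 * j) ∨
    (c = j ∧ ¬ Gd t j 𝓕 F ∧ t ≤ b ∧ b < t + 2 * j ∧ b ∉ F ∧
      ∀ w, b < w → w < t + 2 * j → w ∈ F))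

lemma CELLB_ex {t d j c : ℕ} {𝓕 : Finset (Finset ℕ)} {F : Finset ℕ} (hF : F ∈ 𝓕)
    (hc : IsClass t d c F) (hH : ¬ Hi t j F) : ∃ b, CELLB_B t d j 𝓕 F b := by
  rcases (IsClass_le hc hH).lt_or_eq with h | h
  · exact ⟨_, c, hc, Or.inl ⟨h, rfl⟩⟩
  by_cases hG : Gd t j 𝓕 F
  · exact ⟨_, c, hc, Or.inr (Or.inl ⟨h, hG, rfl⟩)⟩
  have h1 : (F ∩ range (t + 2 * j)).card = t + j := h ▸ hc.2.1
  have h2 : ¬ Ico t (t + 2 * j) ⊆ F := fun h2 => hG ⟨hH, h1, F, hF, ⟨h1, h2⟩, rfl⟩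
  obtain ⟨y, hy1, hy2⟩ := not_subset.1 h2
  have hne : (Ico t (t + 2 * j) \ F).Nonempty := ⟨y, mem_sdiff.2 ⟨hy1, hy2⟩⟩
  have h3 := mem_sdiff.1 (max'_mem _ hne)
  have h4 := mem_Ico.1 h3.1
  refine ⟨_, c, hc, Or.inr (Or.inr ⟨h, hG, h4.1, h4.2, h3.2, fun w a b => ?_⟩)⟩
  by_contra hw
  have := le_max' (Ico t (t + 2 * j) \ F) w (mem_sdiff.2 ⟨mem_Ico.2 ⟨by omega, b⟩, hw⟩)
  omega

lemma CELLB_tail {F : Finset ℕ} {z M : ℕ} (h : z < M) : F.erase z \ range M = F \ range M := by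
  ext y
  simp only [mem_sdiff, mem_erase, mem_range]
  grind

lemma CELLB_cons {t d j b b' z z' : ℕ} {𝓕 : Finset (Finset ℕ)} {F F' : Finset ℕ}
    (h : CELLB_B t d j 𝓕 F b) (h' : CELLB_B t d j 𝓕 F' b') (hH : ¬ Hi t j F)
    (hH' : ¬ Hi t j F') (hz : z ∈ F) (hz' : z' ∈ F') (hb : z < b) (hb' : z' < b')
    (e : F.erase z = F'.erase z') : b = b' := by
  obtain ⟨c, hc, h⟩ := h
  obtain ⟨c', hc', h'⟩ := h'
  have e1 : c = c' := class_erase hc hc' hz hz' (by omega) (by omega) e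
  subst e1
  by_cases hj : c < j
  · omega
  have e2 : c = j := by omega
  subst e2
  have e3 : F \ range (t + 2 * c) = F' \ range (t + 2 * c) := by
    rw [← CELLB_tail (F := F) (z := z) (by omega), e, CELLB_tail (by omega)]
  have e4 : Gd t c 𝓕 F ↔ Gd t c 𝓕 F' := by
    unfold Gd
    rw [e3]
    exact ⟨fun a => ⟨hH', hc'.2.1, a.2.2⟩, fun a => ⟨hH, hc.2.1, a.2.2⟩⟩
  rcases h with h | h | h
  · omega
  · rcases h' with h' | h' | h'
    · omega
    · omega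
    · exact absurd (e4.1 h.2.1) h'.2.1
  · rcases h' with h' | h' | h'
    · omega
    · exact absurd (e4.2 h'.2.1) h.2.1
    · obtain ⟨-, -, -, a1, a2, a3⟩ := h
      obtain ⟨-, -, -, b1, b2, b3⟩ := h'
      rcases lt_trichotomy b b' with l | l | l
      · exact absurd (mem_of_mem_erase (e ▸ mem_erase.2 ⟨by omega, a3 b' l b1⟩)) b2
      · exact l
      · exact absurd (mem_of_mem_erase (e.symm ▸ mem_erase.2 ⟨by omega, b3 b l a1⟩)) a2

lemma CELLB_wt {t d j b : ℕ} {𝓕 : Finset (Finset ℕ)} {F : Finset ℕ} (hj : j ≤ t)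
    (hk : F.card = t + d) (h : CELLB_B t d j 𝓕 F b) :
    (((if Gd t j 𝓕 F then j * (t + j) else (j + 1) * (t + 1 - j) : ℕ) : ℚ)) ≤
      (j * (j + 1) : ℚ) *
        (((F ∩ range b).card : ℚ) / ((b : ℚ) + 1 - (F ∩ range b).card)) := by
  obtain ⟨c, hc, h⟩ := h
  obtain ⟨s, rfl⟩ := Nat.exists_eq_add_of_le hj
  rcases h with ⟨h1, rfl⟩ | ⟨rfl, h1, rfl⟩ | ⟨rfl, h1, h2, h3, h4, h5⟩
  · have hG : ¬ Gd (j + s) j 𝓕 F := fun hG => by
      have a1 := card_tr_le' F (j + s + 2 * j)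
      have a2 := hG.2.1
      have a3 := hc.2.2 j h1 (by omega)
      omega
    rw [if_neg hG, hc.2.1, show j + s + 1 - j = s + 1 by omega]
    push_cast
    rw [show (j : ℚ) + s + 2 * c + 1 - (j + s + c) = c + 1 by ring, ← mul_div_assoc,
      le_div_iff₀ (by positivity)]
    have a1 : (c : ℚ) + 1 ≤ j := by exact_mod_cast h1
    have a2 : (0 : ℚ) ≤ c := by positivity
    have a3 : (0 : ℚ) ≤ s := by positivity
    have a4 : ((s : ℚ) + 1) * (c + 1) ≤ j * (j + s + c) := by nlinarith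
    nlinarith
  · rw [if_pos h1, hc.2.1]
    push_cast
    rw [show (c : ℚ) + s + 2 * c + 1 - (c + s + c) = c + 1 by ring, ← mul_div_assoc,
      le_div_iff₀ (by positivity)]
    exact le_of_eq (by ring)
  · obtain ⟨x, hx⟩ : ∃ x, c + s + 2 * c = b + (x + 1) := ⟨c + s + 2 * c - b - 1, by omega⟩
    have a1 := card_tr_split F b (x + 1)
    have a2 : F ∩ Ico b (b + (x + 1)) = Ico (b + 1) (b + (x + 1)) := by
      ext y
      simp only [mem_inter, mem_Ico]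
      refine ⟨fun a => ⟨?_, a.2.2⟩, fun a => ⟨h5 y (by omega) (by omega), by omega, a.2⟩⟩
      rcases a.2.1.lt_or_eq with l | l
      · exact l
      · exact absurd (l ▸ a.1) h4
    rw [a2, Nat.card_Ico, ← hx, hc.2.1] at a1
    obtain ⟨u, rfl⟩ := Nat.exists_eq_add_of_le h2
    have a3 : (F ∩ range (c + s + u)).card = s + u + 1 := by omega
    have a4 : (1 : ℚ) ≤ c := by exact_mod_cast (show 1 ≤ c by omega)
    rw [if_neg h1, a3, show c + s + 1 - c = s + 1 by omega]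
    push_cast
    rw [show (c : ℚ) + s + u + 1 - (s + u + 1) = c by ring, ← mul_div_assoc,
      le_div_iff₀ (by positivity)]
    have a5 : (0 : ℚ) ≤ c * (c + 1) * u := by positivity
    nlinarith

theorem p_CELLB (hGC : S_GC) :
    S_CELLB := by
  intro n t d j m 𝓕 _ hj hA hs
  have hk : ∀ F ∈ 𝓕, F.card = t + d := fun F hF => (mem_powersetCard.1 (hA.1 hF)).2
  have hex : ∀ F, ∃ b, F ∈ 𝓕.filter (fun F => ¬ Hi t j F) → CELLB_B t d j 𝓕 F b := fun F => by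
    by_cases hF : F ∈ 𝓕.filter (fun F => ¬ Hi t j F)
    · obtain ⟨c, hc⟩ := exists_class hs hA.2.1 hk (mem_filter.1 hF).1
      obtain ⟨b, hb⟩ := CELLB_ex (mem_filter.1 hF).1 hc (mem_filter.1 hF).2
      exact ⟨b, fun _ => hb⟩
    · exact ⟨0, fun h => absurd h hF⟩
  choose b hb using hex
  have h1 := hGC (𝓕.filter fun F => ¬ Hi t j F) b fun F hF F' hF' z hz z' hz' a a' e =>
    CELLB_cons (hb F hF) (hb F' hF') (mem_filter.1 hF).2 (mem_filter.1 hF').2 hz hz' a a' e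
  have h2 : ((shadow (𝓕.filter fun F => ¬ Hi t j F)).card : ℚ) ≤ (shadow 𝓕).card := by
    exact_mod_cast card_le_card (shadow_mono (filter_subset _ _))
  have h3 := sum_le_sum fun F hF => CELLB_wt hj (hk F (mem_filter.1 hF).1) (hb F hF)
  rw [← mul_sum, ← Nat.cast_sum, sum_ite, sum_const, sum_const, filter_filter, filter_filter,
    filter_congr (q := fun F => Gd t j 𝓕 F) fun F _ => ⟨fun a => a.2, fun a => ⟨a.1, a⟩⟩,
    smul_eq_mul, smul_eq_mul, mul_comm (card _), mul_comm (card _)] at h3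
  exact_mod_cast h3.trans (mul_le_mul_of_nonneg_left (h1.trans h2) (by positivity))

end Pool.Agent.P.MP_ed1e41_co.AS
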