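import Pool.Agent.P.MP_ed1e41_co.AS.Iface

/-! Step CHEAP. -/

namespace Pool.Agent.P.MP_ed1e41_co.AS

open Finset
open scoped Classical

theorem p_CHEAP (hCHL : S_CHL) (hCHH : S_CHH) :
    S_CHEAP := by
  intro n t d j m e q hS M hM ht 𝓕 hA hs
  have hH := hCHH n t d j m e q hS M hM ht
  have hL := hCHL n t d j m e q hS M hM ht 𝓕 hA hs
  have hk : ∀ F ∈ 𝓕, F.card = t + d := fun F hF => (mem_powersetCard.1 (hA.1 hF)).2
  have := hS.hd
  have := hS.hn
  have := hS.hq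
  set L := 16 * j + 15 + 2 * M with hLdef
  let g : ℕ → Finset (Finset ℕ) := fun c => 𝓕.filter fun F => (F ∩ range (t + 2 * c)).card = t + c
  have h1 : (𝓕.filter fun F => Hi t j F) ⊆
      ((Ioc j d).filter (· ≤ L)).biUnion g ∪ (Ioc L d).biUnion g := by
    intro F hF
    obtain ⟨hF, hHi⟩ := mem_filter.1 hF
    obtain ⟨c, hc⟩ := exists_class hs hA.2.1 hk hF
    have h2 := IsClass_gt hc (hk F hF) hHi
    have h3 : F ∈ g c := mem_filter.2 ⟨hF, hc.2.1⟩
    rcases le_or_gt c L with h | h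
    · exact mem_union_left _ (mem_biUnion.2 ⟨c, mem_filter.2 ⟨mem_Ioc.2 ⟨h2, hc.1⟩, h⟩, h3⟩)
    · exact mem_union_right _ (mem_biUnion.2 ⟨c, mem_Ioc.2 ⟨h, hc.1⟩, h3⟩)
  have h2 := (card_le_card h1).trans ((card_union_le _ _).trans
    (Nat.add_le_add card_biUnion_le card_biUnion_le))
  have h3 : ∑ c ∈ Ioc L d, (g c).card ≤
      ∑ c ∈ Ioc L d, (t + 2 * c).choose c * (n - (t + 2 * c)).choose (d - c) := by
    refine sum_le_sum fun c hc => ?_
    rw [mem_Ioc] at hc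
    rw [← cc_symm, ← card_lev (n := n) (by omega), show t + c + (d - c) = t + d by omega]
    refine card_le_card fun F hF => ?_
    obtain ⟨hF, h⟩ := mem_filter.1 hF
    exact mem_lev.2 ⟨(mem_powersetCard.1 (hA.1 hF)).1, hk F hF, h⟩
  have h4 : t * ∑ c ∈ (Ioc j d).filter (· ≤ L), (g c).card ≤ 18 * M * (776 * M ^ 2 * m) := by
    rw [mul_sum]
    refine (sum_le_card_nsmul _ _ (776 * M ^ 2 * m) fun c hc => ?_).trans
      (Nat.mul_le_mul_right _ ?_)
    · rw [mem_filter, mem_Ioc] at hc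
      exact hL c hc.1.1 hc.1.2 (by omega)
    · refine (card_le_card (t := Ioc 0 (18 * M)) fun c hc => ?_).trans (by simp)
      rw [mem_filter, mem_Ioc] at hc
      exact mem_Ioc.2 ⟨by omega, by omega⟩
  generalize ∑ c ∈ (Ioc j d).filter (· ≤ L), (g c).card = a at h2 h4
  have h5 : 4 * M * a ≤ 3 * m := by
    have h0 : 0 < M := by omega
    refine Nat.le_of_mul_le_mul_left ?_ (show 0 < 5000 * M ^ 3 by positivity)
    have h6 : 20000 * M ^ 4 * a ≤ t * a := Nat.mul_le_mul_right _ ht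
    calc 5000 * M ^ 3 * (4 * M * a) = 20000 * M ^ 4 * a := by ring
      _ ≤ 18 * M * (776 * M ^ 2 * m) := h6.trans h4
      _ = 13968 * (M ^ 3 * m) := by ring
      _ ≤ 15000 * (M ^ 3 * m) := Nat.mul_le_mul_right _ (by norm_num)
      _ = _ := by ring
  have h6 := Nat.mul_le_mul_left (4 * M) (h2.trans (Nat.add_le_add_left h3 a))
  rw [mul_add, mul_assoc] at h6
  omega

end Pool.Agent.P.MP_ed1e41_co.AS
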