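import Pool.Agent.P.MP_ed1e41_co.AS.Iface

/-! Step CHH. -/

namespace Pool.Agent.P.MP_ed1e41_co.AS

open Finset
open scoped Classical

lemma CHH_sum (B : ℕ → ℕ) (I d : ℕ) (h : ∀ i, I ≤ i → i < d → 2 * B (i + 1) ≤ B i) :
    ∀ x, I + x ≤ d → ∑ c ∈ Ioc I (I + x), B c + B (I + x) ≤ B I := by
  intro x
  induction x with
  | zero => intro _; simp
  | succ x ih =>
    intro hx
    have h1 := ih (by omega)
    have h2 := h (I + x) (by omega) (by omega)
    rw [← add_assoc, sum_Ioc_succ_top (by omega)]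
    omega

lemma CHH_pow (B : ℕ → ℕ) (I d : ℕ) (h : ∀ i, I ≤ i → i < d → 2 * B (i + 1) ≤ B i) :
    ∀ x, I + x ≤ d → 2 ^ x * B (I + x) ≤ B I := by
  intro x
  induction x with
  | zero => intro _; simp
  | succ x ih =>
    intro hx
    have h1 := ih (by omega)
    have h2 := h (I + x) (by omega) (by omega)
    calc 2 ^ (x + 1) * B (I + (x + 1)) = 2 ^ x * (2 * B (I + x + 1)) := by
          rw [← add_assoc]; ring
      _ ≤ 2 ^ x * B (I + x) := Nat.mul_le_mul_left _ h2
      _ ≤ B I := h1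

lemma CHH_two (M : ℕ) : 4 * M ≤ 2 ^ (2 * M) := by
  induction M with
  | zero => simp
  | succ M ih =>
    have h1 : 1 ≤ 2 ^ (2 * M) := Nat.one_le_two_pow
    rw [show 2 * (M + 1) = 2 * M + 2 by ring, pow_add]
    omega

theorem p_CHH (hPZ : S_PZ) (hRR : S_RR) (hBDEC : S_BDEC) :
    S_CHH := by
  intro n t d j m e q hS M hM ht
  rcases le_or_gt d (16 * j + 15 + 2 * M) with hd | hd
  · rw [Ioc_eq_empty (by omega)]; simp
  obtain ⟨R, hR, hRR'⟩ := hRR n t d j m e q hS M hM ht
  have h1 := hS.hd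
  have h2 := hS.hn
  have h3 := hS.hq
  have hj := (hRR' j e q le_rfl h1 h2).2
  have key : ∀ i, 16 * j + 15 ≤ i → i < d →
      2 * ((t + 2 * (i + 1)).choose (i + 1) * (n - (t + 2 * (i + 1))).choose (d - (i + 1))) ≤
        (t + 2 * i).choose i * (n - (t + 2 * i)).choose (d - i) := by
    intro i hi hid
    have h4 := (hRR' i (d - i) (n - (t + 2 * i)) (by omega) (by omega) (by omega)).1
    have h5 : R * (16 * (j + 1)) ≤ R * (i + 1) := Nat.mul_le_mul_left R (by omega)
    have h6 : 4096 * (i + 1) ≤ R * (i + 1) := Nat.mul_le_mul_right _ hR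
    have h7 := hBDEC t i (d - i) (n - (t + 2 * i)) R (by omega) (by omega) (by nlinarith)
    rwa [show n - (t + 2 * i) - 2 = n - (t + 2 * (i + 1)) by omega,
      show d - i - 1 = d - (i + 1) by omega] at h7
  have s1 := CHH_sum (fun c => (t + 2 * c).choose c * (n - (t + 2 * c)).choose (d - c))
    (16 * j + 15 + 2 * M) d (fun i hi hid => key i (by omega) hid) (d - (16 * j + 15 + 2 * M))
    (by omega)
  have s2 := CHH_pow (fun c => (t + 2 * c).choose c * (n - (t + 2 * c)).choose (d - c))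
    (16 * j + 15) d key (2 * M) (by omega)
  rw [show 16 * j + 15 + 2 * M + (d - (16 * j + 15 + 2 * M)) = d by omega] at s1
  have s3 := ble (n := n) (t := t) (d := d) (i := 16 * j + 15) (e := d - (16 * j + 15))
    (q := n - (t + 2 * (16 * j + 15))) (by omega) (by omega)
  have s4 := (hPZ n t d j e q hS.t1 h1 hS.e1 h2 h3 (hS.lo.trans_le hS.hi)).2 (16 * j + 15)
    (by omega) (by omega)
  have s5 := hS.lo
  exact (Nat.mul_le_mul (CHH_two M) ((Nat.le_add_right _ _).trans s1)).trans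
    (s2.trans (s3.trans (s4.trans s5.le)))

end Pool.Agent.P.MP_ed1e41_co.AS
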