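import Pool.Agent.P.MP_ed1e41_co.AS.Iface

/-! Step CHL. -/

namespace Pool.Agent.P.MP_ed1e41_co.AS

open Finset
open scoped Classical

theorem p_CHL (hPZ : S_PZ) (hRR : S_RR) (hVTL : S_VTL) (hNVT : S_NVT) :
    S_CHL := by
  intro n t d j m e q h M hM ht 𝓕 hA hS c hjc hcd hc
  obtain ⟨R, hR, H⟩ := hRR n t d j m e q h M hM ht
  have hd : d = c + (d - c) := by omega
  have hn : n = t + 2 * c + (n - (t + 2 * c)) := by
    have := h.hd; have := h.hn; have := h.hq; omega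
  obtain ⟨h1, h2⟩ := H c _ _ hjc.le hd hn
  have h3 := (H j e q le_rfl h.hd h.hn).2
  have hM1 : 1 ≤ M := by omega
  have hM2 : M ≤ M ^ 2 := by nlinarith
  have hM4 : M ^ 2 ≤ M ^ 4 := Nat.pow_le_pow_right hM1 (by norm_num)
  have hc2 : c ^ 2 ≤ 324 * M ^ 2 := by nlinarith
  have ha : (frankl n (t + d) t c).card < m :=
    lt_of_le_of_lt ((hPZ n t d j e q h.t1 h.hd h.e1 h.hn h.hq (h.lo.trans_le h.hi)).2 c hjc hcd)
      h.lo
  have hsub : (𝓕.filter fun F => (F ∩ range (t + 2 * c)).card = t + c) ⊆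
      (lev n (t + d) (t + 2 * c) (t + c)).filter fun F =>
        ¬ (Typ t c F ∧ Sp (t + 2 * c) F) := by
    intro F hF
    obtain ⟨f1, f2⟩ := mem_filter.1 hF
    have f3 := mem_powersetCard.1 (hA.1 f1)
    refine mem_filter.2 ⟨mem_lev.2 ⟨f3.1, f3.2, f2⟩, fun hh => ?_⟩
    exact absurd (hVTL n t d c _ _ R m 𝓕 F hd hn hR h1 h2 h.t1 (by omega) hA hS f1 hh.1 hh.2)
      (not_le.2 ha)
  have h4 := hNVT n t d c _ _ R hd hn hR h1 (by omega)
  have h5 := (ble hd hn).trans ha.le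
  have h6 : 2 * c ^ 2 * R + 64 * t ≤ R * (776 * M ^ 2) := by
    have a1 : 2 * c ^ 2 * R ≤ 2 * (324 * M ^ 2) * R :=
      Nat.mul_le_mul_right _ (Nat.mul_le_mul_left _ hc2)
    have a2 : 2 * R * (j + 1) ≤ 2 * R * M ^ 2 := Nat.mul_le_mul_left _ (hM.trans hM2)
    nlinarith
  refine Nat.le_of_mul_le_mul_left ?_ (show 0 < R by omega)
  calc R * (t * (𝓕.filter fun F => (F ∩ range (t + 2 * c)).card = t + c).card)
      = t * R * (𝓕.filter fun F => (F ∩ range (t + 2 * c)).card = t + c).card := by ring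
    _ ≤ _ := Nat.mul_le_mul_left _ (card_le_card hsub)
    _ ≤ _ := h4
    _ ≤ R * (776 * M ^ 2) * m := Nat.mul_le_mul h6 h5
    _ = R * (776 * M ^ 2 * m) := by ring

end Pool.Agent.P.MP_ed1e41_co.AS
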