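import Pool.Agent.P.MP_ed1e41_co.AS.Iface

/-! Step CHORD. -/

namespace Pool.Agent.P.MP_ed1e41_co.AS

open Finset
open scoped Classical

lemma CHORD_rat {n k t i : ℕ} (h1 : t + 2 * i ≤ n) (h2 : k ≤ n) :
    ((t : ℤ) + i) * (frankl n k t i).card ≤ (i + 1) * (shadow (frankl n k t i)).card := by
  have := Hull.ratio_le (k := k) (X := fun σ => σ i) (Y := fun _ => False)
    (fun _ _ a b => b i (by omega) a) (fun _ _ a _ => a) h1 (fun _ a => a.elim) fun _ a b => a b
  rw [Hull.frankl_eq, Hull.shadow_fam (Hull.ind_j _ i) h2, Hull.card_fam, Hull.card_fam]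
  simpa [Hull.cnt] using this

theorem p_CHORD :
    S_CHORD := by
  intro n t d j m e q ⟨t1, hd, e1, hn, hq, lo, hi⟩ 𝓕 h
  have l := Hull.line t1 (by omega) (by omega) (lo.trans_le hi) h
  have r0 := CHORD_rat (n := n) (k := t + d) (t := t) (i := j) (by omega) (by omega)
  have r1 := CHORD_rat (n := n) (k := t + d) (t := t) (i := j + 1) (by omega) (by omega)
  push_cast at r1
  zify at t1 lo hi ⊢
  have s0 := Int.natCast_nonneg (shadow (frankl n (t + d) t j)).card
  have s1 := Int.natCast_nonneg (shadow (frankl n (t + d) t (j + 1))).card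
  have a0 := Int.natCast_nonneg (frankl n (t + d) t j).card
  have a1 := Int.natCast_nonneg (frankl n (t + d) t (j + 1)).card
  have j0 := Int.natCast_nonneg j
  generalize ((shadow (frankl n (t + d) t j)).card : ℤ) = s at *
  generalize ((shadow (frankl n (t + d) t (j + 1))).card : ℤ) = s' at *
  generalize ((frankl n (t + d) t j).card : ℤ) = a at *
  generalize ((frankl n (t + d) t (j + 1)).card : ℤ) = a' at *
  generalize ((shadow 𝓕).card : ℤ) = S at *
  have p : 0 < a - a' := by omega
  have r2 : (t + j + 1) * a ≤ (j + 2) * s := by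
    refine le_of_mul_le_mul_left ?_ (show (0 : ℤ) < j + 1 by omega)
    have := mul_le_mul_of_nonneg_left r0 (show (0 : ℤ) ≤ j + 2 by omega)
    have := mul_nonneg a0 (show (0 : ℤ) ≤ t - 1 by omega)
    nlinarith
  constructor
  · refine le_of_mul_le_mul_left ?_ p
    have u := mul_le_mul_of_nonneg_left r2 (show 0 ≤ (m : ℤ) - a' by omega)
    have v := mul_le_mul_of_nonneg_left r1 (show 0 ≤ a - (m : ℤ) by omega)
    have w := mul_le_mul_of_nonneg_left l (show (0 : ℤ) ≤ j + 2 by omega)
    nlinarith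
  · refine le_of_mul_le_mul_left ?_ p
    have u := mul_le_mul_of_nonneg_left r0 (show 0 ≤ (m : ℤ) - a' by omega)
    have v := mul_nonneg (mul_nonneg (show 0 ≤ a - (m : ℤ) by omega) s1)
      (show (0 : ℤ) ≤ j + 1 by omega)
    have w := mul_le_mul_of_nonneg_left l (show (0 : ℤ) ≤ j + 1 by omega)
    have x := mul_nonneg (mul_nonneg (show 0 ≤ (m : ℤ) - a' by omega) a1)
      (show (0 : ℤ) ≤ t + j by omega)
    nlinarith

end Pool.Agent.P.MP_ed1e41_co.AS
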