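import Pool.Agent.P.MP_ed1e41_co.AS.Iface

/-! Step COMP. -/

namespace Pool.Agent.P.MP_ed1e41_co.AS

open Finset
open scoped Classical

theorem COMP_a {t i p x₀ : ℕ} {Y W : Finset ℕ} (hY : Typ t i Y)
    (h : p + t ≤ (Y ∩ range p).card + (W ∩ range p).card) (hp : p ≤ t + 2 * i + x₀)
    (h0 : Y ∩ Ico (t + 2 * i) (t + 2 * i + x₀) = ∅) :
    t + i ≤ (W ∩ range (t + 2 * i)).card := by
  have h1 := hY.1
  rcases le_total p (t + 2 * i) with hle | hle
  · have a := card_tr_le Y p
    have b := card_tr_le W p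
    obtain ⟨y, hy⟩ := Nat.exists_eq_add_of_le hle
    have c := card_tr_split Y p y
    have d : Y ∩ Ico p (p + y) = Ico p (p + y) :=
      inter_eq_right.2 ((Ico_subset_Ico (by omega) hy.ge).trans hY.2)
    rw [d, Nat.card_Ico, ← hy] at c
    have e := card_tr_mono W hle
    omega
  · obtain ⟨x, rfl⟩ := Nat.exists_eq_add_of_le hle
    have a := card_tr_split Y (t + 2 * i) x
    have b := card_tr_split W (t + 2 * i) x
    have c : (Y ∩ Ico (t + 2 * i) (t + 2 * i + x)).card ≤
        (Y ∩ Ico (t + 2 * i) (t + 2 * i + x₀)).card :=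
      card_le_card (inter_subset_inter_left (Ico_subset_Ico_right hp))
    rw [h0, card_empty] at c
    have d := card_le_card (inter_subset_right (s₁ := W) (s₂ := Ico (t + 2 * i) (t + 2 * i + x)))
    rw [Nat.card_Ico] at d
    omega

theorem p_COMP :
    S_COMP := by
  intro t i p Y W hY h
  refine ⟨fun x₀ hS h0 => ?_, fun e e1 e2 h0 => ?_⟩
  · rcases le_or_gt p (t + 2 * i + x₀) with hp | hp
    · exact Or.inl (COMP_a hY h hp h0)
    · obtain ⟨x, rfl⟩ := Nat.exists_eq_add_of_le (show t + 2 * i ≤ p by omega)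
      have a := card_tr_split Y (t + 2 * i) x
      have b := hS x
      have c := hY.1
      exact Or.inr ⟨x, by omega, by omega⟩
  · have a := card_tr_le' Y p
    have b := card_tr_le' W p
    exact COMP_a hY h (by omega) h0

end Pool.Agent.P.MP_ed1e41_co.AS
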