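import Pool.Agent.P.MP_ed1e41_co.AS.Iface

/-! Step DC. -/

namespace Pool.Agent.P.MP_ed1e41_co.AS

open Finset
open scoped Classical

theorem p_DC :
    S_DC := by
  intro 𝓟 w m W
  induction hc : 𝓟.card using Nat.strong_induction_on generalizing 𝓟 with
  | _ c ih =>
    intro h1 h2 h3
    by_cases h4 : ∑ P ∈ 𝓟, w P ≤ m + W
    · exact ⟨𝓟, Subset.rfl, h1, h3, h4⟩
    have hne : 𝓟.Nonempty := by
      rw [nonempty_iff_ne_empty]
      rintro rfl
      simp at h4
    obtain ⟨P, hP, hmax⟩ := exists_max_image 𝓟 card hne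
    have h5 := add_sum_erase 𝓟 w hP
    have h6 := h2 P hP
    obtain ⟨𝓠, q1, q2⟩ := ih _ (hc ▸ card_erase_lt_of_mem hP) (𝓟.erase P) rfl
      (fun Q hQ x hx => by
        refine mem_erase.2 ⟨fun e => ?_, h1 Q (mem_of_mem_erase hQ) x hx⟩
        have a1 := hmax Q (mem_of_mem_erase hQ)
        have a2 := card_erase_lt_of_mem hx
        rw [e] at a2
        omega)
      (fun Q hQ => h2 Q (mem_of_mem_erase hQ)) (by omega)
    exact ⟨𝓠, q1.trans (erase_subset _ _), q2⟩

end Pool.Agent.P.MP_ed1e41_co.AS
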