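import Pool.Agent.P.MP_ed1e41_co.AS.Iface

/-! Step EXG. -/

namespace Pool.Agent.P.MP_ed1e41_co.AS

open Finset
open scoped Classical

lemma EXG_one (S : Finset ℕ) (e y : ℕ) (hy : y ∈ S) :
    ((S.powersetCard (e + 1)).filter fun T => y ∈ T).card ≤ (S.card - 1).choose e := by
  rw [← card_erase_of_mem hy, ← card_powersetCard]
  refine card_le_card_of_injOn (fun T => T.erase y) (fun T hT => ?_) fun T hT T' hT' h => ?_
  · rw [mem_coe, mem_filter, mem_powersetCard] at hT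
    refine mem_coe.2 (mem_powersetCard.2 ⟨erase_subset_erase _ hT.1.1, ?_⟩)
    rw [card_erase_of_mem hT.2, hT.1.2]
    rfl
  · rw [mem_coe, mem_filter] at hT hT'
    simp only at h
    rw [← insert_erase hT.2, h, insert_erase hT'.2]

lemma EXG_meet (S Wd : Finset ℕ) (e : ℕ) (hW : Wd ⊆ S) :
    ((S.powersetCard (e + 1)).filter fun T => T ∩ Wd ≠ ∅).card ≤
      Wd.card * (S.card - 1).choose e := by
  refine le_trans (card_le_card (t := Wd.biUnion fun y =>
    (S.powersetCard (e + 1)).filter fun T => y ∈ T) fun T hT => ?_) ?_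
  · rw [mem_filter] at hT
    obtain ⟨y, h1⟩ := nonempty_iff_ne_empty.2 hT.2
    rw [mem_inter] at h1
    exact mem_biUnion.2 ⟨y, h1.2, mem_filter.2 ⟨hT.1, h1.1⟩⟩
  · exact card_biUnion_le_card_mul _ _ _ fun y hy => EXG_one S e y (hW hy)

lemma EXG_two {q e : ℕ} (h : 2 * e ≤ q + 1) : (q + 1).choose e ≤ 2 * q.choose e := by
  have h1 := Nat.choose_mul_succ_eq q e
  refine Nat.le_of_mul_le_mul_right ?_ (show 0 < q + 1 - e by omega)
  rw [← h1, mul_comm 2, mul_assoc]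
  exact Nat.mul_le_mul_left _ (by omega)

theorem p_EXG (hPT : S_PT) (hCOMP : S_COMP) :
    S_EXG := by
  intro n t d j m e q hS h8 𝓕 hA hs hm
  obtain ⟨t1, hd, e1, hn, hq, lo, hi⟩ := hS
  have hmem : ∀ F ∈ 𝓕, F ⊆ range n ∧ F.card = t + d := fun F hF => mem_powersetCard.1 (hA.1 hF)
  by_cases hY : ∃ Y ∈ 𝓕, Typ t j Y ∧ Y ∩ Ico (t + 2 * j) (t + 2 * j + 2 * e) = ∅
  · obtain ⟨Y, hY1, hY2, hY3⟩ := hY
    intro W hW
    obtain ⟨p, hp⟩ := frankl_lemma hs hA.2.1 hY1 W hW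
    have h1 := hmem Y hY1
    have h2 := hmem W hW
    exact mem_frankl.2 ⟨h2.1, h2.2,
      (hCOMP t j p Y W hY2 hp).2 e (by omega) (by omega) hY3⟩
  · exfalso
    obtain ⟨e', rfl⟩ : ∃ e', e = e' + 1 := ⟨e - 1, by omega⟩
    obtain ⟨q', rfl⟩ : ∃ q', q = q' + 2 := ⟨q - 2, by omega⟩
    have h1 := card_le_prod (𝓕 := 𝓕.filter fun F => Gd t j 𝓕 F)
      (𝓗 := (range (t + 2 * j)).powersetCard (t + j))
      (𝓣 := ((Ico (t + 2 * j) n).powersetCard (e' + 1)).filter fun T =>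
        T ∩ Ico (t + 2 * j) (t + 2 * j + 2 * (e' + 1)) ≠ ∅) (t + 2 * j) fun F hF => by
      rw [mem_filter] at hF
      obtain ⟨hF1, -, hF2, Y, hY1, hY2, hY3⟩ := hF
      have h2 := hmem F hF1
      have h3 := card_head_tail F (t + 2 * j)
      refine ⟨mem_powersetCard.2 ⟨inter_subset_right, hF2⟩, mem_filter.2
        ⟨mem_powersetCard.2 ⟨tail_sub h2.1, by omega⟩, ?_⟩⟩
      obtain ⟨y, hy⟩ := nonempty_iff_ne_empty.2 fun h => hY ⟨Y, hY1, hY2, h⟩
      rw [mem_inter] at hy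
      refine nonempty_iff_ne_empty.1 ⟨y, mem_inter.2 ⟨hY3 ▸ mem_sdiff.2 ⟨hy.1, ?_⟩, hy.2⟩⟩
      have := mem_Ico.1 hy.2
      rw [mem_range]
      omega
    have h2 := EXG_meet (Ico (t + 2 * j) n) (Ico (t + 2 * j) (t + 2 * j + 2 * (e' + 1))) e'
      (Ico_subset_Ico_right (by omega))
    rw [Nat.card_Ico, Nat.card_Ico, show n - (t + 2 * j) - 1 = q' + 1 by omega,
      Nat.add_sub_cancel_left] at h2
    rw [card_powersetCard, card_range, cc_symm] at h1
    have h3 := EXG_two (q := q') (e := e') (by omega)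
    have h4 := (hPT n t d j (e' + 1) (q' + 2) t1 hd e1 hn (by omega)).1
    rw [Nat.add_sub_cancel, Nat.add_sub_cancel] at h4
    set c := (t + 2 * j).choose j
    set C := q'.choose e'
    have h5 : m ≤ 8 * (e' + 1) * (c * C) := by
      calc m ≤ 2 * (c * (2 * (e' + 1) * (2 * C))) :=
            hm.trans (Nat.mul_le_mul_left _ (h1.trans (Nat.mul_le_mul_left _
              (h2.trans (Nat.mul_le_mul_left _ h3)))))
        _ = _ := by ring
    have h6 : (j + 1) * m ≤ (j + 1) * (frankl n (t + d) t (j + 1)).card := by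
      calc (j + 1) * m ≤ (j + 1) * (8 * (e' + 1) * (c * C)) := Nat.mul_le_mul_left _ h5
        _ = 8 * (j + 1) * (e' + 1) * (c * C) := by ring
        _ ≤ (t + j) * (c * C) := Nat.mul_le_mul_right _ h8
        _ ≤ _ := h4
    have := Nat.le_of_mul_le_mul_left h6 (by omega)
    omega

end Pool.Agent.P.MP_ed1e41_co.AS
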