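import Pool.Agent.P.MP_ed1e41_co.AS.Iface

/-! Step GC. -/

namespace Pool.Agent.P.MP_ed1e41_co.AS

open Finset
open scoped Classical

lemma GC_card {F : Finset ℕ} {z c : ℕ} (hz : z ∈ F) (hc : z < c) :
    (F ∩ range c).card + (range c \ F.erase z).card = c + 1 := by
  have h1 : (range c \ F.erase z).card + (range c ∩ F.erase z).card = c := by
    rw [card_sdiff_add_card_inter, card_range]
  have h2 : range c ∩ F.erase z = (F ∩ range c).erase z := by
    ext y
    simp only [mem_inter, mem_erase]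
    tauto
  have h3 := card_erase_add_one (s := F ∩ range c) (a := z) (mem_inter.2 ⟨hz, mem_range.2 hc⟩)
  rw [h2] at h1
  omega

theorem p_GC :
    S_GC := by
  intro 𝓕 b hb
  let P : Finset ((_ : Finset ℕ) × ℕ) := 𝓕.sigma fun F => F ∩ range (b F)
  let w : Finset ℕ → ℚ := fun F => 1 / ((b F : ℚ) + 1 - (F ∩ range (b F)).card)
  have hP : ∀ p ∈ P, p.1 ∈ 𝓕 ∧ p.2 ∈ p.1 ∧ p.2 < b p.1 := fun p hp => by
    have := mem_sigma.1 hp
    exact ⟨this.1, (mem_inter.1 this.2).1, mem_range.1 (mem_inter.1 this.2).2⟩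
  have e1 : ∑ F ∈ 𝓕, ((F ∩ range (b F)).card : ℚ) / ((b F : ℚ) + 1 - (F ∩ range (b F)).card) =
      ∑ p ∈ P, w p.1 := by
    rw [sum_sigma]
    refine sum_congr rfl fun F _ => ?_
    simp only [sum_const, nsmul_eq_mul, w]
    rw [mul_one_div]
  have hmap : ∀ p ∈ P, p.1.erase p.2 ∈ shadow 𝓕 := fun p hp =>
    erase_mem_shadow (hP p hp).1 (hP p hp).2.1
  rw [e1, ← sum_fiberwise_of_maps_to hmap, card_eq_sum_ones, Nat.cast_sum]
  refine sum_le_sum fun S _ => ?_
  rw [Nat.cast_one]
  rcases (P.filter fun p => p.1.erase p.2 = S).eq_empty_or_nonempty with h0 | ⟨p0, hp0⟩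
  · rw [h0, sum_empty]; exact zero_le_one
  · obtain ⟨hp0, hS0⟩ := mem_filter.1 hp0
    obtain ⟨a0, a1, a2⟩ := hP p0 hp0
    have hbb : ∀ p ∈ P.filter (fun p => p.1.erase p.2 = S), b p.1 = b p0.1 := fun p hp => by
      obtain ⟨hp, hS⟩ := mem_filter.1 hp
      obtain ⟨c0, c1, c2⟩ := hP p hp
      exact hb _ c0 _ a0 _ c1 _ a1 c2 a2 (hS.trans hS0.symm)
    have hw : ∀ p ∈ P.filter (fun p => p.1.erase p.2 = S),
        w p.1 = 1 / ((range (b p0.1) \ S).card : ℚ) := fun p hp => by
      have e := hbb p hp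
      obtain ⟨hp, hS⟩ := mem_filter.1 hp
      obtain ⟨c0, c1, c2⟩ := hP p hp
      have h := GC_card c1 c2
      rw [hS] at h
      have h' : ((p.1 ∩ range (b p.1)).card : ℚ) + (range (b p.1) \ S).card = b p.1 + 1 := by
        exact_mod_cast h
      simp only [w]
      rw [← e]
      congr 1
      linarith
    have hc : (P.filter fun p => p.1.erase p.2 = S).card ≤ (range (b p0.1) \ S).card := by
      refine card_le_card_of_injOn (fun p => p.2) (fun p hp => ?_) fun p hp p' hp' e => ?_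
      · have e := hbb p hp
        obtain ⟨hp, hS⟩ := mem_filter.1 hp
        obtain ⟨c0, c1, c2⟩ := hP p hp
        rw [mem_coe, mem_sdiff, mem_range, ← e, ← hS]
        exact ⟨c2, notMem_erase _ _⟩
      · obtain ⟨hp, hS⟩ := mem_filter.1 hp
        obtain ⟨hp', hS'⟩ := mem_filter.1 hp'
        have c1 := (hP p hp).2.1
        have c1' := (hP p' hp').2.1
        simp only at e
        have e2 : p.1 = p'.1 := by
          rw [← insert_erase c1, ← insert_erase c1', hS, hS', e]
        exact Sigma.ext e2 (heq_of_eq e)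
    rw [sum_congr rfl hw, sum_const, nsmul_eq_mul, mul_one_div]
    exact div_le_one_of_le₀ (by exact_mod_cast hc) (Nat.cast_nonneg _)

end Pool.Agent.P.MP_ed1e41_co.AS
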