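import Pool.Agent.P.MP_ed1e41_co.AS.Iface

/-! Step HIA. -/

namespace Pool.Agent.P.MP_ed1e41_co.AS

open Finset
open scoped Classical

lemma HIA_step {q K e y : ℕ} (hK : 2 ≤ K) (h : K * e + e ≤ q + 1) (hy : y < e) :
    K * q.choose y ≤ q.choose (y + 1) := by
  have h1 : K * (y + 1) ≤ K * e := Nat.mul_le_mul_left K hy
  have h2 : 2 * e ≤ K * e := Nat.mul_le_mul_right e hK
  have h3 := ratio (a := K) (b := 1) (e := y + 1) (N := q) (by omega) (by omega) 1 (by omega)
  simpa using h3

lemma HIA_sum {q K e : ℕ} (hK : 2 ≤ K) (h : K * e + e ≤ q + 1) (y : ℕ) (hy : y ≤ e) :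
    K * ∑ i ∈ range y, q.choose i ≤ 2 * q.choose y := by
  induction y with
  | zero => simp
  | succ y ih =>
    have h1 := ih (by omega)
    have h2 := HIA_step hK h (show y < e by omega)
    have h3 : 2 * q.choose y ≤ K * q.choose y := Nat.mul_le_mul_right _ hK
    rw [sum_range_succ, mul_add]
    omega

theorem p_HIA :
    S_HIA := by
  intro n t d j e q K ht hd hn hK h
  rw [card_big hn]
  have h1 : ∑ x ∈ Icc (t + j) (t + d - 1), (t + 2 * j).choose x * q.choose (t + d - 1 - x) ≤
      ∑ x ∈ Icc (t + j) (t + d - 1), (t + 2 * j).choose j * q.choose (t + d - 1 - x) := by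
    refine sum_le_sum fun x hx => Nat.mul_le_mul_right _ ?_
    rw [mem_Icc] at hx
    rw [← cc_symm]
    exact choose_anti hx.1 (by omega)
  have h2 : ∑ x ∈ Icc (t + j) (t + d - 1), q.choose (t + d - 1 - x) =
      ∑ i ∈ range e, q.choose i := by
    refine sum_bij' (fun x _ => t + d - 1 - x) (fun i _ => t + d - 1 - i) ?_ ?_ ?_ ?_ ?_
    · intro x hx
      rw [mem_Icc] at hx
      rw [mem_range]
      omega
    · intro i hi
      rw [mem_range] at hi
      rw [mem_Icc]
      omega
    · intro x hx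
      rw [mem_Icc] at hx
      omega
    · intro i hi
      rw [mem_range] at hi
      omega
    · intro x _
      rfl
  rw [← mul_sum, h2] at h1
  have h3 := HIA_sum hK h e le_rfl
  calc K * ∑ x ∈ Icc (t + j) (t + d - 1), (t + 2 * j).choose x * q.choose (t + d - 1 - x)
      ≤ K * ((t + 2 * j).choose j * ∑ i ∈ range e, q.choose i) := Nat.mul_le_mul_left _ h1
    _ = (t + 2 * j).choose j * (K * ∑ i ∈ range e, q.choose i) := by ring
    _ ≤ (t + 2 * j).choose j * (2 * q.choose e) := Nat.mul_le_mul_left _ h3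
    _ = _ := by ring

end Pool.Agent.P.MP_ed1e41_co.AS
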