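import Pool.Agent.P.MP_ed1e41_co.AS.Iface

/-! Step HIB. -/

namespace Pool.Agent.P.MP_ed1e41_co.AS

open Finset
open scoped Classical

lemma HIB_step (t j i : ℕ) : (t + 2 * j).choose (t + j + (i + 1)) * (t + j + i + 1) =
    (t + 2 * j).choose (t + j + i) * (j - i) := by
  have := Nat.choose_succ_right_eq (t + 2 * j) (t + j + i)
  rwa [show t + 2 * j - (t + j + i) = j - i by omega] at this

lemma HIB_A (t j K : ℕ) : ∀ I, (t + 2 * I + 1) * ∑ i ∈ range K, (t + 2 * j).choose (t + j + I + i) ≤
    (t + j + I + 1) * (t + 2 * j).choose (t + j + I) := by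
  induction K with
  | zero => simp
  | succ K ih =>
    intro I
    have h1 := ih (I + 1)
    have h2 := HIB_step t j I
    have e : ∑ i ∈ range K, (t + 2 * j).choose (t + j + I + (i + 1)) =
        ∑ i ∈ range K, (t + 2 * j).choose (t + j + (I + 1) + i) :=
      sum_congr rfl fun i _ => by congr 1; omega
    rw [sum_range_succ', e, add_zero]
    generalize ∑ i ∈ range K, (t + 2 * j).choose (t + j + (I + 1) + i) = S at *
    have h3 : (t + 2 * I + 1) * S ≤ (t + 2 * j).choose (t + j + (I + 1)) * (t + j + I + 1) := by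
      refine Nat.le_of_mul_le_mul_left ?_ (show 0 < t + 2 * (I + 1) + 1 by omega)
      generalize (t + 2 * j).choose (t + j + (I + 1)) = c at *
      calc (t + 2 * (I + 1) + 1) * ((t + 2 * I + 1) * S)
          = (t + 2 * I + 1) * ((t + 2 * (I + 1) + 1) * S) := by ring
        _ ≤ (t + 2 * I + 1) * ((t + j + (I + 1) + 1) * c) := Nat.mul_le_mul_left _ h1
        _ = ((t + 2 * I + 1) * (t + j + (I + 1) + 1)) * c := by ring
        _ ≤ ((t + 2 * (I + 1) + 1) * (t + j + I + 1)) * c :=
            Nat.mul_le_mul_right _ (by nlinarith)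
        _ = _ := by ring
    rw [h2] at h3
    rcases le_or_gt I j with h | h
    · obtain ⟨r, rfl⟩ := Nat.exists_eq_add_of_le h
      rw [Nat.add_sub_cancel_left] at h3
      nlinarith
    · rw [Nat.choose_eq_zero_of_lt (show t + 2 * j < t + j + I by omega)] at h3 ⊢
      simpa using h3

lemma HIB_B (t j I : ℕ) (h : I ≤ j) :
    (t + 2 * j).choose (t + j + I) * (j + I * (t + I)) ≤ j * (t + 2 * j).choose j := by
  induction I with
  | zero => rw [add_zero, cc_symm]; simp [mul_comm]
  | succ I ih =>
    refine le_trans ?_ (ih (by omega))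
    have h2 := HIB_step t j I
    obtain ⟨r, rfl⟩ := Nat.exists_eq_add_of_le (show I ≤ j by omega)
    rw [Nat.add_sub_cancel_left] at h2
    refine Nat.le_of_mul_le_mul_left ?_ (show 0 < t + (I + r) + I + 1 by omega)
    generalize (t + 2 * (I + r)).choose (t + (I + r) + (I + 1)) = c' at *
    generalize (t + 2 * (I + r)).choose (t + (I + r) + I) = c at *
    calc (t + (I + r) + I + 1) * (c' * (I + r + (I + 1) * (t + (I + 1))))
        = c' * (t + (I + r) + I + 1) * (I + r + (I + 1) * (t + (I + 1))) := by ring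
      _ = c * (r * (I + r + (I + 1) * (t + (I + 1)))) := by rw [h2]; ring
      _ ≤ c * ((t + (I + r) + I + 1) * (I + r + I * (t + I))) :=
          Nat.mul_le_mul_left _ (Nat.le.intro (k := (t + 2 * I + 1) * (I + I * (t + I))) (by ring))
      _ = _ := by ring

theorem p_HIB :
    S_HIB := by
  intro n t d j e q I ht hd hn hq hI
  have h1 : (Hull.big n (t + d - 1) (t + 2 * j) (t + j + I)).card ≤
      (∑ i ∈ range (t + d - 1 + 1 - (t + j + I)), (t + 2 * j).choose (t + j + I + i)) *
        q.choose e := by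
    rw [card_big hn, ← Finset.Ico_add_one_right_eq_Icc, sum_Ico_eq_sum_range, sum_mul]
    refine sum_le_sum fun i hi => Nat.mul_le_mul_left _ ?_
    rw [mem_range] at hi
    exact Hull.choose_le_of (by omega) (by omega)
  have h2 := HIB_A t j (t + d - 1 + 1 - (t + j + I)) I
  have h3 := HIB_B t j I hI
  generalize ∑ i ∈ range (t + d - 1 + 1 - (t + j + I)), (t + 2 * j).choose (t + j + I + i) = S at *
  generalize (t + 2 * j).choose (t + j + I) = c at *
  have h4 : (t + I) * S ≤ (t + j + I + 1) * c :=
    (Nat.mul_le_mul_right _ (by omega)).trans h2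
  have h5 : c * (I * (t + I)) ≤ j * (t + 2 * j).choose j :=
    (Nat.mul_le_mul_left _ (Nat.le_add_left _ _)).trans h3
  calc I * (t + I) ^ 2 * (Hull.big n (t + d - 1) (t + 2 * j) (t + j + I)).card
      ≤ I * (t + I) ^ 2 * (S * q.choose e) := Nat.mul_le_mul_left _ h1
    _ = I * (t + I) * q.choose e * ((t + I) * S) := by ring
    _ ≤ I * (t + I) * q.choose e * ((t + j + I + 1) * c) := Nat.mul_le_mul_left _ h4
    _ = (t + j + I + 1) * q.choose e * (c * (I * (t + I))) := by ring
    _ ≤ (t + j + I + 1) * q.choose e * (j * (t + 2 * j).choose j) := Nat.mul_le_mul_left _ h5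
    _ = _ := by ring

end Pool.Agent.P.MP_ed1e41_co.AS
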