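import Pool.Agent.P.MP_ed1e41_co.AS.Iface

/-! Step KILL. -/

namespace Pool.Agent.P.MP_ed1e41_co.AS

open Finset
open scoped Classical

theorem p_KILL (hHEAD : S_HEAD) (hSPA : S_SPA) :
    S_KILL := by
  intro n t d i e q R x₀ hd hn hR hq ht hi hx
  have r1 := Nat.mul_le_mul_right e hR
  have it : i ≤ t := by nlinarith
  have h1 := hSPA (t + 2 * i) x₀ n (q - x₀) e 128 (by omega) (by omega) (by omega) (by omega)
  have h2 := card_filter_add_card_filter_not (s := (Ico (t + 2 * i + x₀) n).powersetCard e)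
    (fun T => Sp (t + 2 * i) T)
  rw [card_powersetCard, Nat.card_Ico, show n - (t + 2 * i + x₀) = q - x₀ by omega] at h2
  have h3 : (t + 2 * i).choose i ≤ 2 * t.choose i := by
    have := hHEAD t i
    have := Nat.mul_le_mul_right ((t + 2 * i).choose i) hi
    exact Nat.le_of_mul_le_mul_left (by nlinarith) ht
  have hT : ∀ T ∈ ((Ico (t + 2 * i + x₀) n).powersetCard e).filter fun T => Sp (t + 2 * i) T,
      ∀ x ∈ T, t + 2 * i + x₀ ≤ x := fun T h x hx =>
    (mem_Ico.1 ((mem_powersetCard.1 (mem_filter.1 h).1).1 hx)).1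
  have h4 := prod_le_card (𝓕 := (frankl n (t + d) t i).filter fun Y => Typ t i Y ∧
      Sp (t + 2 * i) Y ∧ Y ∩ Ico (t + 2 * i) (t + 2 * i + x₀) = ∅)
    (𝓗 := ((range (t + 2 * i)).powersetCard (t + i)).filter fun H => Ico t (t + 2 * i) ⊆ H)
    (t + 2 * i) (fun H h => (mem_powersetCard.1 (mem_filter.1 h).1).1)
    (fun T h x hx => le_trans (by omega) (hT T h x hx)) fun H hH T h => ?_
  · rw [card_typ it] at h4
    generalize card (filter (fun T => Sp (t + 2 * i) T) _) = s at *
    calc _ ≤ 2 * t.choose i * (2 * s) := Nat.mul_le_mul h3 (by omega)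
      _ = 4 * (t.choose i * s) := by ring
      _ ≤ _ := Nat.mul_le_mul_left 4 h4
  have a0 := hT T h
  have a1 : ∀ x ∈ T, t + 2 * i ≤ x := fun x hx => le_trans (by omega) (a0 x hx)
  rw [mem_filter, mem_powersetCard] at hH h
  have a2 := union_head hH.1.1 a1
  refine mem_filter.2 ⟨mem_frankl.2 ⟨union_subset (hH.1.1.trans (range_subset_range.2 (by omega)))
    (h.1.1.trans (Hull.Ico_sub _ n)), by rw [card_union_ht hH.1.1 a1]; omega,
    by rw [a2, hH.1.2]⟩, ⟨by rw [a2, hH.1.2], hH.2.trans subset_union_left⟩,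
    by rw [← sp_tail, union_tail hH.1.1 a1]; exact h.2, eq_empty_of_forall_notMem fun y hy => ?_⟩
  rw [mem_inter, mem_union, mem_Ico] at hy
  rcases hy.1 with c | c
  · have := mem_range.1 (hH.1.1 c); omega
  · have := a0 y c; omega

end Pool.Agent.P.MP_ed1e41_co.AS
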