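import Pool.Agent.P.MP_ed1e41_co.AS.Iface

/-! Step KKA. -/

namespace Pool.Agent.P.MP_ed1e41_co.AS

open Finset
open scoped Classical

theorem p_KKA :
    S_KKA := by
  intro n k t j m 𝓕 h hm
  have hU : ∀ F, F ∈ frankl n k t j ↔ InU 0 n (t + 2 * j) (t + j) k F := fun F => by
    rw [mem_frankl, InU, range_eq_Ico]
  induction hc : ∑ A ∈ 𝓕, ∑ x ∈ A, x using Nat.strong_induction_on generalizing 𝓕 with
  | _ c ih =>
    by_cases hs : Shifted 𝓕
    · exact genKK (fun F hF => (hU F).1 (h hF)) hs (fun F hF => (hU F).1 (mem_colexInit.1 hF).1)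
        (fun F hF G hG hlt => colexInit_down hF ((hU G).2 hG) hlt)
        ((card_colexInit (hm.trans (card_le_card h))).trans_le hm)
    · unfold Shifted at hs
      push Not at hs
      obtain ⟨F, hF, i, l, hij, hj, hi, hn⟩ := hs
      refine (ih _ (hc ▸ comp_measure hij hF hi hj hn) _ (fun A hA => ?_)
        (by rwa [UV.card_compression]) rfl).trans ?_
      · rcases mem_comp hij.ne hA with ⟨h1, -⟩ | ⟨B, hB, h1, h2, rfl⟩
        · exact h h1
        · exact (hU _).2 (((hU B).1 (h hB)).shift (Nat.zero_le _) hij h2 h1)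
      · apply UV.card_shadow_compression_le
        intro x hx
        refine ⟨l, mem_singleton_self l, ?_⟩
        rw [mem_singleton.1 hx, erase_singleton, erase_singleton]
        exact UV.isCompressed_self _ _

end Pool.Agent.P.MP_ed1e41_co.AS
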