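import Pool.Agent.P.MP_ed1e41_co.AS.Iface

/-! Step LOW. -/

namespace Pool.Agent.P.MP_ed1e41_co.AS

open Finset
open scoped Classical

theorem p_LOW (hCHORD : S_CHORD) (hCELLA : S_CELLA) (hCHEAP : S_CHEAP) :
    S_LOW := by
  intro n t d j m e q hS M hM hc 𝓕 h
  obtain ⟨𝓖, g1, g2, g3⟩ := exists_shifted h
  refine le_trans ?_ (Nat.add_le_add_right (Nat.mul_le_mul_left _ g3) _)
  obtain ⟨c1, c2⟩ := hCHORD n t d j m e q hS 𝓖 g1
  generalize (frankl n (t + d) t (j + 1)).card = a at *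
  by_cases h1 : M * a ≤ m
  · have := Nat.mul_le_mul_left M c2
    have := Nat.mul_le_mul_left (t + j) h1
    nlinarith
  by_cases h2 : M ≤ j + 2
  · refine Nat.le_of_mul_le_mul_left ?_ (show 0 < j + 2 by omega)
    have a1 := Nat.mul_le_mul_left (M * (j + 1)) c1
    have a2 := Nat.mul_le_mul_right ((t + j) * m) h2
    nlinarith [Nat.zero_le (M * (j + 1) * m)]
  have h3 : 10 ^ 5 * M ^ 4 ≤ t + j := hc.resolve_right fun h4 => h1 (by nlinarith)
  have h4 : M ≤ M ^ 4 := Nat.le_self_pow (by omega) M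
  have a1 := hCELLA n t d j m 𝓖 hS.t1 g1 g2
  have a2 := hCHEAP n t d j m e q hS M (by omega) (by omega) 𝓖 g1 g2
  have a3 := card_filter_add_card_filter_not (s := 𝓖) (fun F => Hi t j F)
  rw [g1.2.2] at a3
  have a4 := Nat.mul_le_mul_left M a1
  have a5 := Nat.mul_le_mul_left (t + j) a2
  rw [← a3] at a5 ⊢
  nlinarith

end Pool.Agent.P.MP_ed1e41_co.AS
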