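import Pool.Agent.P.MP_ed1e41_co.AS.Iface

/-! Step NP. -/

namespace Pool.Agent.P.MP_ed1e41_co.AS

open Finset
open scoped Classical

theorem p_NP (hPZ : S_PZ) :
    S_NP := by
  intro n t d j m e q hS
  have hd := hS.hd
  have hn := hS.hn
  have hq := hS.hq
  have e1 := hS.e1
  have hex : ∃ q', m ≤ (frankl (t + 2 * j + q') (t + d) t j).card := ⟨q, hn ▸ hS.hi⟩
  have h1 := Nat.find_spec hex
  have h2 : Nat.find hex ≤ q := Nat.find_min' hex (hn ▸ hS.hi)
  have h3 : ∀ s < Nat.find hex, ¬ m ≤ (frankl (t + 2 * j + s) (t + d) t j).card :=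
    fun s hs => Nat.find_min hex hs
  generalize Nat.find hex = q' at h1 h2 h3
  have h4 : 2 * e + 1 ≤ q' := by
    by_contra hc
    have a1 := (hPZ n t d j e q hS.t1 hd e1 hn hq (hS.lo.trans_le hS.hi)).2 d (by omega) le_rfl
    rw [Hull.card_top (by omega)] at a1
    have a2 : (frankl (t + 2 * j + q') (t + d) t j).card ≤ (t + 2 * j + q').choose (t + d) := by
      refine (card_filter_le _ _).trans ?_
      rw [card_powersetCard, card_range]
    have a3 := Nat.choose_le_choose (t + d) (show t + 2 * j + q' ≤ t + 2 * d by omega)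
    have a4 := hS.lo
    omega
  refine ⟨q', h2, h4, h1, ?_⟩
  obtain ⟨s, rfl⟩ : ∃ s, q' = s + 1 := ⟨q' - 1, by omega⟩
  have a1 := h3 s (by omega)
  have a2 := ble (t := t) hd (rfl : t + 2 * j + s = t + 2 * j + s)
  have a3 : (s + 1).choose e ≤ 2 * s.choose e := by
    obtain ⟨y, rfl⟩ : ∃ y, e = y + 1 := ⟨e - 1, by omega⟩
    have : s.choose y ≤ s.choose (y + 1) := Hull.choose_le_of (by omega) (by omega)
    rw [Nat.choose_succ_succ']
    omega
  have a4 := Nat.mul_le_mul_left ((t + 2 * j).choose j) a3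
  rw [mul_left_comm] at a4
  omega

end Pool.Agent.P.MP_ed1e41_co.AS
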