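import Pool.Agent.P.MP_ed1e41_co.AS.Iface

/-! Step NVT. -/

namespace Pool.Agent.P.MP_ed1e41_co.AS

open Finset
open scoped Classical

theorem p_NVT (hHEAD : S_HEAD) (hSPA : S_SPA) :
    S_NVT := by
  intro n t d i e q R hd hn hR hq hi
  have hs := hSPA (t + 2 * i) 0 n q e R (by omega) (by omega) (by omega) (by omega)
  rw [Nat.add_zero] at hs
  have hh := hHEAD t i
  have hP : ((range (t + 2 * i)).powersetCard (t + i)).card = (t + 2 * i).choose i := by
    rw [card_powersetCard, card_range, cc_symm]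
  have hQ : ((Ico (t + 2 * i) n).powersetCard e).card = q.choose e := by
    rw [card_powersetCard, Nat.card_Ico, hn, Nat.add_sub_cancel_left]
  have hN := card_filter_add_card_filter_not (s := (range (t + 2 * i)).powersetCard (t + i))
    (fun H => Ico t (t + 2 * i) ⊆ H)
  rw [card_typ hi, hP] at hN
  have hm : ∀ F ∈ lev n (t + d) (t + 2 * i) (t + i),
      F ∩ range (t + 2 * i) ∈ (range (t + 2 * i)).powersetCard (t + i) ∧
        F \ range (t + 2 * i) ∈ (Ico (t + 2 * i) n).powersetCard e := fun F hF => by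
    rw [mem_lev] at hF
    have := card_head_tail F (t + 2 * i)
    exact ⟨mem_powersetCard.2 ⟨inter_subset_right, hF.2.2⟩,
      mem_powersetCard.2 ⟨tail_sub hF.1, by omega⟩⟩
  have hA := card_le_prod (𝓕 := (lev n (t + d) (t + 2 * i) (t + i)).filter fun F => ¬ Typ t i F)
    (𝓗 := ((range (t + 2 * i)).powersetCard (t + i)).filter fun H => ¬ Ico t (t + 2 * i) ⊆ H)
    (𝓣 := (Ico (t + 2 * i) n).powersetCard e) (t + 2 * i) fun F hF => by
      rw [mem_filter] at hF
      exact ⟨mem_filter.2 ⟨(hm F hF.1).1, fun h =>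
        hF.2 ⟨(mem_lev.1 hF.1).2.2, h.trans inter_subset_left⟩⟩, (hm F hF.1).2⟩
  have hB := card_le_prod
    (𝓕 := (lev n (t + d) (t + 2 * i) (t + i)).filter fun F => ¬ Sp (t + 2 * i) F)
    (𝓗 := (range (t + 2 * i)).powersetCard (t + i))
    (𝓣 := ((Ico (t + 2 * i) n).powersetCard e).filter fun T => ¬ Sp (t + 2 * i) T) (t + 2 * i)
    fun F hF => by
      rw [mem_filter] at hF
      exact ⟨(hm F hF.1).1, mem_filter.2 ⟨(hm F hF.1).2, fun h => hF.2 (sp_tail.1 h)⟩⟩
  have hU : ((lev n (t + d) (t + 2 * i) (t + i)).filter fun F =>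
      ¬ (Typ t i F ∧ Sp (t + 2 * i) F)).card ≤ _ := (card_le_card fun F hF => by
    rw [mem_filter, not_and_or] at hF
    exact mem_union.2 (hF.2.imp (fun h => mem_filter.2 ⟨hF.1, h⟩)
      fun h => mem_filter.2 ⟨hF.1, h⟩)).trans ((card_union_le _ _).trans (add_le_add hA hB))
  rw [hP, hQ] at hU
  refine (Nat.mul_le_mul_left _ hU).trans ?_
  generalize (((range (t + 2 * i)).powersetCard (t + i)).filter
    fun H => ¬ Ico t (t + 2 * i) ⊆ H).card = a at *
  generalize (((Ico (t + 2 * i) n).powersetCard e).filter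
    fun T => ¬ Sp (t + 2 * i) T).card = s at *
  have h1 : t * a ≤ 2 * i ^ 2 * (t + 2 * i).choose i := by
    have : t * (t + 2 * i).choose i = t * t.choose i + t * a := by rw [← mul_add, hN]
    omega
  calc t * R * (a * q.choose e + (t + 2 * i).choose i * s)
      = t * a * (R * q.choose e) + R * s * (t * (t + 2 * i).choose i) := by ring
    _ ≤ 2 * i ^ 2 * (t + 2 * i).choose i * (R * q.choose e) +
        64 * q.choose e * (t * (t + 2 * i).choose i) :=
      add_le_add (Nat.mul_le_mul_right _ h1) (Nat.mul_le_mul_right _ hs)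
    _ = _ := by ring

end Pool.Agent.P.MP_ed1e41_co.AS
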