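import Pool.Agent.P.MP_ed1e41_co.AS.Iface

/-! Step PT. -/

namespace Pool.Agent.P.MP_ed1e41_co.AS

open Finset
open scoped Classical

theorem p_PT :
    S_PT := by
  intro n t d j e q _ hd he hn hq
  constructor
  · have h1 := ble (n := n) (t := t) (d := d) (i := j + 1) (e := e - 1) (q := q - 2)
      (by omega) (by omega)
    have h2 := Nat.choose_succ_right_eq (t + 2 * j) j
    rw [show t + 2 * j - j = t + j by omega] at h2
    have h3 : (t + 2 * j).choose (j + 1) ≤ (t + 2 * (j + 1)).choose (j + 1) :=
      Nat.choose_le_choose _ (by omega)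
    calc (t + j) * ((t + 2 * j).choose j * (q - 2).choose (e - 1))
        = (j + 1) * ((t + 2 * j).choose (j + 1) * (q - 2).choose (e - 1)) := by
          rw [← mul_assoc, ← mul_assoc, mul_comm (t + j), ← h2, mul_comm (j + 1)]
      _ ≤ (j + 1) * ((t + 2 * (j + 1)).choose (j + 1) * (q - 2).choose (e - 1)) :=
          Nat.mul_le_mul_left _ (Nat.mul_le_mul_right _ h3)
      _ ≤ _ := Nat.mul_le_mul_left _ h1
  · have h1 := le_card_sdiff (frankl n (t + d) t (j + 1)) (frankl n (t + d) t j)
    have h2 : (frankl n (t + d) t j \ frankl n (t + d) t (j + 1)).card ≤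
        ((range (t + 2 * j)).powersetCard (t + j)).card *
          ((Ico (t + 2 * j + 2) n).powersetCard e).card := by
      refine card_le_prod (t + 2 * j) fun F hF => ?_
      rw [mem_sdiff, mem_frankl, mem_frankl] at hF
      obtain ⟨⟨a1, a2, a3⟩, a4⟩ := hF
      have a5 : (F ∩ range (t + 2 * (j + 1))).card ≤ t + j := by
        by_contra hc
        exact a4 ⟨a1, a2, by omega⟩
      have a6 : F ∩ range (t + 2 * j) ⊆ F ∩ range (t + 2 * (j + 1)) :=
        inter_subset_inter_left (range_subset_range.2 (by omega))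
      have a7 := card_le_card a6
      have a8 := eq_of_subset_of_card_le a6 (by omega)
      have a9 := card_head_tail F (t + 2 * j)
      refine ⟨mem_powersetCard.2 ⟨inter_subset_right, by omega⟩,
        mem_powersetCard.2 ⟨fun y hy => ?_, by omega⟩⟩
      rw [mem_sdiff, mem_range] at hy
      refine mem_Ico.2 ⟨?_, mem_range.1 (a1 hy.1)⟩
      by_contra hc
      have : y ∈ F ∩ range (t + 2 * (j + 1)) := mem_inter.2 ⟨hy.1, mem_range.2 (by omega)⟩
      rw [← a8] at this
      exact hy.2 (mem_range.1 (mem_inter.1 this).2)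
    rw [card_powersetCard, card_powersetCard, card_range, Nat.card_Ico, cc_symm,
      show n - (t + 2 * j + 2) = q - 2 by omega] at h2
    omega

end Pool.Agent.P.MP_ed1e41_co.AS
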