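import Pool.Agent.P.MP_ed1e41_co.AS.Iface

/-! Step RR. -/

namespace Pool.Agent.P.MP_ed1e41_co.AS

open Finset
open scoped Classical

theorem p_RR (hPZ : S_PZ) :
    S_RR := by
  intro n t d j m e q hS M hM ht
  have h1 := (hPZ n t d j e q hS.t1 hS.hd hS.e1 hS.hn hS.hq (hS.lo.trans_le hS.hi)).1
  have h2 : M ≤ M ^ 4 := Nat.le_self_pow (by omega) M
  have h3 : 4096 ≤ (t + j) / (j + 1) := (Nat.le_div_iff_mul_le (by omega)).2 (by omega)
  have h4 := Nat.div_mul_le_self (t + j) (j + 1)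
  have h5 := Nat.lt_mul_div_succ (t + j) (show 0 < j + 1 by omega)
  generalize (t + j) / (j + 1) = R at *
  have h6 : R * e + e + 1 < q := by
    refine Nat.lt_of_mul_lt_mul_left (a := j + 1) ?_
    nlinarith [Nat.mul_le_mul_right e h4]
  refine ⟨R, h3, fun i e' q' hi hd hn => ?_⟩
  obtain ⟨x, rfl⟩ := Nat.exists_eq_add_of_le hi
  have e1 : e = x + e' := by have := hS.hd; omega
  have e2 : q = 2 * x + q' := by have := hS.hn; omega
  subst e1 e2
  have h7 : x ≤ R * x := Nat.le_mul_of_pos_left x (by omega)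
  have h8 : j + 1 ≤ R * (j + 1) := Nat.le_mul_of_pos_left _ (by omega)
  constructor <;> nlinarith

end Pool.Agent.P.MP_ed1e41_co.AS
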