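import Pool.Agent.P.MP_ed1e41_co.AS.Iface

/-! Step SPA. -/

namespace Pool.Agent.P.MP_ed1e41_co.AS

open Finset
open scoped Classical

lemma SPA_geo (a : ℕ → ℕ) (B m : ℕ) (h : ∀ y < m, a y * 2 ^ y ≤ B) :
    (∑ y ∈ range m, a y) * 2 ^ m + 2 * B ≤ 2 * B * 2 ^ m := by
  induction m with
  | zero => simp
  | succ m ih =>
    have h1 := ih fun y hy => h y (by omega)
    have h2 := h m (by omega)
    rw [sum_range_succ, pow_succ]
    nlinarith

lemma SPA_term {N e R y : ℕ} (hR : 64 ≤ R) (he : e ≤ N) (h : R * e ≤ 2 * (N + 1 - e))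
    (hy : y < e) :
    R * ((4 * (y + 1)).choose (y + 1) * N.choose (e - (y + 1))) * 2 ^ y ≤ 32 * N.choose e := by
  have h1 := ratio h he (y + 1) (by omega)
  have h2 : (4 * (y + 1)).choose (y + 1) ≤ 16 ^ (y + 1) := by
    have := Nat.choose_le_two_pow (4 * (y + 1)) (y + 1)
    rwa [pow_mul] at this
  have h3 : 64 ^ y ≤ R ^ y := Nat.pow_le_pow_left hR y
  refine Nat.le_of_mul_le_mul_right ?_ (show 0 < R ^ y by positivity)
  calc R * ((4 * (y + 1)).choose (y + 1) * N.choose (e - (y + 1))) * 2 ^ y * R ^ y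
      = (4 * (y + 1)).choose (y + 1) * 2 ^ y * (R ^ (y + 1) * N.choose (e - (y + 1))) := by ring
    _ ≤ 16 ^ (y + 1) * 2 ^ y * (2 ^ (y + 1) * N.choose e) :=
        Nat.mul_le_mul (Nat.mul_le_mul_right _ h2) h1
    _ = 32 * N.choose e * 64 ^ y := by
        rw [show (64 : ℕ) = 16 * 2 * 2 by norm_num, mul_pow, mul_pow]; ring
    _ ≤ 32 * N.choose e * R ^ y := Nat.mul_le_mul_left _ h3

theorem p_SPA :
    S_SPA := by
  intro v x₀ n N e R hn hR he h
  have hsub : (((Ico (v + x₀) n).powersetCard e).filter fun T => ¬ Sp v T) ⊆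
      (range e).biUnion fun y =>
        (((Ico v (v + 4 * (y + 1))).powersetCard (y + 1)) ×ˢ
          ((Ico (v + x₀) n).powersetCard (e - (y + 1)))).image fun p => p.1 ∪ p.2 := by
    intro T hT
    rw [mem_filter, mem_powersetCard] at hT
    obtain ⟨⟨h1, h2⟩, h3⟩ := hT
    unfold Sp at h3
    push Not at h3
    obtain ⟨x, hx⟩ := h3
    have h4 := card_sdiff_add_card_inter T (Ico v (v + x))
    obtain ⟨y, hy⟩ : ∃ y, (T ∩ Ico v (v + x)).card = y + 1 :=
      ⟨(T ∩ Ico v (v + x)).card - 1, by omega⟩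
    refine mem_biUnion.2 ⟨y, mem_range.2 (by omega), mem_image.2
      ⟨(T ∩ Ico v (v + x), T \ Ico v (v + x)), mem_product.2 ⟨mem_powersetCard.2 ⟨?_, hy⟩,
        mem_powersetCard.2 ⟨sdiff_subset.trans h1, ?_⟩⟩, ?_⟩⟩
    · exact inter_subset_right.trans (Ico_subset_Ico_right (by omega))
    · show (T \ Ico v (v + x)).card = e - (y + 1)
      omega
    · show T ∩ Ico v (v + x) ∪ T \ Ico v (v + x) = T
      rw [union_comm, sdiff_union_inter]
  have hc : (((Ico (v + x₀) n).powersetCard e).filter fun T => ¬ Sp v T).card ≤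
      ∑ y ∈ range e, (4 * (y + 1)).choose (y + 1) * N.choose (e - (y + 1)) := by
    refine (card_le_card hsub).trans (card_biUnion_le.trans (sum_le_sum fun y _ => ?_))
    refine card_image_le.trans ?_
    rw [card_product, card_powersetCard, card_powersetCard, Nat.card_Ico, Nat.card_Ico,
      Nat.add_sub_cancel_left, hn, Nat.add_sub_cancel_left]
  have hg := SPA_geo
    (fun y => R * ((4 * (y + 1)).choose (y + 1) * N.choose (e - (y + 1)))) (32 * N.choose e) e
    fun y hy => SPA_term hR he h hy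
  rw [← mul_sum, show 2 * (32 * N.choose e) = 64 * N.choose e by ring] at hg
  refine (Nat.mul_le_mul_left R hc).trans
    (Nat.le_of_mul_le_mul_right ?_ (show 0 < 2 ^ e by positivity))
  omega

end Pool.Agent.P.MP_ed1e41_co.AS
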