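import Pool.Agent.P.MP_ed1e41_co.AS.Iface

/-! Step UB. -/

namespace Pool.Agent.P.MP_ed1e41_co.AS

open Finset
open scoped Classical

theorem p_UB (hPT : S_PT) (hNP : S_NP) (hUPM : S_UPM) (hHIB : S_HIB) (hWB : S_WB) (hUBN : S_UBN) :
    S_UB := by
  intro n t d j m e q hs M hM h1 h2
  obtain ⟨q', a1, a2, a3, a4⟩ := hNP n t d j m e q hs
  obtain ⟨t1, hd, e1, hn, hq, lo, -⟩ := hs
  have hM8 : 0 < 8 * M := by omega
  obtain ⟨I, hI⟩ : ∃ I, I = (j + 1) / (8 * M) := ⟨_, rfl⟩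
  have b1 : 8 * M * I ≤ j + 1 := hI ▸ Nat.mul_div_le _ _
  have b2 : j + 1 < 8 * M * (I + 1) := hI ▸ Nat.lt_mul_div_succ _ hM8
  have b3 : 16 * M ≤ I := hI ▸ (Nat.le_div_iff_mul_le hM8).2 (by nlinarith)
  have b4 : 8 * I ≤ j + 1 := by nlinarith
  have hI0 : 0 < I := by omega
  obtain ⟨g, hg⟩ : ∃ g, I + I + g = j + 1 := ⟨j + 1 - 2 * I, by omega⟩
  have c1 := (hPT n t d j e q t1 hd e1 hn (by omega)).1
  have c2 : 1 ≤ (q - 2).choose (e - 1) := Nat.choose_pos (by omega)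
  have c3 : (t + j) * (t + 2 * j).choose j ≤ (j + 1) * m :=
    ((Nat.mul_le_mul_left _ (Nat.le_mul_of_pos_right _ c2)).trans c1).trans
      (Nat.mul_le_mul_left _ lo.le)
  have u := hUPM n (t + 2 * j + q') t d j m I I (2 * m / I) g t1 (by omega) (by omega) (by omega)
    hg (by omega) a3 fun r hr => (Nat.le_div_iff_mul_le hI0).2 (by
      have w := hWB t j I r t1 (by omega) (by omega) hr
      refine Nat.le_of_mul_le_mul_left (c := j + 1) ?_ (by omega)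
      nlinarith)
  have v := hHIB _ t d j e q' I t1 hd rfl (by omega) (by omega)
  refine hUBN t j M I g m _ _ _ t1 hM b1 b2 b3 h2 hg u (Nat.mul_div_le _ _) (v.trans ?_)
  calc _ ≤ (j + 1) * (2 * (t + j)) * (2 * m) :=
        Nat.mul_le_mul (Nat.mul_le_mul (by omega) (by omega)) a4
    _ = _ := by ring

end Pool.Agent.P.MP_ed1e41_co.AS
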