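import Pool.Agent.P.MP_ed1e41_co.AS.Iface

/-! Step UBN. -/

namespace Pool.Agent.P.MP_ed1e41_co.AS

open Finset
open scoped Classical

theorem p_UBN :
    S_UBN := by
  intro t j M I g m W H U ht hM h1 h2 h3 h4 h5 h6 h7 h8
  have hs : j + 1 ≤ t + j := by omega
  have hc : j + 1 ≤ t ∧ 10 ^ 5 * M ^ 4 ≤ 2 * t ∨ 10 ^ 5 * M ^ 4 ≤ 2 * (j + 1) := by omega
  generalize j + 1 = J at *
  generalize t + j = s at *
  have hI : 16 ≤ I := by omega
  have a1 : J ≤ 9 * M * I := by nlinarith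
  have a2 : 8 * M * W ≤ m := by nlinarith [Nat.mul_le_mul_right W h3]
  have m2 : M ^ 2 ≤ M ^ 4 := Nat.pow_le_pow_right hM (by norm_num)
  have a3 : 288 * M ^ 2 * J ≤ (t + I) ^ 2 := by
    rcases hc with ⟨c1, c2⟩ | c2
    · calc 288 * M ^ 2 * J ≤ t * t := Nat.mul_le_mul (by omega) c1
        _ ≤ _ := by nlinarith
    · have b1 : J * J ≤ (9 * M * I) * (9 * M * I) := Nat.mul_le_mul a1 a1
      have b2 := Nat.mul_le_mul_right J c2
      have b3 : M ^ 2 * (288 * M ^ 2 * J) ≤ M ^ 2 * I ^ 2 := by nlinarith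
      exact (Nat.le_of_mul_le_mul_left b3 (by positivity)).trans
        (Nat.pow_le_pow_left (by omega) 2)
  have hJ : 0 < J := by nlinarith
  have a4 : 8 * M * J * H ≤ s * m := by
    have b1 : 4 * J * (72 * M ^ 2 * I * H) ≤ 4 * J * (s * m) := by
      have := Nat.mul_le_mul_right H (Nat.mul_le_mul_left I a3)
      nlinarith
    have b2 := Nat.le_of_mul_le_mul_left b1 (by positivity)
    have := Nat.mul_le_mul_left (8 * M * H) a1
    nlinarith
  have a5 : 2 * M * J * (s + I) ≤ s * g * (2 * M + 1) := by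
    have b1 : 8 * M * (s + I) ≤ (8 * M + 1) * s := by nlinarith
    have b2 : 4 * M * J ≤ 4 * M * g + J := by nlinarith
    obtain ⟨N, rfl⟩ : ∃ N, M = N + 1 := ⟨M - 1, by omega⟩
    have b3 : (4 * N + 3) * J ≤ 4 * (N + 1) * g := by nlinarith
    have b4 := Nat.mul_le_mul b1 b3
    have b5 : (4 * N + 3) * (4 * (2 * (N + 1) * J * (s + I))) ≤
        (4 * N + 3) * (4 * (s * g * (2 * (N + 1) + 1))) := by
      nlinarith [Nat.zero_le (s * g * N)]
    have := Nat.le_of_mul_le_mul_left b5 (by positivity)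
    omega
  have hg : 0 < g := by nlinarith
  have a6 : 8 * M * (m + W) ≤ (8 * M + 1) * m := by nlinarith
  have a7 := Nat.mul_le_mul a5 a6
  have a8 := Nat.mul_le_mul_left (2 * M * g) a4
  have a9 := Nat.mul_le_mul_left (16 * M ^ 2 * J) h6
  have a10 := Nat.mul_le_mul_left (g * s * m) hM
  refine Nat.le_of_mul_le_mul_left (c := 16 * M * g) ?_ (by positivity)
  nlinarith [Nat.zero_le (g * s * m * M)]

end Pool.Agent.P.MP_ed1e41_co.AS
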