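import Pool.Agent.P.MP_ed1e41_co.AS.Iface

/-! Step UP. -/

namespace Pool.Agent.P.MP_ed1e41_co.AS

open Finset
open scoped Classical

theorem p_UP (hPT : S_PT) (hUA : S_UA) (hUB : S_UB) :
    S_UP := by
  intro n t d j m e q hS M hM hc
  have h4 : M ≤ M ^ 4 := Nat.le_self_pow (by omega) M
  have t1 := hS.t1
  have e1 := hS.e1
  have hq := hS.hq
  by_cases h : 5 * M * (j + 1) ≤ t + j ∨ 6 * M * (frankl n (t + d) t (j + 1)).card ≤ m
  · have a1 := hUA n t d j m e q hS (5 * M) (by omega)
      (h.imp id fun h1 => le_trans (Nat.mul_le_mul_right _ (by omega)) h1)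
    have a2 := (hPT n t d j e q t1 hS.hd e1 hS.hn (by omega)).1
    have a3 : 1 ≤ (q - 2).choose (e - 1) := Nat.choose_pos (by omega)
    have a4 := hS.lo
    generalize (frankl n (t + d) t (j + 1)).card = a at *
    generalize (shadow (colexInit (frankl n (t + d) t j) m)).card = U at *
    generalize (t + 2 * j).choose j = c at *
    have a5 : (t + j) * c ≤ (j + 1) * a :=
      le_trans (Nat.mul_le_mul_left _ (Nat.le_mul_of_pos_right _ a3)) a2
    have a6 : (j + 1) * m ≤ (t + j) * m := Nat.mul_le_mul_right _ (by omega)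
    have a7 : 5 * M * ((j + 1) * a) ≤ (t + j) * m := by
      rcases h with h | h
      · rw [← mul_assoc]
        exact Nat.mul_le_mul h a4.le
      · refine le_trans ?_ a6
        have := Nat.mul_le_mul_left (j + 1) h
        nlinarith [Nat.zero_le (M * ((j + 1) * a))]
    have a8 := Nat.mul_le_mul_left (5 * M) a5
    nlinarith
  · rw [not_or] at h
    have h1 := hc.resolve_right h.2
    refine hUB n t d j m e q hS M hM ?_ h1
    have h2 : 5 * M * (20000 * M ^ 3) < 5 * M * (j + 1) := by nlinarith [h.1]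
    have h3 := Nat.lt_of_mul_lt_mul_left h2
    have h5 : M ^ 2 ≤ M ^ 3 := Nat.pow_le_pow_right hM (by omega)
    omega

end Pool.Agent.P.MP_ed1e41_co.AS
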