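import Pool.Agent.P.MP_ed1e41_co.AS.Iface

/-! Step UPM. -/

namespace Pool.Agent.P.MP_ed1e41_co.AS

open Finset
open scoped Classical

/-- The sets of size `k` whose tail lies in `𝓠`. -/
def UPM_G (n k b : ℕ) (𝓠 : Finset (Finset ℕ)) : Finset (Finset ℕ) :=
  ((range n).powersetCard k).filter fun F => F \ range b ∈ 𝓠

lemma UPM_mem {n k b : ℕ} {𝓠 : Finset (Finset ℕ)} {F : Finset ℕ} :
    F ∈ UPM_G n k b 𝓠 ↔ F ⊆ range n ∧ F.card = k ∧ F \ range b ∈ 𝓠 := by
  rw [UPM_G, mem_filter, mem_powersetCard, and_assoc]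

lemma UPM_card {n k b : ℕ} (hb : b ≤ n) {𝓠 : Finset (Finset ℕ)}
    (h : ∀ P ∈ 𝓠, P ⊆ Ico b n ∧ P.card ≤ k) :
    (UPM_G n k b 𝓠).card = ∑ P ∈ 𝓠, b.choose (k - P.card) := by
  rw [card_eq_sum_card_fiberwise (f := fun F => F \ range b) (t := 𝓠)
    fun F hF => (UPM_mem.1 hF).2.2]
  refine sum_congr rfl fun P hP => ?_
  have e1 : b.choose (k - P.card) =
      ((range b).powersetCard (k - P.card)).card * ({P} : Finset (Finset ℕ)).card := by
    rw [card_powersetCard, card_range, card_singleton, mul_one]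
  have h1 : ∀ x ∈ P, b ≤ x := fun x hx => (mem_Ico.1 ((h P hP).1 hx)).1
  have h2 := (h P hP).2
  rw [e1]
  refine le_antisymm (card_le_prod b fun F hF => ?_) (prod_le_card b
    (fun H h => (mem_powersetCard.1 h).1)
    (fun T hT => by rw [mem_singleton.1 hT]; exact h1) fun H hH T hT => ?_)
  · rw [mem_filter, UPM_mem] at hF
    have := card_head_tail F b
    rw [hF.2] at this
    exact ⟨mem_powersetCard.2 ⟨inter_subset_right, by omega⟩, mem_singleton.2 hF.2⟩
  · rw [mem_powersetCard] at hH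
    rw [mem_singleton.1 hT, mem_filter, UPM_mem, union_tail hH.1 h1, card_union_ht hH.1 h1]
    exact ⟨⟨union_subset (hH.1.trans (range_subset_range.2 hb))
      ((h P hP).1.trans (Hull.Ico_sub b n)), by omega, hP⟩, rfl⟩

lemma UPM_sd {b M : ℕ} (h : b ≤ M) (F : Finset ℕ) : (F \ range b) \ range M = F \ range M := by
  ext y
  simp only [mem_sdiff, mem_range]
  grind

lemma UPM_shadow {n k b : ℕ} {𝓠 : Finset (Finset ℕ)} (h : ∀ P ∈ 𝓠, ∀ x ∈ P, P.erase x ∈ 𝓠) :
    shadow (UPM_G n k b 𝓠) ⊆ UPM_G n (k - 1) b 𝓠 := by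
  intro S hS
  obtain ⟨F, hF, x, hx, rfl⟩ := mem_shadow_iff.1 hS
  rw [UPM_mem] at hF ⊢
  refine ⟨(erase_subset _ _).trans hF.1, by rw [card_erase_of_mem hx, hF.2.1], ?_⟩
  rw [erase_sdiff_comm]
  by_cases hx' : x ∈ F \ range b
  · exact h _ hF.2.2 x hx'
  · rw [erase_eq_of_notMem hx']; exact hF.2.2

theorem p_UPM (hKKA : S_KKA) (hDC : S_DC) :
    S_UPM := by
  intro n n' t d j m L I W g ht hj hn hn' hL hg hm hW
  obtain ⟨b, hb⟩ : ∃ b, t + 2 * j = b + L := ⟨t + 2 * j - L, by omega⟩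
  rw [show t + 2 * j - L = b by omega] at hW
  let 𝓟 := (Ico b n').powerset.filter fun P => (P \ range (t + 2 * j)).card ≤ d - j
  have hP : ∀ P ∈ 𝓟, P ⊆ Ico b n' ∧ (P \ range (t + 2 * j)).card ≤ d - j := fun P h => by
    simpa only [𝓟, mem_filter, mem_powerset] using h
  have hc : ∀ P ∈ 𝓟, P.card + j ≤ L + d := fun P h => by
    have h1 := card_head_tail P (t + 2 * j)
    have h2 : P ∩ range (t + 2 * j) ⊆ Ico b (t + 2 * j) := fun y hy =>
      mem_Ico.2 ⟨(mem_Ico.1 ((hP P h).1 (mem_inter.1 hy).1)).1, mem_range.1 (mem_inter.1 hy).2⟩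
    have h3 := card_le_card h2
    have h4 := (hP P h).2
    rw [Nat.card_Ico] at h3
    omega
  have hcard : ∀ 𝓠 ⊆ 𝓟, ∀ k, d ≤ k →
      (UPM_G n' k b 𝓠).card = ∑ P ∈ 𝓠, b.choose (k - P.card) := fun 𝓠 h k hk =>
    UPM_card (by omega) fun P hp => ⟨(hP P (h hp)).1, by have := hc P (h hp); omega⟩
  obtain ⟨𝓠, q1, q2, q3, q4⟩ := hDC 𝓟 (fun P => b.choose (t + d - P.card)) m W
    (fun P h x _ => mem_filter.2 ⟨mem_powerset.2 ((erase_subset _ _).trans (hP P h).1),
      (card_le_card (sdiff_subset_sdiff (erase_subset _ _) Subset.rfl)).trans (hP P h).2⟩)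
    (fun P h => hW _ (by have := hc P h; omega)) (by
      rw [← hcard 𝓟 Subset.rfl _ (by omega)]
      refine hm.trans (card_le_card fun F hF => ?_)
      rw [mem_frankl] at hF
      have h1 := card_head_tail F (t + 2 * j)
      refine UPM_mem.2 ⟨hF.1, hF.2.1, mem_filter.2 ⟨mem_powerset.2 (tail_sub hF.1), ?_⟩⟩
      rw [UPM_sd (by omega)]
      omega)
  have h1 := hKKA n (t + d) t j m (UPM_G n' (t + d) b 𝓠) (fun F hF => by
    rw [UPM_mem] at hF
    have h1 := card_head_tail F (t + 2 * j)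
    have h2 := (hP _ (q1 hF.2.2)).2
    rw [UPM_sd (by omega)] at h2
    exact frankl_mono hn _ _ _ (mem_frankl.2 ⟨hF.1, hF.2.1, by omega⟩))
    (by rw [hcard 𝓠 q1 _ (by omega)]; exact q3)
  let 𝓡 := 𝓠.filter fun P => t + d - P.card ≤ t + j + I
  have h2 : UPM_G n' (t + d - 1) b 𝓠 ⊆
      UPM_G n' (t + d - 1) b 𝓡 ∪ Hull.big n' (t + d - 1) (t + 2 * j) (t + j + I) := by
    intro S hS
    rw [UPM_mem] at hS
    rw [mem_union, UPM_mem, mem_big]
    by_cases h : t + d - (S \ range b).card ≤ t + j + I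
    · exact Or.inl ⟨hS.1, hS.2.1, mem_filter.2 ⟨hS.2.2, h⟩⟩
    · have a1 := card_head_tail S b
      have a2 : (S ∩ range b).card ≤ (S ∩ range (t + 2 * j)).card :=
        card_le_card (inter_subset_inter Subset.rfl (range_subset_range.2 (by omega)))
      exact Or.inr ⟨hS.1, hS.2.1, by omega⟩
  have h3 := h1.trans ((card_le_card ((UPM_shadow q2).trans h2)).trans (card_union_le _ _))
  have h4 : g * (UPM_G n' (t + d - 1) b 𝓡).card ≤ (t + j + I) * (m + W) := by
    rw [hcard 𝓡 ((filter_subset _ _).trans q1) _ (by omega), mul_sum]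
    refine le_trans ?_ (Nat.mul_le_mul_left _ ((sum_le_sum_of_subset (filter_subset
      (fun P => t + d - P.card ≤ t + j + I) 𝓠)).trans q4))
    rw [mul_sum]
    refine sum_le_sum fun P hp => ?_
    have a1 := hc P (q1 (mem_filter.1 hp).1)
    have a2 := (mem_filter.1 hp).2
    obtain ⟨r, hr⟩ : ∃ r, t + d - P.card = r + 1 := ⟨t + d - P.card - 1, by omega⟩
    rw [show t + d - 1 - P.card = r by omega, hr]
    calc g * b.choose r ≤ (b - r) * b.choose r := Nat.mul_le_mul_right _ (by omega)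
      _ = (r + 1) * b.choose (r + 1) := by
        rw [mul_comm, ← Nat.choose_succ_right_eq, mul_comm]
      _ ≤ _ := Nat.mul_le_mul_right _ (by omega)
  calc _ ≤ g * ((UPM_G n' (t + d - 1) b 𝓡).card +
        (Hull.big n' (t + d - 1) (t + 2 * j) (t + j + I)).card) := Nat.mul_le_mul_left _ h3
    _ ≤ _ := by rw [mul_add]; exact Nat.add_le_add_right h4 _

end Pool.Agent.P.MP_ed1e41_co.AS
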