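import Pool.Agent.P.MP_ed1e41_co.AS.Iface

/-! Step VAN. -/

namespace Pool.Agent.P.MP_ed1e41_co.AS

open Finset
open scoped Classical

theorem p_VAN :
    S_VAN := by
  intro t i R u x y hR hi
  have h0 : ∀ u y, y ≤ i + u → (t + 2 * i).choose y ≤ (2 * R) ^ u * (t + 2 * i).choose i := by
    intro u
    induction u with
    | zero =>
      intro y hy
      rw [pow_zero, one_mul]
      exact Hull.choose_le_of (by omega) (by omega)
    | succ u ih =>
      intro y hy
      rw [pow_succ', mul_assoc]
      rcases hy.lt_or_eq with h | rfl
      · exact (ih y (by omega)).trans (Nat.le_mul_of_pos_left _ (by omega))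
      · refine le_trans ?_ (Nat.mul_le_mul_left _ (ih (i + u) le_rfl))
        refine Nat.le_of_mul_le_mul_right ?_ (show 0 < i + u + 1 by omega)
        rw [← add_assoc, Nat.choose_succ_right_eq, mul_right_comm, mul_comm]
        refine Nat.mul_le_mul_right _ (le_trans (by omega) (hi.trans ?_))
        exact Nat.mul_le_mul_left _ (by omega)
  rw [mul_assoc]
  induction x generalizing y with
  | zero => simpa using h0 u y
  | succ x ih =>
    intro hy
    have a1 := ih y hy
    rw [pow_succ', mul_assoc, ← add_assoc]
    rcases y with _ | y
    · rw [Nat.choose_zero_right] at a1 ⊢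
      omega
    · have a2 := ih y (by omega)
      rw [Nat.choose_succ_succ']
      omega

end Pool.Agent.P.MP_ed1e41_co.AS
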