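import Pool.Agent.P.MP_ed1e41_co.AS.Iface

/-! Step VTL. -/

namespace Pool.Agent.P.MP_ed1e41_co.AS

open Finset
open scoped Classical

theorem VTL_geo {f : ℕ → ℕ} {B : ℕ} (h : ∀ x, 8 ^ (x + 1) * f x ≤ B) (N : ℕ) :
    8 ^ N * (7 * ∑ x ∈ range N, f x) + B ≤ 8 ^ N * B := by
  induction N with
  | zero => simp
  | succ N ih =>
    have := h N
    rw [sum_range_succ, pow_succ] at *
    nlinarith

theorem p_VTL (hCOMP : S_COMP) (hDCT : S_DCT) (hKILL : S_KILL) :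
    S_VTL := by
  intro n t d i e q R m 𝓕 Y hd hn hR h1 h2 h3 h4 ⟨a1, a2, a3⟩ hs hY y1 y2
  have key : ∀ Y ∈ 𝓕, Typ t i Y → Sp (t + 2 * i) Y → ∀ x₀,
      Y ∩ Ico (t + 2 * i) (t + 2 * i + x₀) = ∅ → ∀ W ∈ 𝓕 \ frankl n (t + d) t i,
      ¬ ∀ x, x₀ < x → W ∉ DD n t d i x := fun Y hY y1 y2 x₀ y3 W hW c => by
    obtain ⟨w1, w2⟩ := mem_sdiff.1 hW
    obtain ⟨p, hp⟩ := frankl_lemma hs a2 hY W w1
    have w3 := mem_powersetCard.1 (a1 w1)
    rcases (hCOMP t i p Y W y1 hp).1 x₀ y2 y3 with h | ⟨x, h5, h6⟩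
    exacts [w2 (mem_frankl.2 ⟨w3.1, w3.2, h⟩), c x h5 (mem_DD.2 ⟨w3.1, w3.2, h6⟩)]
  have bd : ∀ {W x}, W ∈ DD n t d i x → 3 * x ≤ 4 * e := fun {W x} h => by
    have := card_tr_le' W (t + 2 * i + x)
    have := (mem_DD.1 h).2
    omega
  rcases (𝓕 \ frankl n (t + d) t i).eq_empty_or_nonempty with h | ⟨W, hW⟩
  · exact a3 ▸ card_le_card (sdiff_eq_empty_iff_subset.1 h)
  have ex : ∃ x₀, ∃ W ∈ 𝓕 \ frankl n (t + d) t i, ∀ x, x₀ < x → W ∉ DD n t d i x :=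
    ⟨4 * e, W, hW, fun x hx h => by have := bd h; omega⟩
  obtain ⟨W₀, w1, w2⟩ := Nat.find_spec ex
  obtain ⟨y, hy⟩ := Nat.exists_eq_add_one_of_ne_zero (n := Nat.find ex) fun h =>
    key Y hY y1 y2 0 (by simp) W₀ w1 (h ▸ w2)
  have b1 : ∀ W ∈ 𝓕 \ frankl n (t + d) t i, ∃ x, W ∈ DD n t d i (y + 1 + x) := fun W hW => by
    by_contra! c
    refine Nat.find_min ex (m := y) (by omega) ⟨W, hW, fun x hx => ?_⟩
    simpa [show y + 1 + (x - (y + 1)) = x by omega] using c (x - (y + 1))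
  obtain ⟨z, hz⟩ := b1 W hW
  have k1 := hKILL n t d i e q R (y + 1) hd hn hR h1 h3 h4 (by have := bd hz; omega)
  set K := (frankl n (t + d) t i).filter fun Y => Typ t i Y ∧ Sp (t + 2 * i) Y ∧
    Y ∩ Ico (t + 2 * i) (t + 2 * i + (y + 1)) = ∅
  have k2 := VTL_geo (f := fun x => (DD n t d i (y + 1 + x)).card) (fun x =>
    ((Nat.mul_le_mul_right _ (Nat.pow_le_pow_right (by norm_num) (by omega))).trans
      (hDCT n t d i e q R (y + 1 + x) hd hn hR h1 h2 (by omega))).trans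
      (Nat.mul_le_mul_left _ (Nat.choose_le_choose e (show _ ≤ q - (y + 1) by omega)))) (4 * e)
  have k3 := Nat.le_of_mul_le_mul_left (le_of_add_le_left k2) (by positivity)
  have k4 : 𝓕 ⊆ (frankl n (t + d) t i \ K) ∪
      (range (4 * e)).biUnion fun x => DD n t d i (y + 1 + x) := fun F hF => by
    by_cases c : F ∈ frankl n (t + d) t i
    · refine mem_union_left _ (mem_sdiff.2 ⟨c, fun h => ?_⟩)
      obtain ⟨-, f1, f2, f3⟩ := mem_filter.1 h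
      exact key F hF f1 f2 _ f3 W₀ w1 (hy ▸ w2)
    · obtain ⟨x, hx⟩ := b1 F (mem_sdiff.2 ⟨hF, c⟩)
      exact mem_union_right _ (mem_biUnion.2 ⟨x, mem_range.2 (by have := bd hx; omega), hx⟩)
  have k5 := (card_le_card k4).trans ((card_union_le _ _).trans
    (Nat.add_le_add_left card_biUnion_le _))
  have k6 : _ + K.card = _ := card_sdiff_add_card_eq_card (filter_subset _ _)
  omega

end Pool.Agent.P.MP_ed1e41_co.AS
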