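import Pool.Agent.P.MP_ed1e41_co.AS.Iface

/-! Step WB. -/

namespace Pool.Agent.P.MP_ed1e41_co.AS

open Finset
open scoped Classical

lemma WB_vdm (b L r k : ℕ) : b.choose r * L.choose k ≤ (b + L).choose (r + k) := by
  rw [Nat.add_choose_eq]
  exact Finset.single_le_sum (f := fun ij : ℕ × ℕ => b.choose ij.1 * L.choose ij.2)
    (fun _ _ => Nat.zero_le _) (a := (r, k)) (by simp)

lemma WB_mid {t j L r : ℕ} (hL : L ≤ j) (h1 : t + j + 1 ≤ r + L) (h2 : r + 1 ≤ t + j) :
    L * (t + 2 * j - L).choose r ≤ (t + 2 * j).choose j := by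
  have h := WB_vdm (t + 2 * j - L) L r (t + j - r)
  have e1 : t + 2 * j - L + L = t + 2 * j := by omega
  have e2 : r + (t + j - r) = t + j := by omega
  rw [e1, e2, cc_symm] at h
  have h3 : L.choose 1 ≤ L.choose (t + j - r) := Hull.choose_le_of (by omega) (by omega)
  rw [Nat.choose_one_right] at h3
  calc L * (t + 2 * j - L).choose r = (t + 2 * j - L).choose r * L := Nat.mul_comm _ _
    _ ≤ (t + 2 * j - L).choose r * L.choose (t + j - r) := Nat.mul_le_mul_left _ h3
    _ ≤ _ := h

theorem p_WB :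
    S_WB := by
  intro t j L r ht hL hLj hr
  have key : ∀ r' : ℕ, t + j + 1 ≤ r' + L → r' + 1 ≤ t + j →
      (t + 2 * j - L).choose r ≤ (t + 2 * j - L).choose r' →
      L * (j + 1) * (t + 2 * j - L).choose r ≤ 2 * (t + j) * (t + 2 * j).choose j := by
    intro r' h1 h2 h3
    have h4 := WB_mid hLj h1 h2
    have h5 : j + 1 ≤ 2 * (t + j) := by omega
    calc L * (j + 1) * (t + 2 * j - L).choose r
        = (j + 1) * (L * (t + 2 * j - L).choose r) := by ring
      _ ≤ (2 * (t + j)) * (L * (t + 2 * j - L).choose r') :=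
          Nat.mul_le_mul h5 (Nat.mul_le_mul_left _ h3)
      _ ≤ 2 * (t + j) * (t + 2 * j).choose j := Nat.mul_le_mul_left _ h4
  rcases Nat.lt_or_ge (t + j) (r + L) with h | h
  · rcases Nat.lt_or_ge r (t + j) with h' | h'
    · exact key r (by omega) (by omega) le_rfl
    · exact key (t + j - 1) (by omega) (by omega) (choose_anti (by omega) (by omega))
  · have h4 := WB_mid (r := r + 1) (t := t) hLj (by omega) (by omega)
    have h5 := Nat.choose_succ_right_eq (t + 2 * j - L) r
    have e : t + 2 * j - L - r = j := by omega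
    rw [e] at h5
    have h6 : j + 1 ≤ 2 * j := by omega
    have h7 : r + 1 ≤ t + j := by omega
    calc L * (j + 1) * (t + 2 * j - L).choose r
        ≤ L * (2 * j) * (t + 2 * j - L).choose r :=
          Nat.mul_le_mul_right _ (Nat.mul_le_mul_left _ h6)
      _ = 2 * L * ((t + 2 * j - L).choose r * j) := by ring
      _ = 2 * (r + 1) * (L * (t + 2 * j - L).choose (r + 1)) := by rw [← h5]; ring
      _ ≤ 2 * (t + j) * (t + 2 * j).choose j :=
          Nat.mul_le_mul (Nat.mul_le_mul_left _ h7) h4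

end Pool.Agent.P.MP_ed1e41_co.AS
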