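import Pool.Agent.P.MP_ed1e41_co.AS.TPZ
import Pool.Agent.P.MP_ed1e41_co.AS.TPT
import Pool.Agent.P.MP_ed1e41_co.AS.TCHORD
import Pool.Agent.P.MP_ed1e41_co.AS.TKKA
import Pool.Agent.P.MP_ed1e41_co.AS.TDC
import Pool.Agent.P.MP_ed1e41_co.AS.TUPM
import Pool.Agent.P.MP_ed1e41_co.AS.THIA
import Pool.Agent.P.MP_ed1e41_co.AS.THIB
import Pool.Agent.P.MP_ed1e41_co.AS.TWB
import Pool.Agent.P.MP_ed1e41_co.AS.TNP
import Pool.Agent.P.MP_ed1e41_co.AS.TUA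
import Pool.Agent.P.MP_ed1e41_co.AS.TUBN
import Pool.Agent.P.MP_ed1e41_co.AS.TUB
import Pool.Agent.P.MP_ed1e41_co.AS.TUP
import Pool.Agent.P.MP_ed1e41_co.AS.TGC
import Pool.Agent.P.MP_ed1e41_co.AS.TCELLA
import Pool.Agent.P.MP_ed1e41_co.AS.TCELLB
import Pool.Agent.P.MP_ed1e41_co.AS.TCOMP
import Pool.Agent.P.MP_ed1e41_co.AS.TVAN
import Pool.Agent.P.MP_ed1e41_co.AS.TDCT
import Pool.Agent.P.MP_ed1e41_co.AS.TSPA
import Pool.Agent.P.MP_ed1e41_co.AS.THEAD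
import Pool.Agent.P.MP_ed1e41_co.AS.TNVT
import Pool.Agent.P.MP_ed1e41_co.AS.TKILL
import Pool.Agent.P.MP_ed1e41_co.AS.TVTL
import Pool.Agent.P.MP_ed1e41_co.AS.TBDEC
import Pool.Agent.P.MP_ed1e41_co.AS.TRR
import Pool.Agent.P.MP_ed1e41_co.AS.TCHL
import Pool.Agent.P.MP_ed1e41_co.AS.TCHH
import Pool.Agent.P.MP_ed1e41_co.AS.TCHEAP
import Pool.Agent.P.MP_ed1e41_co.AS.TLOW
import Pool.Agent.P.MP_ed1e41_co.AS.TEXG
import Pool.Agent.P.MP_ed1e41_co.AS.TEXB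

/-! All steps together. -/

namespace Pool.Agent.P.MP_ed1e41_co.AS

open Finset

theorem a_PZ : S_PZ := p_PZ
theorem a_PT : S_PT := p_PT
theorem a_CHORD : S_CHORD := p_CHORD
theorem a_KKA : S_KKA := p_KKA
theorem a_DC : S_DC := p_DC
theorem a_UPM : S_UPM := p_UPM a_KKA a_DC
theorem a_HIA : S_HIA := p_HIA
theorem a_HIB : S_HIB := p_HIB
theorem a_WB : S_WB := p_WB
theorem a_NP : S_NP := p_NP a_PZ
theorem a_UA : S_UA := p_UA a_PZ a_PT a_NP a_UPM a_HIA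
theorem a_UBN : S_UBN := p_UBN
theorem a_UB : S_UB := p_UB a_PT a_NP a_UPM a_HIB a_WB a_UBN
theorem a_UP : S_UP := p_UP a_PT a_UA a_UB
theorem a_GC : S_GC := p_GC
theorem a_CELLA : S_CELLA := p_CELLA a_GC
theorem a_CELLB : S_CELLB := p_CELLB a_GC
theorem a_COMP : S_COMP := p_COMP
theorem a_VAN : S_VAN := p_VAN
theorem a_DCT : S_DCT := p_DCT a_VAN
theorem a_SPA : S_SPA := p_SPA
theorem a_HEAD : S_HEAD := p_HEAD
theorem a_NVT : S_NVT := p_NVT a_HEAD a_SPA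
theorem a_KILL : S_KILL := p_KILL a_HEAD a_SPA
theorem a_VTL : S_VTL := p_VTL a_COMP a_DCT a_KILL
theorem a_BDEC : S_BDEC := p_BDEC
theorem a_RR : S_RR := p_RR a_PZ
theorem a_CHL : S_CHL := p_CHL a_PZ a_RR a_VTL a_NVT
theorem a_CHH : S_CHH := p_CHH a_PZ a_RR a_BDEC
theorem a_CHEAP : S_CHEAP := p_CHEAP a_CHL a_CHH
theorem a_LOW : S_LOW := p_LOW a_CHORD a_CELLA a_CHEAP
theorem a_EXG : S_EXG := p_EXG a_PT a_COMP
theorem a_EXB : S_EXB := p_EXB a_PT a_KKA a_UA a_CHEAP a_CELLB a_EXG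

/-- The index and the standing assumptions. -/
theorem exists_St {n t d m : ℕ} (ht : 1 ≤ t) (hm : (t + 2 * d).choose (t + d) < m)
    {𝓕 : Finset (Finset ℕ)} (h : Adm n (t + d) t m 𝓕) :
    ∃ j < d, St n t d j m (d - j) (n - (t + 2 * j)) := by
  have hn : t + 2 * d + 1 ≤ n := by
    refine not_lt.1 fun hlt => ?_
    have h1 := card_le_card h.1
    rw [card_powersetCard, card_range, h.2.2] at h1
    have h2 := Nat.choose_le_choose (t + d) (show n ≤ t + 2 * d by omega)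
    omega
  obtain ⟨j, hj, h1, h2⟩ := Hull.exists_index ht hn hm h
  exact ⟨j, hj, ht, by omega, by omega, by omega, by omega, h1, h2⟩

theorem adm_colex {n k t j m : ℕ} (h : m ≤ (frankl n k t j).card) :
    Adm n k t m (colexInit (frankl n k t j) m) :=
  ⟨fun _ hF => (mem_filter.1 (mem_colexInit.1 hF).1).1,
    fun _ hF _ hG => frankl_inter (mem_colexInit.1 hF).1 (mem_colexInit.1 hG).1, card_colexInit h⟩

end Pool.Agent.P.MP_ed1e41_co.AS
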