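import Pool.Agent.P.MP_ed1e41_co.AS.Iface2

/-! Step CHAIN. -/

namespace Pool.Agent.P.MP_ed1e41_co.AS

open Finset
open scoped Classical

lemma CHAIN_av {v x : ℕ} {T : Finset ℕ} : Av v (x + 1) T ↔ v ∉ T ∧ Av (v + 1) x T := by
  simp only [Av, eq_empty_iff_forall_notMem, mem_inter, mem_Ico, not_and]
  constructor
  · intro h
    exact ⟨fun hv => h v hv le_rfl (by omega), fun y hy h1 h2 => h y hy (by omega) (by omega)⟩
  · rintro ⟨h1, h2⟩ y hy h3 h4
    have : y ≠ v := fun e => h1 (e ▸ hy)
    exact h2 y hy (by omega) (by omega)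

lemma CHAIN_filter {v x : ℕ} (𝒜 : Finset (Finset ℕ)) :
    (𝒜.filter fun T => Av v (x + 1) T) =
      (𝒜.nonMemberSubfamily v).filter fun T => Av (v + 1) x T := by
  ext T
  simp only [mem_filter, mem_nonMemberSubfamily, CHAIN_av, and_assoc]

lemma CHAIN_mem {b n w u k : ℕ} {𝓕 𝓘 : Finset (Finset ℕ)} (hb : b < n)
    (hF : ∀ F ∈ 𝓕, InU b n w u k F) (hFs : ShiftedFrom b 𝓕) (hI : ∀ F ∈ 𝓘, InU b n w u k F)
    (hId : DownClosed b n w u k 𝓘)
    (h1 : (𝓘.memberSubfamily b).card ≤ (𝓕.memberSubfamily b).card) :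
    (shadow (𝓘.memberSubfamily b)).card ≤ (shadow (𝓕.memberSubfamily b)).card :=
  genKK_aux n w (n - (b + 1)) (b + 1) (u - if b < w then 1 else 0) (k - 1) (𝓕.memberSubfamily b)
    (𝓘.memberSubfamily b) (by omega)
    (fun F h => (hF _ (mem_memberSubfamily.1 h).1).mem (mem_memberSubfamily.1 h).2)
    (by
      intro F h i j hi hij hj hiF
      rw [mem_memberSubfamily] at h ⊢
      have h3 := hFs _ h.1 i j (by omega) hij (mem_insert_of_mem hj) (by
        rw [mem_insert, not_or]
        exact ⟨by omega, hiF⟩)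
      rw [erase_insert_of_ne (by omega), insert_comm] at h3
      refine ⟨h3, ?_⟩
      rw [mem_insert, not_or]
      exact ⟨by omega, by simp [h.2]⟩)
    (fun F h => (hI _ (mem_memberSubfamily.1 h).1).mem (mem_memberSubfamily.1 h).2)
    (by
      intro F h G hG hlt
      rw [mem_memberSubfamily] at h ⊢
      have hk : 1 ≤ k := by
        rw [← (hI _ h.1).2.1]
        exact card_pos.2 ⟨b, mem_insert_self b F⟩
      exact ⟨hId _ h.1 _ (hG.ins (by omega) hk) (insert_lt_insert' h.2 hG.up.2 hlt), hG.up.2⟩)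
    h1

theorem p_CHAIN :
    S_CHAIN := by
  intro x
  induction x with
  | zero =>
    intro v N r D 𝒜 𝓘 _ _ _ _ h1 h2
    have e : ∀ 𝓕 : Finset (Finset ℕ), (𝓕.filter fun T => Av v 0 T) = 𝓕 := fun 𝓕 =>
      filter_true_of_mem fun T _ => by simp [Av]
    rw [e, e] at h2
    omega
  | succ x ih =>
    intro b n k D 𝓕 𝓘 hF hFs hI hId hcard hav
    by_cases hb : n ≤ b
    · have : shadow 𝓘 = ∅ := by
        rw [eq_empty_iff_forall_notMem]
        intro G hG
        obtain ⟨F, hF, x, hx, -⟩ := mem_shadow_iff.1 hG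
        have := mem_Ico.1 ((hI F hF).1 hx)
        omega
      rw [this]
      exact Nat.zero_le _
    rw [CHAIN_filter, CHAIN_filter] at hav
    have hFb : ∀ F ∈ 𝓕, ∀ x ∈ F, b ≤ x := fun F h x hx => (mem_Ico.1 ((hF F h).1 hx)).1
    have hIb : ∀ F ∈ 𝓘, ∀ x ∈ F, b ≤ x := fun F h x hx => (mem_Ico.1 ((hI F h).1 hx)).1
    have hIs := hId.shiftedFrom hI
    have hF0 : ∀ F ∈ 𝓕.nonMemberSubfamily b, InU (b + 1) n 0 0 k F := fun F h =>
      (hF F (mem_nonMemberSubfamily.1 h).1).non (mem_nonMemberSubfamily.1 h).2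
    have hI0 : ∀ F ∈ 𝓘.nonMemberSubfamily b, InU (b + 1) n 0 0 k F := fun F h =>
      (hI F (mem_nonMemberSubfamily.1 h).1).non (mem_nonMemberSubfamily.1 h).2
    have hF0s : ShiftedFrom (b + 1) (𝓕.nonMemberSubfamily b) := by
      intro F h i j hi hij hj hiF
      rw [mem_nonMemberSubfamily] at h ⊢
      refine ⟨hFs F h.1 i j (by omega) hij hj hiF, ?_⟩
      rw [mem_insert, not_or]
      exact ⟨by omega, by simp [h.2]⟩
    have h1 : (𝓘.memberSubfamily b).card ≤ (𝓕.memberSubfamily b).card := by
      by_contra hc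
      have e1 := card_memberSubfamily_add_card_nonMemberSubfamily b 𝓕
      have e2 := card_memberSubfamily_add_card_nonMemberSubfamily b 𝓘
      let R := (Ico (b + 1) n).powerset.filter
        (fun H => InU (b + 1) n 0 0 k H ∧ H ∉ 𝓘.nonMemberSubfamily b)
      have hR : ∀ H, H ∈ R ↔ InU (b + 1) n 0 0 k H ∧ H ∉ 𝓘.nonMemberSubfamily b := by
        intro H
        simp only [R, mem_filter, mem_powerset]
        exact ⟨fun h => h.2, fun h => ⟨h.1.1, h⟩⟩
      have hRne : R.Nonempty := by
        by_contra hne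
        have hsub : 𝓕.nonMemberSubfamily b ⊆ 𝓘.nonMemberSubfamily b := fun H hH => by
          by_contra h
          exact hne ⟨H, (hR H).2 ⟨hF0 H hH, h⟩⟩
        have h3 : ((𝓘.nonMemberSubfamily b).filter fun T => Av (b + 1) x T) ⊆
            ((𝓕.nonMemberSubfamily b).filter fun T => Av (b + 1) x T) ∪
              (𝓘.nonMemberSubfamily b \ 𝓕.nonMemberSubfamily b) := by
          intro T hT
          rw [mem_filter] at hT
          rw [mem_union, mem_filter, mem_sdiff]
          by_cases h : T ∈ 𝓕.nonMemberSubfamily b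
          · exact Or.inl ⟨h, hT.2⟩
          · exact Or.inr ⟨hT.1, h⟩
        have h4 := (card_le_card h3).trans (card_union_le _ _)
        have h5 := card_sdiff_add_card_eq_card hsub
        omega
      obtain ⟨H, hH, hHmin⟩ := exists_min_image R (fun H => toColex H) hRne
      rw [hR] at hH
      have hbelow : ∀ G, InU (b + 1) n 0 0 k G → toColex G ≤ toColex H →
          G ∈ insert H (𝓘.nonMemberSubfamily b) := by
        intro G hG hle
        rw [mem_insert]
        by_contra hc
        rw [not_or] at hc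
        have := hHmin G ((hR G).2 ⟨hG, hc.2⟩)
        exact hc.1 (toColex.injective (le_antisymm hle this))
      have h2 := ih (b + 1) n k D (𝓕.nonMemberSubfamily b) (insert H (𝓘.nonMemberSubfamily b))
        hF0 hF0s
        (by
          intro F h
          rw [mem_insert] at h
          rcases h with rfl | h
          · exact hH.1
          · exact hI0 F h)
        (by
          intro F h G hG hlt
          rw [mem_insert] at h
          rcases h with rfl | h
          · exact hbelow G hG hlt.le
          · rw [mem_nonMemberSubfamily] at h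
            exact mem_insert_of_mem
              (mem_nonMemberSubfamily.2 ⟨hId F h.1 G hG.up.1 hlt, hG.up.2⟩))
        (by rw [card_insert_of_notMem hH.2]; omega)
        (hav.trans_le (card_le_card (filter_subset_filter _ (subset_insert _ _))))
      have h3 := card_le_card (shadow_non_subset hFs hFb)
      have h4 : 𝓘.memberSubfamily b ⊆ shadow (insert H (𝓘.nonMemberSubfamily b)) := by
        intro G hG
        rw [mem_memberSubfamily] at hG
        have hlt : toColex (insert b G) < toColex H := by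
          by_contra hc
          rw [not_lt] at hc
          rcases hc.lt_or_eq with hc | hc
          · exact hH.2 (mem_nonMemberSubfamily.2 ⟨hId _ hG.1 H hH.1.up.1 hc, hH.1.up.2⟩)
          · have := toColex.injective hc
            exact hH.1.up.2 (this ▸ mem_insert_self b G)
        obtain ⟨z, hz, hzU, hzle⟩ := key_step hG.2 (hI _ hG.1) hH.1 hlt
        exact mem_shadow_iff_insert_mem.2 ⟨z, hz, hbelow _ hzU hzle⟩
      have h5 := card_le_card h4
      omega
    have h2 := CHAIN_mem (by omega) hF hFs hI hId h1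
    rw [card_shadow_split hFs hFb, card_shadow_split hIs hIb]
    omega

end Pool.Agent.P.MP_ed1e41_co.AS
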