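import Pool.Agent.P.MP_ed1e41_co.AS.Iface2

/-! Step CNT. -/

namespace Pool.Agent.P.MP_ed1e41_co.AS

open Finset
open scoped Classical

lemma CNT_gen {t j r : ℕ} {𝓕 𝓖 : Finset (Finset ℕ)}
    (h : ∀ F ∈ 𝓕, F.card = t + 2 * j + (r + 1) ∧ t + j ≤ (F ∩ range (t + 2 * j)).card ∧
      ∃ Y ∈ 𝓖, Y \ range (t + 2 * j) = F \ range (t + 2 * j)) :
    𝓕.card ≤ ∑ i ∈ Ioc r (j + 1 + r),
      (t + 2 * j).choose (i - (r + 1)) * (tails (t + 2 * j) i 𝓖).card := by
  have hb : ∀ F : Finset ℕ, (F ∩ range (t + 2 * j)).card ≤ t + 2 * j := fun F =>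
    (card_le_card inter_subset_right).trans_eq (card_range _)
  rw [card_eq_sum_card_fiberwise (f := fun F => (F \ range (t + 2 * j)).card)
    (t := Ioc r (j + 1 + r)) fun F hF => ?_]
  · refine sum_le_sum fun i hi => ?_
    rw [mem_Ioc] at hi
    have e : (t + 2 * j).choose (i - (r + 1)) * (tails (t + 2 * j) i 𝓖).card =
        ((range (t + 2 * j)).powersetCard (t + 2 * j - (i - (r + 1)))).card *
          (tails (t + 2 * j) i 𝓖).card := by
      rw [card_powersetCard, card_range, Nat.choose_symm (by omega)]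
    rw [e]
    refine card_le_prod (t + 2 * j) fun F hF => ?_
    obtain ⟨h1, h2⟩ := mem_filter.1 hF
    obtain ⟨a, b, c⟩ := h F h1
    have := card_head_tail F (t + 2 * j)
    exact ⟨mem_powersetCard.2 ⟨inter_subset_right, by omega⟩, mem_tails.2 ⟨h2, c⟩⟩
  · obtain ⟨a, b, -⟩ := h F (mem_coe.1 hF)
    have := card_head_tail F (t + 2 * j)
    have := hb F
    exact mem_coe.2 (mem_Ioc.2 ⟨by beta_reduce; omega, by beta_reduce; omega⟩)

theorem p_CNT :
    S_CNT := by
  intro n t j r x 𝓖 hj hG hno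
  set 𝒮 := (tails (t + 2 * j) (j + 1 + r) 𝓖).filter fun T =>
    Sp (t + 2 * j) T ∧ Av (t + 2 * j) x T with hS
  have hH : Ico j (t + 2 * j) ⊆ range (t + 2 * j) := fun y hy => mem_range.2 (mem_Ico.1 hy).2
  have hc : (Ico j (t + 2 * j)).card = t + j := by rw [Nat.card_Ico]; omega
  have hT : ∀ T ∈ 𝒮, ∀ y ∈ T, t + 2 * j ≤ y := fun T hT y hy => by
    obtain ⟨-, F, -, rfl⟩ := mem_tails.1 (mem_filter.1 hT).1
    exact not_lt.1 fun h => (mem_sdiff.1 hy).2 (mem_range.2 h)
  have e1 : (𝒮.image fun T => Ico j (t + 2 * j) ∪ T).card = 𝒮.card :=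
    card_image_of_injOn fun T h1 T' h2 e => by
      rw [← union_tail hH (hT T h1), ← union_tail hH (hT T' h2)]
      exact congrArg (· \ range (t + 2 * j)) e
  have dj : Disjoint 𝓖 (𝒮.image fun T => Ico j (t + 2 * j) ∪ T) := by
    rw [disjoint_left]
    intro Y hY h
    obtain ⟨T, h1, rfl⟩ := mem_image.1 h
    obtain ⟨-, h2, h3⟩ := mem_filter.1 h1
    refine hno _ hY ⟨⟨by rw [union_head hH (hT T h1), hc],
      (Ico_subset_Ico_left hj).trans subset_union_left⟩, ?_, ?_⟩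
    · rw [← sp_tail, union_tail hH (hT T h1)]; exact h2
    · unfold Av at h3 ⊢
      rw [union_inter_distrib_right, h3, union_empty]
      ext y
      simp only [mem_inter, mem_Ico, notMem_empty, iff_false]
      omega
  rw [← e1, ← card_union_of_disjoint dj]
  refine CNT_gen fun F hF => ?_
  rcases mem_union.1 hF with h | h
  · obtain ⟨-, a, b⟩ := mem_frankl.1 (hG h)
    exact ⟨a, b, F, h, rfl⟩
  · obtain ⟨T, h1, rfl⟩ := mem_image.1 h
    obtain ⟨a, Y, hY, e⟩ := mem_tails.1 (mem_filter.1 h1).1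
    refine ⟨by rw [card_union_ht hH (hT T h1), hc, a]; omega,
      by rw [union_head hH (hT T h1), hc], Y, hY, by rw [union_tail hH (hT T h1), e]⟩

end Pool.Agent.P.MP_ed1e41_co.AS
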