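import Pool.Agent.P.MP_ed1e41_co.AS.Base

/-! The statements of the steps. -/

namespace Pool.Agent.P.MP_ed1e41_co.AS

open Finset
open scoped Classical

-- deps:
def S_PZ : Prop := ∀ n t d j e q : ℕ, 1 ≤ t → d = j + e → 1 ≤ e → n = t + 2 * j + q →
  2 * e + 1 ≤ q → (frankl n (t + d) t (j + 1)).card < (frankl n (t + d) t j).card →
  (t + j) * e + (j + 1) * (e + 1) < (j + 1) * q ∧
    ∀ i, j + 1 ≤ i → i ≤ d → (frankl n (t + d) t i).card ≤ (frankl n (t + d) t (j + 1)).card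

-- deps:
def S_PT : Prop := ∀ n t d j e q : ℕ, 1 ≤ t → d = j + e → 1 ≤ e → n = t + 2 * j + q → 2 ≤ q →
  (t + j) * ((t + 2 * j).choose j * (q - 2).choose (e - 1)) ≤
      (j + 1) * (frankl n (t + d) t (j + 1)).card ∧
    (frankl n (t + d) t j).card ≤
      (frankl n (t + d) t (j + 1)).card + (t + 2 * j).choose j * (q - 2).choose e

-- deps:
def S_CHORD : Prop := ∀ n t d j m e q : ℕ, St n t d j m e q → ∀ 𝓕, Adm n (t + d) t m 𝓕 →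
  (t + j + 1) * m ≤ (j + 2) * (shadow 𝓕).card ∧
    (t + j) * m ≤ (j + 1) * (shadow 𝓕).card + (t + j) * (frankl n (t + d) t (j + 1)).card

-- deps:
def S_KKA : Prop := ∀ (n k t j m : ℕ) (𝓖 : Finset (Finset ℕ)), 𝓖 ⊆ frankl n k t j → m ≤ 𝓖.card →
  (shadow (colexInit (frankl n k t j) m)).card ≤ (shadow 𝓖).card

-- deps:
def S_DC : Prop := ∀ (𝓟 : Finset (Finset ℕ)) (w : Finset ℕ → ℕ) (m W : ℕ),
  (∀ P ∈ 𝓟, ∀ x ∈ P, P.erase x ∈ 𝓟) → (∀ P ∈ 𝓟, w P ≤ W) → m ≤ ∑ P ∈ 𝓟, w P →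
  ∃ 𝓠 ⊆ 𝓟, (∀ P ∈ 𝓠, ∀ x ∈ P, P.erase x ∈ 𝓠) ∧ m ≤ ∑ P ∈ 𝓠, w P ∧ ∑ P ∈ 𝓠, w P ≤ m + W

-- deps: KKA DC
def S_UPM : Prop := ∀ n n' t d j m L I W g : ℕ, 1 ≤ t → j ≤ d → n' ≤ n → t + 2 * j ≤ n' →
  L + I + g = j + 1 → 1 ≤ g → m ≤ (frankl n' (t + d) t j).card →
  (∀ r, t + j ≤ r + L → (t + 2 * j - L).choose r ≤ W) →
  g * (shadow (colexInit (frankl n (t + d) t j) m)).card ≤
    (t + j + I) * (m + W) + g * (Hull.big n' (t + d - 1) (t + 2 * j) (t + j + I)).card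

-- deps:
def S_HIA : Prop := ∀ n t d j e q K : ℕ, 1 ≤ t → d = j + e → n = t + 2 * j + q → 2 ≤ K →
  K * e + e ≤ q + 1 →
  K * (Hull.big n (t + d - 1) (t + 2 * j) (t + j)).card ≤ 2 * ((t + 2 * j).choose j * q.choose e)

-- deps:
def S_HIB : Prop := ∀ n t d j e q I : ℕ, 1 ≤ t → d = j + e → n = t + 2 * j + q → 2 * e ≤ q + 1 →
  I ≤ j → I * (t + I) ^ 2 * (Hull.big n (t + d - 1) (t + 2 * j) (t + j + I)).card ≤
    j * (t + j + I + 1) * ((t + 2 * j).choose j * q.choose e)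

-- deps:
def S_WB : Prop := ∀ t j L r : ℕ, 1 ≤ t → 2 ≤ L → L ≤ j → t + j ≤ r + L →
  L * (j + 1) * (t + 2 * j - L).choose r ≤ 2 * (t + j) * (t + 2 * j).choose j

-- deps: PZ
def S_NP : Prop := ∀ n t d j m e q : ℕ, St n t d j m e q → ∃ q', q' ≤ q ∧ 2 * e + 1 ≤ q' ∧
  m ≤ (frankl (t + 2 * j + q') (t + d) t j).card ∧ (t + 2 * j).choose j * q'.choose e ≤ 2 * m

-- deps: PZ PT NP UPM HIA
def S_UA : Prop := ∀ n t d j m e q : ℕ, St n t d j m e q → ∀ K : ℕ, 2 ≤ K →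
  (K * (j + 1) ≤ t + j ∨ (K + 1) * (frankl n (t + d) t (j + 1)).card ≤ m) →
  K * (j + 1) * (shadow (colexInit (frankl n (t + d) t j) m)).card ≤
    K * (t + j) * m + K * (t + j) * (t + 2 * j).choose j + 4 * (j + 1) * m

-- deps:
def S_UBN : Prop := ∀ t j M I g m W H U : ℕ, 1 ≤ t → 1 ≤ M → 8 * M * I ≤ j + 1 →
  j + 1 < 8 * M * (I + 1) → 16 * M ≤ I → 10 ^ 5 * M ^ 4 ≤ t + j → I + I + g = j + 1 →
  g * U ≤ (t + j + I) * (m + W) + g * H → I * W ≤ 2 * m →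
  I * (t + I) ^ 2 * H ≤ 4 * (j + 1) * (t + j) * m → M * (j + 1) * U ≤ (M + 1) * (t + j) * m

-- deps: PT NP UPM HIB WB UBN
def S_UB : Prop := ∀ n t d j m e q : ℕ, St n t d j m e q → ∀ M : ℕ, 1 ≤ M →
  128 * M ^ 2 ≤ j + 1 → 10 ^ 5 * M ^ 4 ≤ t + j →
  M * (j + 1) * (shadow (colexInit (frankl n (t + d) t j) m)).card ≤ (M + 1) * (t + j) * m

-- deps: PT UA UB
def S_UP : Prop := ∀ n t d j m e q : ℕ, St n t d j m e q → ∀ M : ℕ, 1 ≤ M →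
  (10 ^ 5 * M ^ 4 ≤ t + j ∨ 6 * M * (frankl n (t + d) t (j + 1)).card ≤ m) →
  M * (j + 1) * (shadow (colexInit (frankl n (t + d) t j) m)).card ≤ (M + 1) * (t + j) * m

-- deps:
def S_GC : Prop := ∀ (𝓕 : Finset (Finset ℕ)) (b : Finset ℕ → ℕ),
  (∀ F ∈ 𝓕, ∀ F' ∈ 𝓕, ∀ z ∈ F, ∀ z' ∈ F', z < b F → z' < b F' → F.erase z = F'.erase z' →
    b F = b F') →
  ∑ F ∈ 𝓕, ((F ∩ range (b F)).card : ℚ) / ((b F : ℚ) + 1 - (F ∩ range (b F)).card) ≤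
    (shadow 𝓕).card

-- deps: GC
def S_CELLA : Prop := ∀ (n t d j m : ℕ) (𝓕 : Finset (Finset ℕ)), 1 ≤ t → Adm n (t + d) t m 𝓕 →
  Shifted 𝓕 → (t + j) * (𝓕.filter fun F => ¬ Hi t j F).card ≤ (j + 1) * (shadow 𝓕).card

-- deps: GC
def S_CELLB : Prop := ∀ (n t d j m : ℕ) (𝓕 : Finset (Finset ℕ)), 1 ≤ t → j ≤ t →
  Adm n (t + d) t m 𝓕 → Shifted 𝓕 →
  j * (t + j) * (𝓕.filter fun F => Gd t j 𝓕 F).card +
      (j + 1) * (t + 1 - j) * (𝓕.filter fun F => ¬ Hi t j F ∧ ¬ Gd t j 𝓕 F).card ≤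
    j * (j + 1) * (shadow 𝓕).card

-- deps:
def S_COMP : Prop := ∀ (t i p : ℕ) (Y W : Finset ℕ), Typ t i Y →
  p + t ≤ (Y ∩ range p).card + (W ∩ range p).card →
  (∀ x₀, Sp (t + 2 * i) Y → Y ∩ Ico (t + 2 * i) (t + 2 * i + x₀) = ∅ →
    t + i ≤ (W ∩ range (t + 2 * i)).card ∨
      ∃ x, x₀ < x ∧ 4 * (t + i) + 3 * x ≤ 4 * (W ∩ range (t + 2 * i + x)).card) ∧
  ∀ e, Y.card = t + i + e → W.card = t + i + e → Y ∩ Ico (t + 2 * i) (t + 2 * i + 2 * e) = ∅ →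
    t + i ≤ (W ∩ range (t + 2 * i)).card

-- deps:
def S_VAN : Prop := ∀ t i R u x y : ℕ, 1 ≤ R → t + i ≤ 2 * R * (i + 1) → y ≤ i + u →
  (t + 2 * i + x).choose y ≤ 2 ^ x * (2 * R) ^ u * (t + 2 * i).choose i

-- deps: VAN
def S_DCT : Prop := ∀ n t d i e q R x : ℕ, d = i + e → n = t + 2 * i + q → 4096 ≤ R →
  R * e + e ≤ q → t + i ≤ 2 * R * (i + 1) → 1 ≤ x →
  8 ^ x * (DD n t d i x).card ≤ (t + 2 * i).choose i * (q - x).choose e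

-- deps:
def S_SPA : Prop := ∀ v x₀ n N e R : ℕ, n = v + x₀ + N → 64 ≤ R → e ≤ N →
  R * e ≤ 2 * (N + 1 - e) →
  R * (((Ico (v + x₀) n).powersetCard e).filter fun T => ¬ Sp v T).card ≤ 64 * N.choose e

-- deps:
def S_HEAD : Prop := ∀ t i : ℕ,
  t * (t + 2 * i).choose i ≤ t * t.choose i + 2 * i ^ 2 * (t + 2 * i).choose i

-- deps: HEAD SPA
def S_NVT : Prop := ∀ n t d i e q R : ℕ, d = i + e → n = t + 2 * i + q → 4096 ≤ R →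
  R * e + e ≤ q → i ≤ t →
  t * R * ((lev n (t + d) (t + 2 * i) (t + i)).filter fun F =>
      ¬ (Typ t i F ∧ Sp (t + 2 * i) F)).card ≤
    (2 * i ^ 2 * R + 64 * t) * ((t + 2 * i).choose i * q.choose e)

-- deps: HEAD SPA
def S_KILL : Prop := ∀ n t d i e q R x₀ : ℕ, d = i + e → n = t + 2 * i + q → 4096 ≤ R →
  R * e + e ≤ q → 1 ≤ t → 4 * i ^ 2 ≤ t → 3 * x₀ ≤ 4 * e →
  (t + 2 * i).choose i * (q - x₀).choose e ≤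
    4 * ((frankl n (t + d) t i).filter fun Y => Typ t i Y ∧ Sp (t + 2 * i) Y ∧
      Y ∩ Ico (t + 2 * i) (t + 2 * i + x₀) = ∅).card

-- deps: COMP DCT KILL
def S_VTL : Prop := ∀ (n t d i e q R m : ℕ) (𝓕 : Finset (Finset ℕ)) (Y : Finset ℕ), d = i + e →
  n = t + 2 * i + q → 4096 ≤ R → R * e + e ≤ q → t + i ≤ 2 * R * (i + 1) → 1 ≤ t →
  4 * i ^ 2 ≤ t → Adm n (t + d) t m 𝓕 → Shifted 𝓕 → Y ∈ 𝓕 → Typ t i Y → Sp (t + 2 * i) Y →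
  m ≤ (frankl n (t + d) t i).card

-- deps:
def S_BDEC : Prop := ∀ t i e q R : ℕ, 1 ≤ e → R * e ≤ q → 4 * (t + 2 * i + 1) ≤ R * (i + 1) →
  2 * ((t + 2 * (i + 1)).choose (i + 1) * (q - 2).choose (e - 1)) ≤
    (t + 2 * i).choose i * q.choose e

-- deps: PZ
def S_RR : Prop := ∀ n t d j m e q : ℕ, St n t d j m e q → ∀ M : ℕ, j + 1 ≤ M →
  20000 * M ^ 4 ≤ t → ∃ R, 4096 ≤ R ∧ ∀ i e' q', j ≤ i → d = i + e' → n = t + 2 * i + q' →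
    R * e' + e' ≤ q' ∧ t + i ≤ 2 * R * (i + 1)

-- deps: PZ RR VTL NVT
def S_CHL : Prop := ∀ n t d j m e q : ℕ, St n t d j m e q → ∀ M : ℕ, j + 1 ≤ M →
  20000 * M ^ 4 ≤ t → ∀ 𝓕, Adm n (t + d) t m 𝓕 → Shifted 𝓕 → ∀ c, j < c → c ≤ d → c ≤ 18 * M →
  t * (𝓕.filter fun F => (F ∩ range (t + 2 * c)).card = t + c).card ≤ 776 * M ^ 2 * m

-- deps: PZ RR BDEC
def S_CHH : Prop := ∀ n t d j m e q : ℕ, St n t d j m e q → ∀ M : ℕ, j + 1 ≤ M →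
  20000 * M ^ 4 ≤ t →
  4 * M * ∑ c ∈ Ioc (16 * j + 15 + 2 * M) d,
    (t + 2 * c).choose c * (n - (t + 2 * c)).choose (d - c) ≤ m

-- deps: CHL CHH
def S_CHEAP : Prop := ∀ n t d j m e q : ℕ, St n t d j m e q → ∀ M : ℕ, j + 1 ≤ M →
  20000 * M ^ 4 ≤ t → ∀ 𝓕, Adm n (t + d) t m 𝓕 → Shifted 𝓕 →
  M * (𝓕.filter fun F => Hi t j F).card ≤ m

-- deps: CHORD CELLA CHEAP
def S_LOW : Prop := ∀ n t d j m e q : ℕ, St n t d j m e q → ∀ M : ℕ, 1 ≤ M →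
  (10 ^ 5 * M ^ 4 ≤ t + j ∨ 6 * M * (frankl n (t + d) t (j + 1)).card ≤ m) →
  ∀ 𝓕, Adm n (t + d) t m 𝓕 → M * (t + j) * m ≤ M * (j + 1) * (shadow 𝓕).card + (t + j) * m

-- deps: PT COMP
def S_EXG : Prop := ∀ n t d j m e q : ℕ, St n t d j m e q → 8 * (j + 1) * e ≤ t + j →
  ∀ 𝓕, Adm n (t + d) t m 𝓕 → Shifted 𝓕 → m ≤ 2 * (𝓕.filter fun F => Gd t j 𝓕 F).card →
  𝓕 ⊆ frankl n (t + d) t j

-- deps: PT KKA UA CHEAP CELLB EXG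
def S_EXB : Prop := ∀ n t d j m e q : ℕ, St n t d j m e q → 10 ^ 7 * (j + 1) ^ 4 ≤ t →
  8 * (j + 1) * e ≤ t + j → ∀ 𝓕, Adm n (t + d) t m 𝓕 →
  (shadow (colexInit (frankl n (t + d) t j) m)).card ≤ (shadow 𝓕).card

end Pool.Agent.P.MP_ed1e41_co.AS
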