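import Pool.Agent.P.MP_ed1e41_co.AS.Iface2
import Pool.Agent.P.MP_ed1e41_co.AS.Iface

/-! Step DCU. -/

namespace Pool.Agent.P.MP_ed1e41_co.AS

open Finset
open scoped Classical

lemma DCU_geo (f : ℕ → ℕ) (B L : ℕ) (h : ∀ w < L, 2 ^ w * f w ≤ B) :
    ∑ w ∈ range L, f w ≤ 2 * B := by
  have h1 : ∀ w ∈ range L, (f w : ℝ) ≤ B * (1 / 2) ^ w := fun w hw => by
    have h2 : (2 : ℝ) ^ w * f w ≤ B := by exact_mod_cast h w (mem_range.1 hw)
    rw [one_div, inv_pow, ← div_eq_mul_inv, le_div_iff₀ (by positivity)]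
    linarith
  have h2 := sum_le_sum h1
  rw [← mul_sum] at h2
  have h3 := mul_le_mul_of_nonneg_left (sum_geometric_two_le L) (Nat.cast_nonneg (α := ℝ) B)
  have h4 : ((∑ w ∈ range L, f w : ℕ) : ℝ) ≤ ((2 * B : ℕ) : ℝ) := by push_cast; linarith
  exact_mod_cast h4

theorem p_DCU (hVAN : S_VAN) :
    S_DCU := by
  intro n t d i e q R x w hd hn hR hq ht hx hw
  by_cases h3 : 4 * e < 3 * x
  · have : DD n t d i x = ∅ := eq_empty_of_forall_notMem fun W hW => by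
      rw [mem_DD] at hW
      have := card_le_card (inter_subset_left (s₁ := W) (s₂ := range (t + 2 * i + x)))
      omega
    rw [this]; simp
  have hRe : 2 ^ 23 * e ≤ R * e := Nat.mul_le_mul_right e hR
  obtain ⟨v, hv⟩ : ∃ v, v = (3 * x + 3) / 4 := ⟨_, rfl⟩
  obtain ⟨u, hu⟩ : ∃ u, x = u + v := ⟨x - v, by omega⟩
  obtain ⟨δ, hδ⟩ : ∃ δ, v = u + δ := ⟨v - u, by omega⟩
  obtain ⟨y, hy⟩ : ∃ y, v = w + y := ⟨v - w, by omega⟩
  obtain ⟨N, hN⟩ : ∃ N, q = x + N := ⟨q - x, by omega⟩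
  obtain ⟨L, hL⟩ : ∃ L, e = v + L := ⟨e - v, by omega⟩
  obtain ⟨E, hE⟩ : ∃ E, e = w + E := ⟨e - w, by omega⟩
  have hRE : R * E ≤ R * e := Nat.mul_le_mul_left R (by omega)
  have hq2 : N.choose E ≤ (q - 2).choose (e - w) := by
    rw [show e - w = E by omega]
    exact Nat.choose_le_choose E (by omega)
  have e1 : DD n t d i x = Hull.big n (t + d) (t + 2 * i + x) (t + i + v) := by
    ext W
    rw [mem_DD, mem_big]
    exact and_congr_right fun _ => and_congr_right fun _ => by omega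
  rw [e1, card_big (q := N) (by omega), ← Finset.Ico_add_one_right_eq_Icc, sum_Ico_eq_sum_range,
    show t + d + 1 - (t + i + v) = L + 1 by omega]
  have hc := hVAN t i R u x (i + u) (by omega) ht le_rfl
  generalize (t + 2 * i).choose i = c at hc ⊢
  generalize (q - 2).choose (e - w) = D at hq2 ⊢
  have h1 : ∑ j ∈ range (L + 1), (t + 2 * i + x).choose (t + i + v + j) *
      N.choose (t + d - (t + i + v + j)) ≤
      2 ^ x * (2 * R) ^ u * c * ∑ j ∈ range (L + 1), N.choose (E - (y + j)) := by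
    rw [mul_sum]
    refine sum_le_sum fun j _ => ?_
    rw [show t + d - (t + i + v + j) = E - (y + j) by omega]
    exact Nat.mul_le_mul_right _ ((choose_anti (by omega) (by omega)).trans hc)
  have h2 : R ^ y * ∑ j ∈ range (L + 1), N.choose (E - (y + j)) ≤ 2 * (2 ^ y * D) := by
    rw [mul_sum]
    refine DCU_geo _ _ _ fun j hj => ?_
    have h4 := ratio (a := R) (b := 2) (e := E) (N := N) (by omega) (by omega) (y + j) (by omega)
    have h5 : 2 ^ j * 2 ^ j ≤ R ^ j := by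
      rw [← mul_pow]; exact Nat.pow_le_pow_left (by omega) j
    refine Nat.le_of_mul_le_mul_left ?_ (show 0 < 2 ^ j by positivity)
    calc 2 ^ j * (2 ^ j * (R ^ y * N.choose (E - (y + j))))
        = R ^ y * (2 ^ j * 2 ^ j) * N.choose (E - (y + j)) := by ring
      _ ≤ R ^ y * R ^ j * N.choose (E - (y + j)) :=
          Nat.mul_le_mul_right _ (Nat.mul_le_mul_left _ h5)
      _ = R ^ (y + j) * N.choose (E - (y + j)) := by rw [pow_add]
      _ ≤ 2 ^ (y + j) * D := h4.trans (Nat.mul_le_mul_left _ hq2)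
      _ = _ := by rw [pow_add]; ring
  have h4 : 2 ^ (9 * x) * 2 ^ x * (2 ^ u * 2 ^ y) ≤ R ^ δ :=
    calc 2 ^ (9 * x) * 2 ^ x * (2 ^ u * 2 ^ y) = 2 ^ (9 * x + x + (u + y)) := by
          rw [pow_add, pow_add, pow_add]
      _ ≤ 2 ^ (23 * δ) := Nat.pow_le_pow_right (by omega) (by omega)
      _ = (2 ^ 23) ^ δ := pow_mul 2 23 δ
      _ ≤ R ^ δ := Nat.pow_le_pow_left hR δ
  generalize ∑ j ∈ range (L + 1), N.choose (E - (y + j)) = S at h1 h2
  refine (Nat.mul_le_mul_left _ h1).trans (Nat.le_of_mul_le_mul_left ?_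
    (show 0 < R ^ y from Nat.pow_pos (by omega)))
  have h5 : R ^ u * R ^ δ = R ^ y * R ^ w := by
    rw [← pow_add, ← pow_add, ← hδ, hy, add_comm]
  calc R ^ y * (2 ^ (9 * x) * (2 ^ x * (2 * R) ^ u * c * S))
      = 2 ^ (9 * x) * 2 ^ x * (2 * R) ^ u * c * (R ^ y * S) := by ring
    _ ≤ 2 ^ (9 * x) * 2 ^ x * (2 * R) ^ u * c * (2 * (2 ^ y * D)) := Nat.mul_le_mul_left _ h2
    _ = R ^ u * (2 ^ (9 * x) * 2 ^ x * (2 ^ u * 2 ^ y)) * (2 * (c * D)) := by rw [mul_pow]; ring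
    _ ≤ R ^ u * R ^ δ * (2 * (c * D)) := Nat.mul_le_mul_right _ (Nat.mul_le_mul_left _ h4)
    _ = _ := by rw [h5]; ring

end Pool.Agent.P.MP_ed1e41_co.AS
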