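import Pool.Agent.P.MP_ed1e41_co.AS.Iface2

/-! Step DOWN. -/

namespace Pool.Agent.P.MP_ed1e41_co.AS

open Finset
open scoped Classical

theorem p_DOWN (hFILL : S_FILL) :
    S_DOWN := by
  intro v r l e 𝒯 G H hT
  induction l generalizing H with
  | zero =>
    intro _ _ _ _ _ hle hc
    exact (card_le_card (Sg_mono hle)).trans hc
  | succ l ih =>
    intro he hG hGc hH hHc hle hc
    obtain ⟨G2, hG2, hGG2⟩ := hFILL v G H hG hH (by omega) hle
    obtain ⟨v2, c2, l2⟩ := mem_Sg.1 hG2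
    obtain ⟨G1, h1, h2, c1⟩ := exists_subsuperset_card_eq hGG2 (n := r + l) (by omega) (by omega)
    have l1 : toColex G1 ≤ toColex H := (colex_le_of_subset h2).trans l2
    obtain ⟨t1, t2, t3⟩ := hT (r + (l + 1)) (by omega) he
    obtain ⟨N0, hN0⟩ := exists_bound (insert H (𝒯 (r + (l + 1))))
    have hHN : ∀ x ∈ H, x < v + N0 := fun x hx => by
      have := hN0 H (mem_insert_self _ _) x hx
      omega
    have kk := genKK_aux (v + N0) 0 N0 v 0 (r + (l + 1)) (𝒯 (r + (l + 1)))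
      (Sg v (r + (l + 1)) H) rfl (fun F hF => inU_pure.2 ⟨fun x hx => mem_Ico.2
        ⟨(t1 F hF).1 x hx, by
          have := hN0 F (mem_insert_of_mem hF) x hx
          omega⟩, (t1 F hF).2⟩) t2 (Sg_inU hHN) (Sg_down _ _ _ _) hc
    have sub : Sg v (r + l) G1 ⊆ shadow (Sg v (r + (l + 1)) H) := by
      intro T hT'
      obtain ⟨a1, a2, a3⟩ := mem_Sg.1 hT'
      obtain ⟨T', hT2, hTT⟩ := hFILL v T H a1 hH (by omega) (a3.trans l1)
      rw [hHc] at hT2
      refine mem_shadow_iff_exists_mem_card_add_one.2 ⟨T', hT2, hTT, ?_⟩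
      rw [(mem_Sg.1 hT2).2.1, a2, add_assoc]
    refine ih G1 (by omega) hG hGc (fun x hx => v2 x (h2 hx)) c1 (colex_le_of_subset h1) ?_
    exact (card_le_card sub).trans (kk.trans (card_le_card t3))

end Pool.Agent.P.MP_ed1e41_co.AS
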