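import Pool.Agent.P.MP_ed1e41_co.AS.Iface2
import Pool.Agent.P.MP_ed1e41_co.AS.Iface

/-! Step EXC. -/

namespace Pool.Agent.P.MP_ed1e41_co.AS

open Finset
open scoped Classical

theorem p_EXC (hPT : S_PT) (hKKA : S_KKA) (hGD : S_GD) (hWIN : S_WIN) (hOUT : S_OUT) (hNSB : S_NSB) (hCORE : S_CORE) (hQB : S_QB) (hNUM : S_NUM) :
    S_EXC := by
  intro n t d j m e q hS ht 𝓕 h
  obtain ⟨𝓖, g1, g2, g3⟩ := exists_shifted h
  refine le_trans ?_ g3
  by_cases hsub : 𝓖 ⊆ frankl n (t + d) t j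
  · exact hKKA n (t + d) t j m 𝓖 hsub g1.2.2.ge
  by_contra hlt
  rw [not_le] at hlt
  have hd := hS.hd
  have hn := hS.hn
  have e1 := hS.e1
  have hq := hS.hq
  have p1 : j + 1 ≤ (j + 1) ^ 3 := Nat.le_self_pow (by omega) _
  have p2 : (j + 1) ^ 4 = (j + 1) ^ 3 * (j + 1) := by ring
  have p3 : j + 1 ≤ (j + 1) ^ 4 := Nat.le_self_pow (by omega) _
  have h3 : 10 ^ 7 * (j + 1) ^ 3 ≤ (t + j) / (j + 1) :=
    (Nat.le_div_iff_mul_le (by omega)).2 (by rw [mul_assoc, ← p2]; omega)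
  have h4 := Nat.div_mul_le_self (t + j) (j + 1)
  have h5 := Nat.lt_mul_div_succ (t + j) (show 0 < j + 1 by omega)
  generalize (t + j) / (j + 1) = R at h3 h4 h5
  have hR : 2 ^ 23 ≤ R := by omega
  have h6 : t + j ≤ 2 * R * (j + 1) := by
    have : j + 1 ≤ R * (j + 1) := Nat.le_mul_of_pos_left _ (by omega)
    nlinarith
  have h7 := (hQB n t d j m e q R q hS (by omega) h4 (hn ▸ hS.hi)).1
  obtain ⟨x, x1, x2, x3, x4⟩ := hWIN n t d j m e q R hS hR h4 h7 𝓖 g1 g2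
    (hGD n t d j m e q hS ht 𝓖 g1 g2 hlt) hsub
  have o1 := hOUT n t d j e q R x (j + 2) (4 * e) _ hd hn hR h7 h6 (by omega) (by omega) x4
  obtain ⟨r, hr⟩ : ∃ r, e = j + 1 + r := ⟨e - (j + 1), by omega⟩
  have o2 := card_sdiff_add_card_inter 𝓖 (frankl n (t + d) t j)
  rw [g1.2.2] at o2
  obtain ⟨Q, q1, q2, q3⟩ := hCORE n t d j m e q r (𝓖 \ frankl n (t + d) t j).card x
    (𝓖 ∩ frankl n (t + d) t j) hS hr (by omega) (by omega) inter_subset_right
    (Shifted_inter g2 (shifted_frankl _ _ _ _)) (by omega)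
    (fun Y hY => x3 Y (mem_inter.1 hY).1)
    ((card_le_card (shadow_mono inter_subset_left)).trans_lt hlt)
  obtain ⟨q4, q5⟩ := hQB n t d j m e q R Q hS (by omega) h4 q1
  have e2 : 2 ^ 23 * e ≤ R * e := Nat.mul_le_mul_right _ hR
  have o3 := hNSB (t + 2 * j) x n (q - x) e R (by omega) hR e1 (by omega) (by omega)
  have o4 := (hPT n t d j e q hS.t1 hd e1 hn (by omega)).1
  have o5 : R * ((t + 2 * j).choose j * (q - 2).choose (e - 1)) ≤ m := by
    refine le_trans (Nat.le_of_mul_le_mul_left ?_ (show 0 < j + 1 by omega)) hS.lo.le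
    refine le_trans ?_ o4
    rw [← mul_assoc, mul_comm (j + 1)]
    exact Nat.mul_le_mul_right _ h4
  exact hNUM t j e q r R x Q _ _ m hr h3 h6 x1 x2 h7 q4 o5 q5 o1 o3 q2 q3

end Pool.Agent.P.MP_ed1e41_co.AS
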