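import Pool.Agent.P.MP_ed1e41_co.AS.Iface2

/-! Step FILL. -/

namespace Pool.Agent.P.MP_ed1e41_co.AS

open Finset
open scoped Classical

lemma FILL_step {v : ℕ} {G H : Finset ℕ} (hH : ∀ x ∈ H, v ≤ x)
    (hc : G.card < H.card) (hle : toColex G ≤ toColex H) :
    ∃ z, z ∉ G ∧ v ≤ z ∧ toColex (insert z G) ≤ toColex H := by
  have hex : ∃ z, v ≤ z ∧ z ∉ G := by
    obtain ⟨e, he, heG⟩ : ∃ e ∈ H, e ∉ G := by
      by_contra h
      push Not at h
      have := card_le_card (show H ⊆ G from h)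
      omega
    exact ⟨e, hH e he, heG⟩
  obtain ⟨z, ⟨hz1, hz2⟩, hzmin⟩ : ∃ z, (v ≤ z ∧ z ∉ G) ∧ ∀ e, v ≤ e → e ∉ G → z ≤ e :=
    ⟨Nat.find hex, Nat.find_spec hex, fun e h1 h2 => Nat.find_min' hex ⟨h1, h2⟩⟩
  refine ⟨z, hz2, hz1, ?_⟩
  have hlt : toColex G < toColex H := lt_of_le_of_ne hle (fun h => by
    have : G = H := by simpa using h
    rw [this] at hc
    omega)
  by_contra hcon
  rw [not_le, Colex.toColex_lt_toColex_iff_exists_forall_lt] at hcon
  rw [Colex.toColex_lt_toColex_iff_exists_forall_lt] at hlt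
  obtain ⟨a, haH, haG, ha⟩ := hlt
  obtain ⟨c, hcG, hcH, hc'⟩ := hcon
  by_cases hE : H ⊆ insert z G
  · have h1 : H ⊆ (insert z G).erase c := fun x hx =>
      mem_erase.2 ⟨fun e => hcH (e ▸ hx), hE hx⟩
    have h2 := card_le_card h1
    rw [card_erase_of_mem hcG, card_insert_of_notMem hz2] at h2
    omega
  · obtain ⟨e, heH, heG⟩ := not_subset.1 hE
    have h1 := hc' e heH heG
    rw [mem_insert, not_or] at heG
    have h2 := hzmin e (hH e heH) heG.2
    have h4 : c ∈ G := by
      rw [mem_insert] at hcG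
      rcases hcG with h | h
      · omega
      · exact h
    have h5 := ha c h4 hcH
    have h6 := hc' a haH (by
      rw [mem_insert, not_or]
      exact ⟨by omega, haG⟩)
    omega

theorem p_FILL :
    S_FILL := by
  intro v G H hG hH hc hle
  obtain ⟨d, hd⟩ := Nat.exists_eq_add_of_le hc
  clear hc
  induction d generalizing G with
  | zero => exact ⟨G, mem_Sg.2 ⟨hG, by omega, hle⟩, subset_rfl⟩
  | succ d ih =>
    obtain ⟨z, hz, hv, hz2⟩ := FILL_step hH (G := G) (by omega) hle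
    obtain ⟨G', h1, h2⟩ := ih (insert z G) (by
      intro x hx
      rcases mem_insert.1 hx with rfl | hx
      · exact hv
      · exact hG x hx) hz2 (by
      rw [card_insert_of_notMem hz]
      omega)
    exact ⟨G', h1, (subset_insert _ _).trans h2⟩

end Pool.Agent.P.MP_ed1e41_co.AS
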