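import Pool.Agent.P.MP_ed1e41_co.AS.Iface2
import Pool.Agent.P.MP_ed1e41_co.AS.Iface

/-! Step GD. -/

namespace Pool.Agent.P.MP_ed1e41_co.AS

open Finset
open scoped Classical

lemma GD_arith {t j s m g b h S : ℕ} (hs : t + 1 = s + j) (ht : 24 * (j + 1) ^ 2 ≤ t)
    (hm : g + b + h = m) (hg : 2 * g < m) (hh : 4 * (j + 1) * h ≤ m)
    (hc : j * (t + j) * g + (j + 1) * s * b ≤ j * (j + 1) * S)
    (hS : (j + 1) * S ≤ (t + j) * m + 2 * (j + 1) * m) : False := by
  rcases Nat.eq_zero_or_pos j with rfl | hj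
  · have hb : s * b = 0 := by simpa using hc
    have hs0 : s ≠ 0 := by omega
    have hb0 : b = 0 := (Nat.mul_eq_zero.1 hb).resolve_left hs0
    omega
  · have h1 : j * (t + j) * g + (j + 1) * s * b ≤ j * ((t + j) * m + 2 * (j + 1) * m) :=
      hc.trans (by rw [mul_assoc]; exact Nat.mul_le_mul_left _ hS)
    have h8 : 8 * h ≤ m := le_trans (Nat.mul_le_mul_right _ (by omega)) hh
    have hb : 3 * m < 8 * b := by omega
    have h4 : 4 * j * h ≤ m := le_trans (Nat.mul_le_mul_right _ (by omega)) hh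
    obtain ⟨r, hr⟩ : ∃ r, t = 24 * (j + 1) ^ 2 + r := ⟨_, (Nat.add_sub_cancel' ht).symm⟩
    have e1 : (j + 1) * s = j * (t + j) + (r + 22 * j ^ 2 + 48 * j + 25) := by
      have : (s : ℤ) = t + 1 - j := by omega
      zify
      rw [this, hr]
      push_cast
      ring
    set D := r + 22 * j ^ 2 + 48 * j + 25 with hD
    have h2 : D * b ≤ j * (t + j) * h + 2 * j * (j + 1) * m := by
      have e2 : j * ((t + j) * m + 2 * (j + 1) * m) =
          j * (t + j) * g + j * (t + j) * b + (j * (t + j) * h + 2 * j * (j + 1) * m) := by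
        rw [← hm]; ring
      have e3 : (j + 1) * s * b = j * (t + j) * b + D * b := by rw [e1]; ring
      omega
    have h3 : (t + j) * (4 * j * h) ≤ (t + j) * m := Nat.mul_le_mul_left _ h4
    have h5 : D * (3 * m) ≤ D * (8 * b) := Nat.mul_le_mul_left _ hb.le
    have h6 : 3 * D * m ≤ (2 * (t + j) + 16 * j * (j + 1)) * m := by nlinarith
    have h7 := Nat.le_of_mul_le_mul_right h6 (by omega : 0 < m)
    rw [hD, hr] at h7
    nlinarith

theorem p_GD (hPT : S_PT) (hUA : S_UA) (hCHEAP : S_CHEAP) (hCELLB : S_CELLB) :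
    S_GD := by
  intro n t d j m e q hSt ht 𝓕 hA hSh hlt
  by_contra hG
  rw [not_le] at hG
  have e1 := hSt.e1
  have hq := hSt.hq
  have hj1 : (j + 1) ^ 2 ≤ (j + 1) ^ 4 := Nat.pow_le_pow_right (by omega) (by norm_num)
  have hj2 : j + 1 ≤ (j + 1) ^ 2 := Nat.le_self_pow (by norm_num) _
  have hU := hUA n t d j m e q hSt 4 (by norm_num) (Or.inl (by nlinarith))
  have hP := (hPT n t d j e q hSt.t1 hSt.hd e1 hSt.hn (by omega)).1
  have hc : 1 ≤ (q - 2).choose (e - 1) := Nat.choose_pos (by omega)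
  have hP2 : (t + j) * (t + 2 * j).choose j ≤ (j + 1) * m :=
    ((Nat.mul_le_mul_left _ (Nat.le_mul_of_pos_right _ hc)).trans hP).trans
      (Nat.mul_le_mul_left _ hSt.lo.le)
  have hH := hCHEAP n t d j m e q hSt (4 * (j + 1)) (by omega)
    (by rw [mul_pow]; omega) 𝓕 hA hSh
  have hC := hCELLB n t d j m 𝓕 hSt.t1 (by omega) hA hSh
  have hm : (𝓕.filter fun F => Gd t j 𝓕 F).card +
      (𝓕.filter fun F => ¬ Hi t j F ∧ ¬ Gd t j 𝓕 F).card +
      (𝓕.filter fun F => Hi t j F).card = m := by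
    have a1 := card_filter_add_card_filter_not (s := 𝓕) fun F => Hi t j F
    have a2 := card_filter_add_card_filter_not (s := 𝓕.filter fun F => ¬ Hi t j F)
      fun F => Gd t j 𝓕 F
    rw [filter_filter, filter_filter,
      filter_congr (p := fun F => ¬ Hi t j F ∧ Gd t j 𝓕 F) (q := fun F => Gd t j 𝓕 F)
        fun F _ => ⟨fun h => h.2, fun h => ⟨h.1, h⟩⟩] at a2
    have := hA.2.2
    omega
  refine GD_arith (s := t + 1 - j) (by omega) (by omega) hm hG hH hC ?_
  have h1 := Nat.mul_le_mul_left (j + 1) hlt.le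
  nlinarith

end Pool.Agent.P.MP_ed1e41_co.AS
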