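import Pool.Agent.P.MP_ed1e41_co.AS.Iface2

/-! Step HALF. -/

namespace Pool.Agent.P.MP_ed1e41_co.AS

open Finset
open scoped Classical

lemma HALF_add (b h s : ℕ) : b.choose (s + 1) + h * b.choose s ≤ (b + h).choose (s + 1) := by
  induction h with
  | zero => simp
  | succ h ih =>
    have h1 : (b + (h + 1)).choose (s + 1) = (b + h).choose s + (b + h).choose (s + 1) :=
      Nat.choose_succ_succ' _ _
    have h2 : b.choose s ≤ (b + h).choose s := Nat.choose_le_choose s (Nat.le_add_right _ _)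
    rw [h1, Nat.succ_mul]
    omega

lemma HALF_one (b h s : ℕ) (hb : b ≤ h * (s + 1)) :
    2 * b.choose (s + 1) ≤ (b + h).choose (s + 1) := by
  have h1 := HALF_add b h s
  have h2 : b.choose (s + 1) * (s + 1) ≤ h * b.choose s * (s + 1) := by
    rw [Nat.choose_succ_right_eq]
    calc b.choose s * (b - s) ≤ b.choose s * (h * (s + 1)) :=
          Nat.mul_le_mul_left _ ((Nat.sub_le _ _).trans hb)
      _ = h * b.choose s * (s + 1) := by ring
  have h3 := Nat.le_of_mul_le_mul_right h2 (Nat.succ_pos s)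
  omega

lemma HALF_step (a h s : ℕ) (ha : a ≤ h * (s + 1)) :
    2 * (a - h).choose (s + 1) ≤ a.choose (s + 1) := by
  rcases Nat.lt_or_ge a h with h1 | h1
  · rw [Nat.sub_eq_zero_of_le h1.le]; simp
  · have h2 := HALF_one (a - h) h s ((Nat.sub_le _ _).trans ha)
    rwa [Nat.sub_add_cancel h1] at h2

lemma HALF_two (a e : ℕ) (ha : 2 * e + 1 ≤ a) : a.choose e ≤ 2 * (a - 1).choose e := by
  obtain ⟨c, rfl⟩ : ∃ c, a = c + 1 := ⟨a - 1, by omega⟩
  rw [Nat.add_sub_cancel]
  cases e with
  | zero => simp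
  | succ s =>
    have h1 : c.choose s ≤ c.choose (s + 1) := Nat.choose_le_succ_of_lt_half_left (by omega)
    rw [Nat.choose_succ_succ']
    omega

theorem p_HALF :
    S_HALF := by
  refine ⟨fun Q r h z hr hQ => ?_, fun Q e x hQ => ?_, fun Q q r hr hq H => ?_⟩
  · obtain ⟨s, rfl⟩ : ∃ s, r = s + 1 := ⟨r - 1, by omega⟩
    induction z with
    | zero => simp
    | succ z ih =>
      have h1 := HALF_step (Q - h * z) h s ((Nat.sub_le _ _).trans hQ)
      rw [Nat.sub_sub, ← Nat.mul_succ] at h1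
      calc 2 ^ (z + 1) * (Q - h * (z + 1)).choose (s + 1)
          = 2 ^ z * (2 * (Q - h * (z + 1)).choose (s + 1)) := by ring
        _ ≤ 2 ^ z * (Q - h * z).choose (s + 1) := Nat.mul_le_mul_left _ h1
        _ ≤ _ := ih
  · induction x with
    | zero => simpa using HALF_two Q e hQ
    | succ x ih =>
      have h1 := HALF_two (Q - 1 - x) e (by omega)
      calc Q.choose e ≤ 2 ^ (x + 1) * (Q - 1 - x).choose e := ih (by omega)
        _ ≤ 2 ^ (x + 1) * (2 * (Q - 1 - x - 1).choose e) := Nat.mul_le_mul_left _ h1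
        _ = _ := by rw [Nat.sub_sub (Q - 1)]; ring
  · obtain ⟨s, rfl⟩ : ∃ s, r = s + 1 := ⟨r - 1, by omega⟩
    by_contra hc
    have h1 := HALF_one q q s (Nat.le_mul_of_pos_right _ (Nat.succ_pos s))
    have h2 : (q + q + 1).choose (s + 1) ≤ (Q - 1).choose (s + 1) :=
      Nat.choose_le_choose _ (by omega)
    have h3 : 0 < (q + q).choose s := Nat.choose_pos (by omega)
    rw [Nat.choose_succ_succ'] at h2
    omega

end Pool.Agent.P.MP_ed1e41_co.AS
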