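import Pool.Agent.P.MP_ed1e41_co.AS.Iface2

/-! Step INT. -/

namespace Pool.Agent.P.MP_ed1e41_co.AS

open Finset
open scoped Classical

theorem p_INT (hTOP : S_TOP) :
    S_INT := by
  intro v r i J X p Q G H hri hiJ hp hGv hGc hGH hHQ hX
  have hsub : Sg v i H ⊆ (Sg v i G ∪
      ((insert G (Sg v r H \ Sg v r G)) ×ˢ (Ico v (v + J * p)).powersetCard (i - r)).image
        fun z => z.1 ∪ z.2) ∪
      ((range J).filter fun l => (l + 1) * p ≤ Q).biUnion fun l =>
        (Ico v (v + Q) \ Ico (v + l * p) (v + (l + 1) * p)).powersetCard i := by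
    intro T hT
    obtain ⟨hTv, hTc, hTH⟩ := mem_Sg.1 hT
    rw [mem_union, mem_union]
    by_cases hTG : toColex T ≤ toColex G
    · exact Or.inl (Or.inl (mem_Sg.2 ⟨hTv, hTc, hTG⟩))
    obtain ⟨G', h1, h2, h3, h4⟩ := hTOP T r (by omega)
    have h5 := h4 G hGc (not_le.1 hTG).le
    have h6 : (T \ G').card = i - r := by rw [card_sdiff_of_subset h1, hTc, h2]
    by_cases hW : T \ G' ⊆ Ico v (v + J * p)
    · refine Or.inl (Or.inr (mem_image.2 ⟨(G', T \ G'), mem_product.2 ⟨?_,
        mem_powersetCard.2 ⟨hW, h6⟩⟩, union_sdiff_of_subset h1⟩))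
      by_cases e : toColex G' ≤ toColex G
      · exact mem_insert.2 (Or.inl (toColex_inj.1 (le_antisymm e h5)))
      · exact mem_insert.2 (Or.inr (mem_sdiff.2 ⟨mem_Sg.2 ⟨fun x hx => hTv x (h1 hx), h2,
          (colex_le_of_subset h1).trans hTH⟩, fun h => e (mem_Sg.1 h).2.2⟩))
    · obtain ⟨x, hx, hxW⟩ := not_subset.1 hW
      have hx1 := mem_sdiff.1 hx
      have hx2 : v + J * p ≤ x := by
        have := hTv x hx1.1
        rw [mem_Ico] at hxW
        omega
      have hx3 := lt_of_colex_le hTH hHQ x hx1.1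
      have h7 : T ∩ Ico v (v + J * p) ⊆ (T \ G').erase x := by
        intro y hy
        obtain ⟨hy1, hy2⟩ := mem_inter.1 hy
        have := (mem_Ico.1 hy2).2
        refine mem_erase.2 ⟨by omega, mem_sdiff.2 ⟨hy1, fun hy3 => ?_⟩⟩
        have := h3 x hx1.1 hx1.2 y hy3
        omega
      have h8 := card_le_card h7
      rw [card_erase_of_mem hx, h6] at h8
      have h9 : ((T ∩ Ico v (v + J * p)).image fun y => (y - v) / p).card < (range J).card := by
        have := card_image_le (s := T ∩ Ico v (v + J * p)) (f := fun y => (y - v) / p)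
        rw [card_range]
        omega
      obtain ⟨l, hl, hl'⟩ := exists_mem_notMem_of_card_lt_card h9
      have hl2 : (l + 1) * p ≤ J * p := Nat.mul_le_mul_right p (mem_range.1 hl)
      refine Or.inr (mem_biUnion.2 ⟨l, mem_filter.2 ⟨hl, by omega⟩,
        mem_powersetCard.2 ⟨fun y hy => mem_sdiff.2 ⟨mem_Ico.2 ⟨hTv y hy,
          lt_of_colex_le hTH hHQ y hy⟩, fun hb => hl' ?_⟩, hTc⟩⟩)
      rw [mem_Ico] at hb
      exact mem_image.2 ⟨y, mem_inter.2 ⟨hy, mem_Ico.2 ⟨by omega, by omega⟩⟩,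
        Nat.div_eq_of_lt_le (by omega) (by omega)⟩
  refine (card_le_card hsub).trans ((card_union_le _ _).trans (Nat.add_le_add
    ((card_union_le _ _).trans (Nat.add_le_add_left ?_ _)) ?_))
  · refine card_image_le.trans ?_
    rw [card_product, card_powersetCard, Nat.card_Ico, Nat.add_sub_cancel_left]
    refine Nat.mul_le_mul ((card_insert_le _ _).trans ?_) ((Nat.choose_le_pow _ _).trans
      (Nat.pow_le_pow_right (Nat.mul_pos (by omega) hp) (by omega)))
    rw [card_sdiff_of_subset (Sg_mono hGH)]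
    omega
  · refine (card_biUnion_le_card_mul _ _ ((Q - p).choose i) fun l hl => ?_).trans
      (Nat.mul_le_mul_right _ ((card_filter_le _ _).trans (card_range J).le))
    have h1 := (mem_filter.1 hl).2
    rw [card_powersetCard, card_sdiff_of_subset (Ico_subset_Ico (by omega) (by omega)),
      Nat.card_Ico, Nat.card_Ico]
    refine le_of_eq ?_
    congr 1
    rw [add_mul] at h1 ⊢
    omega

end Pool.Agent.P.MP_ed1e41_co.AS
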