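import Pool.Agent.P.MP_ed1e41_co.AS.Iface2

/-! Step LEV. -/

namespace Pool.Agent.P.MP_ed1e41_co.AS

open Finset
open scoped Classical

theorem p_LEV (hFILL : S_FILL) (hNEXT : S_NEXT) (hCHAIN : S_CHAIN) (hDOWN : S_DOWN) :
    S_LEV := by
  intro v r e 𝒯 G hT hre hG hGc hlt
  have h1 : ∀ i, r < i → i ≤ e → (𝒯 i).card ≤ (Sg v i G).card := by
    intro i hi hie
    by_contra hc
    obtain ⟨H, a1, a2, a3, a4⟩ := (hNEXT v i G (by omega)).1
    obtain ⟨l, rfl⟩ := Nat.exists_eq_add_of_le hi.le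
    have := card_insert_le H (Sg v (r + l) G)
    have := hDOWN v r l e 𝒯 G H hT hie hG hGc a1 a2 a3.le (by rw [a4]; omega)
    omega
  refine ⟨h1, fun x => ?_⟩
  obtain ⟨H, a1, a2, a3, a4⟩ := (hNEXT v e G (by omega)).1
  have b1 := h1 e hre le_rfl
  have b2 : (Sg v e H).card ≤ (Sg v e G).card + 1 := a4 ▸ card_insert_le H (Sg v e G)
  have b3 : ((Sg v e G).filter fun T => Av v x T).card ≤
      ((Sg v e H).filter fun T => Av v x T).card :=
    card_le_card (filter_subset_filter _ (Sg_mono a3.le))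
  by_contra hc
  obtain ⟨N, hN⟩ := exists_bound (insert H (𝒯 e))
  obtain ⟨t1, t2, t3⟩ := hT e hre le_rfl
  have c1 := hCHAIN x v N e ((Sg v e G).card + 1 - (𝒯 e).card) (𝒯 e) (Sg v e H)
    (fun A hA => inU_pure.2 ⟨fun y hy => mem_Ico.2
      ⟨(t1 A hA).1 y hy, hN A (mem_insert_of_mem hA) y hy⟩, (t1 A hA).2⟩) t2
    (Sg_inU (hN H (mem_insert_self _ _))) (Sg_down v e N H) (by omega) (by omega)
  have c2 := card_le_card t3
  obtain ⟨G2, g1, g2⟩ := hFILL v G H hG a1 (by omega) a3.le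
  obtain ⟨g3, g4, g5⟩ := mem_Sg.1 g1
  obtain ⟨l, rfl⟩ := Nat.exists_eq_add_of_lt hre
  obtain ⟨G1, k1, k2, k3⟩ := exists_subsuperset_card_eq (n := r + l) g2 (by omega) (by omega)
  have c3 : Sg v (r + l) G1 ⊆ shadow (Sg v (r + l + 1) H) := fun A hA => by
    obtain ⟨m1, m2, m3⟩ := mem_Sg.1 hA
    obtain ⟨A', n1, n2⟩ := hFILL v A H m1 a1 (by omega)
      (m3.trans ((colex_le_of_subset k2).trans g5))
    rw [a2] at n1
    exact mem_shadow_iff_exists_mem_card_add_one.2 ⟨A', n1, n2, by rw [(mem_Sg.1 n1).2.1, m2]⟩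
  have c4 := card_le_card c3
  rw [Nat.add_sub_cancel] at c2
  have := hDOWN v r l (r + l + 1) 𝒯 G G1 hT (Nat.le_succ _) hG hGc (fun y hy => g3 y (k2 hy)) k3
    (colex_le_of_subset k1) (c4.trans (c1.trans c2))
  omega

end Pool.Agent.P.MP_ed1e41_co.AS
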