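import Pool.Agent.P.MP_ed1e41_co.AS.Iface2

/-! Step MONO. -/

namespace Pool.Agent.P.MP_ed1e41_co.AS

open Finset
open scoped Classical

theorem p_MONO :
    S_MONO := by
  intro b n w u k 𝓕 𝓘 hF hFs hI hId hcard
  rcases le_or_gt n b with hnb | hnb
  · have : 𝓘.memberSubfamily b = ∅ := by
      rw [eq_empty_iff_forall_notMem]
      intro G hG
      have := mem_Ico.1 ((hI _ (mem_memberSubfamily.1 hG).1).1 (mem_insert_self _ _))
      omega
    rw [this]
    exact Nat.zero_le _
  obtain ⟨r, hb⟩ : ∃ r, b + (r + 1) = n := ⟨n - (b + 1), by omega⟩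
  have ih := genKK_aux n w r
  have hFb : ∀ F ∈ 𝓕, ∀ x ∈ F, b ≤ x := fun F h x hx => (mem_Ico.1 ((hF F h).1 hx)).1
  have hIb : ∀ F ∈ 𝓘, ∀ x ∈ F, b ≤ x := fun F h x hx => (mem_Ico.1 ((hI F h).1 hx)).1
  have hIs := hId.shiftedFrom hI
  have hF0 : ∀ F ∈ 𝓕.nonMemberSubfamily b, InU (b + 1) n w u k F := fun F h =>
    (hF F (mem_nonMemberSubfamily.1 h).1).non (mem_nonMemberSubfamily.1 h).2
  have hI0 : ∀ F ∈ 𝓘.nonMemberSubfamily b, InU (b + 1) n w u k F := fun F h =>
    (hI F (mem_nonMemberSubfamily.1 h).1).non (mem_nonMemberSubfamily.1 h).2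
  have hF0s : ShiftedFrom (b + 1) (𝓕.nonMemberSubfamily b) := by
    intro F h i j hi hij hj hiF
    rw [mem_nonMemberSubfamily] at h ⊢
    refine ⟨hFs F h.1 i j (by omega) hij hj hiF, ?_⟩
    rw [mem_insert, not_or]
    exact ⟨by omega, by simp [h.2]⟩
  by_contra hc
  have e1 := card_memberSubfamily_add_card_nonMemberSubfamily b 𝓕
  have e2 := card_memberSubfamily_add_card_nonMemberSubfamily b 𝓘
  have hlt : (𝓘.nonMemberSubfamily b).card < (𝓕.nonMemberSubfamily b).card := by omega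
  let R := (Ico (b + 1) n).powerset.filter
    (fun H => InU (b + 1) n w u k H ∧ H ∉ 𝓘.nonMemberSubfamily b)
  have hR : ∀ H, H ∈ R ↔ InU (b + 1) n w u k H ∧ H ∉ 𝓘.nonMemberSubfamily b := by
    intro H
    simp only [R, mem_filter, mem_powerset]
    exact ⟨fun h => h.2, fun h => ⟨h.1.1, h⟩⟩
  have hRne : R.Nonempty := by
    obtain ⟨H, hH1, hH2⟩ := exists_mem_notMem_of_card_lt_card hlt
    exact ⟨H, (hR H).2 ⟨hF0 H hH1, hH2⟩⟩
  obtain ⟨H, hH, hHmin⟩ := exists_min_image R (fun H => toColex H) hRne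
  rw [hR] at hH
  have hbelow : ∀ G, InU (b + 1) n w u k G → toColex G ≤ toColex H →
      G ∈ insert H (𝓘.nonMemberSubfamily b) := by
    intro G hG hle
    rw [mem_insert]
    by_contra hc
    rw [not_or] at hc
    have := hHmin G ((hR G).2 ⟨hG, hc.2⟩)
    exact hc.1 (toColex.injective (le_antisymm hle this))
  have h2 := ih (b + 1) u k (𝓕.nonMemberSubfamily b) (insert H (𝓘.nonMemberSubfamily b))
    (by omega) hF0 hF0s
    (by
      intro F h
      rw [mem_insert] at h
      rcases h with rfl | h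
      · exact hH.1
      · exact hI0 F h)
    (by
      intro F h G hG hlt
      rw [mem_insert] at h
      rcases h with rfl | h
      · exact hbelow G hG hlt.le
      · rw [mem_nonMemberSubfamily] at h
        exact mem_insert_of_mem
          (mem_nonMemberSubfamily.2 ⟨hId F h.1 G hG.up.1 hlt, hG.up.2⟩))
    (by rw [card_insert_of_notMem hH.2]; omega)
  have h3 := card_le_card (shadow_non_subset hFs hFb)
  have h4 : 𝓘.memberSubfamily b ⊆ shadow (insert H (𝓘.nonMemberSubfamily b)) := by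
    intro G hG
    rw [mem_memberSubfamily] at hG
    have hlt : toColex (insert b G) < toColex H := by
      by_contra hc
      rw [not_lt] at hc
      rcases hc.lt_or_eq with hc | hc
      · exact hH.2 (mem_nonMemberSubfamily.2 ⟨hId _ hG.1 H hH.1.up.1 hc, hH.1.up.2⟩)
      · have := toColex.injective hc
        exact hH.1.up.2 (this ▸ mem_insert_self b G)
    obtain ⟨z, hz, hzU, hzle⟩ := key_step hG.2 (hI _ hG.1) hH.1 hlt
    exact mem_shadow_iff_insert_mem.2 ⟨z, hz, hbelow _ hzU hzle⟩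
  have h5 := card_le_card h4
  omega

end Pool.Agent.P.MP_ed1e41_co.AS
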