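import Pool.Agent.P.MP_ed1e41_co.AS.Iface2

/-! Step NEXT. -/

namespace Pool.Agent.P.MP_ed1e41_co.AS

open Finset
open scoped Classical

lemma NEXT_one (v r : ℕ) (G : Finset ℕ) (hr : 1 ≤ r) :
    ∃ H : Finset ℕ, (∀ x ∈ H, v ≤ x) ∧ H.card = r ∧ toColex G < toColex H ∧
      Sg v r H = insert H (Sg v r G) := by
  obtain ⟨a, ha⟩ := exists_bound {G}
  have h0 : Ico (v + a) (v + a + r) ∈
      ((Ico v (v + a + r)).powersetCard r).filter fun T => toColex G < toColex T := by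
    refine mem_filter.2 ⟨mem_powersetCard.2 ⟨Ico_subset_Ico (by omega) le_rfl, by simp⟩, ?_⟩
    refine colex_lt_of_max (a := v + a) (mem_Ico.2 (by omega)) fun x hx => ?_
    have := ha G (mem_singleton_self _) x hx
    omega
  obtain ⟨H, hH, hmin⟩ := exists_min_image _ (fun T : Finset ℕ => toColex T) ⟨_, h0⟩
  obtain ⟨h1, h2⟩ := mem_filter.1 hH
  obtain ⟨h3, h4⟩ := mem_powersetCard.1 h1
  have h5 : ∀ x ∈ H, v ≤ x := fun x hx => (mem_Ico.1 (h3 hx)).1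
  refine ⟨H, h5, h4, h2, ?_⟩
  ext T
  rw [mem_insert]
  constructor
  · intro hT
    by_cases c : toColex G < toColex T
    · have h6 := hmin T (mem_filter.2 ⟨Sg_sub (fun x hx => (mem_Ico.1 (h3 hx)).2) hT, c⟩)
      exact Or.inl (toColex_inj.1 (le_antisymm (mem_Sg.1 hT).2.2 h6))
    · exact Or.inr (mem_Sg.2 ⟨(mem_Sg.1 hT).1, (mem_Sg.1 hT).2.1, not_lt.1 c⟩)
  · rintro (rfl | hT)
    · exact mem_Sg.2 ⟨h5, h4, le_rfl⟩
    · exact Sg_mono h2.le hT

theorem p_NEXT :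
    S_NEXT := by
  intro v r G hr
  refine ⟨NEXT_one v r G hr, fun h1 h2 X => ?_⟩
  induction X with
  | zero => exact ⟨G, h1, h2, le_rfl, rfl⟩
  | succ X ih =>
    obtain ⟨H, -, -, h3, h4⟩ := ih
    obtain ⟨H', h5, h6, h7, h8⟩ := NEXT_one v r H hr
    refine ⟨H', h5, h6, h3.trans h7.le, ?_⟩
    rw [h8, card_insert_of_notMem fun h => not_le.2 h7 (mem_Sg.1 h).2.2, h4, add_assoc]

end Pool.Agent.P.MP_ed1e41_co.AS
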