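import Pool.Agent.P.MP_ed1e41_co.AS.Iface2

/-! Step NSB. -/

namespace Pool.Agent.P.MP_ed1e41_co.AS

open Finset
open scoped Classical

lemma NSB_geo (a : ℕ → ℕ) (B m : ℕ) (h : ∀ y < m, a y * 2 ^ y ≤ B) :
    (∑ y ∈ range m, a y) * 2 ^ m + 2 * B ≤ 2 * B * 2 ^ m := by
  induction m with
  | zero => simp
  | succ m ih =>
    have h1 := ih fun y hy => h y (by omega)
    have h2 := h m (by omega)
    rw [sum_range_succ, pow_succ]
    nlinarith

lemma NSB_term {N e R x y : ℕ} (hR : 2 ^ 23 ≤ R) (he : e ≤ N) (h : R * e ≤ 2 * (N + 1 - e))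
    (hy : y < e) (hx : x < 4 * (y + 1)) :
    16 ^ x * ((4 * (y + 1)).choose (y + 1) * N.choose (e - (y + 1))) * 2 ^ y ≤
      2 ^ 16 * N.choose (e - 1) := by
  have h1 := ratio (a := R) (b := 2) (e := e - 1) (N := N)
    (((Nat.mul_le_mul_left R (by omega)).trans h).trans (by omega)) (by omega) y (by omega)
  rw [show e - 1 - y = e - (y + 1) by omega] at h1
  have h2 : (4 * (y + 1)).choose (y + 1) ≤ 2 ^ (4 * (y + 1)) := Nat.choose_le_two_pow _ _
  have h3 : (2 ^ 23) ^ y ≤ R ^ y := Nat.pow_le_pow_left hR y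
  have h4 : 16 ^ x ≤ 2 ^ (16 * y + 12) := by
    rw [show (16 : ℕ) = 2 ^ 4 by norm_num, ← pow_mul]
    exact Nat.pow_le_pow_right (by norm_num) (by omega)
  have h5 : 2 ^ (16 * y + 12) * 2 ^ (4 * (y + 1)) * 2 ^ y * 2 ^ y ≤ 2 ^ 16 * (2 ^ 23) ^ y := by
    rw [← pow_mul, ← pow_add, ← pow_add, ← pow_add, ← pow_add]
    exact Nat.pow_le_pow_right (by norm_num) (by omega)
  refine Nat.le_of_mul_le_mul_right ?_ (show 0 < R ^ y by positivity)
  calc 16 ^ x * ((4 * (y + 1)).choose (y + 1) * N.choose (e - (y + 1))) * 2 ^ y * R ^ y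
      = 16 ^ x * (4 * (y + 1)).choose (y + 1) * 2 ^ y * (R ^ y * N.choose (e - (y + 1))) := by ring
    _ ≤ 2 ^ (16 * y + 12) * 2 ^ (4 * (y + 1)) * 2 ^ y * (2 ^ y * N.choose (e - 1)) := by gcongr
    _ = 2 ^ (16 * y + 12) * 2 ^ (4 * (y + 1)) * 2 ^ y * 2 ^ y * N.choose (e - 1) :=
        (mul_assoc _ _ _).symm
    _ ≤ 2 ^ 16 * R ^ y * N.choose (e - 1) :=
        Nat.mul_le_mul_right _ (h5.trans (Nat.mul_le_mul_left _ h3))
    _ = _ := mul_right_comm _ _ _

theorem p_NSB :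
    S_NSB := by
  intro v x₀ n N e R hn hR _ he h
  have hsub : (((Ico (v + x₀) n).powersetCard e).filter fun T => ¬ Sp v T) ⊆
      ((range e).filter fun y => x₀ < 4 * (y + 1)).biUnion fun y =>
        (((Ico v (v + 4 * (y + 1))).powersetCard (y + 1)) ×ˢ
          ((Ico (v + x₀) n).powersetCard (e - (y + 1)))).image fun p => p.1 ∪ p.2 := by
    intro T hT
    rw [mem_filter, mem_powersetCard] at hT
    obtain ⟨⟨h1, h2⟩, h3⟩ := hT
    unfold Sp at h3
    push Not at h3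
    obtain ⟨x, hx⟩ := h3
    have h4 := card_sdiff_add_card_inter T (Ico v (v + x))
    obtain ⟨y, hy⟩ : ∃ y, (T ∩ Ico v (v + x)).card = y + 1 :=
      ⟨(T ∩ Ico v (v + x)).card - 1, by omega⟩
    obtain ⟨z, hz⟩ := card_pos.1 (show 0 < (T ∩ Ico v (v + x)).card by omega)
    have z1 := mem_Ico.1 (h1 (mem_inter.1 hz).1)
    have z2 := mem_Ico.1 (mem_inter.1 hz).2
    refine mem_biUnion.2 ⟨y, mem_filter.2 ⟨mem_range.2 (by omega), by omega⟩, mem_image.2
      ⟨(T ∩ Ico v (v + x), T \ Ico v (v + x)), mem_product.2 ⟨mem_powersetCard.2 ⟨?_, hy⟩,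
        mem_powersetCard.2 ⟨sdiff_subset.trans h1, ?_⟩⟩, ?_⟩⟩
    · exact inter_subset_right.trans (Ico_subset_Ico_right (by omega))
    · show (T \ Ico v (v + x)).card = e - (y + 1)
      omega
    · show T ∩ Ico v (v + x) ∪ T \ Ico v (v + x) = T
      rw [union_comm, sdiff_union_inter]
  have hc : (((Ico (v + x₀) n).powersetCard e).filter fun T => ¬ Sp v T).card ≤
      ∑ y ∈ (range e).filter fun y => x₀ < 4 * (y + 1),
        (4 * (y + 1)).choose (y + 1) * N.choose (e - (y + 1)) := by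
    refine (card_le_card hsub).trans (card_biUnion_le.trans (sum_le_sum fun y _ => ?_))
    refine card_image_le.trans ?_
    rw [card_product, card_powersetCard, card_powersetCard, Nat.card_Ico, Nat.card_Ico,
      Nat.add_sub_cancel_left, hn, Nat.add_sub_cancel_left]
  have hg := NSB_geo (fun y => if x₀ < 4 * (y + 1) then
      16 ^ x₀ * ((4 * (y + 1)).choose (y + 1) * N.choose (e - (y + 1))) else 0)
    (2 ^ 16 * N.choose (e - 1)) e fun y hy => by
      split_ifs with hx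
      · exact NSB_term hR he h hy hx
      · simp
  rw [← sum_filter, ← mul_sum,
    show 2 * (2 ^ 16 * N.choose (e - 1)) = 2 ^ 17 * N.choose (e - 1) by ring] at hg
  exact (Nat.mul_le_mul_left _ hc).trans
    (Nat.le_of_mul_le_mul_right (Nat.le_of_add_right_le hg) (show 0 < 2 ^ e by positivity))

end Pool.Agent.P.MP_ed1e41_co.AS
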