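import Pool.Agent.P.MP_ed1e41_co.AS.Iface2

/-! Step NUM. -/

namespace Pool.Agent.P.MP_ed1e41_co.AS

open Finset
open scoped Classical

lemma NUM_pow (a e : ℕ) : (a + 1) ^ e ≤ ((a + 1) * e).choose e := by
  induction e with
  | zero => simp
  | succ e ih =>
    have h1 := Nat.add_one_mul_choose_eq ((a + 1) * e + a) e
    have h2 : (a + 1) * e + a + 1 = (a + 1) * (e + 1) := by ring
    rw [h2] at h1
    have h3 : ((a + 1) * e).choose e ≤ ((a + 1) * e + a).choose e :=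
      Nat.choose_le_choose _ (by omega)
    refine Nat.le_of_mul_le_mul_right (c := e + 1) ?_ (by omega)
    rw [← h1, pow_succ]
    calc (a + 1) ^ e * (a + 1) * (e + 1) = (a + 1) * (e + 1) * (a + 1) ^ e := by ring
      _ ≤ _ := Nat.mul_le_mul_left _ (ih.trans h3)

lemma NUM_mono (n a k : ℕ) (h : a + k ≤ n / 2) : n.choose a ≤ n.choose (a + k) := by
  induction k with
  | zero => simp
  | succ k ih => exact (ih (by omega)).trans (Nat.choose_le_succ_of_lt_half_left (by omega))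

lemma NUM_fin (L B C D N Z : ℕ) (hB : 0 < B) (hL : 19 ≤ L) (h1 : B ≤ 2 * L * C)
    (h2 : C ≤ D + 1 + N + Z) (h3 : L ^ 2 * D ≤ B) (h4 : L ^ 2 ≤ B) (h5 : L ^ 2 * N ≤ B)
    (h6 : L ^ 2 * Z ≤ 6 * B) : False := by
  have h7 : L ^ 2 * C ≤ 9 * B :=
    calc L ^ 2 * C ≤ L ^ 2 * (D + 1 + N + Z) := Nat.mul_le_mul_left _ h2
      _ = L ^ 2 * D + L ^ 2 + L ^ 2 * N + L ^ 2 * Z := by ring
      _ ≤ _ := by omega
  have h8 : L * (L * B) ≤ 18 * (L * B) :=
    calc L * (L * B) = L ^ 2 * B := by ring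
      _ ≤ L ^ 2 * (2 * L * C) := Nat.mul_le_mul_left _ h1
      _ = 2 * L * (L ^ 2 * C) := by ring
      _ ≤ 2 * L * (9 * B) := Nat.mul_le_mul_left _ h7
      _ = _ := by ring
  have := Nat.le_of_mul_le_mul_right h8 (Nat.mul_pos (by omega) hB)
  omega

theorem p_NUM (hPOW : S_POW) (hHALF : S_HALF) (hNUMA : S_NUMA) :
    S_NUM := by
  intro t j e q r R x Q D N m he hR ht hx hxe hq hQ hm1 hm2 hD hN hr hall
  have hJ3 : j + 1 ≤ (j + 1) ^ 3 := Nat.le_self_pow (by norm_num) _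
  have hxJ : 10 ^ 6 * (j + 1) ^ 3 ≤ x := by omega
  have hR23 : 2 ^ 23 ≤ R := by omega
  have hr1 : 1 ≤ r := by omega
  have hx6 : 10 ^ 6 ≤ x := by omega
  have hRe : 2 ^ 23 * e ≤ R * e := Nat.mul_le_mul_right _ hR23
  have hW := hPOW (j + 1) x (by omega) hxJ
  obtain ⟨L, hL⟩ : ∃ L, L = 2 ^ x := ⟨_, rfl⟩
  rw [← hL] at hW
  have hL9 : 2 ^ 9 ≤ L := hL ▸ Nat.pow_le_pow_right (by norm_num) (by omega)
  have hJx : x ≤ (j + 1) * x := Nat.le_mul_of_pos_left _ (by omega)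
  have hJx' : j + 1 ≤ (j + 1) * x := Nat.le_mul_of_pos_right _ (by omega)
  have hRJ : R * (j + 1) ≤ 8 * x * (j + 1) := Nat.mul_le_mul_right _ hx
  have hWe : 54 * (j + 1) * x = 54 * ((j + 1) * x) := by ring
  have hv : t + 2 * j ≤ 54 * (j + 1) * x := by
    have e1 : 2 * R * (j + 1) = 2 * (R * (j + 1)) := by ring
    have e2 : 8 * x * (j + 1) = 8 * ((j + 1) * x) := by ring
    omega
  have hRW : R ≤ 54 * (j + 1) * x := by omega
  have hWL : 54 * (j + 1) * x ≤ L := (Nat.le_self_pow (by omega) _).trans hW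
  have hc : (t + 2 * j).choose j ≤ L :=
    calc (t + 2 * j).choose j ≤ (t + 2 * j) ^ j := Nat.choose_le_pow _ _
      _ ≤ (54 * (j + 1) * x) ^ j := Nat.pow_le_pow_left hv _
      _ ≤ (54 * (j + 1) * x) ^ (j + 1) := Nat.pow_le_pow_right (by omega) (by omega)
      _ ≤ L := hW
  have hc0 : 0 < (t + 2 * j).choose j := Nat.choose_pos (by omega)
  have hRp : R ^ (j + 2) ≤ L * L := by
    rw [pow_succ]
    exact Nat.mul_le_mul ((Nat.pow_le_pow_left hRW _).trans hW) (hRW.trans hWL)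
  rw [show e - (j + 2) = r - 1 by omega, mul_comm 9 x, pow_mul, ← hL] at hD
  have hD' : L ^ 6 * D ≤ 4 * (q - 2).choose (r - 1) := by
    refine Nat.le_of_mul_le_mul_left (c := L ^ 3) ?_ (by positivity)
    calc L ^ 3 * (L ^ 6 * D) = L ^ 9 * D := by ring
      _ ≤ 4 * R ^ (j + 2) * ((t + 2 * j).choose j * (q - 2).choose (r - 1)) := hD
      _ ≤ 4 * (L * L) * (L * (q - 2).choose (r - 1)) :=
        Nat.mul_le_mul (Nat.mul_le_mul_left _ hRp) (Nat.mul_le_mul_right _ hc)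
      _ = _ := by ring
  have hA : (q - 2).choose (e - 1) ≤ Q.choose e := by
    have h1 : (t + 2 * j).choose j * (R * (q - 2).choose (e - 1)) ≤
        (t + 2 * j).choose j * (2 * Q.choose e) :=
      calc _ = R * ((t + 2 * j).choose j * (q - 2).choose (e - 1)) := by ring
        _ ≤ 2 * ((t + 2 * j).choose j * Q.choose e) := hm1.trans hm2
        _ = _ := by ring
    have h2 := Nat.le_of_mul_le_mul_left h1 hc0
    have h3 : 2 * (q - 2).choose (e - 1) ≤ R * (q - 2).choose (e - 1) :=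
      Nat.mul_le_mul_right _ (by omega)
    omega
  obtain ⟨p, Y, hp, hY, hZ⟩ := hNUMA (j + 1) e q r R x Q L _ (t + 2 * j) D (by omega) he hR23 hxJ
    hxe hq hQ hL hW (hv.trans hWL) hD' hA hr hc
  have hH := hHALF.2.1 Q e x (by omega)
  rw [pow_succ, ← hL, mul_comm L 2] at hH
  have hE : (q - 2).choose (r - 1) ≤ (q - 2).choose (e - 1) := by
    rw [show e - 1 = r - 1 + (j + 1) by omega]
    exact NUM_mono _ _ _ (by omega)
  have hL2 : 2 ^ 17 ≤ L ^ 2 := le_trans (by norm_num) (Nat.pow_le_pow_left hL9 2)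
  have hL4 : 4 ≤ L ^ 4 := le_trans (by norm_num) (Nat.pow_le_pow_left hL9 4)
  refine NUM_fin L (Q.choose e) _ D N _ (Nat.choose_pos (by omega)) (by omega) hH
    (hall p Y hp hY) ?_ ?_ ?_ hZ
  · have h1 : 4 * (L ^ 2 * D) ≤ L ^ 4 * (L ^ 2 * D) := Nat.mul_le_mul_right _ hL4
    have h2 : L ^ 4 * (L ^ 2 * D) = L ^ 6 * D := by ring
    omega
  · calc L ^ 2 = 2 ^ (x * 2) := by rw [hL, pow_mul]
      _ ≤ 2 ^ (3 * e) := Nat.pow_le_pow_right (by norm_num) (by omega)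
      _ = (7 + 1) ^ e := by rw [pow_mul]; norm_num
      _ ≤ ((7 + 1) * e).choose e := NUM_pow 7 e
      _ ≤ _ := Nat.choose_le_choose _ (by omega)
  · have h1 : (q - x).choose (e - 1) ≤ (q - 2).choose (e - 1) := Nat.choose_le_choose _ (by omega)
    have h2 : 16 ^ x = L ^ 4 := by
      rw [hL, ← pow_mul, mul_comm x 4, pow_mul]; norm_num
    refine Nat.le_of_mul_le_mul_left (c := L ^ 2) ?_ (by positivity)
    calc L ^ 2 * (L ^ 2 * N) = 16 ^ x * N := by rw [h2]; ring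
      _ ≤ 2 ^ 17 * (q - x).choose (e - 1) := hN
      _ ≤ _ := Nat.mul_le_mul hL2 (h1.trans hA)

end Pool.Agent.P.MP_ed1e41_co.AS
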