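import Pool.Agent.P.MP_ed1e41_co.AS.Iface2

/-! Step NUMA. -/

namespace Pool.Agent.P.MP_ed1e41_co.AS

open Finset
open scoped Classical

theorem NUMA_fin {L c J v D P Y B : ℕ} (hc : c ≤ L) (hJ : J ≤ L) (hJ2 : J * J ≤ L) (hv : v ≤ L)
    (h1 : L ^ 5 * D * P ≤ 4 * B) (h2 : L ^ 4 * P ≤ B) (h3 : Y * L ^ 4 ≤ B) :
    L ^ 2 * (c * J * ((v * D + 1) * P + J * Y)) ≤ 6 * B :=
  calc L ^ 2 * (c * J * ((v * D + 1) * P + J * Y))
      = L ^ 2 * c * J * v * (D * P) + L ^ 2 * c * J * P + L ^ 2 * c * (J * J) * Y := by ring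
    _ ≤ L ^ 2 * L * L * L * (D * P) + L ^ 2 * L * L * P + L ^ 2 * L * L * Y := by gcongr
    _ = L ^ 5 * D * P + L ^ 4 * P + Y * L ^ 4 := by ring
    _ ≤ 6 * B := by omega

theorem p_NUMA (hHALF : S_HALF) :
    S_NUMA := by
  intro J e q r R x Q L c v D hJ he hR hx hxe hq hQ hL hW hv hD hB hQq hc
  have j3 : J ≤ J ^ 3 := Nat.le_self_pow (by norm_num) _
  have hRe : 2 ^ 23 * e ≤ R * e := Nat.mul_le_mul_right _ hR
  have hRr : R * r ≤ R * e := Nat.mul_le_mul_left _ (by omega)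
  have e0 : 0 < e := by omega
  have L0 : 0 < L := by rw [hL]; positivity
  have hWL : 54 * J * x ≤ L := (Nat.le_self_pow (by omega) _).trans hW
  have hJJ : J * J ≤ L := le_trans (by
    rw [mul_comm 54 J, mul_assoc]
    exact Nat.mul_le_mul_left _ (by omega)) hWL
  have hJL : J ≤ L := (Nat.le_mul_self J).trans hJJ
  have L4 : 4 ≤ L := le_trans (by nlinarith) hWL
  obtain ⟨h, hh⟩ : ∃ h, h = 2 * Q / e + 1 := ⟨_, rfl⟩
  have h1 : h * e ≤ 3 * Q := by
    have := Nat.div_mul_le_self (2 * Q) e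
    rw [hh, add_mul]
    omega
  have h2 : 2 * Q < h * e := by
    rw [hh, mul_comm _ e]
    exact Nat.lt_mul_div_succ _ e0
  have hE : (q - 2).choose (r - 1) ≤ q.choose r := by
    obtain ⟨q', rfl⟩ : ∃ q', q = q' + 1 := ⟨q - 1, by omega⟩
    obtain ⟨r', rfl⟩ : ∃ r', r = r' + 1 := ⟨r - 1, by omega⟩
    rw [Nat.choose_succ_succ']
    exact (Nat.choose_le_choose _ (by omega)).trans (Nat.le_add_right _ _)
  have hvD : v * D ≤ (q - 2).choose (r - 1) := by
    have a : 4 * (v * D) ≤ L ^ 6 * D :=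
      calc 4 * (v * D) = 4 * v * 1 * D := by ring
        _ ≤ L * L * L ^ 4 * D := by gcongr; exact Nat.one_le_pow _ _ L0
        _ = L ^ 6 * D := by ring
    omega
  have hQ2 : Q ≤ 2 * q + 1 := hHALF.2.2 Q q r (by omega) (by omega) (by omega)
  have key : ∀ a b, a ≤ e → 12 * Q ≤ 54 * b → J * (h * (4 * x)) * a ≤ 54 * J * x * b :=
    fun a b ha hb =>
    calc J * (h * (4 * x)) * a ≤ J * (h * (4 * x)) * e := by gcongr
      _ = J * x * (4 * (h * e)) := by ring
      _ ≤ J * x * (54 * b) := Nat.mul_le_mul_left _ (by omega)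
      _ = 54 * J * x * b := by ring
  have r1 := ratio (N := q - 2) (key (e - 1) _ (by omega) (by omega)) (by omega) J (by omega)
  have r2 := ratio (N := Q) (key e _ le_rfl (by omega)) (by omega) J (by omega)
  have r3 := ratio (a := R) (b := 1) (e := r) (N := Q) (by omega) (by omega) r le_rfl
  rw [show e - 1 - J = r - 1 by omega] at r1
  rw [show e - J = r by omega] at r2
  rw [Nat.sub_self, Nat.choose_zero_right, one_pow, mul_one, one_mul] at r3
  have r4 : L ^ 5 ≤ Q.choose r := by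
    refine le_trans ?_ ((Nat.pow_le_pow_left hR r).trans r3)
    rw [hL, ← pow_mul, ← pow_mul]
    exact Nat.pow_le_pow_right (by norm_num) (by omega)
  refine ⟨h * (4 * x), Q.choose e / L ^ 4, Nat.mul_pos (hh ▸ Nat.succ_pos _) (by omega),
    fun i hi hie => ?_,
    NUMA_fin hc hJL hJJ hv ?_ ?_ (Nat.div_mul_le_self _ _)⟩
  · have a1 := hHALF.1 Q i h (4 * x) (by omega) (by
      have : h * e ≤ h * (2 * i) := Nat.mul_le_mul_left _ (by omega)
      rw [mul_left_comm] at this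
      omega)
    have a2 := ratio (a := 1) (b := 1) (e := e) (N := Q) (by omega) (by omega) (e - i) (by omega)
    rw [one_pow, one_mul, one_mul, show e - (e - i) = i by omega] at a2
    rw [Nat.le_div_iff_mul_le (by positivity), hL, ← pow_mul, mul_comm, mul_comm x]
    exact a1.trans a2
  · generalize (J * (h * (4 * x))) ^ J = P at *
    refine Nat.le_of_mul_le_mul_left ?_ L0
    calc L * (L ^ 5 * D * P) = P * (L ^ 6 * D) := by ring
      _ ≤ P * (4 * (q - 2).choose (r - 1)) := by gcongr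
      _ = 4 * (P * (q - 2).choose (r - 1)) := by ring
      _ ≤ 4 * (L * Q.choose e) := Nat.mul_le_mul_left _ (r1.trans (Nat.mul_le_mul hW hB))
      _ = L * (4 * Q.choose e) := by ring
  · generalize (J * (h * (4 * x))) ^ J = P at *
    refine Nat.le_of_mul_le_mul_left ?_ L0
    calc L * (L ^ 4 * P) = P * L ^ 5 := by ring
      _ ≤ P * Q.choose r := by gcongr
      _ ≤ L * Q.choose e := r2.trans (Nat.mul_le_mul_right _ hW)

end Pool.Agent.P.MP_ed1e41_co.AS
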