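import Pool.Agent.P.MP_ed1e41_co.AS.Iface2

/-! Step OUT. -/

namespace Pool.Agent.P.MP_ed1e41_co.AS

open Finset
open scoped Classical

lemma OUT_geo (a : ℕ → ℕ) (K : ℕ) : ∀ n x : ℕ, (∀ y, x ≤ y → 2 ^ (9 * y) * a y ≤ K) →
    2 ^ (9 * x) * ∑ y ∈ Ico x (x + n), a y ≤ 2 * K := by
  intro n
  induction n with
  | zero => intro x _; simp
  | succ n ih =>
    intro x h
    have h1 := ih (x + 1) (fun y hy => h y (by omega))
    have h2 := h x le_rfl
    rw [sum_eq_sum_Ico_succ_bot (by omega), show x + (n + 1) = x + 1 + n by ring, mul_add]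
    rw [show 9 * (x + 1) = 9 * x + 9 by ring, pow_add, mul_right_comm] at h1
    omega

theorem p_OUT (hDCU : S_DCU) :
    S_OUT := by
  intro n t d i e q R x w X 𝓧 hd hn hR hq ht hx hw hX
  have h1 : 𝓧.card ≤ ∑ y ∈ Ico x (x + (X + 1)), (DD n t d i y).card :=
    ((card_le_card hX).trans card_biUnion_le).trans
      (sum_le_sum_of_subset fun y hy => by
        have := mem_Icc.1 hy
        exact mem_Ico.2 ⟨this.1, by omega⟩)
  have h2 := OUT_geo (fun y => (DD n t d i y).card) _ (X + 1) x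
    (fun y hy => hDCU n t d i e q R y w hd hn hR hq ht (by omega) (by omega))
  calc _ ≤ _ := Nat.mul_le_mul_left _ h1
    _ ≤ _ := h2
    _ = _ := by ring

end Pool.Agent.P.MP_ed1e41_co.AS
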