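import Pool.Agent.P.MP_ed1e41_co.AS.Iface2

/-! Step POW. -/

namespace Pool.Agent.P.MP_ed1e41_co.AS

open Finset
open scoped Classical

lemma POW_sq (y : ℕ) (h : 4 ≤ y) : y * y ≤ 2 ^ y := by
  induction y, h using Nat.le_induction with
  | base => norm_num
  | succ n hn ih =>
    rw [pow_succ]
    nlinarith

theorem p_POW :
    S_POW := by
  intro J x hJ hx
  obtain ⟨y, hy⟩ : ∃ y, y = x / J := ⟨_, rfl⟩
  have h1 : 10 ^ 6 * J ^ 2 ≤ y := by
    rw [hy, Nat.le_div_iff_mul_le hJ]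
    calc 10 ^ 6 * J ^ 2 * J = 10 ^ 6 * J ^ 3 := by ring
      _ ≤ x := hx
  have h2 : x < J * (y + 1) := hy ▸ Nat.lt_mul_div_succ x hJ
  have h3 : y * J ≤ x := hy ▸ Nat.div_mul_le_self x J
  have h4 : 1 ≤ J ^ 2 := Nat.one_le_pow _ _ hJ
  have h5 : x ≤ J * (2 * y) := h2.le.trans (Nat.mul_le_mul_left _ (by omega))
  have h6 : 54 * J * x ≤ y * y :=
    calc 54 * J * x ≤ 54 * J * (J * (2 * y)) := Nat.mul_le_mul_left _ h5
      _ = (108 * J ^ 2) * y := by ring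
      _ ≤ y * y := Nat.mul_le_mul_right _ (by omega)
  calc (54 * J * x) ^ J ≤ (2 ^ y) ^ J := Nat.pow_le_pow_left (h6.trans (POW_sq y (by omega))) _
    _ = 2 ^ (y * J) := by rw [← pow_mul]
    _ ≤ 2 ^ x := Nat.pow_le_pow_right (by norm_num) h3

end Pool.Agent.P.MP_ed1e41_co.AS
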