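import Pool.Agent.P.MP_ed1e41_co.AS.Iface2

/-! Step SPL. -/

namespace Pool.Agent.P.MP_ed1e41_co.AS

open Finset
open scoped Classical

lemma SPL_link (𝓐 : Finset (Finset ℕ)) (b r : ℕ) :
    ((𝓐.filter fun F => Ico b (b + (r + 1)) ⊆ F).image fun F => F \ Ico b (b + (r + 1))) =
      (((𝓐.memberSubfamily b).filter fun F => Ico (b + 1) (b + 1 + r) ⊆ F).image
        fun F => F \ Ico (b + 1) (b + 1 + r)) := by
  ext T
  simp only [mem_image, mem_filter, mem_memberSubfamily]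
  constructor
  · rintro ⟨F, ⟨hF, hs⟩, rfl⟩
    have hb : b ∈ F := hs (mem_Ico.2 ⟨le_rfl, by omega⟩)
    refine ⟨F.erase b, ⟨⟨by rwa [insert_erase hb], notMem_erase _ _⟩, fun x hx => ?_⟩, ?_⟩
    · have := mem_Ico.1 hx
      exact mem_erase.2 ⟨by omega, hs (mem_Ico.2 ⟨by omega, by omega⟩)⟩
    · ext x
      simp only [mem_sdiff, mem_erase, mem_Ico]
      constructor
      · rintro ⟨⟨h1, h2⟩, h3⟩
        exact ⟨h2, by omega⟩
      · rintro ⟨h1, h2⟩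
        exact ⟨⟨by omega, h1⟩, by omega⟩
  · rintro ⟨G, ⟨⟨hG, hb⟩, hs⟩, rfl⟩
    refine ⟨insert b G, ⟨hG, fun x hx => ?_⟩, ?_⟩
    · have := mem_Ico.1 hx
      by_cases e : x = b
      · exact mem_insert.2 (Or.inl e)
      · exact mem_insert_of_mem (hs (mem_Ico.2 ⟨by omega, by omega⟩))
    · ext x
      simp only [mem_sdiff, mem_insert, mem_Ico]
      constructor
      · rintro ⟨h1 | h1, h2⟩
        · omega
        · exact ⟨h1, by omega⟩
      · rintro ⟨h1, h2⟩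
        have : x ≠ b := fun e => hb (e ▸ h1)
        exact ⟨Or.inr h1, by omega⟩

lemma SPL_down {b n w u k : ℕ} {𝓘 : Finset (Finset ℕ)} (hb : b < n)
    (hI : ∀ F ∈ 𝓘, InU b n w u k F) (hId : DownClosed b n w u k 𝓘) :
    DownClosed (b + 1) n w (u - if b < w then 1 else 0) (k - 1) (𝓘.memberSubfamily b) := by
  intro F h G hG hlt
  rw [mem_memberSubfamily] at h ⊢
  have hk : 1 ≤ k := by
    rw [← (hI _ h.1).2.1]
    exact card_pos.2 ⟨b, mem_insert_self b F⟩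
  exact ⟨hId _ h.1 _ (hG.ins hb hk) (insert_lt_insert' h.2 hG.up.2 hlt), hG.up.2⟩

lemma SPL_shift {b : ℕ} {𝓕 : Finset (Finset ℕ)} (hFs : ShiftedFrom b 𝓕) :
    ShiftedFrom (b + 1) (𝓕.memberSubfamily b) := by
  intro F h i j hi hij hj hiF
  rw [mem_memberSubfamily] at h ⊢
  have h3 := hFs _ h.1 i j (by omega) hij (mem_insert_of_mem hj) (by
    rw [mem_insert, not_or]
    exact ⟨by omega, hiF⟩)
  rw [erase_insert_of_ne (by omega), insert_comm] at h3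
  refine ⟨h3, ?_⟩
  rw [mem_insert, not_or]
  exact ⟨by omega, by simp [h.2]⟩

lemma SPL_aux (hMONO : S_MONO) (n w D r : ℕ) : ∀ (b u k y : ℕ) (𝓕 𝓙 𝓘 : Finset (Finset ℕ)),
    b + r ≤ n → (∀ F ∈ 𝓕, InU b n w u k F) → ShiftedFrom b 𝓕 → (∀ F ∈ 𝓘, InU b n w u k F) →
    DownClosed b n w u k 𝓘 → DownClosed b n w u k 𝓙 → 𝓙 ⊆ 𝓘 → 𝓘.card ≤ 𝓙.card + D →
    𝓙.card ≤ 𝓕.card →
    (shadow ((𝓘.filter fun F => Ico b (b + r) ⊆ F).image fun F => F \ Ico b (b + r))).card +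
      r * D + y ≤
      (shadow ((𝓕.filter fun F => Ico b (b + r) ⊆ F).image fun F => F \ Ico b (b + r))).card →
    (shadow 𝓘).card + y ≤ (shadow 𝓕).card := by
  induction r with
  | zero =>
    intro b u k y 𝓕 𝓙 𝓘 _ _ _ _ _ _ _ _ _ h
    simpa using h
  | succ r ih =>
    intro b u k y 𝓕 𝓙 𝓘 hb hF hFs hI hId hJd hJI hD hJF h
    have hFb : ∀ F ∈ 𝓕, ∀ x ∈ F, b ≤ x := fun F h x hx => (mem_Ico.1 ((hF F h).1 hx)).1
    have hIb : ∀ F ∈ 𝓘, ∀ x ∈ F, b ≤ x := fun F h x hx => (mem_Ico.1 ((hI F h).1 hx)).1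
    have hJ : ∀ F ∈ 𝓙, InU b n w u k F := fun F h => hI F (hJI h)
    have h1 := hMONO b n w u k 𝓕 𝓙 hF hFs hJ hJd hJF
    have e1 := card_memberSubfamily_add_card_nonMemberSubfamily b 𝓙
    have e2 := card_memberSubfamily_add_card_nonMemberSubfamily b 𝓘
    have e3 : (𝓙.nonMemberSubfamily b).card ≤ (𝓘.nonMemberSubfamily b).card :=
      card_le_card fun F h => mem_nonMemberSubfamily.2
        ⟨hJI (mem_nonMemberSubfamily.1 h).1, (mem_nonMemberSubfamily.1 h).2⟩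
    rw [SPL_link, SPL_link, Nat.succ_mul] at h
    have h2 := ih (b + 1) (u - if b < w then 1 else 0) (k - 1) (y + D) (𝓕.memberSubfamily b)
      (𝓙.memberSubfamily b) (𝓘.memberSubfamily b) (by omega)
      (fun F h => (hF _ (mem_memberSubfamily.1 h).1).mem (mem_memberSubfamily.1 h).2)
      (SPL_shift hFs)
      (fun F h => (hI _ (mem_memberSubfamily.1 h).1).mem (mem_memberSubfamily.1 h).2)
      (SPL_down (by omega) hI hId) (SPL_down (by omega) hJ hJd)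
      (fun F h => mem_memberSubfamily.2
        ⟨hJI (mem_memberSubfamily.1 h).1, (mem_memberSubfamily.1 h).2⟩)
      (by omega) h1 (by omega)
    rw [card_shadow_split hFs hFb, card_shadow_split (hId.shiftedFrom hI) hIb]
    omega

theorem p_SPL (hMONO : S_MONO) :
    S_SPL := by
  intro r b n w u k D 𝓕 𝓙 𝓘 h1 h2 h3 h4 h5 h6 h7 h8 h9 h10
  simpa using SPL_aux hMONO n w D r b u k 0 𝓕 𝓙 𝓘 h1 h2 h3 h4 h5 h6 h7 h8 h9 (by simpa using h10)

end Pool.Agent.P.MP_ed1e41_co.AS
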