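import Pool.Agent.P.MP_ed1e41_co.AS.Iface2

/-! Step SPLIT. -/

namespace Pool.Agent.P.MP_ed1e41_co.AS

open Finset
open scoped Classical

lemma SPLIT_tails {v r : ℕ} {𝓖 : Finset (Finset ℕ)} (h : ∀ F ∈ 𝓖, F.card = v + r) :
    ((𝓖.filter fun F => Ico 0 (0 + v) ⊆ F).image fun F => F \ Ico 0 (0 + v)) = tails v r 𝓖 := by
  rw [zero_add, ← range_eq_Ico, tails]
  congr 1
  refine filter_congr fun F hF => ?_
  have h1 := card_head_tail F v
  rw [h F hF] at h1
  constructor
  · intro h2
    rw [inter_eq_right.2 h2, card_range] at h1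
    omega
  · intro h2
    rw [← inter_eq_right]
    exact eq_of_subset_of_card_le inter_subset_right (by rw [card_range]; omega)

theorem p_SPLIT (hSPL : S_SPL) :
    S_SPLIT := by
  intro n t j m r D 𝓖 hsub hs hm hD h
  by_cases hn : n < t + 2 * j
  · have h0 : colexInit (frankl n (t + 2 * j + r) t j) m = ∅ := by
      refine eq_empty_of_forall_notMem fun F hF => ?_
      have h1 := mem_frankl.1 (mem_colexInit.1 hF).1
      have h2 := card_le_card h1.1
      rw [card_range, h1.2.1] at h2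
      omega
    rw [h0]
    simp
  have hU : ∀ F, F ∈ frankl n (t + 2 * j + r) t j ↔
      InU 0 n (t + 2 * j) (t + j) (t + 2 * j + r) F := by
    intro F
    rw [mem_frankl, InU, range_eq_Ico]
  refine hSPL (t + 2 * j) 0 n (t + 2 * j) (t + j) (t + 2 * j + r) D 𝓖
    (colexInit (frankl n (t + 2 * j + r) t j) (m - D)) _ (by omega)
    (fun F hF => (hU F).1 (hsub hF)) (fun F h i j _ hij hj hi => hs F h i j hij hj hi)
    (fun F hF => (hU F).1 (mem_colexInit.1 hF).1)
    (fun F hF G hG hlt => colexInit_down hF ((hU G).2 hG) hlt)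
    (fun F hF G hG hlt => colexInit_down hF ((hU G).2 hG) hlt)
    (fun F hF => mem_colexInit.2 ⟨(mem_colexInit.1 hF).1,
      (mem_colexInit.1 hF).2.trans_le (Nat.sub_le _ _)⟩) ?_ ?_ ?_
  · rw [card_colexInit hm, card_colexInit ((Nat.sub_le _ _).trans hm)]
    omega
  · rw [card_colexInit ((Nat.sub_le _ _).trans hm)]
    omega
  · rwa [SPLIT_tails fun F hF => (mem_frankl.1 (mem_colexInit.1 hF).1).2.1,
      SPLIT_tails fun F hF => (mem_frankl.1 (hsub hF)).2.1]

end Pool.Agent.P.MP_ed1e41_co.AS
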