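import Pool.Agent.P.MP_ed1e41_co.AS.Iface2

/-! Step TOP. -/

namespace Pool.Agent.P.MP_ed1e41_co.AS

open Finset
open scoped Classical

lemma TOP_ex (T : Finset ℕ) (r : ℕ) (hr : r ≤ T.card) :
    ∃ G ⊆ T, G.card = r ∧ ∀ x ∈ T, x ∉ G → ∀ y ∈ G, x < y := by
  induction r with
  | zero => exact ⟨∅, empty_subset _, rfl, by simp⟩
  | succ r ih =>
    obtain ⟨G, h1, h2, h3⟩ := ih (by omega)
    have hne : (T \ G).Nonempty := by
      rw [← card_pos, card_sdiff_of_subset h1]; omega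
    have hm := mem_sdiff.1 (max'_mem _ hne)
    refine ⟨insert ((T \ G).max' hne) G, insert_subset hm.1 h1,
      by rw [card_insert_of_notMem hm.2, h2], fun x hx hn y hy => ?_⟩
    rw [mem_insert, not_or] at hn
    rcases mem_insert.1 hy with rfl | hy
    · exact lt_of_le_of_ne (le_max' _ x (mem_sdiff.2 ⟨hx, hn.2⟩)) hn.1
    · exact h3 x hx hn.2 y hy

theorem p_TOP :
    S_TOP := by
  intro T r hr
  obtain ⟨G, h1, h2, h3⟩ := TOP_ex T r hr
  refine ⟨G, h1, h2, h3, fun G' hc hle => ?_⟩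
  by_contra hcon
  obtain ⟨a, ha, hn, h4⟩ := Colex.toColex_lt_toColex_iff_exists_forall_lt.1 (not_le.1 hcon)
  obtain ⟨b₀, g1, g2⟩ : ∃ b ∈ G, b ∉ G' := by
    by_contra h
    have hs : G ⊆ G' := fun b hb => by_contra fun h' => h ⟨b, hb, h'⟩
    exact hn (eq_of_subset_of_card_le hs (by omega) ▸ ha)
  have g3 := h4 b₀ g1 g2
  by_cases hT : a ∈ T
  · have := h3 a hT hn b₀ g1
    omega
  · obtain ⟨b, k1, k2, k3⟩ := Colex.toColex_le_toColex.1 hle ha hT
    by_cases hb : b ∈ G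
    · have := h4 b hb k2
      omega
    · have := h3 b k1 hb b₀ g1
      omega

end Pool.Agent.P.MP_ed1e41_co.AS
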