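import Pool.Agent.P.MP_ed1e41_co.AS.Iface2
import Pool.Agent.P.MP_ed1e41_co.AS.Iface

/-! Step WIN. -/

namespace Pool.Agent.P.MP_ed1e41_co.AS

open Finset
open scoped Classical

theorem p_WIN (hCOMP : S_COMP) (hWONE : S_WONE) :
    S_WIN := by
  intro n t d j m e q R hSt hR h1 h2 𝓕 hA hs hm hn
  have hd : d = j + e := hSt.hd
  have hW1 := fun x => hWONE n t d j m e q R x hSt hR h1 h2 𝓕 hA hm
  obtain ⟨a1, a2, a3⟩ := hA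
  have key : ∀ Y ∈ 𝓕, Typ t j Y → Sp (t + 2 * j) Y → ∀ x₀,
      Y ∩ Ico (t + 2 * j) (t + 2 * j + x₀) = ∅ → ∀ W ∈ 𝓕 \ frankl n (t + d) t j,
      ¬ ∀ x, x₀ < x → W ∉ DD n t d j x := fun Y hY y1 y2 x₀ y3 W hW c => by
    obtain ⟨w1, w2⟩ := mem_sdiff.1 hW
    obtain ⟨p, hp⟩ := frankl_lemma hs a2 hY W w1
    have w3 := mem_powersetCard.1 (a1 w1)
    rcases (hCOMP t j p Y W y1 hp).1 x₀ y2 y3 with h | ⟨x, h5, h6⟩
    exacts [w2 (mem_frankl.2 ⟨w3.1, w3.2, h⟩), c x h5 (mem_DD.2 ⟨w3.1, w3.2, h6⟩)]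
  have bd : ∀ {W x}, W ∈ DD n t d j x → 3 * x ≤ 4 * e := fun {W x} h => by
    have := card_tr_le' W (t + 2 * j + x)
    have := (mem_DD.1 h).2
    omega
  obtain ⟨W, hW⟩ : (𝓕 \ frankl n (t + d) t j).Nonempty := sdiff_nonempty.2 hn
  have ex : ∃ x₀, ∃ W ∈ 𝓕 \ frankl n (t + d) t j, ∀ x, x₀ < x → W ∉ DD n t d j x :=
    ⟨4 * e, W, hW, fun x hx h => by have := bd h; omega⟩
  obtain ⟨W₀, w1, w2⟩ := Nat.find_spec ex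
  have k0 : ∀ Y ∈ 𝓕, ¬ (Typ t j Y ∧ Sp (t + 2 * j) Y ∧ Av (t + 2 * j) (Nat.find ex) Y) :=
    fun Y hY h => key Y hY h.1 h.2.1 _ h.2.2 W₀ w1 w2
  have k1 := hW1 _ k0
  obtain ⟨y, hy⟩ := Nat.exists_eq_add_one_of_ne_zero (n := Nat.find ex) (by omega)
  have b1 : ∀ W ∈ 𝓕 \ frankl n (t + d) t j, ∃ x, y < x ∧ W ∈ DD n t d j x := fun W hW => by
    by_contra! c
    exact Nat.find_min ex (m := y) (by omega) ⟨W, hW, c⟩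
  obtain ⟨z, z1, z2⟩ := b1 W hW
  refine ⟨Nat.find ex, k1, by have := bd z2; omega, k0, fun F hF => ?_⟩
  obtain ⟨x, x1, x2⟩ := b1 F hF
  exact mem_biUnion.2 ⟨x, mem_Icc.2 ⟨by omega, by have := bd x2; omega⟩, x2⟩

end Pool.Agent.P.MP_ed1e41_co.AS
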