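import Pool.Agent.P.MP_ed1e41_co.AS.Iface2
import Pool.Agent.P.MP_ed1e41_co.AS.Iface

/-! Step WONE. -/

namespace Pool.Agent.P.MP_ed1e41_co.AS

open Finset
open scoped Classical

theorem WONE_step {N k : ℕ} (h : 5 * k ≤ N + 1) : 4 * (N + 1).choose k ≤ 5 * N.choose k := by
  refine Nat.le_of_mul_le_mul_right ?_ N.succ_pos
  rw [mul_assoc 5, Nat.choose_mul_succ_eq, mul_comm 4, mul_left_comm 5, mul_assoc]
  exact Nat.mul_le_mul_left _ (by omega)

theorem WONE_meet (v x n e : ℕ) :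
    (((Ico v n).powersetCard (e + 1)).filter fun T => ¬ Av v x T).card ≤ x * (n - v).choose e := by
  have h : (((Ico v n).powersetCard (e + 1)).filter fun T => ¬ Av v x T) ⊆
      (Ico v (v + x)).biUnion fun y => ((Ico v n).powersetCard e).image (insert y) := by
    intro T hT
    rw [mem_filter, mem_powersetCard] at hT
    obtain ⟨y, hy⟩ := nonempty_iff_ne_empty.2 hT.2
    rw [mem_inter] at hy
    refine mem_biUnion.2 ⟨y, hy.2, mem_image.2 ⟨T.erase y, mem_powersetCard.2
      ⟨(erase_subset _ _).trans hT.1.1, ?_⟩, insert_erase hy.1⟩⟩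
    rw [card_erase_of_mem hy.1, hT.1.2, Nat.add_sub_cancel]
  refine (card_le_card h).trans ((card_biUnion_le_card_mul _ _ _ fun y _ =>
    card_image_le).trans_eq ?_)
  rw [card_powersetCard, Nat.card_Ico, Nat.card_Ico, Nat.add_sub_cancel_left]

theorem p_WONE (hPT : S_PT) (hNSB : S_NSB) :
    S_WONE := by
  intro n t d j m e q R x hS hR hRj hRe 𝓕 hA hG hY
  have hd := hS.hd
  have hn := hS.hn
  obtain ⟨k, rfl⟩ : ∃ k, e = k + 1 := ⟨e - 1, by have := hS.e1; omega⟩
  have hk : 2 ^ 23 * (k + 1) ≤ R * (k + 1) := Nat.mul_le_mul_right _ hR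
  obtain ⟨p, rfl⟩ : ∃ p, q = p + 1 + 1 := ⟨q - 2, by omega⟩
  have h1 := (hPT n t d j (k + 1) _ hS.t1 hd hS.e1 hn (by omega)).1
  have h2 := hNSB (t + 2 * j) 0 n _ (k + 1) R hn hR hS.e1 (by omega) (by omega)
  have h3 := WONE_meet (t + 2 * j) x n k
  rw [show n - (t + 2 * j) = p + 1 + 1 by omega] at h3
  rw [pow_zero, one_mul, Nat.add_sub_cancel, add_zero] at h2
  rw [show p + 1 + 1 - 2 = p by omega, Nat.add_sub_cancel] at h1
  have h4 := WONE_step (N := p + 1) (k := k) (by omega)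
  have h5 := WONE_step (N := p) (k := k) (by omega)
  have h6 : (𝓕.filter fun F => Gd t j 𝓕 F).card ≤ ((range (t + 2 * j)).powersetCard (t + j)).card *
      ((((Ico (t + 2 * j) n).powersetCard (k + 1)).filter fun T => ¬ Sp (t + 2 * j) T) ∪
        ((Ico (t + 2 * j) n).powersetCard (k + 1)).filter fun T => ¬ Av (t + 2 * j) x T).card := by
    refine card_le_prod (t + 2 * j) fun F hF => ?_
    obtain ⟨hF, -, h7, Y, h8, h9, h10⟩ := mem_filter.1 hF
    have h11 := card_head_tail F (t + 2 * j)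
    have h12 := mem_powersetCard.1 (hA.1 hF)
    have h13 : F \ range (t + 2 * j) ∈ (Ico (t + 2 * j) n).powersetCard (k + 1) :=
      mem_powersetCard.2 ⟨tail_sub h12.1, by omega⟩
    refine ⟨mem_powersetCard.2 ⟨inter_subset_right, h7⟩, ?_⟩
    rw [mem_union, mem_filter, mem_filter, ← and_or_left, ← not_and_or, ← h10, sp_tail]
    refine ⟨h10 ▸ h13, fun h => hY Y h8 ⟨h9, h.1, ?_⟩⟩
    rw [Av, ← h.2]
    ext y
    simp only [mem_inter, mem_sdiff, mem_range, mem_Ico]
    grind
  rw [card_powersetCard, card_range, cc_symm] at h6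
  have h7 := h6.trans (Nat.mul_le_mul_left _ ((card_union_le _ _).trans (add_le_add h2 h3)))
  have h8 := Nat.le_of_mul_le_mul_left ((mul_assoc _ _ _).symm.trans_le
    ((Nat.mul_le_mul_right _ ((mul_comm _ _).trans_le hRj)).trans h1)) j.succ_pos
  have h9 := hS.lo
  have h10 : (p + 1 + 1).choose k ≤ 2 * p.choose k := by omega
  rw [← add_mul] at h7
  have h11 := h7.trans (Nat.mul_le_mul_left _ (Nat.mul_le_mul_left _ h10))
  have h12 : R * ((t + 2 * j).choose j * p.choose k) <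
      4 * (2 ^ 17 + x) * ((t + 2 * j).choose j * p.choose k) := by
    calc _ < 2 * ((t + 2 * j).choose j * ((2 ^ 17 + x) * (2 * p.choose k))) := by omega
      _ = _ := by ring
  have := Nat.lt_of_mul_lt_mul_right h12
  omega

end Pool.Agent.P.MP_ed1e41_co.AS
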