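import Pool.Agent.P.MP_ed1e41_co.AS.Iface2

/-! Step ZLO. -/

namespace Pool.Agent.P.MP_ed1e41_co.AS

open Finset
open scoped Classical

lemma ZLO_tail {n t j r : ℕ} {F : Finset ℕ} (hF : F ∈ frankl n (t + 2 * j + (r + 1)) t j) :
    r + 1 ≤ (F \ range (t + 2 * j)).card ∧ (F \ range (t + 2 * j)).card ≤ j + 1 + r := by
  rw [mem_frankl] at hF
  have h1 := card_head_tail F (t + 2 * j)
  have h2 : (F ∩ range (t + 2 * j)).card ≤ t + 2 * j :=
    (card_le_card inter_subset_right).trans (card_range _).le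
  omega

lemma ZLO_key {n t j m r : ℕ} {F T : Finset ℕ}
    (hF : F ∈ colexInit (frankl n (t + 2 * j + (r + 1)) t j) m)
    (hT : T ⊆ F \ range (t + 2 * j)) (hc : T.card = r + 1) :
    T ∈ tails (t + 2 * j) (r + 1) (colexInit (frankl n (t + 2 * j + (r + 1)) t j) m) := by
  rw [mem_tails]
  refine ⟨hc, ?_⟩
  by_cases e : F \ range (t + 2 * j) = T
  · exact ⟨F, hF, e⟩
  have hA := mem_frankl.1 (mem_colexInit.1 hF).1
  have hv : ∀ x ∈ T, t + 2 * j ≤ x := fun x hx => (mem_Ico.1 (tail_sub hA.1 (hT hx))).1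
  obtain ⟨a, ha, haT⟩ := exists_of_ssubset (hT.ssubset_of_ne (Ne.symm e))
  have h1 := mem_Ico.1 (tail_sub hA.1 ha)
  refine ⟨range (t + 2 * j) ∪ T, colexInit_down hF ?_ ?_, union_tail subset_rfl hv⟩
  · rw [mem_frankl, union_head subset_rfl hv, card_union_ht subset_rfl hv, card_range, hc]
    exact ⟨union_subset (range_subset_range.2 (by omega)) (hT.trans (sdiff_subset.trans hA.1)),
      rfl, by omega⟩
  · rw [Colex.toColex_lt_toColex_iff_exists_forall_lt]
    refine ⟨a, (mem_sdiff.1 ha).1, ?_, fun b hb hbF => ?_⟩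
    · rw [mem_union, mem_range]
      rintro (h | h)
      · omega
      · exact haT h
    · rw [mem_union, mem_range] at hb
      rcases hb with hb | hb
      · omega
      · exact absurd (mem_sdiff.1 (hT hb)).1 hbF

theorem p_ZLO :
    S_ZLO := by
  intro n t j m r hr hm hmA
  have hcI := card_colexInit hmA
  have hdown := fun F G => @colexInit_down (frankl n (t + 2 * j + (r + 1)) t j) m F G
  have hkey := fun F T => @ZLO_key n t j m r F T
  have hIA : ∀ F ∈ colexInit (frankl n (t + 2 * j + (r + 1)) t j) m,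
      F ∈ frankl n (t + 2 * j + (r + 1)) t j := fun F hF => (mem_colexInit.1 hF).1
  generalize colexInit (frankl n (t + 2 * j + (r + 1)) t j) m = I at *
  have hne : (shadow (tails (t + 2 * j) (r + 1) I)).Nonempty := by
    obtain ⟨F, hF⟩ : I.Nonempty := card_pos.1 (by omega)
    obtain ⟨T, hT, hc⟩ := exists_subset_card_eq (ZLO_tail (hIA F hF)).1
    obtain ⟨y, hy⟩ : T.Nonempty := card_pos.1 (by omega)
    exact ⟨_, erase_mem_shadow (hkey F T hF hT hc) hy⟩
  obtain ⟨G, hG, hmax⟩ := exists_max_image _ (fun T => toColex T) hne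
  obtain ⟨T0, hT0, y, hy, rfl⟩ := mem_shadow_iff.1 hG
  obtain ⟨hc0, F0, hF0, rfl⟩ := mem_tails.1 hT0
  have hA0 := mem_frankl.1 (hIA F0 hF0)
  have hsub : (F0 \ range (t + 2 * j)).erase y ⊆ Ico (t + 2 * j) n :=
    (erase_subset _ _).trans (tail_sub hA0.1)
  have hyn := mem_Ico.1 (tail_sub hA0.1 hy)
  refine ⟨_, hsub, by rw [card_erase_of_mem hy, hc0]; rfl, card_le_card fun T hT => ?_, ?_,
    fun Q hQ => ?_⟩
  · refine mem_Sg.2 ⟨?_, ?_, hmax T hT⟩
    · obtain ⟨T1, hT1, z, hz, rfl⟩ := mem_shadow_iff.1 hT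
      obtain ⟨-, F1, -, rfl⟩ := mem_tails.1 hT1
      intro x hx
      have := (mem_sdiff.1 (mem_of_mem_erase hx)).2
      rwa [mem_range, not_lt] at this
    · obtain ⟨T1, hT1, z, hz, rfl⟩ := mem_shadow_iff.1 hT
      rw [card_erase_of_mem hz, (mem_tails.1 hT1).1]; rfl
  · rw [← hcI, card_eq_sum_card_fiberwise (f := fun F => (F \ range (t + 2 * j)).card)
      (t := Ioc r (j + 1 + r)) fun F hF => mem_coe.2 (mem_Ioc.2 (ZLO_tail (hIA F hF)))]
    refine sum_le_sum fun i hi => ?_
    rw [mem_Ioc] at hi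
    have e1 : (t + 2 * j).choose (i - (r + 1)) =
        ((range (t + 2 * j)).powersetCard (t + 2 * j + (r + 1) - i)).card := by
      rw [card_powersetCard, card_range]
      exact Nat.choose_symm_of_eq_add (by omega)
    rw [e1]
    refine prod_le_card (t + 2 * j) (fun H h => (mem_powersetCard.1 h).1)
      (fun T h => (mem_Sg.1 h).1) fun H hH T hT => ?_
    rw [mem_powersetCard] at hH
    rw [mem_Sg] at hT
    rw [mem_filter, union_tail hH.1 hT.1]
    refine ⟨hdown F0 _ hF0 ?_ ?_, hT.2.1⟩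
    · rw [mem_frankl, union_head hH.1 hT.1, card_union_ht hH.1 hT.1]
      refine ⟨union_subset (hH.1.trans (range_subset_range.2 (by omega))) fun x hx =>
        mem_range.2 (lt_of_colex_le hT.2.2 (fun z hz => (mem_Ico.1 (hsub hz)).2) x hx),
        by omega, by omega⟩
    · have hlt : toColex T < toColex (F0 \ range (t + 2 * j)) := by
        refine hT.2.2.trans_lt ?_
        rw [Colex.toColex_lt_toColex_iff_exists_forall_lt]
        exact ⟨y, hy, notMem_erase _ _, fun b hb hb' => absurd (mem_of_mem_erase hb) hb'⟩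
      rw [Colex.toColex_lt_toColex_iff_exists_forall_lt] at hlt ⊢
      obtain ⟨a, ha, haT, h⟩ := hlt
      rw [mem_sdiff, mem_range] at ha
      refine ⟨a, ha.1, ?_, fun b hb hbF => ?_⟩
      · rw [mem_union]
        rintro (h1 | h1)
        · exact ha.2 (mem_range.1 (hH.1 h1))
        · exact haT h1
      · rcases mem_union.1 hb with hb | hb
        · have := mem_range.1 (hH.1 hb)
          omega
        · exact h b hb fun h' => hbF (mem_sdiff.1 h').1
  · rw [← hcI]
    refine card_le_card fun F hF => ?_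
    have hA := mem_frankl.1 (hIA F hF)
    refine mem_frankl.2 ⟨fun a ha => mem_range.2 ?_, hA.2⟩
    by_cases hav : a < t + 2 * j
    · omega
    obtain ⟨T, h1, h2, h3⟩ := exists_subsuperset_card_eq (s := {a}) (t := F \ range (t + 2 * j))
      (n := r + 1) (singleton_subset_iff.2 (mem_sdiff.2 ⟨ha, by rwa [mem_range]⟩))
      (by rw [card_singleton]; omega) (ZLO_tail (hIA F hF)).1
    obtain ⟨b, hb, hba⟩ := exists_mem_ne (s := T) (by omega) a
    exact lt_of_colex_le (hmax _ (erase_mem_shadow (hkey F T hF h2 h3) hb)) hQ a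
      (mem_erase.2 ⟨hba.symm, h1 (mem_singleton_self a)⟩)

end Pool.Agent.P.MP_ed1e41_co.AS
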