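import Pool.Agent.P.MP_ed1e41_co.AS.All
import Pool.Agent.P.MP_ed1e41_co.AS.TFILL
import Pool.Agent.P.MP_ed1e41_co.AS.TTOP
import Pool.Agent.P.MP_ed1e41_co.AS.TNEXT
import Pool.Agent.P.MP_ed1e41_co.AS.TCHAIN
import Pool.Agent.P.MP_ed1e41_co.AS.TDOWN
import Pool.Agent.P.MP_ed1e41_co.AS.TLEV
import Pool.Agent.P.MP_ed1e41_co.AS.TMONO
import Pool.Agent.P.MP_ed1e41_co.AS.TSPL
import Pool.Agent.P.MP_ed1e41_co.AS.TSPLIT
import Pool.Agent.P.MP_ed1e41_co.AS.TTS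
import Pool.Agent.P.MP_ed1e41_co.AS.TCNT
import Pool.Agent.P.MP_ed1e41_co.AS.TZLO
import Pool.Agent.P.MP_ed1e41_co.AS.TINT
import Pool.Agent.P.MP_ed1e41_co.AS.TCORE
import Pool.Agent.P.MP_ed1e41_co.AS.TNSB
import Pool.Agent.P.MP_ed1e41_co.AS.TDCU
import Pool.Agent.P.MP_ed1e41_co.AS.TOUT
import Pool.Agent.P.MP_ed1e41_co.AS.TGD
import Pool.Agent.P.MP_ed1e41_co.AS.TWONE
import Pool.Agent.P.MP_ed1e41_co.AS.TWIN
import Pool.Agent.P.MP_ed1e41_co.AS.TQB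
import Pool.Agent.P.MP_ed1e41_co.AS.TPOW
import Pool.Agent.P.MP_ed1e41_co.AS.THALF
import Pool.Agent.P.MP_ed1e41_co.AS.TNUMA
import Pool.Agent.P.MP_ed1e41_co.AS.TNUM
import Pool.Agent.P.MP_ed1e41_co.AS.TEXC

/-! All steps together. -/

namespace Pool.Agent.P.MP_ed1e41_co.AS

open Finset

theorem a_FILL : S_FILL := p_FILL
theorem a_TOP : S_TOP := p_TOP
theorem a_NEXT : S_NEXT := p_NEXT
theorem a_CHAIN : S_CHAIN := p_CHAIN
theorem a_DOWN : S_DOWN := p_DOWN a_FILL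
theorem a_LEV : S_LEV := p_LEV a_FILL a_NEXT a_CHAIN a_DOWN
theorem a_MONO : S_MONO := p_MONO
theorem a_SPL : S_SPL := p_SPL a_MONO
theorem a_SPLIT : S_SPLIT := p_SPLIT a_SPL
theorem a_TS : S_TS := p_TS
theorem a_CNT : S_CNT := p_CNT
theorem a_ZLO : S_ZLO := p_ZLO
theorem a_INT : S_INT := p_INT a_TOP
theorem a_CORE : S_CORE := p_CORE a_SPLIT a_TS a_ZLO a_NEXT a_LEV a_CNT a_INT
theorem a_NSB : S_NSB := p_NSB
theorem a_DCU : S_DCU := p_DCU a_VAN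
theorem a_OUT : S_OUT := p_OUT a_DCU
theorem a_GD : S_GD := p_GD a_PT a_UA a_CHEAP a_CELLB
theorem a_WONE : S_WONE := p_WONE a_PT a_NSB
theorem a_WIN : S_WIN := p_WIN a_COMP a_WONE
theorem a_QB : S_QB := p_QB a_PZ
theorem a_POW : S_POW := p_POW
theorem a_HALF : S_HALF := p_HALF
theorem a_NUMA : S_NUMA := p_NUMA a_HALF
theorem a_NUM : S_NUM := p_NUM a_POW a_HALF a_NUMA
theorem a_EXC : S_EXC := p_EXC a_PT a_KKA a_GD a_WIN a_OUT a_NSB a_CORE a_QB a_NUM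

end Pool.Agent.P.MP_ed1e41_co.AS
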