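import Pool.Agent.P.MP_ed1e41_co.AS.Base

/-! The colex formula fails just above the next Frankl family: `n = 9`, `k = 4`, `t = 1`,
`m = 36`. -/

namespace Pool.Agent.P.MP_ed1e41_co.AS

open Finset

/-- A family with `36` members and a shadow of size `41`. -/
def failFam : Finset (Finset ℕ) :=
  ((range 7).powersetCard 4).erase {3, 4, 5, 6} ∪ {{0, 1, 2, 7}, {0, 1, 2, 8}}

theorem failFam_adm : Adm 9 4 1 36 failFam := by
  unfold Adm
  decide +kernel

theorem failFam_shadow : (shadow failFam).card = 41 := by decide +kernel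

theorem fail_colex : (shadow (colexInit (frankl 9 4 1 2) 36)).card = 43 := by decide +kernel

theorem fail_window : (frankl 9 4 1 3).card < 36 ∧ 36 ≤ (frankl 9 4 1 2).card ∧
    minShadow 9 4 1 36 < (shadow (colexInit (frankl 9 4 1 2) 36)).card := by
  refine ⟨by decide +kernel, by decide +kernel, ?_⟩
  have h := Hull.minShadow_le failFam_adm
  rw [fail_colex]
  rw [failFam_shadow] at h
  omega

end Pool.Agent.P.MP_ed1e41_co.AS
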