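import Pool.Agent.P.MP_ed1e41_co.AS.Iface3

/-! Step CELLN. -/

namespace Pool.Agent.P.MP_ed1e41_co.AS

open Finset
open scoped Classical

theorem p_CELLN (hFIBR : S_FIBR) (hCONE : S_CONE) :
    S_CELLN := by
  intro t d c 𝓕
  obtain ⟨h1, h2, h3⟩ := hFIBR t d c 𝓕
  have hfib : ((cls t d c 𝓕).filter fun F => ¬ Fu t c 𝓕 F).card = ∑ T ∈ tl t d c 𝓕,
      (((cls t d c 𝓕).filter fun F => ¬ Fu t c 𝓕 F).filter
        fun F => F \ range (t + 2 * c) = T).card :=
    card_eq_sum_card_fiberwise fun F hF =>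
      mem_coe.2 (mem_tl.2 ⟨F, (mem_filter.1 (mem_coe.1 hF)).1, rfl⟩)
  have key : ∀ T ∈ tl t d c 𝓕,
      (t + 2 * c).choose c * ((t + c) * (hd t d c 𝓕 T).card) +
        (((cls t d c 𝓕).filter fun F => ¬ Fu t c 𝓕 F).filter
          fun F => F \ range (t + 2 * c) = T).card ≤
      (t + 2 * c).choose c * ((c + 1) * (shadow (hd t d c 𝓕 T)).card) := by
    intro T _
    obtain ⟨a, b⟩ := hCONE (t + 2 * c) (t + c) _ (hd_sub t d c 𝓕 T)
    rw [show t + 2 * c + 1 - (t + c) = c + 1 by omega] at a b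
    rcases eq_empty_or_nonempty (((cls t d c 𝓕).filter fun F => ¬ Fu t c 𝓕 F).filter
        fun F => F \ range (t + 2 * c) = T) with e | ⟨F, hF⟩
    · rw [e, card_empty, add_zero]
      exact Nat.mul_le_mul_left _ a
    · obtain ⟨hF1, hF2⟩ := mem_filter.1 hF
      obtain ⟨hF3, hF4⟩ := mem_filter.1 hF1
      have hne : (hd t d c 𝓕 T).Nonempty := ⟨_, mem_hd.2 ⟨F, hF3, hF2, rfl⟩⟩
      have hno : Ico c (t + 2 * c) ∉ hd t d c 𝓕 T := fun h => by
        obtain ⟨G, hG, e1, e2⟩ := mem_hd.1 h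
        apply hF4
        unfold Fu
        rw [hF2, ← e2, ← e1, union_comm, sdiff_union_inter]
        exact (mem_cls.1 hG).1
      have b' := b hne ⟨_, last_head t c, hno⟩
      have c1 : (((cls t d c 𝓕).filter fun F => ¬ Fu t c 𝓕 F).filter
          fun F => F \ range (t + 2 * c) = T).card ≤ (t + 2 * c).choose c := by
        calc _ ≤ ((cls t d c 𝓕).filter fun F => F \ range (t + 2 * c) = T).card :=
              card_le_card (filter_subset_filter _ (filter_subset _ _))
          _ = (hd t d c 𝓕 T).card := h1 T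
          _ ≤ ((range (t + 2 * c)).powersetCard (t + c)).card := card_le_card (hd_sub t d c 𝓕 T)
          _ = _ := by rw [card_powersetCard, card_range, cc_symm]
      calc _ ≤ (t + 2 * c).choose c * ((t + c) * (hd t d c 𝓕 T).card) + (t + 2 * c).choose c :=
            Nat.add_le_add_left c1 _
        _ = (t + 2 * c).choose c * ((t + c) * (hd t d c 𝓕 T).card + 1) := by ring
        _ ≤ _ := Nat.mul_le_mul_left _ b'
  rw [hfib, h2, mul_sum, mul_sum, ← sum_add_distrib]
  refine (sum_le_sum key).trans ?_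
  rw [← mul_sum, ← mul_sum]
  exact Nat.mul_le_mul_left _ (Nat.mul_le_mul_left _ h3)

end Pool.Agent.P.MP_ed1e41_co.AS
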