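import Pool.Agent.P.MP_ed1e41_co.AS.Iface3

/-! Step CELLS. -/

namespace Pool.Agent.P.MP_ed1e41_co.AS

open Finset
open scoped Classical

lemma CELLS_mem {d i : ℕ} {𝓕 : Finset (Finset ℕ)} {G H : Finset ℕ}
    (hG : ∀ x ∈ G, 1 + 2 * i + 2 ≤ x) (hH : H ∈ (range (1 + 2 * i)).powersetCard (1 + i))
    (h : insert (1 + 2 * i) (H ∪ G) ∈ cls 1 d (i + 1) 𝓕) :
    G ∈ tl 1 d (i + 1) 𝓕 ∧ insert (1 + 2 * i) H ∈ hd 1 d (i + 1) 𝓕 G := by
  have h1 : insert (1 + 2 * i) H ⊆ range (1 + 2 * (i + 1)) :=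
    insert_subset (mem_range.2 (by omega))
      ((mem_powersetCard.1 hH).1.trans (range_subset_range.2 (by omega)))
  have h2 : ∀ x ∈ G, 1 + 2 * (i + 1) ≤ x := hG
  rw [← insert_union] at h
  exact ⟨mem_tl.2 ⟨_, h, union_tail h1 h2⟩, mem_hd.2 ⟨_, h, union_tail h1 h2, union_head h1 h2⟩⟩

theorem p_CELLS (hFIBR : S_FIBR) (hCONE : S_CONE) (hCTWO : S_CTWO) :
    S_CELLS := by
  intro d i 𝓕 𝒢 hW hG
  obtain ⟨-, h2, h3⟩ := hFIBR 1 d (i + 1) 𝓕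
  have hsub : 𝒢 ⊆ tl 1 d (i + 1) 𝓕 := fun G h =>
    (CELLS_mem (hG G h).1 (last_head 1 i) ((hG G h).2 _ (last_head 1 i))).1
  have key : ∀ T ∈ tl 1 d (i + 1) 𝓕, (i + 2) * (hd 1 d (i + 1) 𝓕 T).card +
      (if T ∈ 𝒢 then 2 * (1 + 2 * i).choose i else 0) ≤
      (i + 2) * (shadow (hd 1 d (i + 1) 𝓕 T)).card := fun T _ => by
    split_ifs with h
    · refine hCTWO i _ (hd_sub 1 d (i + 1) 𝓕 T) (fun H hH => ?_)
        fun H hH => (CELLS_mem (hG T h).1 hH ((hG T h).2 H hH)).2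
      obtain ⟨F, hF, -, rfl⟩ := mem_hd.1 hH
      rw [inter_assoc, inter_eq_right.2 (range_subset_range.2 (by omega))]
      exact hW F hF
    · have := (hCONE _ _ _ (hd_sub 1 d (i + 1) 𝓕 T)).1
      rwa [show 1 + 2 * (i + 1) + 1 - (1 + (i + 1)) = i + 2 by omega,
        show 1 + (i + 1) = i + 2 by omega] at this
  have h4 := sum_le_sum key
  rw [sum_add_distrib, ← mul_sum, ← mul_sum, ← h2, sum_ite_mem, inter_eq_right.2 hsub, sum_const,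
    smul_eq_mul, mul_comm 𝒢.card] at h4
  exact h4.trans (Nat.mul_le_mul_left _ h3)

end Pool.Agent.P.MP_ed1e41_co.AS
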