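import Pool.Agent.P.MP_ed1e41_co.AS.Iface3

/-! Step COEX. -/

namespace Pool.Agent.P.MP_ed1e41_co.AS

open Finset
open scoped Classical

lemma COEX_lt {t d w l : ℕ} {W : Finset ℕ} (h : IsClass t d w W) (hk : W.card = t + d)
    (hl : w < l) : (W ∩ range (t + 2 * l)).card < t + l := by
  rcases le_or_gt l d with e | e
  · exact h.2.2 l hl e
  · have := card_tr_le' W (t + 2 * l)
    omega

lemma COEX_same {t d c x : ℕ} {F : Finset ℕ} (h : IsClass t d c F) :
    ((Ico c (t + 2 * c) ∪ F \ range (t + 2 * c)) ∩ range (t + 2 * c + x)).card =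
      (F ∩ range (t + 2 * c + x)).card := by
  rw [card_tr_split, card_tr_split F, h.2.1,
    union_head (Hull.Ico_sub _ _) (tail_ge F _), Nat.card_Ico]
  congr 1
  · omega
  · congr 1
    ext y
    simp only [mem_inter, mem_union, mem_sdiff, mem_range, mem_Ico]
    grind

lemma COEX_low {t c p : ℕ} (F : Finset ℕ) (hp : p ≤ t + 2 * c) :
    ((Ico c (t + 2 * c) ∪ F \ range (t + 2 * c)) ∩ range p).card ≤ p - c := by
  rw [← Nat.card_Ico]
  refine card_le_card fun y => ?_
  simp only [mem_inter, mem_union, mem_sdiff, mem_range, mem_Ico]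
  grind

lemma COEX_key {n t d m c w : ℕ} {𝓕 : Finset (Finset ℕ)} {F W : Finset ℕ} (ht : 1 ≤ t)
    (h : Adm n (t + d) t m 𝓕) (hs : Shifted 𝓕) (hF : F ∈ cls t d c 𝓕) (hu : Fu t c 𝓕 F)
    (hW : W ∈ cls t d w 𝓕) (hw : w ≤ c + 1) : t + c ≤ (W ∩ range (t + 2 * c)).card := by
  obtain ⟨hF1, hF2⟩ := mem_cls.1 hF
  obtain ⟨hW1, hW2⟩ := mem_cls.1 hW
  obtain ⟨p, hp⟩ := frankl_lemma hs h.2.1 hu W hW1
  rcases le_or_gt p (t + 2 * c) with e | e
  · have h1 := COEX_low F e
    have h2 := card_tr_le W p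
    have h3 := card_tr_mono W e
    omega
  · obtain ⟨l, l1, l2⟩ : ∃ l, p ≤ t + 2 * l ∧ t + 2 * l ≤ p + 1 :=
      ⟨(p - t + 1) / 2, by omega, by omega⟩
    have h1 := card_tr_mono (Ico c (t + 2 * c) ∪ F \ range (t + 2 * c)) l1
    have h2 := COEX_same (x := 2 * (l - c)) hF2
    rw [show t + 2 * c + 2 * (l - c) = t + 2 * l by omega] at h2
    have h3 := COEX_lt hF2 (h.card_eq F hF1) (show c < l by omega)
    have h4 := card_tr_mono W l1
    rcases lt_or_ge w l with e' | e'
    · have h5 := COEX_lt hW2 (h.card_eq W hW1) e'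
      omega
    · have h5 := hW2.2.1
      obtain rfl : w = l := by omega
      have h6 : p = t + 2 * c + 1 := by omega
      subst h6
      have h7 := card_tr_split W (t + 2 * c) 1
      have h8 := card_le_card (inter_subset_right (s₁ := W) (s₂ := Ico (t + 2 * c) (t + 2 * c + 1)))
      rw [Nat.card_Ico] at h8
      omega

theorem p_COEX :
    S_COEX := by
  intro n t d m c 𝓕 F ht h hs hF hu
  refine ⟨fun c' hc => eq_empty_of_forall_notMem fun W hW => ?_,
    fun W hW => COEX_key ht h hs hF hu hW le_rfl⟩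
  have h1 := COEX_key ht h hs hF hu hW (by omega)
  have h2 := (mem_cls.1 hW).2.2.2 c hc (mem_cls.1 hF).2.1
  omega

end Pool.Agent.P.MP_ed1e41_co.AS
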