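import Pool.Agent.P.MP_ed1e41_co.AS.Iface3

/-! Step COMPY. -/

namespace Pool.Agent.P.MP_ed1e41_co.AS

open Finset
open scoped Classical

theorem p_COMPY :
    S_COMPY := by
  intro t i p x₀ Y W ht hY h hS h0
  have h1 : (Y ∩ range (t + 2 * i)).card = t + i := by
    rw [show Y ∩ range (t + 2 * i) = _ from hY, Nat.card_Ico]; omega
  rcases le_total p (t + 2 * i) with hle | hle
  · have a : (Y ∩ range p).card ≤ p - i := by
      rw [← Nat.card_Ico]
      refine card_le_card fun y hy => ?_
      have b := mem_range.1 (mem_inter.1 hy).2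
      have c : y ∈ Y ∩ range (t + 2 * i) :=
        mem_inter.2 ⟨(mem_inter.1 hy).1, mem_range.2 (by omega)⟩
      rw [show Y ∩ range (t + 2 * i) = _ from hY] at c
      exact mem_Ico.2 ⟨(mem_Ico.1 c).1, b⟩
    have b := card_tr_le W p
    have e := card_tr_mono W hle
    exact Or.inl (by omega)
  · obtain ⟨x, rfl⟩ := Nat.exists_eq_add_of_le hle
    have a := card_tr_split Y (t + 2 * i) x
    rcases le_or_gt x x₀ with hx | hx
    · have b := card_tr_split W (t + 2 * i) x
      have c : (Y ∩ Ico (t + 2 * i) (t + 2 * i + x)).card ≤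
          (Y ∩ Ico (t + 2 * i) (t + 2 * i + x₀)).card :=
        card_le_card (inter_subset_inter_left (Ico_subset_Ico_right (by omega)))
      rw [show Y ∩ Ico (t + 2 * i) (t + 2 * i + x₀) = _ from h0, card_empty] at c
      have d := card_le_card
        (inter_subset_right (s₁ := W) (s₂ := Ico (t + 2 * i) (t + 2 * i + x)))
      rw [Nat.card_Ico] at d
      exact Or.inl (by omega)
    · have b := hS x
      exact Or.inr ⟨x, hx, by omega⟩

end Pool.Agent.P.MP_ed1e41_co.AS
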