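import Pool.Agent.P.MP_ed1e41_co.AS.Iface3

/-! Step CONE. -/

namespace Pool.Agent.P.MP_ed1e41_co.AS

open Finset
open scoped Classical

/-- The points that complete `G` to a member. -/
noncomputable def CONE_X (v : ℕ) (𝓗 : Finset (Finset ℕ)) (G : Finset ℕ) : Finset ℕ :=
  (range v \ G).filter fun x => insert x G ∈ 𝓗

lemma CONE_count {v s : ℕ} {𝓗 : Finset (Finset ℕ)} (h : 𝓗 ⊆ (range v).powersetCard s) :
    s * 𝓗.card ≤ ∑ G ∈ shadow 𝓗, (CONE_X v 𝓗 G).card := by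
  have e : s * 𝓗.card = ∑ H ∈ 𝓗, H.card := by
    rw [sum_congr rfl fun H hH => (mem_powersetCard.1 (h hH)).2, sum_const, smul_eq_mul, mul_comm]
  rw [e, ← card_sigma, ← card_sigma]
  refine card_le_card_of_injOn (fun p => ⟨p.1.erase p.2, p.2⟩) (fun p hp => ?_)
    fun p hp q hq e => ?_
  · obtain ⟨h1, h2⟩ := mem_sigma.1 hp
    refine mem_sigma.2 ⟨erase_mem_shadow h1 h2, mem_filter.2
      ⟨mem_sdiff.2 ⟨(mem_powersetCard.1 (h h1)).1 h2, notMem_erase _ _⟩, ?_⟩⟩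
    rwa [insert_erase h2]
  · obtain ⟨H, a⟩ := p
    obtain ⟨H', a'⟩ := q
    simp only [Sigma.mk.injEq, heq_eq_eq] at e
    obtain ⟨e1, rfl⟩ := e
    have h2 : a ∈ H := (mem_sigma.1 hp).2
    have h3 : a ∈ H' := (mem_sigma.1 hq).2
    rw [← insert_erase h2, e1, insert_erase h3]

lemma CONE_card {v s : ℕ} {𝓗 : Finset (Finset ℕ)} (h : 𝓗 ⊆ (range v).powersetCard s)
    {G : Finset ℕ} (hG : G ∈ shadow 𝓗) : (range v \ G).card = v + 1 - s := by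
  obtain ⟨H, hH, a, ha, rfl⟩ := mem_shadow_iff.1 hG
  obtain ⟨h1, h2⟩ := mem_powersetCard.1 (h hH)
  have := card_erase_add_one ha
  rw [card_sdiff_of_subset ((erase_subset _ _).trans h1), card_range]
  omega

theorem p_CONE :
    S_CONE := by
  intro v s 𝓗 h
  have hle : ∀ G ∈ shadow 𝓗, (CONE_X v 𝓗 G).card ≤ v + 1 - s := fun G hG =>
    (card_filter_le _ _).trans (CONE_card h hG).le
  have e : ∑ _G ∈ shadow 𝓗, (v + 1 - s) = (v + 1 - s) * (shadow 𝓗).card := by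
    rw [sum_const, smul_eq_mul, mul_comm]
  refine ⟨(CONE_count h).trans ((sum_le_sum hle).trans e.le), fun hne ⟨H₀, h0, h1⟩ => ?_⟩
  obtain ⟨H, hH, hmax⟩ := exists_max_image 𝓗 (fun H => (H ∩ H₀).card) hne
  obtain ⟨s0, c0⟩ := mem_powersetCard.1 h0
  obtain ⟨s1, c1⟩ := mem_powersetCard.1 (h hH)
  have hn : H ≠ H₀ := fun e => h1 (e ▸ hH)
  obtain ⟨a, a1, a2⟩ := not_subset.1 fun e : H ⊆ H₀ => hn (eq_of_subset_of_card_le e (by omega))
  obtain ⟨b, b1, b2⟩ :=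
    not_subset.1 fun e : H₀ ⊆ H => hn (eq_of_subset_of_card_le e (by omega)).symm
  have hG := erase_mem_shadow hH a1
  refine (CONE_count h).trans_lt ((sum_lt_sum hle ⟨H.erase a, hG, ?_⟩).trans_eq e)
  rw [← CONE_card h hG]
  refine card_lt_card (filter_ssubset.2 ⟨b, mem_sdiff.2 ⟨s0 b1, fun e => b2 (mem_of_mem_erase e)⟩,
    fun e => absurd (hmax _ e) (not_le.2 (card_lt_card ?_))⟩)
  refine (ssubset_iff_of_subset fun x hx => ?_).2
    ⟨b, mem_inter.2 ⟨mem_insert_self _ _, b1⟩, fun e => b2 (mem_inter.1 e).1⟩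
  obtain ⟨x1, x2⟩ := mem_inter.1 hx
  exact mem_inter.2 ⟨mem_insert_of_mem (mem_erase.2 ⟨fun e => a2 (e ▸ x2), x1⟩), x2⟩

end Pool.Agent.P.MP_ed1e41_co.AS
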