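import Pool.Agent.P.MP_ed1e41_co.AS.Base2

/-! The statements of the steps of the stability argument. -/

namespace Pool.Agent.P.MP_ed1e41_co.AS

open Finset
open scoped Classical

-- deps:
def S_FILL : Prop := ∀ (v : ℕ) (G H : Finset ℕ), (∀ x ∈ G, v ≤ x) → (∀ x ∈ H, v ≤ x) →
  G.card ≤ H.card → toColex G ≤ toColex H → ∃ G' ∈ Sg v H.card H, G ⊆ G'

-- deps:
def S_TOP : Prop := ∀ (T : Finset ℕ) (r : ℕ), r ≤ T.card → ∃ G ⊆ T, G.card = r ∧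
  (∀ x ∈ T, x ∉ G → ∀ y ∈ G, x < y) ∧
  ∀ G' : Finset ℕ, G'.card = r → toColex G' ≤ toColex T → toColex G' ≤ toColex G

-- deps:
def S_NEXT : Prop := ∀ (v r : ℕ) (G : Finset ℕ), 1 ≤ r →
  (∃ H : Finset ℕ, (∀ x ∈ H, v ≤ x) ∧ H.card = r ∧ toColex G < toColex H ∧
    Sg v r H = insert H (Sg v r G)) ∧
  ((∀ x ∈ G, v ≤ x) → G.card = r → ∀ X : ℕ, ∃ H : Finset ℕ, (∀ x ∈ H, v ≤ x) ∧ H.card = r ∧
    toColex G ≤ toColex H ∧ (Sg v r H).card = (Sg v r G).card + X)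

-- deps:
def S_CHAIN : Prop := ∀ (x v N r D : ℕ) (𝒜 𝓘 : Finset (Finset ℕ)), (∀ A ∈ 𝒜, InU v N 0 0 r A) →
  ShiftedFrom v 𝒜 → (∀ I ∈ 𝓘, InU v N 0 0 r I) → DownClosed v N 0 0 r 𝓘 → 𝓘.card ≤ 𝒜.card + D →
  (𝒜.filter fun T => Av v x T).card + D < (𝓘.filter fun T => Av v x T).card →
  (shadow 𝓘).card ≤ (shadow 𝒜).card

-- deps: FILL
def S_DOWN : Prop := ∀ (v r l e : ℕ) (𝒯 : ℕ → Finset (Finset ℕ)) (G H : Finset ℕ), Tower v r e 𝒯 →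
  r + l ≤ e → (∀ x ∈ G, v ≤ x) → G.card = r → (∀ x ∈ H, v ≤ x) → H.card = r + l →
  toColex G ≤ toColex H → (Sg v (r + l) H).card ≤ (𝒯 (r + l)).card →
  (Sg v r G).card ≤ (𝒯 r).card

-- deps: FILL NEXT CHAIN DOWN
def S_LEV : Prop := ∀ (v r e : ℕ) (𝒯 : ℕ → Finset (Finset ℕ)) (G : Finset ℕ), Tower v r e 𝒯 →
  r < e → (∀ x ∈ G, v ≤ x) → G.card = r → (𝒯 r).card < (Sg v r G).card →
  (∀ i, r < i → i ≤ e → (𝒯 i).card ≤ (Sg v i G).card) ∧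
    ∀ x, ((Sg v e G).filter fun T => Av v x T).card + (𝒯 e).card ≤
      ((𝒯 e).filter fun T => Av v x T).card + (Sg v e G).card + 1

-- deps:
def S_MONO : Prop := ∀ (b n w u k : ℕ) (𝓕 𝓘 : Finset (Finset ℕ)), (∀ F ∈ 𝓕, InU b n w u k F) →
  ShiftedFrom b 𝓕 → (∀ F ∈ 𝓘, InU b n w u k F) → DownClosed b n w u k 𝓘 → 𝓘.card ≤ 𝓕.card →
  (𝓘.memberSubfamily b).card ≤ (𝓕.memberSubfamily b).card

-- deps: MONO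
def S_SPL : Prop := ∀ (r b n w u k D : ℕ) (𝓕 𝓙 𝓘 : Finset (Finset ℕ)), b + r ≤ n →
  (∀ F ∈ 𝓕, InU b n w u k F) → ShiftedFrom b 𝓕 → (∀ F ∈ 𝓘, InU b n w u k F) →
  DownClosed b n w u k 𝓘 → DownClosed b n w u k 𝓙 → 𝓙 ⊆ 𝓘 → 𝓘.card ≤ 𝓙.card + D →
  𝓙.card ≤ 𝓕.card →
  (shadow ((𝓘.filter fun F => Ico b (b + r) ⊆ F).image fun F => F \ Ico b (b + r))).card + r * D ≤
    (shadow ((𝓕.filter fun F => Ico b (b + r) ⊆ F).image fun F => F \ Ico b (b + r))).card →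
  (shadow 𝓘).card ≤ (shadow 𝓕).card

-- deps: SPL
def S_SPLIT : Prop := ∀ (n t j m r D : ℕ) (𝓖 : Finset (Finset ℕ)),
  𝓖 ⊆ frankl n (t + 2 * j + r) t j → Shifted 𝓖 → m ≤ (frankl n (t + 2 * j + r) t j).card →
  m ≤ 𝓖.card + D →
  (shadow (tails (t + 2 * j) r (colexInit (frankl n (t + 2 * j + r) t j) m))).card +
      (t + 2 * j) * D ≤ (shadow (tails (t + 2 * j) r 𝓖)).card →
  (shadow (colexInit (frankl n (t + 2 * j + r) t j) m)).card ≤ (shadow 𝓖).card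

-- deps:
def S_TS : Prop := ∀ (v r e : ℕ) (𝓖 : Finset (Finset ℕ)), Shifted 𝓖 →
  (∀ F ∈ 𝓖, F.card = v + (r + 1)) →
  Tower v r e fun i => if i = r then shadow (tails v (r + 1) 𝓖) else tails v i 𝓖

-- deps:
def S_CNT : Prop := ∀ (n t j r x : ℕ) (𝓖 : Finset (Finset ℕ)), j ≤ t →
  𝓖 ⊆ frankl n (t + 2 * j + (r + 1)) t j →
  (∀ Y ∈ 𝓖, ¬ (Typ t j Y ∧ Sp (t + 2 * j) Y ∧ Av (t + 2 * j) x Y)) →
  𝓖.card + ((tails (t + 2 * j) (j + 1 + r) 𝓖).filter fun T =>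
      Sp (t + 2 * j) T ∧ Av (t + 2 * j) x T).card ≤
    ∑ i ∈ Ioc r (j + 1 + r), (t + 2 * j).choose (i - (r + 1)) * (tails (t + 2 * j) i 𝓖).card

-- deps:
def S_ZLO : Prop := ∀ n t j m r : ℕ, 1 ≤ r → 1 ≤ m →
  m ≤ (frankl n (t + 2 * j + (r + 1)) t j).card → ∃ G : Finset ℕ, G ⊆ Ico (t + 2 * j) n ∧
  G.card = r ∧
  (shadow (tails (t + 2 * j) (r + 1) (colexInit (frankl n (t + 2 * j + (r + 1)) t j) m))).card ≤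
    (Sg (t + 2 * j) r G).card ∧
  ∑ i ∈ Ioc r (j + 1 + r), (t + 2 * j).choose (i - (r + 1)) * (Sg (t + 2 * j) i G).card ≤ m ∧
  ∀ Q, (∀ x ∈ G, x < t + 2 * j + Q) →
    m ≤ (frankl (t + 2 * j + Q) (t + 2 * j + (r + 1)) t j).card

-- deps: TOP
def S_INT : Prop := ∀ (v r i J X p Q : ℕ) (G H : Finset ℕ), r < i → i ≤ r + J → 1 ≤ p →
  (∀ x ∈ G, v ≤ x) → G.card = r → toColex G ≤ toColex H → (∀ x ∈ H, x < v + Q) →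
  (Sg v r H).card ≤ (Sg v r G).card + X →
  (Sg v i H).card ≤ (Sg v i G).card + (X + 1) * (J * p) ^ J + J * (Q - p).choose i

-- deps: SPLIT TS ZLO NEXT LEV CNT INT
def S_CORE : Prop := ∀ (n t d j m e q r D x : ℕ) (𝓖 : Finset (Finset ℕ)), St n t d j m e q →
  e = j + 1 + r → 1 ≤ r → j ≤ t → 𝓖 ⊆ frankl n (t + d) t j → Shifted 𝓖 → m ≤ 𝓖.card + D →
  (∀ Y ∈ 𝓖, ¬ (Typ t j Y ∧ Sp (t + 2 * j) Y ∧ Av (t + 2 * j) x Y)) →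
  (shadow 𝓖).card < (shadow (colexInit (frankl n (t + d) t j) m)).card →
  ∃ Q, m ≤ (frankl (t + 2 * j + Q) (t + d) t j).card ∧
    (Q - 1).choose r ≤ q.choose r + (t + 2 * j) * D ∧
    ∀ p Y, 1 ≤ p → (∀ i, r < i → i ≤ e → (Q - p).choose i ≤ Y) →
      (Q - 1 - x).choose e ≤ D + 1 +
        (((Ico (t + 2 * j + x) n).powersetCard e).filter fun T => ¬ Sp (t + 2 * j) T).card +
        (t + 2 * j).choose j * (j + 1) *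
          (((t + 2 * j) * D + 1) * ((j + 1) * p) ^ (j + 1) + (j + 1) * Y)

-- deps:
def S_NSB : Prop := ∀ v x n N e R : ℕ, n = v + x + N → 2 ^ 23 ≤ R → 1 ≤ e → e ≤ N →
  R * e ≤ 2 * (N + 1 - e) →
  16 ^ x * (((Ico (v + x) n).powersetCard e).filter fun T => ¬ Sp v T).card ≤
    2 ^ 17 * N.choose (e - 1)

-- deps: VAN
def S_DCU : Prop := ∀ n t d i e q R x w : ℕ, d = i + e → n = t + 2 * i + q → 2 ^ 23 ≤ R →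
  R * e + e ≤ q → t + i ≤ 2 * R * (i + 1) → 2 ≤ x → 4 * w ≤ 3 * x →
  2 ^ (9 * x) * (DD n t d i x).card ≤ 2 * R ^ w * ((t + 2 * i).choose i * (q - 2).choose (e - w))

-- deps: DCU
def S_OUT : Prop := ∀ (n t d i e q R x w X : ℕ) (𝓧 : Finset (Finset ℕ)), d = i + e →
  n = t + 2 * i + q → 2 ^ 23 ≤ R → R * e + e ≤ q → t + i ≤ 2 * R * (i + 1) → 2 ≤ x →
  4 * w ≤ 3 * x → 𝓧 ⊆ (Icc x X).biUnion (DD n t d i) →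
  2 ^ (9 * x) * 𝓧.card ≤ 4 * R ^ w * ((t + 2 * i).choose i * (q - 2).choose (e - w))

-- deps: PT UA CHEAP CELLB
def S_GD : Prop := ∀ n t d j m e q : ℕ, St n t d j m e q → 10 ^ 7 * (j + 1) ^ 4 ≤ t →
  ∀ 𝓕, Adm n (t + d) t m 𝓕 → Shifted 𝓕 →
  (shadow 𝓕).card < (shadow (colexInit (frankl n (t + d) t j) m)).card →
  m ≤ 2 * (𝓕.filter fun F => Gd t j 𝓕 F).card

-- deps: PT NSB
def S_WONE : Prop := ∀ n t d j m e q R x : ℕ, St n t d j m e q → 2 ^ 23 ≤ R →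
  R * (j + 1) ≤ t + j → R * e + e ≤ q → ∀ 𝓕, Adm n (t + d) t m 𝓕 →
  m ≤ 2 * (𝓕.filter fun F => Gd t j 𝓕 F).card →
  (∀ Y ∈ 𝓕, ¬ (Typ t j Y ∧ Sp (t + 2 * j) Y ∧ Av (t + 2 * j) x Y)) → R ≤ 8 * x

-- deps: COMP WONE
def S_WIN : Prop := ∀ n t d j m e q R : ℕ, St n t d j m e q → 2 ^ 23 ≤ R →
  R * (j + 1) ≤ t + j → R * e + e ≤ q → ∀ 𝓕, Adm n (t + d) t m 𝓕 → Shifted 𝓕 →
  m ≤ 2 * (𝓕.filter fun F => Gd t j 𝓕 F).card → ¬ 𝓕 ⊆ frankl n (t + d) t j →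
  ∃ x, R ≤ 8 * x ∧ 3 * x ≤ 4 * e ∧
    (∀ Y ∈ 𝓕, ¬ (Typ t j Y ∧ Sp (t + 2 * j) Y ∧ Av (t + 2 * j) x Y)) ∧
    𝓕 \ frankl n (t + d) t j ⊆ (Icc x (4 * e)).biUnion (DD n t d j)

-- deps: PZ
def S_QB : Prop := ∀ n t d j m e q R Q : ℕ, St n t d j m e q → 2 ≤ R → R * (j + 1) ≤ t + j →
  m ≤ (frankl (t + 2 * j + Q) (t + d) t j).card →
  R * e + e ≤ Q ∧ m ≤ 2 * ((t + 2 * j).choose j * Q.choose e)

-- deps:
def S_POW : Prop := ∀ J x : ℕ, 1 ≤ J → 10 ^ 6 * J ^ 3 ≤ x → (54 * J * x) ^ J ≤ 2 ^ x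

-- deps:
def S_HALF : Prop :=
  (∀ Q r h z : ℕ, 1 ≤ r → Q ≤ h * r → 2 ^ z * (Q - h * z).choose r ≤ Q.choose r) ∧
  (∀ Q e x : ℕ, 2 * e + x + 1 ≤ Q → Q.choose e ≤ 2 ^ (x + 1) * (Q - 1 - x).choose e) ∧
  ∀ Q q r : ℕ, 1 ≤ r → r ≤ q → (Q - 1).choose r ≤ 2 * q.choose r → Q ≤ 2 * q + 1

-- deps: HALF
def S_NUMA : Prop := ∀ J e q r R x Q L c v D : ℕ, 1 ≤ J → e = J + r → 2 ^ 23 ≤ R →
  10 ^ 6 * J ^ 3 ≤ x → 3 * x ≤ 4 * e → R * e + e ≤ q → R * e + e ≤ Q → L = 2 ^ x →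
  (54 * J * x) ^ J ≤ L → v ≤ L → L ^ 6 * D ≤ 4 * (q - 2).choose (r - 1) →
  (q - 2).choose (e - 1) ≤ Q.choose e → (Q - 1).choose r ≤ q.choose r + v * D → c ≤ L →
  ∃ p Y, 1 ≤ p ∧ (∀ i, r < i → i ≤ e → (Q - p).choose i ≤ Y) ∧
    L ^ 2 * (c * J * ((v * D + 1) * (J * p) ^ J + J * Y)) ≤ 6 * Q.choose e

-- deps: POW HALF NUMA
def S_NUM : Prop := ∀ t j e q r R x Q D N m : ℕ, e = j + 1 + r → 10 ^ 7 * (j + 1) ^ 3 ≤ R →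
  t + j ≤ 2 * R * (j + 1) → R ≤ 8 * x → 3 * x ≤ 4 * e → R * e + e ≤ q → R * e + e ≤ Q →
  R * ((t + 2 * j).choose j * (q - 2).choose (e - 1)) ≤ m →
  m ≤ 2 * ((t + 2 * j).choose j * Q.choose e) →
  2 ^ (9 * x) * D ≤ 4 * R ^ (j + 2) * ((t + 2 * j).choose j * (q - 2).choose (e - (j + 2))) →
  16 ^ x * N ≤ 2 ^ 17 * (q - x).choose (e - 1) →
  (Q - 1).choose r ≤ q.choose r + (t + 2 * j) * D →
  ¬ ∀ p Y, 1 ≤ p → (∀ i, r < i → i ≤ e → (Q - p).choose i ≤ Y) →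
      (Q - 1 - x).choose e ≤ D + 1 + N + (t + 2 * j).choose j * (j + 1) *
        (((t + 2 * j) * D + 1) * ((j + 1) * p) ^ (j + 1) + (j + 1) * Y)

-- deps: PT KKA GD WIN OUT NSB CORE QB NUM
def S_EXC : Prop := ∀ n t d j m e q : ℕ, St n t d j m e q → 10 ^ 7 * (j + 1) ^ 4 ≤ t →
  ∀ 𝓕, Adm n (t + d) t m 𝓕 →
  (shadow (colexInit (frankl n (t + d) t j) m)).card ≤ (shadow 𝓕).card

end Pool.Agent.P.MP_ed1e41_co.AS
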