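import Pool.Agent.P.MP_ed1e41_co.AS.Iface3
import Pool.Agent.P.MP_ed1e41_co.AS.Iface2

/-! Step COREY. -/

namespace Pool.Agent.P.MP_ed1e41_co.AS

open Finset
open scoped Classical

theorem p_COREY (hSPLIT : S_SPLIT) (hTS : S_TS) (hZLO : S_ZLO) (hNEXT : S_NEXT) (hLEV : S_LEV) (hCNTY : S_CNTY) (hINT : S_INT) :
    S_COREY := by
  intro n t d j m e q r D x 𝓖 hS he hr hsub hs hm hno hlt
  have hn := hS.hn
  have hk : t + d = t + 2 * j + (r + 1) := by have := hS.hd; omega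
  have hi := hS.hi
  have hm1 : 1 ≤ m := by have := hS.lo; omega
  rw [hk] at hsub hlt hi ⊢
  subst he
  have hC := hCNTY n t j r x 𝓖 hsub hno
  have hsp := mt (hSPLIT n t j m (r + 1) D 𝓖 hsub hs hi hm) (not_le.2 hlt)
  obtain ⟨G, G1, G2, G3, G4, G5⟩ := hZLO n t j m r hr hm1 hi
  have hT := hTS (t + 2 * j) r (j + 1 + r) 𝓖 hs fun F hF => (mem_frankl.1 (hsub hF)).2.1
  have hsn : ∀ F ∈ 𝓖, F ⊆ range n := fun F hF => (mem_frankl.1 (hsub hF)).1
  have hv : 2 * j ≤ t + 2 * j := by omega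
  generalize t + 2 * j = v at *
  have Gv : ∀ y ∈ G, v ≤ y := fun y hy => (mem_Ico.1 (G1 hy)).1
  obtain ⟨H, H1, H2, H3, H4⟩ := (hNEXT v r G hr).2 Gv G2 (v * D)
  obtain ⟨L1, L2⟩ := hLEV v r (j + 1 + r) _ H hT (by omega) H1 H2 (by
    simp only [if_true]
    omega)
  obtain ⟨Q, Q1, Q2, Q3⟩ := exists_ground (card_pos.1 (by omega)) H1
  have hpw : ∀ (y i : ℕ) (T : Finset ℕ), T ∈ (Ico (v + y) (v + (Q - 1))).powersetCard i →
      T ∈ Sg v i H ∧ Av v y T := fun y i T hT' => by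
    rw [mem_powersetCard] at hT'
    have a1 := fun z (hz : z ∈ T) => mem_Ico.1 (hT'.1 hz)
    refine ⟨mem_Sg.2 ⟨fun z hz => by have := a1 z hz; omega, hT'.2,
      Q3 T fun z hz => mem_Ico.2 (by have := a1 z hz; omega)⟩, ?_⟩
    refine eq_empty_of_forall_notMem fun z hz => ?_
    have := a1 z (mem_inter.1 hz).1
    have := mem_Ico.1 (mem_inter.1 hz).2
    omega
  refine ⟨Q, G5 Q (lt_of_colex_le H3 Q2), ?_, fun p Y hp hY => ?_⟩
  · have a2 := card_le_card fun T hT' => (hpw 0 r T hT').1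
    have a3 := card_le_card (Sg_sub (v := v) (r := r) fun y hy => (mem_Ico.1 (G1 hy)).2)
    rw [card_powersetCard, Nat.card_Ico] at a2 a3
    rw [add_zero, Nat.add_sub_cancel_left] at a2
    rw [hn, Nat.add_sub_cancel_left] at a3
    omega
  have L3 := L2 x
  have L4 : ∀ i, r < i → i ≤ j + 1 + r → (tails v i 𝓖).card ≤ (Sg v i H).card := fun i h1 h2 => by
    have := L1 i h1 h2
    rwa [if_neg h1.ne'] at this
  rw [if_neg (by omega)] at L3
  set Z := (v * D + 1) * ((j + 1) * p) ^ (j + 1) + (j + 1) * Y with hZ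
  obtain ⟨δ, hδ⟩ := Nat.exists_eq_add_of_le (L4 (j + 1 + r) (by omega) le_rfl)
  have b1 : ∑ i ∈ Ioc r (j + 1 + r), v.choose (i - (r + 1)) * (tails v i 𝓖).card + δ ≤
      ∑ i ∈ Ioc r (j + 1 + r), v.choose (i - (r + 1)) * (Sg v i H).card := by
    have hmem : j + 1 + r ∈ Ioc r (j + 1 + r) := mem_Ioc.2 ⟨by omega, le_rfl⟩
    rw [← add_sum_erase _ _ hmem, ← add_sum_erase _ _ hmem, hδ, mul_add]
    have c1 : δ ≤ v.choose (j + 1 + r - (r + 1)) * δ :=
      Nat.le_mul_of_pos_left _ (Nat.choose_pos (by omega))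
    have c2 : ∑ i ∈ (Ioc r (j + 1 + r)).erase (j + 1 + r),
        v.choose (i - (r + 1)) * (tails v i 𝓖).card ≤
        ∑ i ∈ (Ioc r (j + 1 + r)).erase (j + 1 + r), v.choose (i - (r + 1)) * (Sg v i H).card :=
      sum_le_sum fun i hi' => by
        have := mem_Ioc.1 (mem_of_mem_erase hi')
        exact Nat.mul_le_mul_left _ (L4 i this.1 this.2)
    omega
  have b2 : ∑ i ∈ Ioc r (j + 1 + r), v.choose (i - (r + 1)) * (Sg v i H).card ≤
      ∑ i ∈ Ioc r (j + 1 + r), (v.choose (i - (r + 1)) * (Sg v i G).card + v.choose j * Z) :=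
    sum_le_sum fun i hi' => by
      rw [mem_Ioc] at hi'
      have c1 := hINT v r i (j + 1) (v * D) p Q G H hi'.1 (by omega) hp Gv G2 H3 Q2 H4.le
      have c2 := Nat.mul_le_mul_left (j + 1) (hY i hi'.1 hi'.2)
      have c3 : v.choose (i - (r + 1)) ≤ v.choose j := Hull.choose_le_of (by omega) (by omega)
      have c4 := Nat.mul_le_mul_right Z c3
      have c5 := Nat.mul_le_mul_left (v.choose (i - (r + 1)))
        (show (Sg v i H).card ≤ (Sg v i G).card + Z by omega)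
      rw [mul_add] at c5
      omega
  rw [sum_add_distrib, sum_const, Nat.card_Ioc, Nat.add_sub_cancel, smul_eq_mul] at b2
  have b3 : ((Ico (v + x) (v + (Q - 1))).powersetCard (j + 1 + r)).card ≤
      ((Sg v (j + 1 + r) H).filter fun T => Av v x T).card :=
    card_le_card fun T hT' => mem_filter.2 (hpw x _ T hT')
  rw [card_powersetCard, Nat.card_Ico, show v + (Q - 1) - (v + x) = Q - 1 - x by omega] at b3
  have b4 : (tails v (j + 1 + r) 𝓖).filter (fun T => Av v x T) ⊆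
      (tails v (j + 1 + r) 𝓖).filter (fun T => Sp v T ∧ Av v x T) ∪
        ((Ico (v + x) n).powersetCard (j + 1 + r)).filter fun T => ¬ Sp v T := fun T hT' => by
    rw [mem_filter] at hT'
    by_cases h : Sp v T
    · exact mem_union_left _ (mem_filter.2 ⟨hT'.1, h, hT'.2⟩)
    obtain ⟨c1, F, hF, rfl⟩ := mem_tails.1 hT'.1
    refine mem_union_right _ (mem_filter.2 ⟨mem_powersetCard.2 ⟨fun z hz => ?_, c1⟩, h⟩)
    have c2 := mem_Ico.1 (tail_sub (hsn F hF) hz)
    refine mem_Ico.2 ⟨not_lt.1 fun c3 => ?_, c2.2⟩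
    have : z ∈ (F \ range v) ∩ Ico v (v + x) := mem_inter.2 ⟨hz, mem_Ico.2 ⟨c2.1, c3⟩⟩
    rw [hT'.2] at this
    exact notMem_empty _ this
  have b5 := (card_le_card b4).trans (card_union_le _ _)
  have b6 : v.choose j * (j + 1) * Z = (j + 1) * (v.choose j * Z) := by ring
  omega

end Pool.Agent.P.MP_ed1e41_co.AS
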