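import Pool.Agent.P.MP_ed1e41_co.AS.Iface3

/-! Step CTWO. -/

namespace Pool.Agent.P.MP_ed1e41_co.AS

open Finset
open scoped Classical

lemma CTWO_card {v x : ℕ} (hx : v ≤ x) {𝓐 : Finset (Finset ℕ)} (h : ∀ A ∈ 𝓐, A ⊆ range v) :
    (𝓐.image (insert x)).card = 𝓐.card := by
  have n : ∀ A ∈ 𝓐, x ∉ A := fun A hA e => by
    have := mem_range.1 (h A hA e)
    omega
  exact card_image_of_injOn fun A hA B hB e => by
    rw [← erase_insert (n A hA), e, erase_insert (n B hB)]

theorem p_CTWO (hCONE : S_CONE) :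
    S_CTWO := by
  intro i 𝓗 h1 h2 h3
  obtain ⟨v, hv⟩ : ∃ v, v = 1 + 2 * i := ⟨_, rfl⟩
  rw [← hv] at h1 h2 h3 ⊢
  obtain ⟨L, hL⟩ : ∃ L : Finset (Finset ℕ), ∀ H, H ∈ L ↔
      H ∈ (range v).powersetCard (1 + i) ∧ insert (v + 1) H ∈ 𝓗 :=
    ⟨filter _ _, fun _ => mem_filter⟩
  have nm : ∀ {A : Finset ℕ} {x : ℕ}, A ⊆ range v → v ≤ x → x ∉ A := fun h hx e => by
    have := mem_range.1 (h e)
    omega
  have ps : ∀ k, ∀ A ∈ (range v).powersetCard k, A ⊆ range v := fun k A hA =>
    (mem_powersetCard.1 hA).1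
  have sL : ∀ A ∈ shadow L, A ⊆ range v := fun A hA => by
    obtain ⟨a, -, h⟩ := mem_shadow_iff_insert_mem.1 hA
    exact (subset_insert _ _).trans (ps _ _ ((hL _).1 h).1)
  have b1 : v.choose (1 + i) = v.choose i := Nat.choose_symm_of_eq_add (by omega)
  have b2 : v.choose (i + 2) * (i + 2) = v.choose i * i := by
    rw [Nat.choose_succ_right_eq, add_comm i 1, b1]
    congr 1
    omega
  have up : 𝓗 ⊆ (range v).powersetCard (i + 2) ∪
      ((range v).powersetCard (1 + i)).image (insert v) ∪ L.image (insert (v + 1)) := by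
    intro H hH
    obtain ⟨s, c⟩ := mem_powersetCard.1 (h1 hH)
    have g := h2 H hH
    by_cases e : H ⊆ range v
    · exact mem_union_left _ (mem_union_left _ (mem_powersetCard.2 ⟨e, by omega⟩))
    obtain ⟨x, hx, nx⟩ := not_subset.1 e
    have sub : insert x (H ∩ range v) ⊆ H := insert_subset hx inter_subset_left
    have cs := card_insert_of_notMem (s := H ∩ range v) fun h => nx (mem_inter.1 h).2
    have cl := card_le_card sub
    have eq : insert x (H ∩ range v) = H := eq_of_subset_of_card_le sub (by omega)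
    have m0 : H ∩ range v ∈ (range v).powersetCard (1 + i) :=
      mem_powersetCard.2 ⟨inter_subset_right, by omega⟩
    have a1 := mem_range.1 (s hx)
    have a2 := mem_range.not.1 nx
    obtain a | a : x = v ∨ x = v + 1 := by omega
    · exact mem_union_left _ (mem_union_right _ (mem_image.2 ⟨_, m0, a ▸ eq⟩))
    · rw [a] at eq
      exact mem_union_right _ (mem_image.2 ⟨_, (hL _).2 ⟨m0, eq.symm ▸ hH⟩, eq⟩)
  have lo : (range v).powersetCard (1 + i) ∪ ((range v).powersetCard i).image (insert v) ∪
      (shadow L).image (insert (v + 1)) ⊆ shadow 𝓗 := by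
    intro A hA
    rw [mem_shadow_iff_insert_mem]
    rcases mem_union.1 hA with hA | hA
    · rcases mem_union.1 hA with hA | hA
      · exact ⟨v, nm (ps _ _ hA) le_rfl, h3 A hA⟩
      · obtain ⟨G, hG, rfl⟩ := mem_image.1 hA
        obtain ⟨s, c⟩ := mem_powersetCard.1 hG
        obtain ⟨a, a1, a2⟩ := exists_mem_notMem_of_card_lt_card (s := G) (t := range v)
          (by rw [card_range]; omega)
        refine ⟨a, fun e => ?_, ?_⟩
        · exact (mem_insert.1 e).elim (mem_range.1 a1).ne a2
        · rw [insert_comm]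
          exact h3 _ (mem_powersetCard.2 ⟨insert_subset a1 s, by
            rw [card_insert_of_notMem a2]; omega⟩)
    · obtain ⟨G, hG, rfl⟩ := mem_image.1 hA
      obtain ⟨a, a2, h⟩ := mem_shadow_iff_insert_mem.1 hG
      have a1 := mem_range.1 (ps _ _ ((hL _).1 h).1 (mem_insert_self _ _))
      refine ⟨a, fun e => (mem_insert.1 e).elim (by omega) a2, ?_⟩
      rw [insert_comm]
      exact ((hL _).1 h).2
  have d1 : Disjoint ((range v).powersetCard (1 + i))
      (((range v).powersetCard i).image (insert v)) := disjoint_left.2 fun A a b => by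
    obtain ⟨G, -, rfl⟩ := mem_image.1 b
    exact nm (ps _ _ a) le_rfl (mem_insert_self _ _)
  have d2 : Disjoint ((range v).powersetCard (1 + i) ∪
      ((range v).powersetCard i).image (insert v)) ((shadow L).image (insert (v + 1))) :=
    disjoint_left.2 fun A a b => by
      obtain ⟨G, -, rfl⟩ := mem_image.1 b
      rcases mem_union.1 a with a | a
      · exact nm (ps _ _ a) (Nat.le_succ v) (mem_insert_self _ _)
      · obtain ⟨G', a, e⟩ := mem_image.1 a
        have : v + 1 ∈ insert v G' := e ▸ mem_insert_self _ _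
        exact (mem_insert.1 this).elim (by omega) (nm (ps _ _ a) (Nat.le_succ v))
  have c1 := card_le_card lo
  rw [card_union_of_disjoint d2, card_union_of_disjoint d1, CTWO_card le_rfl (ps _),
    CTWO_card (Nat.le_succ v) sL, card_powersetCard, card_powersetCard, card_range, b1] at c1
  have c2 := (card_le_card up).trans ((card_union_le _ _).trans
    (add_le_add ((card_union_le _ _).trans (add_le_add le_rfl card_image_le)) card_image_le))
  rw [card_powersetCard, card_powersetCard, card_range, b1] at c2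
  have c3 := (hCONE v (1 + i) L fun H h => ((hL H).1 h).1).1
  rw [show v + 1 - (1 + i) = 1 + i by omega] at c3
  have c4 := Nat.le_of_mul_le_mul_left c3 (by omega)
  nlinarith [Nat.mul_le_mul_left (i + 2) c1, Nat.mul_le_mul_left (i + 2) c2,
    Nat.mul_le_mul_left (i + 2) c4]

end Pool.Agent.P.MP_ed1e41_co.AS
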