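import Pool.Agent.P.MP_ed1e41_co.AS.Iface3

/-! Step DEFO. -/

namespace Pool.Agent.P.MP_ed1e41_co.AS

open Finset
open scoped Classical

lemma DEFO_class {d i : ℕ} {H G : Finset ℕ} (hd : i + 1 ≤ d)
    (hH : H ∈ (range (1 + 2 * i)).powersetCard (1 + i)) (hG : ∀ x ∈ G, 1 + 2 * i + 2 ≤ x)
    (hs : Hs (1 + 2 * i + 2) G) : IsClass 1 d (i + 1) (insert (1 + 2 * i) (H ∪ G)) := by
  obtain ⟨h1, h2⟩ := mem_powersetCard.1 hH
  have hlt : ∀ x ∈ H, x < 1 + 2 * i := fun x hx => mem_range.1 (h1 hx)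
  have e1 : insert (1 + 2 * i) (H ∪ G) ∩ range (1 + 2 * i + 2) = insert (1 + 2 * i) H := by
    ext x
    simp only [mem_inter, mem_insert, mem_union, mem_range]
    constructor
    · rintro ⟨h | h | h, h'⟩
      · exact Or.inl h
      · exact Or.inr h
      · have := hG x h
        omega
    · rintro (h | h)
      · exact ⟨Or.inl h, by omega⟩
      · have := hlt x h
        exact ⟨Or.inr (Or.inl h), by omega⟩
  have c1 : (insert (1 + 2 * i) (H ∪ G) ∩ range (1 + 2 * i + 2)).card = 1 + (i + 1) := by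
    rw [e1, card_insert_of_notMem fun h => lt_irrefl _ (hlt _ h), h2]
    omega
  refine ⟨hd, c1, fun c hc _ => ?_⟩
  obtain ⟨x, rfl⟩ := Nat.exists_eq_add_of_le hc.le
  have e2 : insert (1 + 2 * i) (H ∪ G) ∩ Ico (1 + 2 * i + 2) (1 + 2 * i + 2 + 2 * x) =
      G ∩ Ico (1 + 2 * i + 2) (1 + 2 * i + 2 + 2 * x) := by
    ext y
    simp only [mem_inter, mem_insert, mem_union, mem_Ico]
    constructor
    · rintro ⟨h | h | h, h'⟩
      · omega
      · have := hlt y h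
        omega
      · exact ⟨h, h'⟩
    · rintro ⟨h, h'⟩
      exact ⟨Or.inr (Or.inr h), h'⟩
  have h3 := card_tr_split (insert (1 + 2 * i) (H ∪ G)) (1 + 2 * i + 2) (2 * x)
  have h4 := hs x (by omega)
  rw [c1, e2] at h3
  rw [show 1 + 2 * (i + 1 + x) = 1 + 2 * i + 2 + 2 * x by ring, h3]
  omega

lemma DEFO_cell (hCELLN : S_CELLN) (d c : ℕ) (𝓕 : Finset (Finset ℕ)) :
    (cls 1 d c 𝓕).card ≤ (hsh 1 d c 𝓕).card := by
  have h := hCELLN 1 d c 𝓕
  have hp : 0 < (1 + 2 * c).choose c := Nat.choose_pos (by omega)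
  have h2 := Nat.le_of_mul_le_mul_left ((Nat.le_add_right _ _).trans h) hp
  rw [add_comm 1 c] at h2
  exact Nat.le_of_mul_le_mul_left h2 (Nat.succ_pos c)

theorem p_DEFO (hCOEX : S_COEX) (hFULL : S_FULL) (hDISJ : S_DISJ) (hCELLN : S_CELLN) (hCELLS : S_CELLS) :
    S_DEFO := by
  intro n d m i g 𝓕 F hA hs hd hF hFu
  have h1 := hCELLS d i 𝓕 (GG n i g 𝓕) (hCOEX n 1 d m i 𝓕 F le_rfl hA hs hF hFu).2 (by
    intro G hG
    obtain ⟨g1, -, g3, g4⟩ := mem_GG.1 hG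
    have hge : ∀ x ∈ G, 1 + 2 * i + 2 ≤ x := fun x hx => (mem_Ico.1 (g1 hx)).1
    refine ⟨hge, fun H hH => mem_cls.2 ⟨?_, DEFO_class (by omega) hH hge g3⟩⟩
    rw [← union_insert] at g4 ⊢
    refine hFULL 1 i 𝓕 _ hs (fun x hx => ?_) g4 H hH
    rcases mem_insert.1 hx with h | h
    · omega
    · have := hge x h
      omega)
  have hm : i + 1 ∈ range (d + 1) := mem_range.2 (by omega)
  have h2 := sum_cls hA hs
  have h3 := hDISJ 1 d 𝓕
  rw [← add_sum_erase _ _ hm] at h2 h3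
  have h4 : ∑ c ∈ (range (d + 1)).erase (i + 1), (cls 1 d c 𝓕).card ≤
      ∑ c ∈ (range (d + 1)).erase (i + 1), (hsh 1 d c 𝓕).card :=
    sum_le_sum fun c _ => DEFO_cell hCELLN d c 𝓕
  rw [← h2, mul_add]
  have h6 := Nat.mul_le_mul_left (i + 2) h3
  have h7 := Nat.mul_le_mul_left (i + 2) h4
  rw [mul_add] at h6
  omega

end Pool.Agent.P.MP_ed1e41_co.AS
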