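import Pool.Agent.P.MP_ed1e41_co.AS.Iface3
import Pool.Agent.P.MP_ed1e41_co.AS.Iface2

/-! Step DEG. -/

namespace Pool.Agent.P.MP_ed1e41_co.AS

open Finset
open scoped Classical

lemma DEG_deg {b x : ℕ} {𝓘 : Finset (Finset ℕ)} (hs : ShiftedFrom b 𝓘) (hx : b ≤ x) :
    (𝓘.filter fun F => x ∈ F).card ≤ (𝓘.memberSubfamily b).card := by
  refine card_le_card_of_injOn (fun F => if b ∈ F then F.erase b else F.erase x) ?_ ?_
  · intro F hF
    obtain ⟨h1, h2⟩ := mem_filter.1 (mem_coe.1 hF)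
    rw [mem_coe, mem_memberSubfamily]
    by_cases hb : b ∈ F
    · simp only [if_pos hb]
      exact ⟨by rwa [insert_erase hb], notMem_erase _ _⟩
    · simp only [if_neg hb]
      have hne : b ≠ x := fun e => hb (e ▸ h2)
      exact ⟨hs F h1 b x le_rfl (lt_of_le_of_ne hx hne) h2 hb, fun h => hb (mem_of_mem_erase h)⟩
  · intro F hF G hG e
    obtain ⟨-, h2⟩ := mem_filter.1 (mem_coe.1 hF)
    obtain ⟨-, h4⟩ := mem_filter.1 (mem_coe.1 hG)
    by_cases hb : b ∈ F <;> by_cases hb' : b ∈ G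
    · simp only [if_pos hb, if_pos hb'] at e
      rw [← insert_erase hb, e, insert_erase hb']
    · simp only [if_pos hb, if_neg hb'] at e
      have : x ∈ F.erase b := mem_erase.2 ⟨fun h => hb' (h ▸ h4), h2⟩
      rw [e] at this
      exact absurd this (notMem_erase _ _)
    · simp only [if_neg hb, if_pos hb'] at e
      have : x ∈ G.erase b := mem_erase.2 ⟨fun h => hb (h ▸ h2), h4⟩
      rw [← e] at this
      exact absurd this (notMem_erase _ _)
    · simp only [if_neg hb, if_neg hb'] at e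
      rw [← insert_erase h2, e, insert_erase h4]

theorem p_DEG (hMONO : S_MONO) :
    S_DEG := by
  intro b r y 𝒜 hA hs hm
  obtain ⟨N, hN⟩ := exists_bound 𝒜
  set U := (Ico b (b + y)).powersetCard r with hU
  have hc : 𝒜.card ≤ U.card := by
    rwa [hU, card_powersetCard, Nat.card_Ico, Nat.add_sub_cancel_left]
  set 𝓘 := colexInit U 𝒜.card with hI
  have hIc : 𝓘.card = 𝒜.card := card_colexInit hc
  have hIU : ∀ F ∈ 𝓘, F ⊆ Ico b (b + y) ∧ F.card = r := fun F hF =>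
    mem_powersetCard.1 (mem_colexInit.1 hF).1
  have h1 : ∀ F ∈ 𝒜, InU b (max N (b + y)) 0 0 r F := fun F hF =>
    inU_pure.2 ⟨fun x hx => mem_Ico.2 ⟨(hA F hF).1 x hx, lt_max_of_lt_left (hN F hF x hx)⟩,
      (hA F hF).2⟩
  have h2 : ∀ F ∈ 𝓘, InU b (max N (b + y)) 0 0 r F := fun F hF =>
    inU_pure.2 ⟨(hIU F hF).1.trans (Ico_subset_Ico_right (le_max_right _ _)), (hIU F hF).2⟩
  have h3 : DownClosed b (max N (b + y)) 0 0 r 𝓘 := fun F hF G hG hlt =>
    colexInit_down hF (mem_powersetCard.2 ⟨fun x hx => mem_Ico.2 ⟨(mem_Ico.1 (hG.1 hx)).1,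
      lt_of_colex_le hlt.le (fun z hz => (mem_Ico.1 ((hIU F hF).1 hz)).2) x hx⟩, hG.2.1⟩) hlt
  have h4 := hMONO b _ 0 0 r 𝒜 𝓘 h1 hs h2 h3 hIc.le
  have h5 : 𝓘.card * r ≤ (Ico b (b + y)).card * (𝓘.memberSubfamily b).card := by
    refine card_mul_le_card_mul (fun F x => x ∈ F) (fun F hF => ?_) (fun x hx => ?_)
    · rw [← (hIU F hF).2]
      exact card_le_card fun x hx => mem_bipartiteAbove _ |>.2 ⟨(hIU F hF).1 hx, hx⟩
    · exact DEG_deg (h3.shiftedFrom h2) (mem_Ico.1 hx).1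
  rw [hIc, Nat.card_Ico, Nat.add_sub_cancel_left, mul_comm] at h5
  exact h5.trans (Nat.mul_le_mul_left _ h4)

end Pool.Agent.P.MP_ed1e41_co.AS
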