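import Pool.Agent.P.MP_ed1e41_co.AS.Iface3

/-! Step DISJ. -/

namespace Pool.Agent.P.MP_ed1e41_co.AS

open Finset
open scoped Classical

theorem p_DISJ :
    S_DISJ := by
  intro t d 𝓕
  rw [← card_biUnion]
  · refine card_le_card fun G hG => ?_
    obtain ⟨c, -, h⟩ := mem_biUnion.1 hG
    obtain ⟨F, hF, z, hz, -, rfl⟩ := mem_hsh.1 h
    exact erase_mem_shadow (mem_cls.1 hF).1 hz
  · intro c _ c' _ hne
    refine disjoint_left.2 fun G h1 h2 => hne ?_
    obtain ⟨F, hF, z, hz, a, rfl⟩ := mem_hsh.1 h1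
    obtain ⟨F', hF', z', hz', a', e⟩ := mem_hsh.1 h2
    exact class_erase (mem_cls.1 hF).2 (mem_cls.1 hF').2 hz hz' a a' e.symm

end Pool.Agent.P.MP_ed1e41_co.AS
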