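import Pool.Agent.P.MP_ed1e41_co.AS.Iface3

/-! The exact value far above the next Frankl family, with the sharper constant. -/

namespace Pool.Agent.P.MP_ed1e41_co.AS

open Finset
open scoped Classical

lemma EXDK_four (j : ℕ) : 4 ^ (j + 1) ≤ 4 * (j + 1) * (1 + 2 * j).choose j := by
  have h := Nat.four_pow_le_two_mul_self_mul_centralBinom (j + 1) j.succ_pos
  have e : (j + 1).centralBinom = 2 * (1 + 2 * j).choose j := by
    rw [Nat.centralBinom_eq_two_mul_choose, show 2 * (j + 1) = 2 * j + 1 + 1 by ring,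
      Nat.choose_succ_succ', Nat.choose_symm_half, add_comm 1]
    ring
  rw [e] at h
  linarith

theorem p_EXDK (hEXY : S_EXY) (hGDT : S_GDT) (hGDO : S_GDO) (n t d j m e q : ℕ)
    (hS : St n t d j m e q)
    (hm : 10 ^ 8 * (t + j) ^ 4 * (t + 2 * j).choose j * (frankl n (t + d) t (j + 1)).card ≤ m)
    (𝓕 : Finset (Finset ℕ)) (h : Adm n (t + d) t m 𝓕) :
    (shadow (colexInit (frankl n (t + d) t j) m)).card ≤ (shadow 𝓕).card := by
  obtain ⟨𝓖, g1, g2, g3⟩ := exists_shifted h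
  refine le_trans ?_ g3
  by_contra hlt
  have t1 := hS.t1
  have c1 : 1 ≤ (t + 2 * j).choose j := Nat.choose_pos (by omega)
  have p0 : (j + 1) ^ 3 ≤ (t + j) ^ 3 := Nat.pow_le_pow_left (by omega) 3
  have p1 : (t + j) ^ 3 ≤ (t + j) ^ 4 := Nat.pow_le_pow_right (by omega) (by omega)
  have p2 : t + j ≤ (t + j) ^ 4 := Nat.le_self_pow (by omega) _
  have p3 : (t + j) ^ 4 ≤ (t + j) ^ 4 * (t + 2 * j).choose j := Nat.le_mul_of_pos_right _ c1
  have hK : (10 ^ 7 * (t + j) ^ 4 * (t + 2 * j).choose j + 1) *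
      (frankl n (t + d) t (j + 1)).card ≤ m := by
    refine le_trans (Nat.mul_le_mul_right _ ?_) hm
    rw [mul_assoc, mul_assoc]
    omega
  refine hlt (hEXY n t d j m e q _ hS (by rw [mul_assoc]; omega) (by rw [mul_assoc]; omega) hK 𝓖
    g1 g2 ?_)
  rw [not_le] at hlt
  rcases t1.lt_or_eq with h2 | rfl
  · exact hGDT n t d j m e q _ hS h2 le_rfl hK 𝓖 g1 g2 hlt
  · refine hGDO n d j m e q _ hS le_rfl ?_ hK 𝓖 g1 g2 hlt
    have a1 := Nat.mul_le_mul_left (10 ^ 4 * (j + 1) ^ 2) (EXDK_four j)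
    have a2 : 10 ^ 4 * (j + 1) ^ 2 * (4 * (j + 1) * (1 + 2 * j).choose j) =
        4 * 10 ^ 4 * ((j + 1) ^ 3 * (1 + 2 * j).choose j) := by ring
    have a3 := Nat.mul_le_mul_right ((1 + 2 * j).choose j) (p0.trans p1)
    rw [mul_assoc (10 ^ 7)]
    omega

end Pool.Agent.P.MP_ed1e41_co.AS
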