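import Pool.Agent.P.MP_ed1e41_co.AS.Iface3
import Pool.Agent.P.MP_ed1e41_co.AS.Iface
import Pool.Agent.P.MP_ed1e41_co.AS.Iface2

/-! Step EXY. -/

namespace Pool.Agent.P.MP_ed1e41_co.AS

open Finset
open scoped Classical

theorem p_EXY (hPT : S_PT) (hKKA : S_KKA) (hWINY : S_WINY) (hOUT : S_OUT) (hNSB : S_NSB) (hCOREY : S_COREY) (hQBY : S_QBY) (hNUM : S_NUM) :
    S_EXY := by
  intro n t d j m e q R hS h3 h4 h5 𝓖 g1 g2 hG
  by_cases hsub : 𝓖 ⊆ frankl n (t + d) t j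
  · exact hKKA n (t + d) t j m 𝓖 hsub g1.2.2.ge
  by_contra hlt
  rw [not_le] at hlt
  have hd := hS.hd
  have hn := hS.hn
  have e1 := hS.e1
  have hq := hS.hq
  have t1 := hS.t1
  have p1 : j + 1 ≤ (j + 1) ^ 3 := Nat.le_self_pow (by omega) _
  have hR : 2 ^ 23 ≤ R := by omega
  have h6 : t + j ≤ 2 * R * (j + 1) := by nlinarith
  have h8 : R * (frankl n (t + d) t (j + 1)).card ≤ m :=
    (Nat.mul_le_mul_right _ R.le_succ).trans h5
  have h7 := (hQBY n t d j m e q R q hS (by omega) h5 (hn ▸ hS.hi)).1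
  obtain ⟨x, x1, x2, x3, x4⟩ := hWINY n t d j m e q R hS hR h8 h7 𝓖 g1 g2 hG hsub
  have o1 := hOUT n t d j e q R x (j + 2) (4 * e) _ hd hn hR h7 h6 (by omega) (by omega) x4
  obtain ⟨r, hr⟩ : ∃ r, e = j + 1 + r := ⟨e - (j + 1), by omega⟩
  have o2 := card_sdiff_add_card_inter 𝓖 (frankl n (t + d) t j)
  rw [g1.2.2] at o2
  obtain ⟨Q, q1, q2, q3⟩ := hCOREY n t d j m e q r (𝓖 \ frankl n (t + d) t j).card x
    (𝓖 ∩ frankl n (t + d) t j) hS hr (by omega) inter_subset_right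
    (Shifted_inter g2 (shifted_frankl _ _ _ _)) (by omega)
    (fun Y hY => x3 Y (mem_inter.1 hY).1)
    ((card_le_card (shadow_mono inter_subset_left)).trans_lt hlt)
  obtain ⟨q4, q5⟩ := hQBY n t d j m e q R Q hS (by omega) h5 q1
  have e2 : 2 ^ 23 * e ≤ R * e := Nat.mul_le_mul_right _ hR
  have o3 := hNSB (t + 2 * j) x n (q - x) e R (by omega) hR e1 (by omega) (by omega)
  have o4 := (hPT n t d j e q hS.t1 hd e1 hn (by omega)).1
  have o5 : R * ((t + 2 * j).choose j * (q - 2).choose (e - 1)) ≤ m :=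
    (Nat.mul_le_mul_left _ (Nat.le_of_mul_le_mul_left
      ((Nat.mul_le_mul_right _ (show j + 1 ≤ t + j by omega)).trans o4) j.succ_pos)).trans h8
  exact hNUM t j e q r R x Q _ _ m hr h3 h6 x1 x2 h7 q4 o5 q5 o1 o3 q2 q3

end Pool.Agent.P.MP_ed1e41_co.AS
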