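import Pool.Agent.P.MP_ed1e41_co.AS.Iface3

/-! Step FULL. -/

namespace Pool.Agent.P.MP_ed1e41_co.AS

open Finset
open scoped Classical

theorem p_FULL :
    S_FULL := by
  intro t j 𝓕 T hS hT h0
  suffices h : ∀ m, ∀ H ∈ (range (t + 2 * j)).powersetCard (t + j),
      (Ico j (t + 2 * j) \ H).card = m → H ∪ T ∈ 𝓕 from fun H hH => h _ H hH rfl
  intro m
  induction m with
  | zero =>
    intro H hH hm
    rw [card_eq_zero, sdiff_eq_empty_iff_subset] at hm
    rwa [← eq_of_subset_of_card_le hm (by rw [(mem_powersetCard.1 hH).2, Nat.card_Ico]; omega)]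
  | succ m ih =>
    intro H hH hm
    obtain ⟨h1, h2⟩ := mem_powersetCard.1 hH
    obtain ⟨y, hy⟩ := card_pos.1 (show 0 < (Ico j (t + 2 * j) \ H).card by omega)
    have hc : (H \ Ico j (t + 2 * j)).card = (Ico j (t + 2 * j) \ H).card :=
      card_sdiff_comm (by rw [h2, Nat.card_Ico]; omega)
    obtain ⟨x, hx⟩ := card_pos.1 (show 0 < (H \ Ico j (t + 2 * j)).card by omega)
    obtain ⟨y1, y2⟩ := mem_sdiff.1 hy
    obtain ⟨x1, x2⟩ := mem_sdiff.1 hx
    have x3 := mem_range.1 (h1 x1)
    rw [mem_Ico] at y1 x2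
    have hyT : y ∉ T := fun h => by have := hT y h; omega
    have hxT : x ∉ T := fun h => by have := hT x h; omega
    have e1 : Ico j (t + 2 * j) \ insert y (H.erase x) = (Ico j (t + 2 * j) \ H).erase y := by
      ext z
      simp only [mem_sdiff, mem_insert, mem_erase, mem_Ico]
      grind
    have h3 := ih (insert y (H.erase x)) (mem_powersetCard.2 ⟨insert_subset (mem_range.2 y1.2)
      ((erase_subset _ _).trans h1), by
        rw [card_insert_of_notMem fun h => y2 (mem_of_mem_erase h), card_erase_add_one x1, h2]⟩)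
      (by rw [e1, card_erase_of_mem hy, hm]; rfl)
    have h4 := hS _ h3 x y (by omega) (by simp) (by
      simp only [mem_union, mem_insert, mem_erase]
      grind)
    convert h4 using 1
    ext z
    simp only [mem_union, mem_insert, mem_erase]
    grind

end Pool.Agent.P.MP_ed1e41_co.AS
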