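import Pool.Agent.P.MP_ed1e41_co.AS.Iface3
import Pool.Agent.P.MP_ed1e41_co.AS.Iface

/-! Step GDO. -/

namespace Pool.Agent.P.MP_ed1e41_co.AS

open Finset
open scoped Classical

lemma GDO_half {K c J m P N Z U : ℕ} (h1 : m + c * J * m ≤ P + N + c * J * Z) (h2 : K * N ≤ 2 * m)
    (h3 : Z < U) (h4 : K * U ≤ (K + 5) * m) (h5 : 14 * (c * J) ≤ K) (h6 : 1 ≤ c * J) :
    m ≤ 2 * P := by
  generalize c * J = w at *
  have a1 : K * Z ≤ (K + 5) * m := (Nat.mul_le_mul_left _ h3.le).trans h4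
  have a2 := Nat.mul_le_mul_left w a1
  have a3 := Nat.mul_le_mul_left K h1
  have a4 := Nat.mul_le_mul_right m h5
  have a5 := Nat.mul_le_mul_right m h6
  refine Nat.le_of_mul_le_mul_left (c := K) ?_ (by omega)
  nlinarith

lemma GDO_two {y r c J Q m : ℕ} (h1 : 2 ≤ r) (h2 : 2 * r ≤ y) (h3 : Q < 10 * J * (y + 1))
    (h4 : 1000 * (c * J) ≤ y) (h5 : m ≤ 2 * (c * Q)) : m ≤ y.choose r := by
  refine le_trans ?_ (Hull.choose_le_of h1 (by omega))
  rw [Nat.choose_two_right, Nat.le_div_iff_mul_le (by omega)]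
  obtain ⟨z, rfl⟩ : ∃ z, y = z + 1 := ⟨y - 1, by omega⟩
  rw [Nat.add_sub_cancel]
  have a1 := Nat.mul_le_mul_left c h3.le
  have a2 := Nat.mul_le_mul_right z h4
  have a3 := Nat.mul_le_mul_left (c * J) (show z + 1 + 1 ≤ 2 * z by omega)
  nlinarith

lemma GDO_a {K j U m c : ℕ} (h1 : K * c ≤ m)
    (h2 : K * (j + 1) * U ≤ K * (1 + j) * m + K * (1 + j) * c + 4 * (j + 1) * m) :
    K * U ≤ (K + 5) * m := by
  refine Nat.le_of_mul_le_mul_left (c := j + 1) ?_ j.succ_pos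
  have := Nat.mul_le_mul_left (j + 1) h1
  nlinarith

lemma GDO_b {K j U m c : ℕ} (h1 : 2 ≤ K)
    (h2 : K * (j + 2) * U ≤ K * (j + 2) * (m + c) + (2 * K + 2 * (j + 2)) * c) : U ≤ m + 3 * c := by
  refine Nat.le_of_mul_le_mul_left (c := K * (j + 2)) ?_ (Nat.mul_pos (by omega) (by omega))
  have a1 : 2 * K + 2 * (j + 2) ≤ K * (j + 2) * 2 := by nlinarith
  have a2 := Nat.mul_le_mul_right c a1
  nlinarith

lemma GDO_c {K e : ℕ} (h1 : 9 ≤ K) (h2 : 1 ≤ e) : K + 9 * e ≤ K * e + 9 := by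
  obtain ⟨u, rfl⟩ := Nat.exists_eq_add_of_le h2
  have : 9 * u ≤ K * u := Nat.mul_le_mul_right _ h1
  nlinarith

lemma GDO_d {Q N f : ℕ} (h : Q ≤ 2 * (N - f)) : Q * N.choose f ≤ 2 * ((f + 2) * N.choose (f + 1)) := by
  have s3 := Nat.choose_succ_right_eq N f
  nlinarith

theorem p_GDO (hPT : S_PT) (hUA : S_UA) (hHIY : S_HIY) (hQBY : S_QBY) (hONE : S_ONE) (hDEFO : S_DEFO) (hGLOW : S_GLOW) (hNSH : S_NSH) (hUPO : S_UPO) (hNPT : S_NPT) (hNUMT : S_NUMT) (hNUMU : S_NUMU) :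
    S_GDO := by
  intro n d j m e q K hS hK1 hK2 hm 𝓕 hA hs hlt
  have hd := hS.hd
  have hn := hS.hn
  have e1 := hS.e1
  have hq := hS.hq
  have hlo := hS.lo
  have c1 : 1 ≤ (1 + 2 * j).choose j := Nat.choose_pos (by omega)
  rw [add_comm 1 j] at hK1
  have p1 : j + 1 ≤ (j + 1) ^ 4 := Nat.le_self_pow (by omega) _
  have p2 : 10 ^ 7 * ((1 + 2 * j).choose j * (j + 1)) ≤ K := by
    refine le_trans ?_ hK1
    rw [mul_assoc, mul_comm ((j + 1) ^ 4)]
    exact Nat.mul_le_mul_left _ (Nat.mul_le_mul_left _ p1)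
  have p3 : j + 1 ≤ (1 + 2 * j).choose j * (j + 1) := Nat.le_mul_of_pos_left _ c1
  have p4 : (1 + 2 * j).choose j ≤ (1 + 2 * j).choose j * (j + 1) :=
    Nat.le_mul_of_pos_right _ j.succ_pos
  have o1 := (hPT n 1 d j e q le_rfl hd e1 hn (by omega)).1
  rw [add_comm 1 j] at o1
  have o2 := (Nat.mul_le_mul_left (K + 1) (Nat.le_of_mul_le_mul_left o1 j.succ_pos)).trans hm
  have o3 : K * (1 + 2 * j).choose j ≤ m := le_trans (Nat.mul_le_mul K.le_succ
    (Nat.le_mul_of_pos_right _ (Nat.choose_pos (by omega)))) o2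
  have o5 := GDO_a o3 (hUA n 1 d j m e q hS K (by omega) (Or.inr hm))
  have o6 : K * (𝓕.filter fun F => Hi 1 j F).card ≤ 2 * m := by
    have := Nat.mul_le_mul_left K (hHIY n 1 d j m e q K hS (by omega) hm 𝓕 hA hs)
    rw [mul_left_comm] at this
    rw [add_mul] at hm
    omega
  obtain ⟨i, i1, i2⟩ := hONE n d m j 𝓕 hA hs
  have o7 := GDO_half i2 o6 hlt o5 (by omega) (by omega)
  rcases i1.eq_or_lt with rfl | i3
  · exact o7.trans (Nat.mul_le_mul_left _ (card_le_card fun F hF => mem_filter.2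
      ⟨(mem_cls.1 (mem_filter.1 hF).1).1, (mem_cls.1 (mem_filter.1 hF).1).2.2.1,
        (mem_filter.1 hF).2⟩))
  exfalso
  obtain ⟨F, hF⟩ : ((cls 1 d i 𝓕).filter fun F => Fu 1 i 𝓕 F).Nonempty := card_pos.1 (by omega)
  obtain ⟨a, ha⟩ : ∃ a, j = i + a := ⟨j - i, by omega⟩
  obtain ⟨g, hg⟩ : ∃ g, d = i + g + 1 := ⟨d - i - 1, by omega⟩
  obtain ⟨Q, q1, q2, q3⟩ := hNPT n 1 d j m e q hS
  obtain ⟨q4, q5⟩ := hQBY n 1 d j m e q K Q hS (by omega) hm q2
  have q6 := hUPO n d j m e q Q K hS q1 (by omega) q4 q2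
  have q7 := hDEFO n d m i g 𝓕 F hA hs hg (mem_filter.1 hF).1 (mem_filter.1 hF).2
  have e2 := GDO_c (show 9 ≤ K by omega) e1
  obtain ⟨q8, q9⟩ := hNSH (1 + 2 * i + 2) a n (q - 2) g (by omega) (by omega)
  have b1 : 1 ≤ (1 + 2 * i).choose i := Nat.choose_pos (by omega)
  have b2 := cc_mono 1 i1
  have hGl := fun y h => hGLOW n d m i g a y 𝓕 hA hs hg
    (le_trans h (Nat.le_mul_of_pos_left _ b1))
  rcases e1.eq_or_lt with rfl | e3
  · have y1 := Nat.mul_div_le Q (10 * (j + 1))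
    have y2 := Nat.lt_mul_div_succ Q (show 0 < 10 * (j + 1) by omega)
    have y3 : 1000 * ((1 + 2 * j).choose j * (j + 1)) ≤ Q / (10 * (j + 1)) := by
      refine (Nat.le_div_iff_mul_le (by omega)).2 (le_trans ?_ (hK1.trans (by omega)))
      calc _ = 10 ^ 4 * (j + 1) ^ 2 * (1 + 2 * j).choose j := by ring
        _ ≤ _ := by gcongr <;> omega
    rw [Nat.choose_one_right] at q3 q5
    have y4 := hGl _ (GDO_two (by omega) (by omega) y2 y3 q5)
    rw [q9 (by omega), add_zero] at y4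
    rw [Nat.sub_self, Nat.choose_zero_right, mul_one] at q6
    exact hNUMU i j a (g + 1) K m _ _ _ _ _ _ _ Q _ i3 (by omega) (by omega) c1 hK1 i2 o6 hlt o5
      q7 y4 y1 q3 (GDO_b (by omega) q6) (by omega)
  obtain ⟨f, rfl⟩ : ∃ f, e = f + 2 := ⟨e - 2, by omega⟩
  rw [show f + 2 - 1 = f + 1 by omega] at q6 o2
  rw [show g - (a + 1) = f by omega] at q8
  have s1 := Nat.choose_succ_right_eq Q (f + 2)
  have s2 := Nat.choose_succ_right_eq Q (f + 1)
  have s4 : (Q - 1).choose (f + 2) * Q = Q.choose (f + 2) * (Q - (f + 2)) := by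
    have := Nat.choose_mul_succ_eq (Q - 1) (f + 2)
    rwa [show Q - 1 + 1 = Q by omega] at this
  have y4 := hGl Q (le_trans ?_ (Hull.choose_le_of (show f + 2 + 1 ≤ g + 1 by omega) (by omega)))
  · refine hNUMT i j a (f + 2) (g + 1) K m _ _ _ _ _ _ _ _ Q (Q.choose (f + 1)) i3 (by omega) e1
      (by omega) c1 (by omega) hK1 hK2 i2 o6 hlt o5 q7 y4 ?_ q6 ?_ q4 ?_
    · have a1 : 4 ^ (a + 1) ≤ 4 ^ (j + 1) := Nat.pow_le_pow_right (by omega) (by omega)
      have a2 := GDO_d (show Q ≤ 2 * (q - 2 - f) by omega)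
      have a3 := q8.trans (Nat.mul_le_mul_right _ (Nat.mul_le_mul_left 2 a1))
      have a4 := (Nat.mul_le_mul_right _ K.le_succ).trans o2
      calc _ ≤ K * ((1 + 2 * j).choose j * Q * (2 * 4 ^ (j + 1) * (q - 2).choose f)) := by gcongr
        _ = 2 * 4 ^ (j + 1) * K * (1 + 2 * j).choose j * (Q * (q - 2).choose f) := by ring
        _ ≤ 2 * 4 ^ (j + 1) * K * (1 + 2 * j).choose j *
          (2 * ((f + 2) * (q - 2).choose (f + 1))) := by gcongr
        _ = 4 * 4 ^ (j + 1) * (f + 2) * (K * ((1 + 2 * j).choose j * (q - 2).choose (f + 1))) := by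
          ring
        _ ≤ _ := by gcongr
    · refine le_trans ?_ (Hull.choose_le_of (show 1 ≤ f + 1 by omega) (by omega))
      rw [Nat.choose_one_right]
      omega
    · calc _ ≤ (1 + 2 * j).choose j * (Q.choose (f + 1) * (Q - (f + 1))) * (Q - (f + 2)) := by
            rw [sq, ← mul_assoc, ← mul_assoc]
            gcongr
            omega
        _ = (f + 2) * ((1 + 2 * j).choose j * (Q.choose (f + 2) * (Q - (f + 2)))) := by
            rw [← s2]; ring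
        _ = (f + 2) * Q * ((1 + 2 * j).choose j * (Q - 1).choose (f + 2)) := by rw [← s4]; ring
        _ ≤ (f + 2) * Q * m := by gcongr
        _ = _ := by ring
  · refine q5.trans (Nat.le_of_mul_le_mul_right ?_ (show 0 < f + 2 + 1 by omega))
    rw [s1, ← mul_assoc, mul_right_comm, mul_comm (Q.choose _)]
    refine Nat.mul_le_mul_right _ ?_
    have : 4 * (1 + 2 * j).choose j * (f + 2) ≤ K * (f + 2) := Nat.mul_le_mul_right _ (by omega)
    have : 2 * (1 + 2 * j).choose j * (f + 2 + 1) ≤ 2 * (1 + 2 * j).choose j * (2 * (f + 2)) :=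
      Nat.mul_le_mul_left _ (by omega)
    have : 2 * (1 + 2 * j).choose j * (2 * (f + 2)) = 4 * (1 + 2 * j).choose j * (f + 2) := by ring
    omega

end Pool.Agent.P.MP_ed1e41_co.AS
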