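import Pool.Agent.P.MP_ed1e41_co.AS.Iface3
import Pool.Agent.P.MP_ed1e41_co.AS.Iface

/-! Step GDT. -/

namespace Pool.Agent.P.MP_ed1e41_co.AS

open Finset
open scoped Classical

lemma GDT_low {t j i c N S : ℕ} (ht : 2 ≤ t) (hi : i < j) (hc : j ≤ c)
    (h : (t + i) * N ≤ (i + 1) * S) : c * (t + j) * N + N ≤ c * (j + 1) * S := by
  obtain ⟨u, rfl⟩ := Nat.exists_eq_add_of_lt hi
  obtain ⟨v, rfl⟩ := Nat.exists_eq_add_of_le ht
  have h1 : (i + 1) * ((v + i + u + 2) * N) ≤ (i + 1) * ((i + u + 1) * S) := by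
    have := Nat.mul_le_mul_left (i + u + 1) h
    have : 0 ≤ (v + 1) * u * N := Nat.zero_le _
    nlinarith
  have h2 := Nat.le_of_mul_le_mul_left h1 (Nat.succ_pos i)
  have h3 : (i + u + 1) * ((2 + v + (i + u + 1)) * N) + N ≤
      (i + u + 1) * ((i + u + 1 + 1) * S) := by
    have := Nat.mul_le_mul_left (i + u + 2) h2
    have : 0 ≤ v * N := Nat.zero_le _
    nlinarith
  have h4 : (2 + v + (i + u + 1)) * N ≤ (i + u + 1 + 1) * S :=
    Nat.le_of_mul_le_mul_left (le_trans (Nat.le_add_right _ _) h3) (Nat.succ_pos _)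
  obtain ⟨x, rfl⟩ := Nat.exists_eq_add_of_le hc
  have h5 := Nat.mul_le_mul_left x h4
  nlinarith

lemma GDT_fin {s J c K m a U Z B H G : ℕ} (hs : 1 ≤ s) (hc : 1 ≤ c) (hJ : J ≤ s)
    (hK : 18 * (c * s) ≤ K) (h1 : s * c ≤ J * a) (h2 : (K + 1) * a ≤ m)
    (h3 : K * J * U ≤ K * s * m + K * s * c + 4 * J * m) (h4 : H ≤ 2 * a) (h5 : Z < U)
    (h6 : c * s * m + B ≤ c * J * Z + (c * s + 1) * H) (h7 : m ≤ B + G) : m ≤ 2 * G := by
  have k0 : K * a ≤ m := by nlinarith
  have k1 : K * (s * c) ≤ s * m :=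
    calc K * (s * c) ≤ K * (J * a) := Nat.mul_le_mul_left _ h1
      _ = J * (K * a) := by ring
      _ ≤ s * m := Nat.mul_le_mul hJ k0
  have k2 : J * m ≤ s * m := Nat.mul_le_mul_right _ hJ
  have k3 : K * J * Z ≤ K * s * m + 5 * (s * m) := by
    have := Nat.mul_le_mul_left (K * J) h5.le
    nlinarith
  have k4 : K * H ≤ 2 * m := by nlinarith
  have k5 := Nat.mul_le_mul_left K h6
  have k6 := Nat.mul_le_mul_left c k3
  have k7 := Nat.mul_le_mul_left (c * s + 1) k4
  have k8 : 1 ≤ c * s := Nat.mul_pos hc hs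
  have k9 : m ≤ c * s * m := Nat.le_mul_of_pos_left m k8
  have k10 : K * B ≤ 9 * (c * s * m) := by nlinarith
  have k11 : (9 * (c * s)) * (2 * B) ≤ (9 * (c * s)) * m := by
    have := Nat.mul_le_mul_right B hK
    nlinarith
  have := Nat.le_of_mul_le_mul_left k11 (by omega)
  omega

theorem p_GDT (hPT : S_PT) (hUA : S_UA) (hHIY : S_HIY) (hDISJ : S_DISJ) (hCELLN : S_CELLN) :
    S_GDT := by
  intro n t d j m e q K h ht hK hm 𝓕 hA hS hZ
  have he := h.e1
  have hq := h.hq
  have hd := h.hd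
  have cp : ∀ i, 0 < (t + 2 * i).choose i := fun i => Nat.choose_pos (by omega)
  have hK' : 18 * ((t + 2 * j).choose j * (t + j)) ≤ K := by
    refine le_trans ?_ hK
    rw [mul_comm ((t + 2 * j).choose j), ← mul_assoc]
    exact Nat.mul_le_mul_right _ (Nat.mul_le_mul (by norm_num) (Nat.le_self_pow (by norm_num) _))
  have hK2 : t + j ≤ (t + 2 * j).choose j * (t + j) := Nat.le_mul_of_pos_left _ (cp j)
  have p1 := (hPT n t d j e q h.t1 h.hd h.e1 h.hn (by omega)).1
  have p2 : (t + j) * (t + 2 * j).choose j ≤ (j + 1) * (frankl n (t + d) t (j + 1)).card :=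
    (Nat.mul_le_mul_left _ (Nat.le_mul_of_pos_right _ (Nat.choose_pos (by omega)))).trans p1
  let bad : ℕ → ℕ := fun i =>
    if i = j then ((cls t d j 𝓕).filter fun F => ¬ Fu t j 𝓕 F).card else (cls t d i 𝓕).card
  refine GDT_fin (B := ∑ i ∈ range (d + 1), bad i) (by omega) (cp j) (by omega) hK' p2 hm
    (hUA n t d j m e q h K (by omega) (Or.inr hm))
    (hHIY n t d j m e q K h (by omega) hm 𝓕 hA hS) hZ ?_ ?_
  · refine le_trans ?_ (Nat.add_le_add (Nat.mul_le_mul_left _ (hDISJ t d 𝓕))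
      (Nat.mul_le_mul_left _ (sum_cls_hi t d j 𝓕)))
    rw [← sum_cls hA hS, sum_filter, mul_sum, mul_sum, mul_sum, ← sum_add_distrib,
      ← sum_add_distrib]
    refine sum_le_sum fun i _ => ?_
    have c1 := hCELLN t d i 𝓕
    rcases lt_trichotomy i j with e1 | rfl | e1
    · simp only [bad, if_neg e1.ne, if_neg e1.not_gt, mul_zero, add_zero]
      refine GDT_low ht e1 ?_
        (Nat.le_of_mul_le_mul_left (le_trans (Nat.le_add_right _ _) c1) (cp i))
      have := Hull.choose_le_of (N := t + 2 * j) (show 1 ≤ j by omega) (by omega)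
      rw [Nat.choose_one_right] at this
      omega
    · simp only [bad, if_true, lt_irrefl, if_false, mul_zero, add_zero, mul_assoc]
      exact c1
    · simp only [bad, if_neg e1.ne', if_pos e1]
      rw [add_mul, one_mul]
      exact Nat.le_add_left _ _
  · have e1 : ∑ i ∈ range (d + 1), (cls t d i 𝓕).card ≤ ∑ i ∈ range (d + 1),
        (bad i + if i = j then ((cls t d j 𝓕).filter fun F => Fu t j 𝓕 F).card else 0) := by
      refine sum_le_sum fun i _ => ?_
      by_cases e1 : i = j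
      · subst e1
        simp only [bad, if_true]
        rw [add_comm, card_filter_add_card_filter_not]
      · simp only [bad, if_neg e1, add_zero, le_refl]
    rw [sum_cls hA hS, sum_add_distrib, sum_ite_eq', if_pos (mem_range.2 (by omega))] at e1
    refine e1.trans (Nat.add_le_add_left (card_le_card fun F hF => ?_) _)
    obtain ⟨a, b⟩ := mem_filter.1 hF
    exact mem_filter.2 ⟨(mem_cls.1 a).1, (mem_cls.1 a).2.2.1, b⟩

end Pool.Agent.P.MP_ed1e41_co.AS
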