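import Pool.Agent.P.MP_ed1e41_co.AS.Iface3
import Pool.Agent.P.MP_ed1e41_co.AS.Iface

/-! Step HIY. -/

namespace Pool.Agent.P.MP_ed1e41_co.AS

open Finset
open scoped Classical

lemma HIY_sum (B : ℕ → ℕ) (j d : ℕ) (h : ∀ i, j < i → i < d → 2 * B (i + 1) ≤ B i) :
    ∀ x, j + 1 + x ≤ d → ∑ c ∈ Ioc j (j + 1 + x), B c + B (j + 1 + x) ≤ 2 * B (j + 1) := by
  intro x
  induction x with
  | zero => intro _; simp [two_mul]
  | succ x ih =>
    intro hx
    have h1 := ih (by omega)
    have h2 := h (j + 1 + x) (by omega) (by omega)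
    rw [← add_assoc, sum_Ioc_succ_top (by omega)]
    omega

theorem p_HIY (hBDEC : S_BDEC) (hQBY : S_QBY) :
    S_HIY := by
  intro n t d j m e q R hS hR hm 𝓕 hA hs
  have h1 := hS.hd
  have h2 := hS.hn
  have h3 := hS.hq
  have e1 := hS.e1
  have hq := (hQBY n t d j m e q R q hS (by omega) hm (h2 ▸ hS.hi)).1
  have key : ∀ i, j < i → i < d →
      2 * ((t + 2 * (i + 1)).choose (i + 1) * (n - (t + 2 * (i + 1))).choose (d - (i + 1))) ≤
        (t + 2 * i).choose i * (n - (t + 2 * i)).choose (d - i) := by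
    intro i hi hid
    have h4 : R * (d - i) + R * (i - j) = R * e := by
      rw [← mul_add]; congr 1; omega
    have h5 : 2 * (i - j) ≤ R * (i - j) := Nat.mul_le_mul_right _ (by omega)
    have h6 : (4 * t + 8) * (i + 1) ≤ R * (i + 1) := Nat.mul_le_mul_right _ hR
    have h7 := hBDEC t i (d - i) (n - (t + 2 * i)) R (by omega) (by omega) (by nlinarith)
    rwa [show n - (t + 2 * i) - 2 = n - (t + 2 * (i + 1)) by omega,
      show d - i - 1 = d - (i + 1) by omega] at h7
  have s1 := HIY_sum (fun c => (t + 2 * c).choose c * (n - (t + 2 * c)).choose (d - c)) j d key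
    (d - (j + 1)) (by omega)
  rw [show j + 1 + (d - (j + 1)) = d by omega] at s1
  have s3 := ble (n := n) (t := t) (d := d) (i := j + 1) (e := d - (j + 1))
    (q := n - (t + 2 * (j + 1))) (by omega) (by omega)
  have s4 : (𝓕.filter fun F => Hi t j F) ⊆
      (Ioc j d).biUnion fun c => lev n (t + d) (t + 2 * c) (t + c) := by
    intro F hF
    obtain ⟨a, b⟩ := mem_filter.1 hF
    obtain ⟨c, hc⟩ := exists_class hs hA.2.1 hA.card_eq a
    exact mem_biUnion.2 ⟨c, mem_Ioc.2 ⟨IsClass_gt hc (hA.card_eq F a) b, hc.1⟩,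
      mem_lev.2 ⟨hA.sub F a, hA.card_eq F a, hc.2.1⟩⟩
  have s5 : ∑ c ∈ Ioc j d, (lev n (t + d) (t + 2 * c) (t + c)).card =
      ∑ c ∈ Ioc j d, (t + 2 * c).choose c * (n - (t + 2 * c)).choose (d - c) := by
    refine sum_congr rfl fun c hc => ?_
    rw [mem_Ioc] at hc
    rw [← cc_symm, ← card_lev (n := n) (by omega), show t + c + (d - c) = t + d by omega]
  have s6 := (card_le_card s4).trans card_biUnion_le
  omega

end Pool.Agent.P.MP_ed1e41_co.AS
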