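import Pool.Agent.P.MP_ed1e41_co.AS.Iface3

/-! Step NPT. -/

namespace Pool.Agent.P.MP_ed1e41_co.AS

open Finset
open scoped Classical

theorem p_NPT :
    S_NPT := by
  intro n t d j m e q h
  have hq : m ≤ (frankl (t + 2 * j + q) (t + d) t j).card := h.hn ▸ h.hi
  have ex : ∃ Q, m ≤ (frankl (t + 2 * j + Q) (t + d) t j).card := ⟨q, hq⟩
  refine ⟨Nat.find ex, Nat.find_min' ex hq, Nat.find_spec ex, ?_⟩
  rcases Nat.eq_zero_or_pos (Nat.find ex) with h0 | h0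
  · rw [h0, Nat.choose_eq_zero_of_lt (h.e1 : 0 - 1 < e), mul_zero]
    exact Nat.zero_le _
  · exact (ble h.hd rfl).trans (not_le.1 (Nat.find_min ex (Nat.sub_one_lt h0.ne'))).le

end Pool.Agent.P.MP_ed1e41_co.AS
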