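import Pool.Agent.P.MP_ed1e41_co.AS.Iface3

/-! Step NSH. -/

namespace Pool.Agent.P.MP_ed1e41_co.AS

open Finset
open scoped Classical

lemma NSH_geo (a : ℕ → ℕ) (B m : ℕ) (h : ∀ y < m, a y * 2 ^ y ≤ B) :
    (∑ y ∈ range m, a y) * 2 ^ m + 2 * B ≤ 2 * B * 2 ^ m := by
  induction m with
  | zero => simp
  | succ m ih =>
    have h1 := ih fun y hy => h y (by omega)
    have h2 := h m (by omega)
    rw [sum_range_succ, pow_succ]
    nlinarith

theorem p_NSH :
    S_NSH := by
  intro v a n N g hn hg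
  have hsub : (((Ico (v + 2 * a) n).powersetCard g).filter fun G => ¬ Hs v G) ⊆
      (range (g - a)).biUnion fun y =>
        (((Ico v (v + 2 * (a + 1 + y))).powersetCard (a + 1 + y)) ×ˢ
          ((Ico (v + 2 * a) n).powersetCard (g - (a + 1) - y))).image fun p => p.1 ∪ p.2 := by
    intro T hT
    rw [mem_filter, mem_powersetCard] at hT
    obtain ⟨⟨h1, h2⟩, h3⟩ := hT
    unfold Hs at h3
    push Not at h3
    obtain ⟨x, x1, hx⟩ := h3
    have h4 : (T ∩ Ico v (v + 2 * x)).card ≤ (Ico (v + 2 * a) (v + 2 * x)).card :=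
      card_le_card fun z hz => mem_Ico.2
        ⟨(mem_Ico.1 (h1 (mem_inter.1 hz).1)).1, (mem_Ico.1 (mem_inter.1 hz).2).2⟩
    rw [Nat.card_Ico] at h4
    have h5 : (T ∩ Ico v (v + 2 * x)).card ≤ T.card := card_le_card inter_subset_left
    obtain ⟨y, rfl⟩ : ∃ y, x = a + 1 + y := ⟨x - (a + 1), by omega⟩
    obtain ⟨S, s1, s2⟩ := exists_subset_card_eq hx
    have s3 : S ⊆ T := s1.trans inter_subset_left
    refine mem_biUnion.2 ⟨y, mem_range.2 (by omega), mem_image.2
      ⟨(S, T \ S), mem_product.2 ⟨mem_powersetCard.2 ⟨s1.trans inter_subset_right, s2⟩,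
        mem_powersetCard.2 ⟨sdiff_subset.trans h1, ?_⟩⟩, union_sdiff_of_subset s3⟩⟩
    show (T \ S).card = _
    rw [card_sdiff_of_subset s3]
    omega
  refine ⟨?_, fun h => ?_⟩
  swap
  · rw [Nat.sub_eq_zero_of_le h, range_zero, biUnion_empty, subset_empty] at hsub
    rw [hsub, card_empty]
  have hc : (((Ico (v + 2 * a) n).powersetCard g).filter fun G => ¬ Hs v G).card ≤
      ∑ y ∈ range (g - a), 4 ^ (a + 1 + y) * N.choose (g - (a + 1) - y) := by
    refine (card_le_card hsub).trans (card_biUnion_le.trans (sum_le_sum fun y _ => ?_))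
    refine card_image_le.trans ?_
    rw [card_product, card_powersetCard, card_powersetCard, Nat.card_Ico, Nat.card_Ico,
      Nat.add_sub_cancel_left, hn, Nat.add_sub_cancel_left]
    have := Nat.choose_le_two_pow (2 * (a + 1 + y)) (a + 1 + y)
    rw [pow_mul] at this
    exact Nat.mul_le_mul_right _ this
  have hq := NSH_geo (fun y => 4 ^ (a + 1 + y) * N.choose (g - (a + 1) - y))
    (4 ^ (a + 1) * N.choose (g - (a + 1))) (g - a) fun y hy => by
      have h1 := ratio (a := 8) (b := 1) (e := g - (a + 1)) (N := N) (by omega) (by omega) y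
        (by omega)
      rw [one_pow, one_mul, show (8 : ℕ) = 4 * 2 by norm_num, mul_pow] at h1
      calc _ = 4 ^ (a + 1) * (4 ^ y * 2 ^ y * N.choose (g - (a + 1) - y)) := by ring
        _ ≤ _ := Nat.mul_le_mul_left _ h1
  refine hc.trans (Nat.le_of_mul_le_mul_right ?_ (show 0 < 2 ^ (g - a) by positivity))
  rw [mul_assoc 2]
  omega

end Pool.Agent.P.MP_ed1e41_co.AS
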