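import Pool.Agent.P.MP_ed1e41_co.AS.Iface3

/-! Step NUMT. -/

namespace Pool.Agent.P.MP_ed1e41_co.AS

open Finset
open scoped Classical

lemma NUMT_div {K x y : ℝ} (hK : 0 < K) (h : K * x ≤ y) : x ≤ y * K⁻¹ := by
  rw [← div_eq_mul_inv, le_div_iff₀ hK, mul_comm]
  exact h

lemma NUMT_low {J a e r m c P N W g Y Q T u : ℝ} (hJ : 2 ≤ J) (ha : a ≤ J) (he : 0 ≤ e)
    (her : e ≤ r) (hc : 1 ≤ c) (hm : 0 ≤ m) (hu : 0 ≤ u) (hg0 : 0 ≤ g)
    (h1 : 10 ^ 7 * J ^ 4 * c * u ≤ 1) (h2 : 10 ^ 4 * J ^ 2 * T * u ≤ 1) (hT : 0 ≤ T)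
    (hW : W ≤ 5 * m * u) (hN : N ≤ 2 * m * u) (hP : m ≤ P + N + c * J * W) (hg : 2 * g ≤ J * W)
    (h8 : r * P ≤ Q * g + Y + r * (2 * a) * g) (h9 : Y ≤ 4 * T * e * m * u) :
    ∃ δ : ℝ, 0 ≤ δ ∧ J * δ ≤ 1 / 1000 ∧ e * m * (1 - δ) ≤ Q * g := by
  have J0 : 0 ≤ J := by linarith
  have cJ : 0 ≤ c * J := mul_nonneg (by linarith) J0
  have a1 : c * J * W ≤ c * J * (5 * m * u) := mul_le_mul_of_nonneg_left hW cJ
  have a2 : 2 * a * g ≤ J * J * (5 * m * u) := by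
    have b1 : a * (2 * g) ≤ J * (2 * g) := mul_le_mul_of_nonneg_right ha (by linarith)
    have b2 : J * (2 * g) ≤ J * (J * W) := mul_le_mul_of_nonneg_left hg J0
    have b3 : J * J * W ≤ J * J * (5 * m * u) :=
      mul_le_mul_of_nonneg_left hW (mul_nonneg J0 J0)
    linarith
  have j2 : J ≤ J ^ 2 := by nlinarith
  have j3 : J ^ 2 ≤ J ^ 3 := by nlinarith
  have j4 : J ^ 3 ≤ J ^ 4 := by nlinarith
  have d1 : J * ((2 + 5 * c * J + 5 * J * J) * u) ≤ 12 / 10 ^ 7 := by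
    have b1 : J ^ 4 ≤ J ^ 4 * c := le_mul_of_one_le_right (by positivity) hc
    have b2 : J ^ 2 * c ≤ J ^ 4 * c := mul_le_mul_of_nonneg_right (by linarith) (by linarith)
    have b3 : J * (2 + 5 * c * J + 5 * J * J) ≤ 12 * (J ^ 4 * c) := by nlinarith
    have b4 := mul_le_mul_of_nonneg_right b3 hu
    nlinarith
  have d2 : J * (4 * T * u) ≤ 4 / 10 ^ 4 := by
    have b1 : J * (T * u) ≤ J ^ 2 * (T * u) := mul_le_mul_of_nonneg_right j2 (mul_nonneg hT hu)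
    nlinarith
  have p1 : 0 ≤ (2 + 5 * c * J + 5 * J * J) * u := by positivity
  have p2 : 0 ≤ 4 * T * u := by positivity
  have d3 : (2 + 5 * c * J + 5 * J * J) * u ≤ 1 := by nlinarith
  have a3 : m * (1 - (2 + 5 * c * J + 5 * J * J) * u) ≤ P - 2 * a * g := by nlinarith
  have a4 : 0 ≤ P - 2 * a * g := (mul_nonneg hm (by linarith)).trans a3
  have a5 : e * (P - 2 * a * g) ≤ r * (P - 2 * a * g) := mul_le_mul_of_nonneg_right her a4
  have a6 := mul_le_mul_of_nonneg_left a3 he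
  refine ⟨(2 + 5 * c * J + 5 * J * J) * u + 4 * T * u, by linarith, by linarith, by linarith⟩

lemma NUMT_up {J e m W D Q u : ℝ} (hJ : 2 ≤ J) (hu : 0 ≤ u) (hD : 0 ≤ D) (hQ : 0 < Q)
    (h1 : (J + 1) * W ≤ D * (2 + 3 * (J + 1) * u)) (h2 : e ≤ (Q - e) * u)
    (h3 : D * (Q - e) ^ 2 ≤ m * e * Q) :
    (J + 1) * (Q * W) ≤ (1 + u) ^ 2 * (2 + 3 * (J + 1) * u) * (m * e) := by
  have a1 : Q ≤ (1 + u) * (Q - e) := by linarith
  have a2 : Q ^ 2 ≤ ((1 + u) * (Q - e)) ^ 2 := pow_le_pow_left₀ hQ.le a1 2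
  have a3 := mul_le_mul_of_nonneg_left a2 hD
  have a4 := mul_le_mul_of_nonneg_left h3 (sq_nonneg (1 + u))
  have a5 : D * Q ≤ (1 + u) ^ 2 * (m * e) := le_of_mul_le_mul_right (by linarith) hQ
  have a6 := mul_le_mul_of_nonneg_left h1 hQ.le
  have a7 := mul_le_mul_of_nonneg_right a5 (show 0 ≤ 2 + 3 * (J + 1) * u by positivity)
  linarith

lemma NUMT_fin {J u δ : ℝ} (hJ : 2 ≤ J) (hu : 0 ≤ u) (h1 : 10 ^ 7 * J ^ 2 * u ≤ 1) (hd : 0 ≤ δ)
    (h2 : J * δ ≤ 1 / 1000) :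
    J * ((1 + u) ^ 2 * (2 + 3 * (J + 1) * u)) < (J + 1) * (2 * (1 - δ)) := by
  have J0 : 0 ≤ J := by linarith
  have a0 : J * u ≤ J ^ 2 * u := mul_le_mul_of_nonneg_right (by nlinarith) hu
  have a1 : u ≤ J * u := le_mul_of_one_le_left hu (by linarith)
  have a2 : u ≤ 1 := by linarith
  have a3 : (1 + u) ^ 2 ≤ 1 + 3 * u := by nlinarith
  have a4 : 2 + 3 * (J + 1) * u ≤ 2 + 6 * (J * u) := by linarith
  have a5 : (1 + u) ^ 2 * (2 + 3 * (J + 1) * u) ≤ (1 + 3 * u) * (2 + 6 * (J * u)) :=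
    mul_le_mul a3 a4 (by positivity) (by positivity)
  have a6 : u * (J * u) ≤ J * u := mul_le_of_le_one_left (by positivity) a2
  have a7 : (1 + u) ^ 2 * (2 + 3 * (J + 1) * u) ≤ 2 + 30 * (J * u) := by linarith
  have a8 := mul_le_mul_of_nonneg_left a7 J0
  have a9 : δ ≤ J * δ := le_mul_of_one_le_left hd (by linarith)
  nlinarith

theorem p_NUMT :
    S_NUMT := by
  intro i j a e r K m c b P N Z U G X Q B hij ha he her hc hm h1 h2 h3 h4 h5 h6 h7 h8 h9 h10 h11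
    h12 h13
  have heQ : e ≤ Q := by omega
  have hJ : (2 : ℝ) ≤ (j : ℝ) + 1 := by exact_mod_cast (by omega : 2 ≤ j + 1)
  have hi : (i : ℝ) + 2 ≤ (j : ℝ) + 1 := by exact_mod_cast (by omega : i + 2 ≤ j + 1)
  have ha' : (a : ℝ) ≤ (j : ℝ) + 1 := by exact_mod_cast (by omega : a ≤ j + 1)
  have hQ : (0 : ℝ) < Q := by exact_mod_cast (by omega : 0 < Q)
  have hK : (0 : ℝ) < K := by
    have : 0 < 10 ^ 7 * (j + 1) ^ 4 * c := by positivity
    exact_mod_cast (by omega : 0 < K)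
  have he' : (1 : ℝ) ≤ e := by exact_mod_cast he
  have her' : (e : ℝ) ≤ r := by exact_mod_cast her
  have hc' : (1 : ℝ) ≤ c := by exact_mod_cast hc
  have hm' : (1 : ℝ) ≤ m := by exact_mod_cast hm
  have g1 : (10 : ℝ) ^ 7 * (j + 1) ^ 4 * c ≤ K := by exact_mod_cast h1
  have g2 : (10 : ℝ) ^ 4 * (j + 1) ^ 2 * 4 ^ (j + 1) ≤ K := by exact_mod_cast h2
  have g3 : (m : ℝ) + c * (j + 1) * m ≤ P + N + c * (j + 1) * Z := by exact_mod_cast h3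
  have g4 : (K : ℝ) * N ≤ 2 * m := by exact_mod_cast h4
  have g5 : (Z : ℝ) < U := by exact_mod_cast h5
  have g6 : (K : ℝ) * U ≤ (K + 5) * m := by exact_mod_cast h6
  have g7 : ((i : ℝ) + 2) * m + 2 * b * G ≤ (i + 2) * Z := by exact_mod_cast h7
  have g8 : (r : ℝ) * P ≤ b * (Q * (G + X) + r * (2 * a) * G) := by exact_mod_cast h8
  have g9 : (K : ℝ) * (b * Q * X) ≤ 4 * 4 ^ (j + 1) * e * m := by exact_mod_cast h9
  have g10 : (K : ℝ) * (j + 2) * U ≤ K * (j + 2) * (m + c) + (2 * K + 2 * (j + 2)) * (c * B) := by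
    exact_mod_cast h10
  have g11 : (K : ℝ) ≤ B := by exact_mod_cast h11
  have g12 : (K : ℝ) * e + e ≤ Q := by exact_mod_cast h12
  have g13 : (c : ℝ) * B * (Q - e) ^ 2 ≤ m * e * Q := by
    rw [← Nat.cast_sub heQ]
    exact_mod_cast h13
  have hu : (0 : ℝ) ≤ (K : ℝ)⁻¹ := by positivity
  have hKu : (K : ℝ) * (K : ℝ)⁻¹ = 1 := mul_inv_cancel₀ hK.ne'
  have hg0 : (0 : ℝ) ≤ (b : ℝ) * G := by positivity
  have hW0 : (0 : ℝ) ≤ (Z : ℝ) - m :=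
    le_of_mul_le_mul_left (a := (i : ℝ) + 2) (by linarith) (by positivity)
  have k1 := mul_le_mul_of_nonneg_right g1 hu
  have k2 := mul_le_mul_of_nonneg_right g2 hu
  rw [hKu] at k1 k2
  have k5 := mul_le_mul_of_nonneg_left g5.le hK.le
  have k7 := mul_le_mul_of_nonneg_right hi hW0
  obtain ⟨δ, d0, d1, d2⟩ := NUMT_low (W := (Z : ℝ) - m) (P := P) (N := N) (Q := Q)
    (Y := (b : ℝ) * Q * X) hJ ha' (by linarith) her' hc' (by linarith) hu hg0 k1 k2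
    (by positivity) (NUMT_div hK (by linarith)) (NUMT_div hK g4) (by linarith) (by linarith)
    (by linarith) (NUMT_div hK g9)
  have u1 : ((j : ℝ) + 1 + 1) * ((Z : ℝ) - m) ≤
      (c : ℝ) * B * (2 + 3 * ((j : ℝ) + 1 + 1) * (K : ℝ)⁻¹) := by
    have b1 := mul_le_mul_of_nonneg_left k5 (show (0 : ℝ) ≤ j + 2 by positivity)
    have b2 := mul_le_mul_of_nonneg_left g11 (show (0 : ℝ) ≤ (j + 2) * c by positivity)
    have b3 := NUMT_div (x := ((j : ℝ) + 1 + 1) * ((Z : ℝ) - m))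
      (y := (c : ℝ) * B * (2 * K + 3 * ((j : ℝ) + 1 + 1))) hK (by linarith)
    refine b3.trans_eq ?_
    linear_combination (2 * (c : ℝ) * B) * hKu
  have u2 := NUMT_up hJ hu (by positivity) hQ u1 (NUMT_div hK (by linarith)) g13
  have k3 : (10 : ℝ) ^ 7 * ((j : ℝ) + 1) ^ 2 * (K : ℝ)⁻¹ ≤ 1 := by
    refine le_trans (mul_le_mul_of_nonneg_right ?_ hu) k1
    have b1 : ((j : ℝ) + 1) ^ 2 ≤ ((j : ℝ) + 1) ^ 4 :=
      pow_le_pow_right₀ (by linarith) (by norm_num)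
    have b2 : ((j : ℝ) + 1) ^ 4 ≤ ((j : ℝ) + 1) ^ 4 * c :=
      le_mul_of_one_le_right (by positivity) hc'
    linarith
  have f := mul_lt_mul_of_pos_right (NUMT_fin hJ hu k3 d0 d1)
    (show (0 : ℝ) < m * e by positivity)
  have l1 : 2 * ((b : ℝ) * G) ≤ ((j : ℝ) + 1) * ((Z : ℝ) - m) := by linarith
  have l2 := mul_le_mul_of_nonneg_left l1 hQ.le
  have l3 : 2 * (e * m * (1 - δ)) ≤ ((j : ℝ) + 1) * (Q * ((Z : ℝ) - m)) := by linarith
  have l4 := mul_le_mul_of_nonneg_left l3 (show (0 : ℝ) ≤ (j : ℝ) + 1 + 1 by positivity)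
  have l5 := mul_le_mul_of_nonneg_left u2 (show (0 : ℝ) ≤ (j : ℝ) + 1 by positivity)
  linarith

end Pool.Agent.P.MP_ed1e41_co.AS
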