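import Pool.Agent.P.MP_ed1e41_co.AS.Iface3

/-! Step NUMU. -/

namespace Pool.Agent.P.MP_ed1e41_co.AS

open Finset
open scoped Classical

theorem p_NUMU :
    S_NUMU := by
  intro i j a r K m c b P N Z U G Q y hij ha hr hc h0 h1 h2 h3 h4 h5 h6 h7 h8 h9 h10
  obtain ⟨J, hJ⟩ : ∃ J, J = j + 1 := ⟨_, rfl⟩
  rw [← hJ] at h0 h1 h7
  have J1 : 1 ≤ J := by omega
  obtain ⟨g, hg⟩ : ∃ g, g = b * G := ⟨_, rfl⟩
  have s1 : 2 * g ≤ 3 * (J * c) := by
    have a1 : (i + 2) * Z ≤ (i + 2) * (m + 3 * c) := Nat.mul_le_mul_left _ (by omega)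
    have a2 : (i + 2) * c ≤ J * c := Nat.mul_le_mul_right _ (by omega)
    have a3 : 2 * b * G = 2 * g := by rw [hg]; ring
    nlinarith
  have p2 : J ^ 2 ≤ J ^ 4 := Nat.pow_le_pow_right J1 (by norm_num)
  have p1 : J ≤ J ^ 2 := by nlinarith
  have k1 : 10 ^ 7 * (J * c) ≤ K := by
    refine le_trans ?_ h0
    rw [mul_assoc]
    exact Nat.mul_le_mul_left _ (Nat.mul_le_mul_right _ (p1.trans p2))
  have jc : 1 ≤ J * c := Nat.mul_pos J1 hc
  have s2 : m ≤ 2 * P := by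
    obtain ⟨w, hw⟩ : ∃ w, w = J * c := ⟨_, rfl⟩
    rw [mul_comm c J, ← hw] at h1
    rw [← hw] at k1 jc
    have a1 : K * (m + w * m) ≤ K * (P + N + w * Z) := Nat.mul_le_mul_left _ h1
    have a2 : w * (K * Z) ≤ w * ((K + 5) * m) :=
      Nat.mul_le_mul_left _ ((Nat.mul_le_mul_left _ h3.le).trans h4)
    have a3 : (4 + 10 * w) * m ≤ K * m := Nat.mul_le_mul_right _ (by omega)
    refine Nat.le_of_mul_le_mul_left ?_ (show 0 < K by omega)
    nlinarith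
  have s3 : 40 * P ≤ 3 * (Q * c) + 120 * (J ^ 2 * c) := by
    have a0 : r * P ≤ y * g + r * (2 * a) * g := by rw [hg]; nlinarith
    have a1 : y * (2 * g) ≤ y * (3 * (J * c)) := Nat.mul_le_mul_left _ s1
    have a2 : 10 * J * y * c ≤ Q * c := Nat.mul_le_mul_right _ h7
    have a3 : r * a * (2 * g) ≤ r * J * (3 * (J * c)) :=
      Nat.mul_le_mul (Nat.mul_le_mul_left _ (by omega)) s1
    have a4 : 2 * (Q * c) ≤ r * (Q * c) := Nat.mul_le_mul_right _ hr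
    refine Nat.le_of_mul_le_mul_left ?_ (show 0 < r by omega)
    nlinarith
  have q1 : 10 ^ 7 * J ^ 2 ≤ Q := by
    refine le_trans ?_ (h0.trans h10)
    exact (Nat.mul_le_mul_left _ p2).trans (Nat.le_mul_of_pos_right _ hc)
  obtain ⟨Q', rfl⟩ : ∃ Q', Q = Q' + 1 := ⟨Q - 1, by omega⟩
  rw [Nat.add_sub_cancel] at h8
  have a1 : (120 * J ^ 2 + 4) * c ≤ 17 * Q' * c := Nat.mul_le_mul_right _ (by omega)
  nlinarith

end Pool.Agent.P.MP_ed1e41_co.AS
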