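import Pool.Agent.P.MP_ed1e41_co.AS.Iface3

/-! Step ONE. -/

namespace Pool.Agent.P.MP_ed1e41_co.AS

open Finset
open scoped Classical

lemma ONE_num {k K N S a : ℕ} (hk : 0 < k) (h : k * N + a ≤ k * S) :
    K * N ≤ K * S ∧ (k ≤ K → K * N + a ≤ K * S) := by
  have h1 : N ≤ S := Nat.le_of_mul_le_mul_left (by omega) hk
  refine ⟨Nat.mul_le_mul_left _ h1, fun hK => ?_⟩
  obtain ⟨u, rfl⟩ := Nat.exists_eq_add_of_le hK
  have := Nat.mul_le_mul_left u h1
  rw [add_mul, add_mul]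
  omega

theorem p_ONE (hCOEX : S_COEX) (hDISJ : S_DISJ) (hCELLN : S_CELLN) :
    S_ONE := by
  intro n d m j 𝓕 h hs
  obtain ⟨i, hi, hu⟩ : ∃ i ≤ j, ∀ c ≤ j, c ≠ i →
      ((cls 1 d c 𝓕).filter fun F => Fu 1 c 𝓕 F).card = 0 := by
    by_cases hx : ∃ i ≤ j, ∃ F ∈ cls 1 d i 𝓕, Fu 1 i 𝓕 F
    · obtain ⟨i, hi, F, hF, hF'⟩ := hx
      refine ⟨i, hi, fun c _ hne => ?_⟩
      rw [card_eq_zero, filter_eq_empty_iff]
      intro G hG hG'
      rcases lt_or_gt_of_ne hne with e | e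
      · rw [(hCOEX n 1 d m i 𝓕 F le_rfl h hs hF hF').1 c e] at hG
        exact notMem_empty _ hG
      · rw [(hCOEX n 1 d m c 𝓕 G le_rfl h hs hG hG').1 i e] at hF
        exact notMem_empty _ hF
    · refine ⟨0, Nat.zero_le _, fun c hc _ => ?_⟩
      rw [card_eq_zero, filter_eq_empty_iff]
      exact fun G hG hG' => hx ⟨c, hc, G, hG, hG'⟩
  refine ⟨i, hi, ?_⟩
  set K := (1 + 2 * j).choose j * (j + 1) with hK
  have key : ∀ c ∈ range (d + 1), (cls 1 d c 𝓕).card + K * (cls 1 d c 𝓕).card ≤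
      (if c = i then ((cls 1 d i 𝓕).filter fun F => Fu 1 i 𝓕 F).card else 0) +
        (if j < c then (cls 1 d c 𝓕).card else 0) + K * (hsh 1 d c 𝓕).card := by
    intro c _
    have h1 := hCELLN 1 d c 𝓕
    rw [add_comm 1 c, ← mul_assoc, ← mul_assoc] at h1
    obtain ⟨h2, h3⟩ := ONE_num (K := K)
      (Nat.mul_pos (Nat.choose_pos (by omega)) (Nat.succ_pos c)) h1
    have h4 := card_filter_add_card_filter_not (s := cls 1 d c 𝓕) fun F => Fu 1 c 𝓕 F
    by_cases hc : j < c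
    · rw [if_pos hc]
      omega
    · have h5 := h3 (Nat.mul_le_mul (cc_mono 1 (not_lt.1 hc)) (by omega))
      rw [if_neg hc]
      by_cases e : c = i
      · subst e
        rw [if_pos rfl]
        omega
      · have := hu c (not_lt.1 hc) e
        rw [if_neg e]
        omega
  have h1 := sum_le_sum key
  rw [sum_add_distrib, sum_add_distrib, sum_add_distrib, ← mul_sum, ← mul_sum, sum_cls h hs,
    ← sum_filter (fun c => j < c), sum_ite_eq'] at h1
  have h2 := sum_cls_hi 1 d j 𝓕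
  have h3 := Nat.mul_le_mul_left K (hDISJ 1 d 𝓕)
  split_ifs at h1 <;> omega

end Pool.Agent.P.MP_ed1e41_co.AS
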