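import Pool.Agent.P.MP_ed1e41_co.AS.Iface3
import Pool.Agent.P.MP_ed1e41_co.AS.Iface

/-! Step QBY. -/

namespace Pool.Agent.P.MP_ed1e41_co.AS

open Finset
open scoped Classical

lemma QBY_geom (Q e : ℕ) (h : 3 * e ≤ Q) : ∑ i ∈ range (e + 1), Q.choose i ≤ 2 * Q.choose e := by
  induction e with
  | zero => simp
  | succ e ih =>
    have h1 := ratio (a := 2) (b := 1) (e := e + 1) (N := Q) (by omega) (by omega) 1 (by omega)
    have h2 := ih (by omega)
    rw [sum_range_succ]
    simp only [pow_one, Nat.add_sub_cancel] at h1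
    omega

lemma QBY_key (hPT : S_PT) {t d j m e R Q : ℕ} (t1 : 1 ≤ t) (hd : d = j + e) (e1 : 1 ≤ e)
    (h4 : 2 * e + 1 ≤ Q) (h5 : (R + 1) * (frankl (t + 2 * j + Q) (t + d) t (j + 1)).card ≤ m)
    (hm : m ≤ (frankl (t + 2 * j + Q) (t + d) t j).card) : R * e + e ≤ Q := by
  obtain ⟨b1, b2⟩ := hPT _ t d j e Q t1 hd e1 rfl (by omega)
  obtain ⟨e, rfl⟩ : ∃ x, e = x + 1 := ⟨e - 1, by omega⟩
  rw [Nat.add_sub_cancel] at b1
  have hc : 0 < (t + 2 * j).choose j := Nat.choose_pos (by omega)
  have hy : 0 < (Q - 2).choose e := Nat.choose_pos (by omega)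
  have hz := Nat.choose_succ_right_eq (Q - 2) e
  generalize (frankl (t + 2 * j + Q) (t + d) t (j + 1)).card = a at *
  generalize (t + 2 * j).choose j = c at *
  generalize (Q - 2).choose e = y at *
  generalize (Q - 2).choose (e + 1) = z at *
  have b3 : c * y ≤ a := Nat.le_of_mul_le_mul_left
    ((Nat.mul_le_mul_right _ (by omega)).trans b1) j.succ_pos
  have b4 : R * y ≤ z := Nat.le_of_mul_le_mul_left
    (by nlinarith [Nat.mul_le_mul_left R b3]) hc
  have b5 : R * (e + 1) ≤ Q - 2 - e := Nat.le_of_mul_le_mul_left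
    (by nlinarith [Nat.mul_le_mul_right (e + 1) b4]) hy
  omega

theorem p_QBY (hPZ : S_PZ) (hPT : S_PT) :
    S_QBY := by
  intro n t d j m e q R Q hS hR hRt hm
  have hd := hS.hd
  have hn := hS.hn
  have hq := hS.hq
  have e1 := hS.e1
  have a0 := hPZ n t d j e q hS.t1 hd e1 hn hq (hS.lo.trans_le hS.hi)
  have h1 : R * e + e ≤ Q := by
    rcases le_or_gt q Q with c | c
    · exact (QBY_key hPT hS.t1 hd e1 hq (hn ▸ hRt) (hn ▸ hS.hi)).trans c
    have a4 := hS.lo
    have h4 : 2 * e + 1 ≤ Q := by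
      by_contra hc
      have a1 := a0.2 d (by omega) le_rfl
      rw [Hull.card_top (by omega)] at a1
      have a2 : (frankl (t + 2 * j + Q) (t + d) t j).card ≤ (t + 2 * j + Q).choose (t + d) := by
        refine (card_filter_le _ _).trans ?_
        rw [card_powersetCard, card_range]
      have a3 := Nat.choose_le_choose (t + d) (show t + 2 * j + Q ≤ t + 2 * d by omega)
      omega
    have a5 := card_le_card (frankl_mono (show t + 2 * j + Q ≤ n by omega) (t + d) t (j + 1))
    exact QBY_key hPT hS.t1 hd e1 h4 ((Nat.mul_le_mul_left _ a5).trans hRt) hm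
  refine ⟨h1, hm.trans ((card_big rfl (t + d) (t + j)).le.trans ?_)⟩
  rw [mul_left_comm]
  refine le_trans ?_ (Nat.mul_le_mul_left _ (QBY_geom Q e (by nlinarith)))
  rw [← sum_nbij' (s := Icc (t + j) (t + d)) (f := fun x => Q.choose (t + d - x))
    (fun x => t + d - x) (fun x => t + d - x) (by grind) (by grind) (by grind) (by grind)
    fun _ _ => rfl, mul_sum]
  refine sum_le_sum fun x hx => Nat.mul_le_mul_right _ ?_
  rw [mem_Icc] at hx
  exact choose_anti (by omega) (by omega)

end Pool.Agent.P.MP_ed1e41_co.AS
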