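import Pool.Agent.P.MP_ed1e41_co.AS.Iface3

/-! Step UPO. -/

namespace Pool.Agent.P.MP_ed1e41_co.AS

open Finset
open scoped Classical

lemma UPO_sum {R Q : ℕ} (hR : 2 ≤ R) (y : ℕ) (h : R * (y + 1) + (y + 1) ≤ Q) :
    R * ∑ u ∈ range (y + 1), Q.choose u ≤ (R + 2) * Q.choose y := by
  induction y with
  | zero => simp
  | succ y ih =>
    have h0 : R * (y + 1) + (y + 1) ≤ Q := by nlinarith
    have h1 := ih h0
    have h2 := Nat.choose_succ_right_eq Q y
    have h3 : R * Q.choose y ≤ Q.choose (y + 1) := by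
      refine Nat.le_of_mul_le_mul_right ?_ (Nat.succ_pos y)
      rw [Nat.succ_eq_add_one, h2, mul_comm R, mul_assoc]
      exact Nat.mul_le_mul_left _ (by omega)
    have h4 : 2 * Q.choose y ≤ R * Q.choose y := Nat.mul_le_mul_right _ hR
    rw [sum_range_succ]
    nlinarith

theorem p_UPO (hUPT : S_UPT) :
    S_UPO := by
  intro n d j m e q Q R hS hQ hR hRe hm
  obtain ⟨y, rfl⟩ : ∃ y, e = y + 1 := ⟨e - 1, by have := hS.e1; omega⟩
  have hd := hS.hd
  have hn := hS.hn
  have hL : (Hull.big (1 + 2 * j + Q) (1 + d) (1 + 2 * j) (1 + j + 1)).card ≤ m := by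
    refine le_trans (card_le_card fun F hF => ?_) hS.lo.le
    rw [mem_big] at hF
    refine mem_frankl.2 ⟨hF.1.trans (range_subset_range.2 (by omega)), hF.2.1, ?_⟩
    have : (F ∩ range (1 + 2 * j)).card ≤ (F ∩ range (1 + 2 * (j + 1))).card :=
      card_le_card (inter_subset_inter_left (range_subset_range.2 (by omega)))
    omega
  have h1 := hUPT n 1 d j m (y + 1) Q le_rfl hd (by omega) hL hm
  have h2 : (1 + 2 * j).choose (1 + j + 1) * Q.choose y ≤
      (Hull.big (1 + 2 * j + Q) (1 + d) (1 + 2 * j) (1 + j + 1)).card := by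
    rw [card_big rfl]
    have := single_le_sum (f := fun x => (1 + 2 * j).choose x * Q.choose (1 + d - x))
      (fun _ _ => Nat.zero_le _) (mem_Icc.2 ⟨le_refl (1 + j + 1), show _ ≤ 1 + d by omega⟩)
    rwa [show 1 + d - (1 + j + 1) = y by omega] at this
  have h3 : (1 + 2 * j).choose (1 + j + 1) * (j + 2) = (1 + 2 * j).choose j * j := by
    have := Nat.choose_succ_right_eq (1 + 2 * j) (1 + j)
    rw [cc_symm, show 1 + 2 * j - (1 + j) = j by omega] at this
    rw [← this]
    congr 1
    omega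
  have h4 : (Hull.big (1 + 2 * j + Q) (1 + d - 1) (1 + 2 * j) (1 + j)).card ≤
      (1 + 2 * j).choose j * ∑ u ∈ range (y + 1), Q.choose u := by
    rw [card_big rfl, mul_sum, show 1 + d - 1 = d by omega]
    calc _ ≤ ∑ x ∈ Icc (1 + j) d, (1 + 2 * j).choose j * Q.choose (d - x) :=
          sum_le_sum fun x hx => Nat.mul_le_mul_right _ (by
            have := mem_Icc.1 hx
            exact choose_anti (by omega) (by omega))
      _ = _ := by
          refine sum_bij' (fun x _ => d - x) (fun u _ => d - u) ?_ ?_ ?_ ?_ ?_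
          · intro x hx; have := mem_Icc.1 hx; rw [mem_range]; omega
          · intro u hu; have := mem_range.1 hu; rw [mem_Icc]; omega
          · intro x hx; have := mem_Icc.1 hx; omega
          · intro u hu; have := mem_range.1 hu; omega
          · intro x _; rfl
  have h5 := UPO_sum hR y hRe
  rw [Nat.add_sub_cancel]
  generalize (shadow (colexInit (frankl n (1 + d) 1 j) m)).card = U at *
  generalize (Hull.big (1 + 2 * j + Q) (1 + d) (1 + 2 * j) (1 + j + 1)).card = L at *
  generalize (Hull.big (1 + 2 * j + Q) (1 + d - 1) (1 + 2 * j) (1 + j)).card = H at *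
  generalize (1 + 2 * j).choose (1 + j + 1) = c' at *
  generalize (1 + 2 * j).choose j = c at *
  generalize Q.choose y = B at *
  generalize ∑ u ∈ range (y + 1), Q.choose u = S at *
  have h6 : U + L ≤ m + c + H := by
    refine Nat.le_of_mul_le_mul_left ?_ (Nat.succ_pos j)
    rw [Nat.succ_eq_add_one]
    nlinarith
  have h7 : R * H ≤ c * ((R + 2) * B) :=
    calc R * H ≤ R * (c * S) := Nat.mul_le_mul_left _ h4
      _ = c * (R * S) := by ring
      _ ≤ _ := Nat.mul_le_mul_left _ h5
  have h8 : c * j * B ≤ (j + 2) * L :=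
    calc c * j * B = (j + 2) * (c' * B) := by rw [← h3]; ring
      _ ≤ _ := Nat.mul_le_mul_left _ h2
  have h9 := Nat.mul_le_mul_left (R * (j + 2)) h6
  have h10 := Nat.mul_le_mul_left (j + 2) h7
  have h11 := Nat.mul_le_mul_left R h8
  nlinarith

end Pool.Agent.P.MP_ed1e41_co.AS
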