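import Pool.Agent.P.MP_ed1e41_co.AS.Iface3
import Pool.Agent.P.MP_ed1e41_co.AS.Iface

/-! Step UPT. -/

namespace Pool.Agent.P.MP_ed1e41_co.AS

open Finset
open scoped Classical

lemma UPT_head {F : Finset ℕ} {a v : ℕ} (h : v ≤ a) : F.erase a ∩ range v = F ∩ range v := by
  ext y
  simp only [mem_inter, mem_erase, mem_range]
  grind

lemma UPT_tail {F : Finset ℕ} {a v : ℕ} (h : a < v) : F.erase a \ range v = F \ range v := by
  ext y
  simp only [mem_sdiff, mem_erase, mem_range]
  grind

lemma UPT_card {F : Finset ℕ} {a v : ℕ} (ha : a ∈ F) (h : a < v) :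
    (F.erase a ∩ range v).card + 1 = (F ∩ range v).card := by
  have e : F.erase a ∩ range v = (F ∩ range v).erase a := by
    ext y
    simp only [mem_inter, mem_erase, mem_range]
    grind
  rw [e, card_erase_add_one (mem_inter.2 ⟨ha, mem_range.2 h⟩)]

theorem p_UPT (hKKA : S_KKA) :
    S_UPT := by
  intro n t d j m e q ht hd hn hlo hhi
  set v := t + 2 * j with hv
  set B := Hull.big (v + q) (t + d) v (t + j + 1) with hB
  set B' := Hull.big (v + q) (t + d - 1) v (t + j) with hB'
  set c := v.choose j with hc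
  have hc0 : 0 < c := Nat.choose_pos (by omega)
  have hcs : v.choose (t + j) = c := cc_symm t j
  have hlev : (lev (v + q) (t + d) v (t + j)).card = c * q.choose e := by
    rw [← hcs, ← card_lev (n := v + q) rfl, show t + j + e = t + d by omega]
  have hup : m ≤ B.card + c * q.choose e := by
    rw [← hlev]
    refine hhi.trans ((card_le_card fun F hF => ?_).trans (card_union_le _ _))
    rw [mem_frankl] at hF
    rw [mem_union, mem_big, mem_lev]
    rcases hF.2.2.eq_or_lt with h | h
    · exact Or.inr ⟨hF.1, hF.2.1, h.symm⟩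
    · exact Or.inl ⟨hF.1, hF.2.1, h⟩
  obtain ⟨tau, ht1, ht2, ht3⟩ : ∃ tau, tau ≤ q.choose e ∧ m ≤ B.card + c * tau ∧
      B.card + c * tau ≤ m + c := by
    have h1 := Nat.div_add_mod (m - B.card + c - 1) c
    have h2 := Nat.mod_lt (m - B.card + c - 1) hc0
    refine ⟨(m - B.card + c - 1) / c, ?_, by omega, by omega⟩
    refine Nat.lt_succ_iff.1 (Nat.div_lt_of_lt_mul ?_)
    rw [Nat.mul_succ]
    omega
  obtain ⟨TT, hTT, hTc⟩ := exists_subset_card_eq (s := (Ico v (v + q)).powersetCard e) (n := tau)
    (by rwa [card_powersetCard, Nat.card_Ico, Nat.add_sub_cancel_left])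
  have hTm : ∀ T ∈ TT, T ⊆ Ico v (v + q) ∧ T.card = e := fun T h => mem_powersetCard.1 (hTT h)
  set G1 := (lev (v + q) (t + d) v (t + j)).filter fun F => F \ range v ∈ TT with hG1
  have hG1c : c * tau ≤ G1.card := by
    have e1 : c = ((range v).powersetCard (t + j)).card := by
      rw [card_powersetCard, card_range, hcs]
    rw [← hTc, e1]
    refine prod_le_card v (fun H h => (mem_powersetCard.1 h).1)
      (fun T h x hx => (mem_Ico.1 ((hTm T h).1 hx)).1) fun H hH T hT => ?_
    rw [mem_powersetCard] at hH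
    have h1 : ∀ x ∈ T, v ≤ x := fun x hx => (mem_Ico.1 ((hTm T hT).1 hx)).1
    have h2 := (hTm T hT).2
    rw [hG1, mem_filter, mem_lev, union_head hH.1 h1, union_tail hH.1 h1, card_union_ht hH.1 h1]
    exact ⟨⟨union_subset (hH.1.trans (range_subset_range.2 (by omega)))
      ((hTm T hT).1.trans (Hull.Ico_sub v (v + q))), by omega, hH.2⟩, hT⟩
  have hdis : Disjoint B G1 := disjoint_left.2 fun F h1 h2 => by
    have a1 := (mem_big.1 h1).2.2
    have a2 := (mem_lev.1 (mem_filter.1 h2).1).2.2
    omega
  have hsub : B ∪ G1 ⊆ frankl n (t + d) t j := fun F hF => by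
    refine frankl_mono hn _ _ _ (mem_frankl.2 ?_)
    rcases mem_union.1 hF with h | h
    · have := mem_big.1 h
      exact ⟨this.1, this.2.1, Nat.le_of_succ_le this.2.2⟩
    · have := mem_lev.1 (mem_filter.1 h).1
      exact ⟨this.1, this.2.1, this.2.2.ge⟩
  have hK := hKKA n (t + d) t j m (B ∪ G1) hsub (by rw [card_union_of_disjoint hdis]; omega)
  set S1 := (shadow (B ∪ G1)).filter fun G =>
    G ∩ range v ∈ (range v).powersetCard (t + j - 1) ∧ G \ range v ∈ TT with hS1
  have hS1c : S1.card ≤ v.choose (t + j - 1) * tau := by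
    have := card_le_prod (𝓕 := S1) (𝓗 := (range v).powersetCard (t + j - 1)) (𝓣 := TT) v
      fun F hF => (mem_filter.1 hF).2
    rwa [card_powersetCard, card_range, hTc] at this
  have hsh : shadow (B ∪ G1) ⊆ B' ∪ S1 := fun G hG => by
    obtain ⟨F, hF, a, ha, rfl⟩ := mem_shadow_iff.1 hG
    have hce := card_erase_add_one ha
    rcases mem_union.1 hF with h | h
    · have h1 := mem_big.1 h
      refine mem_union_left _ (mem_big.2 ⟨(erase_subset _ _).trans h1.1, by omega, ?_⟩)
      rcases lt_or_ge a v with h2 | h2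
      · have := UPT_card ha h2
        omega
      · rw [UPT_head h2]
        omega
    · have h0 := mem_filter.1 h
      have h1 := mem_lev.1 h0.1
      rcases lt_or_ge a v with h2 | h2
      · have := UPT_card ha h2
        refine mem_union_right _ (mem_filter.2 ⟨hG, mem_powersetCard.2
          ⟨inter_subset_right, by omega⟩, ?_⟩)
        rw [UPT_tail h2]
        exact h0.2
      · refine mem_union_left _ (mem_big.2 ⟨(erase_subset _ _).trans h1.1, by omega, ?_⟩)
        rw [UPT_head h2]
        exact h1.2.2.ge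
  have h5 := (card_le_card hsh).trans (card_union_le _ _)
  have h6 := Nat.choose_succ_right_eq v (t + j - 1)
  rw [show t + j - 1 + 1 = t + j by omega, hcs, show v - (t + j - 1) = j + 1 by omega] at h6
  have h7 : (shadow (colexInit (frankl n (t + d) t j) m)).card ≤
      B'.card + v.choose (t + j - 1) * tau := by omega
  have h8 := Nat.mul_le_mul_left (j + 1) h7
  have h9 := Nat.mul_le_mul_left (t + j) ht3
  have h10 : (j + 1) * (v.choose (t + j - 1) * tau) = (t + j) * (c * tau) := by
    rw [← mul_assoc, mul_comm (j + 1), ← h6]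
    ring
  rw [mul_add, h10] at h8
  rw [mul_add] at h9
  omega

end Pool.Agent.P.MP_ed1e41_co.AS
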