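import Pool.Agent.P.MP_ed1e41_co.AS.All2
import Pool.Agent.P.MP_ed1e41_co.AS.TCOMPY
import Pool.Agent.P.MP_ed1e41_co.AS.TCNTY
import Pool.Agent.P.MP_ed1e41_co.AS.TCOREY
import Pool.Agent.P.MP_ed1e41_co.AS.TWONEY
import Pool.Agent.P.MP_ed1e41_co.AS.TWINY
import Pool.Agent.P.MP_ed1e41_co.AS.TQBY
import Pool.Agent.P.MP_ed1e41_co.AS.TEXY
import Pool.Agent.P.MP_ed1e41_co.AS.THIY
import Pool.Agent.P.MP_ed1e41_co.AS.TDISJ
import Pool.Agent.P.MP_ed1e41_co.AS.TFIBR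
import Pool.Agent.P.MP_ed1e41_co.AS.TCONE
import Pool.Agent.P.MP_ed1e41_co.AS.TCELLN
import Pool.Agent.P.MP_ed1e41_co.AS.TGDT
import Pool.Agent.P.MP_ed1e41_co.AS.TCOEX
import Pool.Agent.P.MP_ed1e41_co.AS.TFULL
import Pool.Agent.P.MP_ed1e41_co.AS.TCTWO
import Pool.Agent.P.MP_ed1e41_co.AS.TCELLS
import Pool.Agent.P.MP_ed1e41_co.AS.TONE
import Pool.Agent.P.MP_ed1e41_co.AS.TDEFO
import Pool.Agent.P.MP_ed1e41_co.AS.TDEG
import Pool.Agent.P.MP_ed1e41_co.AS.TGLOW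
import Pool.Agent.P.MP_ed1e41_co.AS.TNSH
import Pool.Agent.P.MP_ed1e41_co.AS.TUPT
import Pool.Agent.P.MP_ed1e41_co.AS.TUPO
import Pool.Agent.P.MP_ed1e41_co.AS.TNPT
import Pool.Agent.P.MP_ed1e41_co.AS.TNUMT
import Pool.Agent.P.MP_ed1e41_co.AS.TNUMU
import Pool.Agent.P.MP_ed1e41_co.AS.TGDO
import Pool.Agent.P.MP_ed1e41_co.AS.TEXDK
import Pool.Agent.P.MP_ed1e41_co.AS.Fail

/-! All steps together. -/

namespace Pool.Agent.P.MP_ed1e41_co.AS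

open Finset

theorem a_COMPY : S_COMPY := p_COMPY
theorem a_CNTY : S_CNTY := p_CNTY
theorem a_COREY : S_COREY := p_COREY a_SPLIT a_TS a_ZLO a_NEXT a_LEV a_CNTY a_INT
theorem a_WONEY : S_WONEY := p_WONEY a_PT a_NSB
theorem a_WINY : S_WINY := p_WINY a_COMPY a_WONEY
theorem a_QBY : S_QBY := p_QBY a_PZ a_PT
theorem a_EXY : S_EXY := p_EXY a_PT a_KKA a_WINY a_OUT a_NSB a_COREY a_QBY a_NUM
theorem a_HIY : S_HIY := p_HIY a_BDEC a_QBY
theorem a_DISJ : S_DISJ := p_DISJ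
theorem a_FIBR : S_FIBR := p_FIBR
theorem a_CONE : S_CONE := p_CONE
theorem a_CELLN : S_CELLN := p_CELLN a_FIBR a_CONE
theorem a_GDT : S_GDT := p_GDT a_PT a_UA a_HIY a_DISJ a_CELLN
theorem a_COEX : S_COEX := p_COEX
theorem a_FULL : S_FULL := p_FULL
theorem a_CTWO : S_CTWO := p_CTWO a_CONE
theorem a_CELLS : S_CELLS := p_CELLS a_FIBR a_CONE a_CTWO
theorem a_ONE : S_ONE := p_ONE a_COEX a_DISJ a_CELLN
theorem a_DEFO : S_DEFO := p_DEFO a_COEX a_FULL a_DISJ a_CELLN a_CELLS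
theorem a_DEG : S_DEG := p_DEG a_MONO
theorem a_GLOW : S_GLOW := p_GLOW a_FULL a_DEG
theorem a_NSH : S_NSH := p_NSH
theorem a_UPT : S_UPT := p_UPT a_KKA
theorem a_UPO : S_UPO := p_UPO a_UPT
theorem a_NPT : S_NPT := p_NPT
theorem a_NUMT : S_NUMT := p_NUMT
theorem a_NUMU : S_NUMU := p_NUMU
theorem a_GDO : S_GDO := p_GDO a_PT a_UA a_HIY a_QBY a_ONE a_DEFO a_GLOW a_NSH a_UPO a_NPT a_NUMT a_NUMU

/-- The top index: the theorem of Kruskal and Katona. -/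
theorem top_case {n t d m : ℕ} (hm : m ≤ (frankl n (t + d) t d).card) {𝓕 : Finset (Finset ℕ)}
    (h : Adm n (t + d) t m 𝓕) :
    (shadow (colexInit (frankl n (t + d) t d) m)).card ≤ (shadow 𝓕).card := by
  obtain ⟨𝓖, g1, g2, g3⟩ := exists_shifted h
  refine le_trans ?_ g3
  have hU : ∀ F, InU 0 n 0 0 (t + d) F ↔ F ⊆ range n ∧ F.card = t + d := fun F => by
    rw [inU_pure, range_eq_Ico]
  refine genKK (fun F hF => (hU F).2 ⟨g1.sub F hF, g1.card_eq F hF⟩) g2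
    (fun F hF => (hU F).2 ?_) (fun F hF G hG hlt => colexInit_down hF ?_ hlt)
    (by rw [card_colexInit hm, g1.2.2])
  · have := mem_frankl.1 (mem_colexInit.1 hF).1
    exact ⟨this.1, this.2.1⟩
  · have h1 := mem_frankl.1 (mem_colexInit.1 hF).1
    rw [hU] at hG
    refine mem_frankl.2 ⟨hG.1, hG.2, ?_⟩
    have h2 : F ∩ range (t + 2 * d) = F := eq_of_subset_of_card_le inter_subset_left (by omega)
    have h3 := lt_of_colex_le hlt.le (a := t + 2 * d) fun b hb => by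
      rw [← h2] at hb
      exact mem_range.1 (mem_inter.1 hb).2
    rw [inter_eq_left.2 (fun b hb => mem_range.2 (h3 b hb)), hG.2]

end Pool.Agent.P.MP_ed1e41_co.AS
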