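import Pool.Agent.P.MP_ed1e41_co.Main
import Pool.Agent.P.MP_ed1e41_co.H.Line

/-! Definitions and basic counting for the asymptotic analysis. -/

namespace Pool.Agent.P.MP_ed1e41_co.AS

open Finset

/-- Sets of size `k` with exactly `c` elements below `M`. -/
def lev (n k M c : ℕ) : Finset (Finset ℕ) :=
  ((range n).powersetCard k).filter fun F => (F ∩ range M).card = c

/-- The head is typical: `i` misses below `t + 2 i`, all of them below `t`. -/
def Typ (t i : ℕ) (F : Finset ℕ) : Prop :=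
  (F ∩ range (t + 2 * i)).card = t + i ∧ Ico t (t + 2 * i) ⊆ F

/-- The set is sparse from `v` on. -/
def Sp (v : ℕ) (F : Finset ℕ) : Prop := ∀ x, 4 * (F ∩ Ico v (v + x)).card ≤ x

/-- The sets that are dense up to `t + 2 i + x`. -/
def DD (n t d i x : ℕ) : Finset (Finset ℕ) :=
  ((range n).powersetCard (t + d)).filter fun W =>
    4 * (t + i) + 3 * x ≤ 4 * (W ∩ range (t + 2 * i + x)).card

/-- The set lies in a Frankl family of index above `j`. -/
def Hi (t j : ℕ) (F : Finset ℕ) : Prop := ∃ i, j < i ∧ t + i ≤ (F ∩ range (t + 2 * i)).card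

/-- Class `j`, and the family has a member with the same tail and a typical head. -/
def Gd (t j : ℕ) (𝓕 : Finset (Finset ℕ)) (F : Finset ℕ) : Prop :=
  ¬ Hi t j F ∧ (F ∩ range (t + 2 * j)).card = t + j ∧
    ∃ Y ∈ 𝓕, Typ t j Y ∧ Y \ range (t + 2 * j) = F \ range (t + 2 * j)

/-- The standing assumptions. -/
structure St (n t d j m e q : ℕ) : Prop where
  t1 : 1 ≤ t
  hd : d = j + e
  e1 : 1 ≤ e
  hn : n = t + 2 * j + q
  hq : 2 * e + 1 ≤ q
  lo : (frankl n (t + d) t (j + 1)).card < m
  hi : m ≤ (frankl n (t + d) t j).card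

lemma mem_lev {n k M c : ℕ} {F : Finset ℕ} :
    F ∈ lev n k M c ↔ F ⊆ range n ∧ F.card = k ∧ (F ∩ range M).card = c := by
  rw [lev, mem_filter, mem_powersetCard, and_assoc]

lemma mem_big {n k M c : ℕ} {F : Finset ℕ} :
    F ∈ Hull.big n k M c ↔ F ⊆ range n ∧ F.card = k ∧ c ≤ (F ∩ range M).card := by
  rw [Hull.big, mem_filter, mem_powersetCard, and_assoc]

lemma mem_DD {n t d i x : ℕ} {W : Finset ℕ} :
    W ∈ DD n t d i x ↔ W ⊆ range n ∧ W.card = t + d ∧
      4 * (t + i) + 3 * x ≤ 4 * (W ∩ range (t + 2 * i + x)).card := by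
  rw [DD, mem_filter, mem_powersetCard, and_assoc]

lemma frankl_mono {n n' : ℕ} (h : n' ≤ n) (k t j : ℕ) : frankl n' k t j ⊆ frankl n k t j :=
  fun _ hF => mem_frankl.2 ⟨(mem_frankl.1 hF).1.trans (range_subset_range.2 h), (mem_frankl.1 hF).2⟩

lemma cc_symm (t i : ℕ) : (t + 2 * i).choose (t + i) = (t + 2 * i).choose i :=
  Nat.choose_symm_of_eq_add (by ring)

lemma tail_sub {n M : ℕ} {F : Finset ℕ} (h : F ⊆ range n) : F \ range M ⊆ Ico M n := fun y hy => by
  rw [mem_sdiff, mem_range] at hy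
  exact mem_Ico.2 ⟨not_lt.1 hy.2, mem_range.1 (h hy.1)⟩

lemma card_head_tail (F : Finset ℕ) (M : ℕ) :
    (F ∩ range M).card + (F \ range M).card = F.card := by
  rw [add_comm, card_sdiff_add_card_inter]

lemma union_head {M : ℕ} {H T : Finset ℕ} (hH : H ⊆ range M) (hT : ∀ x ∈ T, M ≤ x) :
    (H ∪ T) ∩ range M = H := by
  ext y
  have h1 := fun h : y ∈ H => mem_range.1 (hH h)
  have h2 := hT y
  simp only [mem_inter, mem_union, mem_range]
  grind

lemma union_tail {M : ℕ} {H T : Finset ℕ} (hH : H ⊆ range M) (hT : ∀ x ∈ T, M ≤ x) :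
    (H ∪ T) \ range M = T := by
  ext y
  have h1 := fun h : y ∈ H => mem_range.1 (hH h)
  have h2 := hT y
  simp only [mem_sdiff, mem_union, mem_range]
  grind

lemma card_union_ht {M : ℕ} {H T : Finset ℕ} (hH : H ⊆ range M) (hT : ∀ x ∈ T, M ≤ x) :
    (H ∪ T).card = H.card + T.card := by
  rw [← card_head_tail (H ∪ T) M, union_head hH hT, union_tail hH hT]

/-- A family whose heads lie in `𝓗` and whose tails lie in `𝓣`. -/
lemma card_le_prod {𝓕 𝓗 𝓣 : Finset (Finset ℕ)} (M : ℕ)
    (h : ∀ F ∈ 𝓕, F ∩ range M ∈ 𝓗 ∧ F \ range M ∈ 𝓣) : 𝓕.card ≤ 𝓗.card * 𝓣.card := by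
  rw [← card_product]
  refine card_le_card_of_injOn (fun F => (F ∩ range M, F \ range M))
    (fun F hF => mem_coe.2 (mem_product.2 (h F hF))) fun F _ G _ e => ?_
  simp only [Prod.mk.injEq] at e
  rw [← sdiff_union_inter F (range M), e.1, e.2, sdiff_union_inter]

/-- A family that contains all unions of a head and a tail. -/
lemma prod_le_card {𝓕 𝓗 𝓣 : Finset (Finset ℕ)} (M : ℕ) (hH : ∀ H ∈ 𝓗, H ⊆ range M)
    (hT : ∀ T ∈ 𝓣, ∀ x ∈ T, M ≤ x) (h : ∀ H ∈ 𝓗, ∀ T ∈ 𝓣, H ∪ T ∈ 𝓕) :
    𝓗.card * 𝓣.card ≤ 𝓕.card := by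
  rw [← card_product]
  refine card_le_card_of_injOn (fun p => p.1 ∪ p.2)
    (fun p hp => h _ (mem_product.1 hp).1 _ (mem_product.1 hp).2) fun p hp p' hp' e => ?_
  have h1 := mem_product.1 hp
  have h2 := mem_product.1 hp'
  simp only at e
  refine Prod.ext ?_ ?_
  · rw [← union_head (hH _ h1.1) (hT _ h1.2), e, union_head (hH _ h2.1) (hT _ h2.2)]
  · rw [← union_tail (hH _ h1.1) (hT _ h1.2), e, union_tail (hH _ h2.1) (hT _ h2.2)]

lemma card_lev {n M q c e : ℕ} (hn : n = M + q) :
    (lev n (c + e) M c).card = M.choose c * q.choose e := by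
  have e1 : M.choose c = ((range M).powersetCard c).card := by rw [card_powersetCard, card_range]
  have e2 : q.choose e = ((Ico M n).powersetCard e).card := by
    rw [card_powersetCard, Nat.card_Ico, hn, Nat.add_sub_cancel_left]
  rw [e1, e2]
  refine le_antisymm (card_le_prod M fun F hF => ?_) (prod_le_card M
    (fun H h => (mem_powersetCard.1 h).1)
    (fun T h x hx => (mem_Ico.1 ((mem_powersetCard.1 h).1 hx)).1) fun H hH T hT => ?_)
  · rw [mem_lev] at hF
    have := card_head_tail F M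
    exact ⟨mem_powersetCard.2 ⟨inter_subset_right, hF.2.2⟩,
      mem_powersetCard.2 ⟨tail_sub hF.1, by omega⟩⟩
  · rw [mem_powersetCard] at hH hT
    have h1 : ∀ x ∈ T, M ≤ x := fun x hx => (mem_Ico.1 (hT.1 hx)).1
    rw [mem_lev, union_head hH.1 h1, card_union_ht hH.1 h1]
    exact ⟨union_subset (hH.1.trans (range_subset_range.2 (by omega)))
      (hT.1.trans (Hull.Ico_sub M n)), by omega, hH.2⟩

/-- The size of `big` as a sum over the levels. -/
lemma card_big {n M q : ℕ} (hn : n = M + q) (k c : ℕ) :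
    (Hull.big n k M c).card = ∑ x ∈ Icc c k, M.choose x * q.choose (k - x) := by
  rw [card_eq_sum_card_fiberwise (f := fun F => (F ∩ range M).card) (t := Icc c k) fun F hF => ?_]
  · refine sum_congr rfl fun x hx => ?_
    rw [mem_Icc] at hx
    rw [← card_lev hn, show x + (k - x) = k by omega]
    congr 1
    ext F
    rw [mem_filter, mem_big, mem_lev]
    exact ⟨fun h => ⟨h.1.1, h.1.2.1, h.2⟩, fun h => ⟨⟨h.1, h.2.1, by omega⟩, h.2.2⟩⟩
  · rw [mem_coe, mem_big] at hF
    exact mem_coe.2 (mem_Icc.2 ⟨hF.2.2, hF.2.1 ▸ card_tr_le' F M⟩)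

/-- The bottom level of a Frankl family. -/
lemma ble {n t d i e q : ℕ} (hd : d = i + e) (hn : n = t + 2 * i + q) :
    (t + 2 * i).choose i * q.choose e ≤ (frankl n (t + d) t i).card := by
  rw [← cc_symm, ← card_lev hn, show t + i + e = t + d by omega]
  refine card_le_card fun F hF => ?_
  rw [mem_lev] at hF
  exact mem_frankl.2 ⟨hF.1, hF.2.1, hF.2.2.ge⟩

/-- Going down in a row of the triangle. -/
lemma ratio {a b e N : ℕ} (h : a * e ≤ b * (N + 1 - e)) (he : e ≤ N) (v : ℕ) (hv : v ≤ e) :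
    a ^ v * N.choose (e - v) ≤ b ^ v * N.choose e := by
  induction v with
  | zero => simp
  | succ v ih =>
    have h1 := ih (by omega)
    obtain ⟨y, hy⟩ : ∃ y, e = y + v + 1 := ⟨e - v - 1, by omega⟩
    have h2 := Nat.choose_succ_right_eq N y
    rw [show e - v = y + 1 by omega] at h1
    rw [show e - (v + 1) = y by omega]
    have h3 : a * N.choose y ≤ b * N.choose (y + 1) := by
      refine Nat.le_of_mul_le_mul_right ?_ (show 0 < N - y by omega)
      calc a * N.choose y * (N - y) = a * (y + 1) * N.choose (y + 1) := by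
            rw [mul_assoc, ← h2]; ring
        _ ≤ b * (N - y) * N.choose (y + 1) := Nat.mul_le_mul_right _
            (((Nat.mul_le_mul_left a (by omega)).trans h).trans (Nat.mul_le_mul_left b (by omega)))
        _ = _ := by ring
    calc a ^ (v + 1) * N.choose y = a ^ v * (a * N.choose y) := by ring
      _ ≤ a ^ v * (b * N.choose (y + 1)) := Nat.mul_le_mul_left _ h3
      _ = b * (a ^ v * N.choose (y + 1)) := by ring
      _ ≤ b * (b ^ v * N.choose e) := Nat.mul_le_mul_left _ h1
      _ = _ := by ring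

/-- Rows decrease after the middle. -/
lemma choose_anti {N x y : ℕ} (h1 : x ≤ y) (h2 : N ≤ x + y) : N.choose y ≤ N.choose x := by
  rcases lt_or_ge N y with h | h
  · rw [Nat.choose_eq_zero_of_lt h]; exact Nat.zero_le _
  · rw [← Nat.choose_symm h]
    exact Hull.choose_le_of (by omega) (by omega)

/-- A common neighbour below the class boundaries determines the class. -/
lemma class_erase {t d c c' z z' : ℕ} {F F' : Finset ℕ} (hc : IsClass t d c F)
    (hc' : IsClass t d c' F') (hz : z ∈ F) (hz' : z' ∈ F') (h : z < t + 2 * c)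
    (h' : z' < t + 2 * c') (e : F.erase z = F'.erase z') : c = c' := by
  have key : ∀ {c c' z z' : ℕ} {F F' : Finset ℕ}, IsClass t d c F → IsClass t d c' F' → z ∈ F →
      z' ∈ F' → z < t + 2 * c → z' < t + 2 * c' → F.erase z = F'.erase z' → ¬ c < c' := by
    intro c c' z z' F F' hc hc' hz hz' h h' e hlt
    have h1 := card_erase_tr hz (show z < t + 2 * c' by omega)
    have h2 := card_erase_tr hz' h'
    have h3 := hc.2.2 c' hlt hc'.1
    rw [hc'.2.1, ← e] at h2
    omega
  exact le_antisymm (not_lt.1 (key hc' hc hz' hz h' h e.symm)) (not_lt.1 (key hc hc' hz hz' h h' e))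

lemma IsClass_le {t d c j : ℕ} {F : Finset ℕ} (hc : IsClass t d c F) (h : ¬ Hi t j F) : c ≤ j :=
  not_lt.1 fun hlt => h ⟨c, hlt, hc.2.1.ge⟩

lemma IsClass_gt {t d c j : ℕ} {F : Finset ℕ} (hc : IsClass t d c F) (hk : F.card = t + d)
    (h : Hi t j F) : j < c := by
  obtain ⟨i, h1, h2⟩ := h
  have := card_tr_le' F (t + 2 * i)
  by_contra hn
  have := hc.2.2 i (by omega) (by omega)
  omega

open Classical in
/-- The number of typical heads. -/
lemma card_typ {t i : ℕ} (h : i ≤ t) :
    (((range (t + 2 * i)).powersetCard (t + i)).filter fun H => Ico t (t + 2 * i) ⊆ H).card =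
      t.choose i := by
  have h1 := card_lev (n := t + 2 * i) (M := t) (q := 2 * i) (c := t - i) (e := 2 * i) rfl
  rw [Nat.choose_self, mul_one, Nat.choose_symm h, show t - i + 2 * i = t + i by omega] at h1
  rw [← h1]
  congr 1
  ext H
  rw [mem_filter, mem_powersetCard, mem_lev, and_assoc]
  refine and_congr_right fun h2 => and_congr_right fun h3 => ?_
  have h4 := card_head_tail H t
  have h5 : H \ range t ⊆ Ico t (t + 2 * i) := tail_sub h2
  constructor
  · intro h6
    have : H \ range t = Ico t (t + 2 * i) := Subset.antisymm h5 fun y hy =>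
      mem_sdiff.2 ⟨h6 hy, by have := mem_Ico.1 hy; rw [mem_range]; omega⟩
    rw [this, Nat.card_Ico] at h4
    omega
  · intro h6
    rw [← eq_of_subset_of_card_le h5 (by rw [Nat.card_Ico]; omega)]
    exact sdiff_subset

lemma sp_tail {v : ℕ} {F : Finset ℕ} : Sp v (F \ range v) ↔ Sp v F := by
  have : ∀ x, (F \ range v) ∩ Ico v (v + x) = F ∩ Ico v (v + x) := fun x => by
    ext y
    simp only [mem_inter, mem_sdiff, mem_range, mem_Ico]
    grind
  simp only [Sp, this]

lemma card_tr_split (F : Finset ℕ) (v x : ℕ) :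
    (F ∩ range (v + x)).card = (F ∩ range v).card + (F ∩ Ico v (v + x)).card := by
  rw [← card_head_tail (F ∩ range (v + x)) v]
  congr 2
  · ext y
    simp only [mem_inter, mem_range]
    grind
  · ext y
    simp only [mem_inter, mem_sdiff, mem_range, mem_Ico]
    grind

end Pool.Agent.P.MP_ed1e41_co.AS
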