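import Pool.Agent.P.MP_ed1e41_co.AS.Iface

/-! Definitions and basic facts for the stability argument. -/

namespace Pool.Agent.P.MP_ed1e41_co.AS

open Finset

/-- The sets of size `r` with elements from `v` on that are at most `G` in the colex order. -/
def Sg (v r : ℕ) (G : Finset ℕ) : Finset (Finset ℕ) :=
  ((Ico v (G.sup id + 1)).powersetCard r).filter fun T => toColex T ≤ toColex G

/-- The tails of size `r` of the members of a family. -/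
def tails (v r : ℕ) (𝓖 : Finset (Finset ℕ)) : Finset (Finset ℕ) :=
  (𝓖.filter fun F => (F \ range v).card = r).image fun F => F \ range v

/-- The set avoids the window of length `x` that starts at `v`. -/
def Av (v x : ℕ) (T : Finset ℕ) : Prop := T ∩ Ico v (v + x) = ∅

/-- A tower of shifted families of tails, each containing the shadow of the one above. -/
def Tower (v r e : ℕ) (𝒯 : ℕ → Finset (Finset ℕ)) : Prop :=
  ∀ i, r < i → i ≤ e → (∀ T ∈ 𝒯 i, (∀ x ∈ T, v ≤ x) ∧ T.card = i) ∧ ShiftedFrom v (𝒯 i) ∧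
    shadow (𝒯 i) ⊆ 𝒯 (i - 1)

lemma lt_of_colex_le {T G : Finset ℕ} {a : ℕ} (h : toColex T ≤ toColex G) (hG : ∀ x ∈ G, x < a) :
    ∀ x ∈ T, x < a := Colex.forall_lt_mono h hG

lemma mem_Sg {v r : ℕ} {G T : Finset ℕ} :
    T ∈ Sg v r G ↔ (∀ x ∈ T, v ≤ x) ∧ T.card = r ∧ toColex T ≤ toColex G := by
  rw [Sg, mem_filter, mem_powersetCard]
  refine ⟨fun h => ⟨fun x hx => (mem_Ico.1 (h.1.1 hx)).1, h.1.2, h.2⟩, fun h =>
    ⟨⟨fun x hx => mem_Ico.2 ⟨h.1 x hx, lt_of_colex_le h.2.2 (fun y hy => ?_) x hx⟩, h.2.1⟩, h.2.2⟩⟩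
  exact Nat.lt_succ_of_le (le_sup (f := id) hy)

lemma Sg_mono {v r : ℕ} {G G' : Finset ℕ} (h : toColex G ≤ toColex G') : Sg v r G ⊆ Sg v r G' :=
  fun _ hT => mem_Sg.2 ⟨(mem_Sg.1 hT).1, (mem_Sg.1 hT).2.1, (mem_Sg.1 hT).2.2.trans h⟩

lemma Sg_sub {v r N : ℕ} {G : Finset ℕ} (hG : ∀ x ∈ G, x < N) :
    Sg v r G ⊆ (Ico v N).powersetCard r := fun _ hT =>
  mem_powersetCard.2 ⟨fun x hx => mem_Ico.2 ⟨(mem_Sg.1 hT).1 x hx,
    lt_of_colex_le (mem_Sg.1 hT).2.2 hG x hx⟩, (mem_Sg.1 hT).2.1⟩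

lemma inU_pure {v N r : ℕ} {T : Finset ℕ} : InU v N 0 0 r T ↔ T ⊆ Ico v N ∧ T.card = r := by
  simp [InU]

lemma Sg_inU {v r N : ℕ} {G : Finset ℕ} (hG : ∀ x ∈ G, x < N) : ∀ T ∈ Sg v r G, InU v N 0 0 r T :=
  fun _ hT => inU_pure.2 (mem_powersetCard.1 (Sg_sub hG hT))

lemma Sg_down (v r N : ℕ) (G : Finset ℕ) : DownClosed v N 0 0 r (Sg v r G) :=
  fun _ hF _ hH hlt => mem_Sg.2 ⟨fun _ hx => (mem_Ico.1 (hH.1 hx)).1, hH.2.1,
    hlt.le.trans (mem_Sg.1 hF).2.2⟩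

lemma colex_le_of_subset {T G : Finset ℕ} (h : T ⊆ G) : toColex T ≤ toColex G :=
  Colex.toColex_le_toColex_of_subset h

lemma colex_lt_of_max {T G : Finset ℕ} {a : ℕ} (ha : a ∈ G) (h : ∀ x ∈ T, x < a) :
    toColex T < toColex G :=
  Colex.toColex_lt_toColex_iff_exists_forall_lt.2
    ⟨a, ha, fun h' => lt_irrefl _ (h a h'), fun b hb _ => h b hb⟩

/-- The ground set of a non-empty set. -/
lemma exists_ground {v : ℕ} {G : Finset ℕ} (hne : G.Nonempty) (hG : ∀ x ∈ G, v ≤ x) :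
    ∃ Q, 1 ≤ Q ∧ (∀ x ∈ G, x < v + Q) ∧ ∀ T ⊆ Ico v (v + (Q - 1)), toColex T ≤ toColex G := by
  have h1 := hG _ (max'_mem G hne)
  refine ⟨G.max' hne + 1 - v, by omega, fun x hx => ?_, fun T hT => ?_⟩
  · have := le_max' G x hx
    omega
  · refine (colex_lt_of_max (max'_mem G hne) fun x hx => ?_).le
    have := mem_Ico.1 (hT hx)
    omega

/-- Finitely many finite sets have a common bound. -/
lemma exists_bound (𝒜 : Finset (Finset ℕ)) : ∃ N, ∀ T ∈ 𝒜, ∀ x ∈ T, x < N :=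
  ⟨(𝒜.biUnion id).sup id + 1, fun T hT _ hx =>
    Nat.lt_succ_of_le (le_sup (f := id) (mem_biUnion.2 ⟨T, hT, hx⟩))⟩

lemma mem_tails {v r : ℕ} {𝓖 : Finset (Finset ℕ)} {T : Finset ℕ} :
    T ∈ tails v r 𝓖 ↔ T.card = r ∧ ∃ F ∈ 𝓖, F \ range v = T := by
  rw [tails, mem_image]
  constructor
  · rintro ⟨F, hF, rfl⟩
    exact ⟨(mem_filter.1 hF).2, F, (mem_filter.1 hF).1, rfl⟩
  · rintro ⟨h, F, hF, rfl⟩
    exact ⟨F, mem_filter.2 ⟨hF, h⟩, rfl⟩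

lemma shifted_frankl (n k t j : ℕ) : Shifted (frankl n k t j) := fun F hF x y hxy hy hx => by
  have hU : ∀ F, F ∈ frankl n k t j ↔ InU 0 n (t + 2 * j) (t + j) k F := fun F => by
    rw [mem_frankl, InU, range_eq_Ico]
  exact (hU _).2 (((hU F).1 hF).shift (Nat.zero_le _) hxy hy hx)

lemma Shifted_inter {𝓕 𝓖 : Finset (Finset ℕ)} (h : Shifted 𝓕) (h' : Shifted 𝓖) :
    Shifted (𝓕 ∩ 𝓖) := fun F hF x y hxy hy hx =>
  mem_inter.2 ⟨h F (mem_inter.1 hF).1 x y hxy hy hx, h' F (mem_inter.1 hF).2 x y hxy hy hx⟩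

end Pool.Agent.P.MP_ed1e41_co.AS
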