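import Pool.Agent.P.MP_ed1e41_co.AS.Iface2

/-! Definitions and basic facts for sizes far above the next Frankl family. -/

namespace Pool.Agent.P.MP_ed1e41_co.AS

open Finset
open scoped Classical

/-- The head misses exactly the first `j` points. -/
def Ty (t j : ℕ) (F : Finset ℕ) : Prop := F ∩ range (t + 2 * j) = Ico j (t + 2 * j)

/-- The last head together with the tail of `F` is a member. -/
def Fu (t j : ℕ) (𝓕 : Finset (Finset ℕ)) (F : Finset ℕ) : Prop :=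
  Ico j (t + 2 * j) ∪ F \ range (t + 2 * j) ∈ 𝓕

/-- Bottom level of index `j`, in a full cell. -/
def Gf (t j : ℕ) (𝓕 : Finset (Finset ℕ)) (F : Finset ℕ) : Prop :=
  (F ∩ range (t + 2 * j)).card = t + j ∧ Fu t j 𝓕 F

/-- The members of class `c`. -/
noncomputable def cls (t d c : ℕ) (𝓕 : Finset (Finset ℕ)) : Finset (Finset ℕ) :=
  𝓕.filter fun F => IsClass t d c F

/-- The sets obtained from a member of class `c` by deleting a point of the head. -/
noncomputable def hsh (t d c : ℕ) (𝓕 : Finset (Finset ℕ)) : Finset (Finset ℕ) :=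
  (cls t d c 𝓕).biUnion fun F => (F ∩ range (t + 2 * c)).image fun z => F.erase z

/-- The tails of the members of class `c`. -/
noncomputable def tl (t d c : ℕ) (𝓕 : Finset (Finset ℕ)) : Finset (Finset ℕ) :=
  (cls t d c 𝓕).image fun F => F \ range (t + 2 * c)

/-- The heads of the members of class `c` with tail `T`. -/
noncomputable def hd (t d c : ℕ) (𝓕 : Finset (Finset ℕ)) (T : Finset ℕ) : Finset (Finset ℕ) :=
  ((cls t d c 𝓕).filter fun F => F \ range (t + 2 * c) = T).image fun F => F ∩ range (t + 2 * c)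

/-- Density below one half from `v` on. -/
def Hs (v : ℕ) (G : Finset ℕ) : Prop := ∀ x, 1 ≤ x → (G ∩ Ico v (v + 2 * x)).card < x

/-- The tails of the defective cells, for `t = 1`. -/
noncomputable def GG (n i g : ℕ) (𝓕 : Finset (Finset ℕ)) : Finset (Finset ℕ) :=
  ((Ico (1 + 2 * i + 2) n).powersetCard g).filter fun G =>
    Hs (1 + 2 * i + 2) G ∧ insert (1 + 2 * i) (Ico i (1 + 2 * i) ∪ G) ∈ 𝓕

lemma mem_cls {t d c : ℕ} {𝓕 : Finset (Finset ℕ)} {F : Finset ℕ} :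
    F ∈ cls t d c 𝓕 ↔ F ∈ 𝓕 ∧ IsClass t d c F := mem_filter

lemma mem_hsh {t d c : ℕ} {𝓕 : Finset (Finset ℕ)} {G : Finset ℕ} :
    G ∈ hsh t d c 𝓕 ↔ ∃ F ∈ cls t d c 𝓕, ∃ z ∈ F, z < t + 2 * c ∧ F.erase z = G := by
  simp only [hsh, mem_biUnion, mem_image, mem_inter, mem_range, and_assoc]

lemma mem_tl {t d c : ℕ} {𝓕 : Finset (Finset ℕ)} {T : Finset ℕ} :
    T ∈ tl t d c 𝓕 ↔ ∃ F ∈ cls t d c 𝓕, F \ range (t + 2 * c) = T := mem_image

lemma mem_hd {t d c : ℕ} {𝓕 : Finset (Finset ℕ)} {T H : Finset ℕ} :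
    H ∈ hd t d c 𝓕 T ↔
      ∃ F ∈ cls t d c 𝓕, F \ range (t + 2 * c) = T ∧ F ∩ range (t + 2 * c) = H := by
  simp only [hd, mem_image, mem_filter, and_assoc]

lemma hd_sub (t d c : ℕ) (𝓕 : Finset (Finset ℕ)) (T : Finset ℕ) :
    hd t d c 𝓕 T ⊆ (range (t + 2 * c)).powersetCard (t + c) := fun H hH => by
  obtain ⟨F, hF, -, rfl⟩ := mem_hd.1 hH
  exact mem_powersetCard.2 ⟨inter_subset_right, (mem_cls.1 hF).2.2.1⟩

lemma mem_GG {n i g : ℕ} {𝓕 : Finset (Finset ℕ)} {G : Finset ℕ} :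
    G ∈ GG n i g 𝓕 ↔ G ⊆ Ico (1 + 2 * i + 2) n ∧ G.card = g ∧ Hs (1 + 2 * i + 2) G ∧
      insert (1 + 2 * i) (Ico i (1 + 2 * i) ∪ G) ∈ 𝓕 := by
  rw [GG, mem_filter, mem_powersetCard, and_assoc]

lemma class_unique {t d c c' : ℕ} {F : Finset ℕ} (h : IsClass t d c F) (h' : IsClass t d c' F) :
    c = c' := by
  rcases lt_trichotomy c c' with e | e | e
  · have := h.2.2 c' e h'.1
    have := h'.2.1
    omega
  · exact e
  · have := h'.2.2 c e h.1
    have := h.2.1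
    omega

/-- The classes partition the family. -/
lemma sum_cls {n t d m : ℕ} {𝓕 : Finset (Finset ℕ)} (h : Adm n (t + d) t m 𝓕) (hs : Shifted 𝓕) :
    ∑ c ∈ range (d + 1), (cls t d c 𝓕).card = m := by
  rw [← card_biUnion, ← h.2.2]
  · congr 1
    ext F
    rw [mem_biUnion]
    refine ⟨fun ⟨c, _, hc⟩ => (mem_cls.1 hc).1, fun hF => ?_⟩
    obtain ⟨c, hc⟩ := exists_class hs h.2.1 h.card_eq hF
    exact ⟨c, mem_range.2 (Nat.lt_succ_of_le hc.1), mem_cls.2 ⟨hF, hc⟩⟩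
  · intro c _ c' _ hne
    exact disjoint_left.2 fun F h1 h2 => hne (class_unique (mem_cls.1 h1).2 (mem_cls.1 h2).2)

/-- The classes above `j`. -/
lemma sum_cls_hi (t d j : ℕ) (𝓕 : Finset (Finset ℕ)) :
    ∑ c ∈ (range (d + 1)).filter (fun c => j < c), (cls t d c 𝓕).card ≤
      (𝓕.filter fun F => Hi t j F).card := by
  rw [← card_biUnion]
  · refine card_le_card fun F hF => ?_
    obtain ⟨c, h1, h2⟩ := mem_biUnion.1 hF
    exact mem_filter.2 ⟨(mem_cls.1 h2).1, c, (mem_filter.1 h1).2, (mem_cls.1 h2).2.2.1.ge⟩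
  · intro c _ c' _ hne
    exact disjoint_left.2 fun F h1 h2 => hne (class_unique (mem_cls.1 h1).2 (mem_cls.1 h2).2)

lemma last_head (t j : ℕ) : Ico j (t + 2 * j) ∈ (range (t + 2 * j)).powersetCard (t + j) :=
  mem_powersetCard.2 ⟨Hull.Ico_sub _ _, by rw [Nat.card_Ico]; omega⟩

lemma tail_ge (F : Finset ℕ) (v : ℕ) : ∀ x ∈ F \ range v, v ≤ x := fun _ hx =>
  not_lt.1 fun h => (mem_sdiff.1 hx).2 (mem_range.2 h)

lemma cc_mono (t : ℕ) {i j : ℕ} (h : i ≤ j) : (t + 2 * i).choose i ≤ (t + 2 * j).choose j :=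
  (Nat.choose_le_choose i (by omega)).trans (Hull.choose_le_of h (by omega))

end Pool.Agent.P.MP_ed1e41_co.AS
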