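import Pool.Agent.P.MP_ed1e41_co.AS.Base3

/-! The statements of the steps for sizes far above the next Frankl family. -/

namespace Pool.Agent.P.MP_ed1e41_co.AS

open Finset
open scoped Classical

-- deps:
def S_COMPY : Prop := ∀ (t i p x₀ : ℕ) (Y W : Finset ℕ), 1 ≤ t → Ty t i Y →
  p + t ≤ (Y ∩ range p).card + (W ∩ range p).card → Sp (t + 2 * i) Y → Av (t + 2 * i) x₀ Y →
  t + i ≤ (W ∩ range (t + 2 * i)).card ∨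
    ∃ x, x₀ < x ∧ 4 * (t + i) + 3 * x ≤ 4 * (W ∩ range (t + 2 * i + x)).card

-- deps:
def S_CNTY : Prop := ∀ (n t j r x : ℕ) (𝓖 : Finset (Finset ℕ)),
  𝓖 ⊆ frankl n (t + 2 * j + (r + 1)) t j →
  (∀ Y ∈ 𝓖, ¬ (Ty t j Y ∧ Sp (t + 2 * j) Y ∧ Av (t + 2 * j) x Y)) →
  𝓖.card + ((tails (t + 2 * j) (j + 1 + r) 𝓖).filter fun T =>
      Sp (t + 2 * j) T ∧ Av (t + 2 * j) x T).card ≤
    ∑ i ∈ Ioc r (j + 1 + r), (t + 2 * j).choose (i - (r + 1)) * (tails (t + 2 * j) i 𝓖).card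

-- deps: SPLIT TS ZLO NEXT LEV CNTY INT
def S_COREY : Prop := ∀ (n t d j m e q r D x : ℕ) (𝓖 : Finset (Finset ℕ)), St n t d j m e q →
  e = j + 1 + r → 1 ≤ r → 𝓖 ⊆ frankl n (t + d) t j → Shifted 𝓖 → m ≤ 𝓖.card + D →
  (∀ Y ∈ 𝓖, ¬ (Ty t j Y ∧ Sp (t + 2 * j) Y ∧ Av (t + 2 * j) x Y)) →
  (shadow 𝓖).card < (shadow (colexInit (frankl n (t + d) t j) m)).card →
  ∃ Q, m ≤ (frankl (t + 2 * j + Q) (t + d) t j).card ∧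
    (Q - 1).choose r ≤ q.choose r + (t + 2 * j) * D ∧
    ∀ p Y, 1 ≤ p → (∀ i, r < i → i ≤ e → (Q - p).choose i ≤ Y) →
      (Q - 1 - x).choose e ≤ D + 1 +
        (((Ico (t + 2 * j + x) n).powersetCard e).filter fun T => ¬ Sp (t + 2 * j) T).card +
        (t + 2 * j).choose j * (j + 1) *
          (((t + 2 * j) * D + 1) * ((j + 1) * p) ^ (j + 1) + (j + 1) * Y)

-- deps: PT NSB
def S_WONEY : Prop := ∀ n t d j m e q R x : ℕ, St n t d j m e q → 2 ^ 23 ≤ R →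
  R * (frankl n (t + d) t (j + 1)).card ≤ m → R * e + e ≤ q → ∀ 𝓕, Adm n (t + d) t m 𝓕 →
  m ≤ 2 * (𝓕.filter fun F => Gf t j 𝓕 F).card →
  (∀ Y ∈ 𝓕, ¬ (Ty t j Y ∧ Sp (t + 2 * j) Y ∧ Av (t + 2 * j) x Y)) → R ≤ 8 * x

-- deps: COMPY WONEY
def S_WINY : Prop := ∀ n t d j m e q R : ℕ, St n t d j m e q → 2 ^ 23 ≤ R →
  R * (frankl n (t + d) t (j + 1)).card ≤ m → R * e + e ≤ q → ∀ 𝓕, Adm n (t + d) t m 𝓕 →
  Shifted 𝓕 → m ≤ 2 * (𝓕.filter fun F => Gf t j 𝓕 F).card → ¬ 𝓕 ⊆ frankl n (t + d) t j →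
  ∃ x, R ≤ 8 * x ∧ 3 * x ≤ 4 * e ∧
    (∀ Y ∈ 𝓕, ¬ (Ty t j Y ∧ Sp (t + 2 * j) Y ∧ Av (t + 2 * j) x Y)) ∧
    𝓕 \ frankl n (t + d) t j ⊆ (Icc x (4 * e)).biUnion (DD n t d j)

-- deps: PZ PT
def S_QBY : Prop := ∀ n t d j m e q R Q : ℕ, St n t d j m e q → 2 ≤ R →
  (R + 1) * (frankl n (t + d) t (j + 1)).card ≤ m →
  m ≤ (frankl (t + 2 * j + Q) (t + d) t j).card →
  R * e + e ≤ Q ∧ m ≤ 2 * ((t + 2 * j).choose j * Q.choose e)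

-- deps: PT KKA WINY OUT NSB COREY QBY NUM
def S_EXY : Prop := ∀ n t d j m e q R : ℕ, St n t d j m e q → 10 ^ 7 * (j + 1) ^ 3 ≤ R →
  t + j ≤ R → (R + 1) * (frankl n (t + d) t (j + 1)).card ≤ m → ∀ 𝓕, Adm n (t + d) t m 𝓕 →
  Shifted 𝓕 → m ≤ 2 * (𝓕.filter fun F => Gf t j 𝓕 F).card →
  (shadow (colexInit (frankl n (t + d) t j) m)).card ≤ (shadow 𝓕).card

-- deps: BDEC QBY
def S_HIY : Prop := ∀ n t d j m e q R : ℕ, St n t d j m e q → 4 * t + 8 ≤ R →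
  (R + 1) * (frankl n (t + d) t (j + 1)).card ≤ m → ∀ 𝓕, Adm n (t + d) t m 𝓕 → Shifted 𝓕 →
  (𝓕.filter fun F => Hi t j F).card ≤ 2 * (frankl n (t + d) t (j + 1)).card

-- deps:
def S_DISJ : Prop := ∀ (t d : ℕ) (𝓕 : Finset (Finset ℕ)),
  ∑ c ∈ range (d + 1), (hsh t d c 𝓕).card ≤ (shadow 𝓕).card

-- deps:
def S_FIBR : Prop := ∀ (t d c : ℕ) (𝓕 : Finset (Finset ℕ)),
  (∀ T, ((cls t d c 𝓕).filter fun F => F \ range (t + 2 * c) = T).card = (hd t d c 𝓕 T).card) ∧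
  (cls t d c 𝓕).card = ∑ T ∈ tl t d c 𝓕, (hd t d c 𝓕 T).card ∧
  ∑ T ∈ tl t d c 𝓕, (shadow (hd t d c 𝓕 T)).card ≤ (hsh t d c 𝓕).card

-- deps:
def S_CONE : Prop := ∀ (v s : ℕ) (𝓗 : Finset (Finset ℕ)), 𝓗 ⊆ (range v).powersetCard s →
  s * 𝓗.card ≤ (v + 1 - s) * (shadow 𝓗).card ∧
  (𝓗.Nonempty → (∃ H ∈ (range v).powersetCard s, H ∉ 𝓗) →
    s * 𝓗.card + 1 ≤ (v + 1 - s) * (shadow 𝓗).card)

-- deps: FIBR CONE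
def S_CELLN : Prop := ∀ (t d c : ℕ) (𝓕 : Finset (Finset ℕ)),
  (t + 2 * c).choose c * ((t + c) * (cls t d c 𝓕).card) +
      ((cls t d c 𝓕).filter fun F => ¬ Fu t c 𝓕 F).card ≤
    (t + 2 * c).choose c * ((c + 1) * (hsh t d c 𝓕).card)

-- deps: PT UA HIY DISJ CELLN
def S_GDT : Prop := ∀ n t d j m e q K : ℕ, St n t d j m e q → 2 ≤ t →
  10 ^ 7 * (t + j) ^ 4 * (t + 2 * j).choose j ≤ K →
  (K + 1) * (frankl n (t + d) t (j + 1)).card ≤ m → ∀ 𝓕, Adm n (t + d) t m 𝓕 → Shifted 𝓕 →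
  (shadow 𝓕).card < (shadow (colexInit (frankl n (t + d) t j) m)).card →
  m ≤ 2 * (𝓕.filter fun F => Gf t j 𝓕 F).card

-- deps:
def S_COEX : Prop := ∀ (n t d m c : ℕ) (𝓕 : Finset (Finset ℕ)) (F : Finset ℕ), 1 ≤ t →
  Adm n (t + d) t m 𝓕 → Shifted 𝓕 → F ∈ cls t d c 𝓕 → Fu t c 𝓕 F →
  (∀ c', c' < c → cls t d c' 𝓕 = ∅) ∧
    ∀ W ∈ cls t d (c + 1) 𝓕, t + c ≤ (W ∩ range (t + 2 * c)).card

-- deps:
def S_FULL : Prop := ∀ (t j : ℕ) (𝓕 : Finset (Finset ℕ)) (T : Finset ℕ), Shifted 𝓕 →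
  (∀ x ∈ T, t + 2 * j ≤ x) → Ico j (t + 2 * j) ∪ T ∈ 𝓕 →
  ∀ H ∈ (range (t + 2 * j)).powersetCard (t + j), H ∪ T ∈ 𝓕

-- deps: CONE
def S_CTWO : Prop := ∀ (i : ℕ) (𝓗 : Finset (Finset ℕ)),
  𝓗 ⊆ (range (1 + 2 * i + 2)).powersetCard (1 + i + 1) →
  (∀ H ∈ 𝓗, 1 + i ≤ (H ∩ range (1 + 2 * i)).card) →
  (∀ H ∈ (range (1 + 2 * i)).powersetCard (1 + i), insert (1 + 2 * i) H ∈ 𝓗) →
  (i + 2) * 𝓗.card + 2 * (1 + 2 * i).choose i ≤ (i + 2) * (shadow 𝓗).card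

-- deps: FIBR CONE CTWO
def S_CELLS : Prop := ∀ (d i : ℕ) (𝓕 𝒢 : Finset (Finset ℕ)),
  (∀ W ∈ cls 1 d (i + 1) 𝓕, 1 + i ≤ (W ∩ range (1 + 2 * i)).card) →
  (∀ G ∈ 𝒢, (∀ x ∈ G, 1 + 2 * i + 2 ≤ x) ∧ ∀ H ∈ (range (1 + 2 * i)).powersetCard (1 + i),
    insert (1 + 2 * i) (H ∪ G) ∈ cls 1 d (i + 1) 𝓕) →
  (i + 2) * (cls 1 d (i + 1) 𝓕).card + 2 * (1 + 2 * i).choose i * 𝒢.card ≤
    (i + 2) * (hsh 1 d (i + 1) 𝓕).card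

-- deps: COEX DISJ CELLN
def S_ONE : Prop := ∀ (n d m j : ℕ) (𝓕 : Finset (Finset ℕ)), Adm n (1 + d) 1 m 𝓕 → Shifted 𝓕 →
  ∃ i ≤ j, m + (1 + 2 * j).choose j * (j + 1) * m ≤
    ((cls 1 d i 𝓕).filter fun F => Fu 1 i 𝓕 F).card + (𝓕.filter fun F => Hi 1 j F).card +
      (1 + 2 * j).choose j * (j + 1) * (shadow 𝓕).card

-- deps: COEX FULL DISJ CELLN CELLS
def S_DEFO : Prop := ∀ (n d m i g : ℕ) (𝓕 : Finset (Finset ℕ)) (F : Finset ℕ),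
  Adm n (1 + d) 1 m 𝓕 → Shifted 𝓕 → d = i + g + 1 → F ∈ cls 1 d i 𝓕 → Fu 1 i 𝓕 F →
  (i + 2) * m + 2 * (1 + 2 * i).choose i * (GG n i g 𝓕).card ≤ (i + 2) * (shadow 𝓕).card

-- deps: MONO
def S_DEG : Prop := ∀ (b r y : ℕ) (𝒜 : Finset (Finset ℕ)),
  (∀ A ∈ 𝒜, (∀ x ∈ A, b ≤ x) ∧ A.card = r) → ShiftedFrom b 𝒜 → 𝒜.card ≤ y.choose r →
  r * 𝒜.card ≤ y * (𝒜.memberSubfamily b).card

-- deps: FULL DEG
def S_GLOW : Prop := ∀ (n d m i g a y : ℕ) (𝓕 : Finset (Finset ℕ)), Adm n (1 + d) 1 m 𝓕 →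
  Shifted 𝓕 → d = i + g + 1 → m ≤ (1 + 2 * i).choose i * y.choose (g + 1) →
  (g + 1) * ((cls 1 d i 𝓕).filter fun F => Fu 1 i 𝓕 F).card ≤ (1 + 2 * i).choose i *
    (y * ((GG n i g 𝓕).card + (((Ico (1 + 2 * i + 2 + 2 * a) n).powersetCard g).filter fun G =>
      ¬ Hs (1 + 2 * i + 2) G).card) + (g + 1) * (2 * a) * (GG n i g 𝓕).card)

-- deps:
def S_NSH : Prop := ∀ v a n N g : ℕ, n = v + 2 * a + N → 9 * g ≤ N →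
  (((Ico (v + 2 * a) n).powersetCard g).filter fun G => ¬ Hs v G).card ≤
      2 * 4 ^ (a + 1) * N.choose (g - (a + 1)) ∧
    (g ≤ a → (((Ico (v + 2 * a) n).powersetCard g).filter fun G => ¬ Hs v G).card = 0)

-- deps: KKA
def S_UPT : Prop := ∀ n t d j m e q : ℕ, 1 ≤ t → d = j + e → t + 2 * j + q ≤ n →
  (Hull.big (t + 2 * j + q) (t + d) (t + 2 * j) (t + j + 1)).card ≤ m →
  m ≤ (frankl (t + 2 * j + q) (t + d) t j).card →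
  (j + 1) * (shadow (colexInit (frankl n (t + d) t j) m)).card +
      (t + j) * (Hull.big (t + 2 * j + q) (t + d) (t + 2 * j) (t + j + 1)).card ≤
    (t + j) * (m + (t + 2 * j).choose j) +
      (j + 1) * (Hull.big (t + 2 * j + q) (t + d - 1) (t + 2 * j) (t + j)).card

-- deps: UPT
def S_UPO : Prop := ∀ n d j m e q Q R : ℕ, St n 1 d j m e q → Q ≤ q → 2 ≤ R → R * e + e ≤ Q →
  m ≤ (frankl (1 + 2 * j + Q) (1 + d) 1 j).card →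
  R * (j + 2) * (shadow (colexInit (frankl n (1 + d) 1 j) m)).card ≤
    R * (j + 2) * (m + (1 + 2 * j).choose j) +
      (2 * R + 2 * (j + 2)) * ((1 + 2 * j).choose j * Q.choose (e - 1))

-- deps:
def S_NPT : Prop := ∀ n t d j m e q : ℕ, St n t d j m e q → ∃ Q, Q ≤ q ∧
  m ≤ (frankl (t + 2 * j + Q) (t + d) t j).card ∧ (t + 2 * j).choose j * (Q - 1).choose e ≤ m

-- deps:
def S_NUMT : Prop := ∀ i j a e r K m c b P N Z U G X Q B : ℕ, i < j → a ≤ j → 1 ≤ e → e ≤ r →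
  1 ≤ c → 1 ≤ m → 10 ^ 7 * (j + 1) ^ 4 * c ≤ K → 10 ^ 4 * (j + 1) ^ 2 * 4 ^ (j + 1) ≤ K →
  m + c * (j + 1) * m ≤ P + N + c * (j + 1) * Z → K * N ≤ 2 * m → Z < U → K * U ≤ (K + 5) * m →
  (i + 2) * m + 2 * b * G ≤ (i + 2) * Z → r * P ≤ b * (Q * (G + X) + r * (2 * a) * G) →
  K * (b * Q * X) ≤ 4 * 4 ^ (j + 1) * e * m →
  K * (j + 2) * U ≤ K * (j + 2) * (m + c) + (2 * K + 2 * (j + 2)) * (c * B) → K ≤ B →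
  K * e + e ≤ Q → c * B * (Q - e) ^ 2 ≤ m * e * Q → False

-- deps:
def S_NUMU : Prop := ∀ i j a r K m c b P N Z U G Q y : ℕ, i < j → a ≤ j → 2 ≤ r →
  1 ≤ c → 10 ^ 7 * (j + 1) ^ 4 * c ≤ K →
  m + c * (j + 1) * m ≤ P + N + c * (j + 1) * Z → K * N ≤ 2 * m → Z < U → K * U ≤ (K + 5) * m →
  (i + 2) * m + 2 * b * G ≤ (i + 2) * Z → r * P ≤ b * (y * G + r * (2 * a) * G) →
  10 * (j + 1) * y ≤ Q → c * (Q - 1) ≤ m → U ≤ m + 3 * c → K ≤ Q → False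

-- deps: PT UA HIY QBY ONE DEFO GLOW NSH UPO NPT NUMT NUMU
def S_GDO : Prop := ∀ n d j m e q K : ℕ, St n 1 d j m e q →
  10 ^ 7 * (1 + j) ^ 4 * (1 + 2 * j).choose j ≤ K → 10 ^ 4 * (j + 1) ^ 2 * 4 ^ (j + 1) ≤ K →
  (K + 1) * (frankl n (1 + d) 1 (j + 1)).card ≤ m → ∀ 𝓕, Adm n (1 + d) 1 m 𝓕 → Shifted 𝓕 →
  (shadow 𝓕).card < (shadow (colexInit (frankl n (1 + d) 1 j) m)).card →
  m ≤ 2 * (𝓕.filter fun F => Gf 1 j 𝓕 F).card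

-- deps: EXY GDT GDO
def S_EXD : Prop := ∀ n t d j m e q : ℕ, St n t d j m e q →
  (t + 2 * j + 10) ^ (j + 12) * (frankl n (t + d) t (j + 1)).card ≤ m →
  ∀ 𝓕, Adm n (t + d) t m 𝓕 →
  (shadow (colexInit (frankl n (t + d) t j) m)).card ≤ (shadow 𝓕).card

end Pool.Agent.P.MP_ed1e41_co.AS
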