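import Pool.Agent.P.MP_ed1e41_co.AS.Iface3

/-! Step FIBR. -/

namespace Pool.Agent.P.MP_ed1e41_co.AS

open Finset
open scoped Classical

lemma FIBR_sub {t d c : ℕ} {𝓕 : Finset (Finset ℕ)} {T G : Finset ℕ}
    (h : G ∈ shadow (hd t d c 𝓕 T)) : G ⊆ range (t + 2 * c) := by
  obtain ⟨H, hH, z, -, rfl⟩ := mem_shadow_iff.1 h
  exact (erase_subset _ _).trans (mem_powersetCard.1 (hd_sub t d c 𝓕 T hH)).1

lemma FIBR_ge {t d c : ℕ} {𝓕 : Finset (Finset ℕ)} {T : Finset ℕ} (h : T ∈ tl t d c 𝓕) :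
    ∀ x ∈ T, t + 2 * c ≤ x := by
  obtain ⟨F, -, rfl⟩ := mem_tl.1 h
  exact tail_ge F _

theorem p_FIBR :
    S_FIBR := by
  intro t d c 𝓕
  have h1 : ∀ T, ((cls t d c 𝓕).filter fun F => F \ range (t + 2 * c) = T).card =
      (hd t d c 𝓕 T).card := fun T => by
    refine (card_image_of_injOn fun F hF F' hF' e => ?_).symm
    have a := (mem_filter.1 (mem_coe.1 hF)).2
    have b := (mem_filter.1 (mem_coe.1 hF')).2
    have e' : F ∩ range (t + 2 * c) = F' ∩ range (t + 2 * c) := e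
    rw [← sdiff_union_inter F (range (t + 2 * c)), a, e', ← b, sdiff_union_inter]
  refine ⟨h1, ?_, ?_⟩
  · rw [card_eq_sum_card_image (fun F => F \ range (t + 2 * c))]
    exact sum_congr rfl fun T _ => h1 T
  · rw [← card_sigma]
    refine card_le_card_of_injOn (fun p => p.2 ∪ p.1) (fun p hp => ?_) (fun p hp p' hp' e => ?_)
    · obtain ⟨H, hH, z, hz, e⟩ := mem_shadow_iff.1 (mem_sigma.1 (mem_coe.1 hp)).2
      obtain ⟨F, hF, e1, e2⟩ := mem_hd.1 hH
      rw [← e2] at hz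
      refine mem_coe.2 (mem_hsh.2 ⟨F, hF, z, (mem_inter.1 hz).1, mem_range.1 (mem_inter.1 hz).2, ?_⟩)
      have hz' := (mem_inter.1 hz).2
      change F.erase z = p.2 ∪ p.1
      rw [← e, ← e1, ← e2]
      ext y
      simp only [mem_erase, mem_union, mem_inter, mem_sdiff]
      constructor
      · rintro ⟨a, b⟩
        by_cases hy : y ∈ range (t + 2 * c)
        · exact Or.inl ⟨a, b, hy⟩
        · exact Or.inr ⟨b, hy⟩
      · rintro (⟨a, b, -⟩ | ⟨a, b⟩)
        · exact ⟨a, b⟩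
        · exact ⟨fun e => b (e ▸ hz'), a⟩
    · obtain ⟨T, G⟩ := p
      obtain ⟨T', G'⟩ := p'
      obtain ⟨a1, a2⟩ := mem_sigma.1 (mem_coe.1 hp)
      obtain ⟨b1, b2⟩ := mem_sigma.1 (mem_coe.1 hp')
      dsimp only at a1 a2 b1 b2
      have e' : G ∪ T = G' ∪ T' := e
      have c1 : T = T' := by
        rw [← union_tail (FIBR_sub a2) (FIBR_ge a1), e', union_tail (FIBR_sub b2) (FIBR_ge b1)]
      have c2 : G = G' := by
        rw [← union_head (FIBR_sub a2) (FIBR_ge a1), e', union_head (FIBR_sub b2) (FIBR_ge b1)]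
      rw [c1, c2]

end Pool.Agent.P.MP_ed1e41_co.AS
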