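import Pool.Agent.P.MP_ed1e41_co.AS.Iface3

/-! Step GLOW. -/

namespace Pool.Agent.P.MP_ed1e41_co.AS

open Finset
open scoped Classical

lemma GLOW_shift {𝓕 : Finset (Finset ℕ)} (hs : Shifted 𝓕) {i v p q : ℕ} {T : Finset ℕ}
    (h : Ico i v ∪ T ∈ 𝓕) (hp : v ≤ p) (hpq : p < q) (hq : q ∈ T) (hpT : p ∉ T) :
    insert p (Ico i v ∪ T.erase q) ∈ 𝓕 := by
  have h1 := hs _ h p q hpq (mem_union_right _ hq) (by
    rw [mem_union, mem_Ico]; rintro (h | h)
    · omega
    · exact hpT h)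
  rwa [erase_union_distrib, erase_eq_of_notMem (s := Ico i v) (by rw [mem_Ico]; omega)] at h1

theorem p_GLOW (hFULL : S_FULL) (hDEG : S_DEG) :
    S_GLOW := by
  intro n d m i g a y 𝓕 hA hs hd hm
  have hb : ((range (1 + 2 * i)).powersetCard (1 + i)).card = (1 + 2 * i).choose i := by
    rw [card_powersetCard, card_range, cc_symm]
  have hb0 : 0 < (1 + 2 * i).choose i := Nat.choose_pos (by omega)
  obtain ⟨TW, hTW⟩ : ∃ TW : Finset (Finset ℕ), ∀ T, T ∈ TW ↔
      T ⊆ Ico (1 + 2 * i + 2 + 2 * a) n ∧ T.card = g + 1 ∧ Ico i (1 + 2 * i) ∪ T ∈ 𝓕 :=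
    ⟨((Ico (1 + 2 * i + 2 + 2 * a) n).powersetCard (g + 1)).filter fun T =>
      Ico i (1 + 2 * i) ∪ T ∈ 𝓕, fun T => by rw [mem_filter, mem_powersetCard, and_assoc]⟩
  have hge : ∀ T ∈ TW, ∀ x ∈ T, 1 + 2 * i + 2 + 2 * a ≤ x := fun T hT x hx =>
    (mem_Ico.1 (((hTW T).1 hT).1 hx)).1
  have h1 : TW.card ≤ y.choose (g + 1) := by
    have := prod_le_card (𝓕 := 𝓕) (𝓗 := (range (1 + 2 * i)).powersetCard (1 + i)) (𝓣 := TW)
      (1 + 2 * i) (fun H h => (mem_powersetCard.1 h).1)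
      (fun T hT x hx => by have := hge T hT x hx; omega) fun H hH T hT =>
        hFULL 1 i 𝓕 T hs (fun x hx => by have := hge T hT x hx; omega) ((hTW T).1 hT).2.2 H hH
    rw [hb, hA.2.2] at this
    exact Nat.le_of_mul_le_mul_left (this.trans hm) hb0
  have h2 := hDEG (1 + 2 * i + 2 + 2 * a) (g + 1) y TW
    (fun T hT => ⟨hge T hT, ((hTW T).1 hT).2.1⟩) (fun T hT p q hp hpq hq hpT => by
      obtain ⟨c1, c2, c3⟩ := (hTW T).1 hT
      refine (hTW _).2 ⟨insert_subset (mem_Ico.2 ⟨hp, hpq.trans (mem_Ico.1 (c1 hq)).2⟩)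
        ((erase_subset _ _).trans c1), ?_, ?_⟩
      · rw [card_insert_of_notMem fun h => hpT (mem_of_mem_erase h), card_erase_of_mem hq, c2]
        rfl
      · rw [union_insert]
        exact GLOW_shift hs c3 (by omega) hpq hq hpT) h1
  have h3 : (TW.memberSubfamily (1 + 2 * i + 2 + 2 * a)).card ≤ (GG n i g 𝓕).card +
      (((Ico (1 + 2 * i + 2 + 2 * a) n).powersetCard g).filter fun G =>
        ¬ Hs (1 + 2 * i + 2) G).card := by
    refine (card_le_card fun G hG => ?_).trans (card_union_le _ _)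
    obtain ⟨hG1, hG2⟩ := mem_memberSubfamily.1 hG
    obtain ⟨c1, c2, c3⟩ := (hTW _).1 hG1
    rw [card_insert_of_notMem hG2] at c2
    have c4 : G ⊆ Ico (1 + 2 * i + 2 + 2 * a) n := (subset_insert _ _).trans c1
    by_cases hH : Hs (1 + 2 * i + 2) G
    · refine mem_union_left _ (mem_GG.2 ⟨c4.trans (Ico_subset_Ico_left (by omega)), by omega, hH, ?_⟩)
      have := GLOW_shift hs c3 le_rfl (q := 1 + 2 * i + 2 + 2 * a) (by omega) (mem_insert_self _ _)
        fun h => by have := hge _ hG1 _ h; omega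
      rwa [erase_insert hG2] at this
    · exact mem_union_right _ (mem_filter.2 ⟨mem_powersetCard.2 ⟨c4, by omega⟩, hH⟩)
  have h4 : ((cls 1 d i 𝓕).filter fun F => Fu 1 i 𝓕 F).card ≤
      ((range (1 + 2 * i)).powersetCard (1 + i)).card *
      (TW ∪ (Ico (1 + 2 * i + 2) (1 + 2 * i + 2 + 2 * a) ×ˢ GG n i g 𝓕).image
        fun p => insert p.1 p.2).card := by
    refine card_le_prod (1 + 2 * i) fun F hF => ?_
    obtain ⟨hF1, hFu⟩ := mem_filter.1 hF
    obtain ⟨hF2, -, k1, k2⟩ := mem_cls.1 hF1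
    have k3 := mem_powersetCard.1 (hA.1 hF2)
    refine ⟨mem_powersetCard.2 ⟨inter_subset_right, k1⟩, ?_⟩
    have k4 := card_head_tail F (1 + 2 * i)
    have k5 : F \ range (1 + 2 * i) ⊆ Ico (1 + 2 * i) n := tail_sub k3.1
    have k6 : ∀ x, 1 ≤ x → ((F \ range (1 + 2 * i)) ∩ Ico (1 + 2 * i) (1 + 2 * i + 2 * x)).card < x := by
      intro x hx
      by_cases c : i + x ≤ d
      · have e1 := k2 (i + x) (by omega) c
        have e2 := card_tr_split F (1 + 2 * i) (2 * x)
        rw [show 1 + 2 * (i + x) = 1 + 2 * i + 2 * x by ring] at e1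
        have e3 := card_le_card (inter_subset_inter_right (s := F \ range (1 + 2 * i)) (t := F)
          (u := Ico (1 + 2 * i) (1 + 2 * i + 2 * x)) sdiff_subset)
        omega
      · have := card_le_card (inter_subset_left (s₁ := F \ range (1 + 2 * i))
          (s₂ := Ico (1 + 2 * i) (1 + 2 * i + 2 * x)))
        omega
    have k7 : (F \ range (1 + 2 * i)).card = g + 1 := by omega
    unfold Fu at hFu
    generalize F \ range (1 + 2 * i) = T at hFu k5 k6 k7
    have k8 : ∀ x ∈ T, 1 + 2 * i + 2 ≤ x := by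
      intro x hx
      by_contra hc
      have e1 := k6 1 le_rfl
      have e2 := card_pos.2 ⟨x, mem_inter.2 ⟨hx, (mem_Ico.2 ⟨(mem_Ico.1 (k5 hx)).1, by omega⟩ :
        x ∈ Ico (1 + 2 * i) (1 + 2 * i + 2 * 1))⟩⟩
      omega
    obtain ⟨z, hz, hmin⟩ := exists_min_image T id (card_pos.1 (by omega))
    simp only [id] at hmin
    have hz2 := k8 z hz
    by_cases c : z < 1 + 2 * i + 2 + 2 * a
    · refine mem_union_right _ (mem_image.2 ⟨(z, T.erase z), mem_product.2
        ⟨mem_Ico.2 ⟨hz2, c⟩, mem_GG.2 ⟨fun x hx => ?_, by rw [card_erase_of_mem hz, k7]; rfl,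
          fun x hx => ?_, GLOW_shift hs hFu le_rfl (by omega) hz fun h => ?_⟩⟩, insert_erase hz⟩)
      · exact mem_Ico.2 ⟨k8 x (mem_of_mem_erase hx), (mem_Ico.1 (k5 (mem_of_mem_erase hx))).2⟩
      · dsimp only
        by_cases c' : z < 1 + 2 * i + 2 + 2 * x
        · have e1 := k6 (x + 1) (by omega)
          have e2 : T.erase z ∩ Ico (1 + 2 * i + 2) (1 + 2 * i + 2 + 2 * x) ⊆
              (T ∩ Ico (1 + 2 * i) (1 + 2 * i + 2 * (x + 1))).erase z := by
            intro u hu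
            simp only [mem_inter, mem_erase, mem_Ico] at hu ⊢
            exact ⟨hu.1.1, hu.1.2, by omega, by omega⟩
          have e3 := card_le_card e2
          rw [card_erase_of_mem (mem_inter.2 ⟨hz, mem_Ico.2 ⟨by omega, by omega⟩⟩)] at e3
          omega
        · have e2 : T.erase z ∩ Ico (1 + 2 * i + 2) (1 + 2 * i + 2 + 2 * x) = ∅ := by
            refine eq_empty_of_forall_notMem fun u hu => ?_
            simp only [mem_inter, mem_erase, mem_Ico] at hu
            have := hmin u hu.1.2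
            omega
          rw [e2, card_empty]
          omega
      · have := k8 _ h
        omega
    · refine mem_union_left _ ((hTW T).2 ⟨fun x hx => mem_Ico.2 ⟨?_, (mem_Ico.1 (k5 hx)).2⟩, k7, hFu⟩)
      have := hmin x hx
      omega
  have h5 : (TW ∪ (Ico (1 + 2 * i + 2) (1 + 2 * i + 2 + 2 * a) ×ˢ GG n i g 𝓕).image
      fun p => insert p.1 p.2).card ≤ TW.card + 2 * a * (GG n i g 𝓕).card := by
    refine (card_union_le _ _).trans (Nat.add_le_add_left (card_image_le.trans ?_) _)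
    rw [card_product, Nat.card_Ico, Nat.add_sub_cancel_left]
  rw [hb] at h4
  calc (g + 1) * ((cls 1 d i 𝓕).filter fun F => Fu 1 i 𝓕 F).card
      ≤ (g + 1) * ((1 + 2 * i).choose i * (TW.card + 2 * a * (GG n i g 𝓕).card)) :=
        Nat.mul_le_mul_left _ (h4.trans (Nat.mul_le_mul_left _ h5))
    _ = (1 + 2 * i).choose i * ((g + 1) * TW.card + (g + 1) * (2 * a) * (GG n i g 𝓕).card) := by
        ring
    _ ≤ _ := Nat.mul_le_mul_left _ (Nat.add_le_add_right (h2.trans (Nat.mul_le_mul_left _ h3)) _)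

end Pool.Agent.P.MP_ed1e41_co.AS
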