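import Pool.Agent.P.MP_ed1e41_co.AS.Iface

/-! Step HEAD. -/

namespace Pool.Agent.P.MP_ed1e41_co.AS

open Finset
open scoped Classical

theorem p_HEAD :
    S_HEAD := by
  intro t i
  have key : ∀ x, x ≤ 2 * i →
      t * (t + x).choose i ≤ t * t.choose i + x * i * (t + 2 * i).choose i := by
    intro x
    induction x with
    | zero => simp
    | succ x ih =>
      intro hx
      obtain ⟨y, rfl⟩ : ∃ y, i = y + 1 := ⟨i - 1, by omega⟩
      have a1 := ih (by omega)
      have a2 := Nat.choose_succ_succ' (t + x) y
      have a3 := Nat.add_one_mul_choose_eq (t + x) y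
      have a4 : (t + x + 1).choose (y + 1) ≤ (t + 2 * (y + 1)).choose (y + 1) :=
        Nat.choose_le_choose _ (by omega)
      have a5 := Nat.mul_le_mul_right (y + 1) a4
      rw [← add_assoc, a2]
      nlinarith [Nat.zero_le ((x + 1) * (t + x).choose y)]
  have := key (2 * i) le_rfl
  nlinarith

end Pool.Agent.P.MP_ed1e41_co.AS
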