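import Pool.Agent.P.MP_ed1e41_co.AS.Iface

/-! Step PZ. -/

namespace Pool.Agent.P.MP_ed1e41_co.AS

open Finset
open scoped Classical

theorem p_PZ :
    S_PZ := by
  intro n t d j e q ht hd he hn hq hlt
  obtain ⟨r, hr⟩ := Nat.exists_eq_add_of_le hq
  have hn' : n = t + 2 * d + 1 + r := by omega
  have ht' : (1 : ℚ) ≤ t := by exact_mod_cast ht
  have k1 : ((t : ℚ) + j) / (j + 1) < 1 + r / (d - j) := by
    obtain ⟨c, c0, c1, -⟩ := Hull.diffs (i := j) ht hn' (by omega)
    have : (0 : ℚ) < (frankl n (t + d) t j).card - (frankl n (t + d) t (j + 1)).card := by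
      rw [sub_pos]; exact_mod_cast hlt
    rw [c1] at this
    exact sub_pos.1 ((mul_pos_iff_of_pos_left c0).1 this)
  constructor
  · have e0 : (0 : ℚ) < e := by exact_mod_cast he
    rw [show (d : ℚ) - j = e by rw [hd]; push_cast; ring, one_add_div e0.ne',
      div_lt_div_iff₀ (by positivity) e0] at k1
    have : (t + j) * e < (e + r) * (j + 1) := by exact_mod_cast k1
    rw [hr]
    nlinarith
  · intro i hi
    induction i, hi using Nat.le_induction with
    | base => exact fun _ => le_rfl
    | succ i hi ih =>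
      intro h
      refine le_trans ?_ (ih (by omega))
      obtain ⟨c, c0, c1, -⟩ := Hull.diffs (i := i) ht hn' (by omega)
      have a1 := ((Hull.rho_anti ht' (show j ≤ i by omega)).trans k1.le).trans
        (Hull.kap_mono r (show j ≤ i by omega) (show i < d by omega))
      have a2 := mul_nonneg c0.le (sub_nonneg.2 a1)
      rw [← c1, sub_nonneg] at a2
      exact_mod_cast a2

end Pool.Agent.P.MP_ed1e41_co.AS
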