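import Pool.Agent.P.MP_ed1e41_co.AS.Iface2
import Pool.Agent.P.MP_ed1e41_co.AS.Iface

/-! Step QB. -/

namespace Pool.Agent.P.MP_ed1e41_co.AS

open Finset
open scoped Classical

lemma QB_geom (Q e : ℕ) (h : 3 * e ≤ Q) : ∑ i ∈ range (e + 1), Q.choose i ≤ 2 * Q.choose e := by
  induction e with
  | zero => simp
  | succ e ih =>
    have h1 := ratio (a := 2) (b := 1) (e := e + 1) (N := Q) (by omega) (by omega) 1 (by omega)
    have h2 := ih (by omega)
    rw [sum_range_succ]
    simp only [pow_one, Nat.add_sub_cancel] at h1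
    omega

theorem p_QB (hPZ : S_PZ) :
    S_QB := by
  intro n t d j m e q R Q hS hR hRt hm
  have hd := hS.hd
  have hn := hS.hn
  have hq := hS.hq
  have e1 := hS.e1
  have a0 := hPZ n t d j e q hS.t1 hd e1 hn hq (hS.lo.trans_le hS.hi)
  have key : ∀ s, (t + j) * e + (j + 1) * (e + 1) < (j + 1) * s → R * e + e ≤ s := fun s h =>
    Nat.le_of_mul_le_mul_left (by nlinarith [Nat.mul_le_mul_right e hRt]) j.succ_pos
  have h1 : R * e + e ≤ Q := by
    rcases le_or_gt q Q with c | c
    · exact (key q a0.1).trans c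
    have a4 := hS.lo
    have h4 : 2 * e + 1 ≤ Q := by
      by_contra hc
      have a1 := a0.2 d (by omega) le_rfl
      rw [Hull.card_top (by omega)] at a1
      have a2 : (frankl (t + 2 * j + Q) (t + d) t j).card ≤ (t + 2 * j + Q).choose (t + d) := by
        refine (card_filter_le _ _).trans ?_
        rw [card_powersetCard, card_range]
      have a3 := Nat.choose_le_choose (t + d) (show t + 2 * j + Q ≤ t + 2 * d by omega)
      omega
    have a5 := card_le_card (frankl_mono (show t + 2 * j + Q ≤ n by omega) (t + d) t (j + 1))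
    exact key Q (hPZ _ t d j e Q hS.t1 hd e1 rfl h4 (by omega)).1
  refine ⟨h1, hm.trans ((card_big rfl (t + d) (t + j)).le.trans ?_)⟩
  rw [mul_left_comm]
  refine le_trans ?_ (Nat.mul_le_mul_left _ (QB_geom Q e (by nlinarith)))
  rw [← sum_nbij' (s := Icc (t + j) (t + d)) (f := fun x => Q.choose (t + d - x))
    (fun x => t + d - x) (fun x => t + d - x) (by grind) (by grind) (by grind) (by grind)
    fun _ _ => rfl, mul_sum]
  refine sum_le_sum fun x hx => Nat.mul_le_mul_right _ ?_
  rw [mem_Icc] at hx
  exact choose_anti (by omega) (by omega)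

end Pool.Agent.P.MP_ed1e41_co.AS
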