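import Pool.Agent.P.MP_ed1e41_co.AS.Iface2

/-! Step TS. -/

namespace Pool.Agent.P.MP_ed1e41_co.AS

open Finset
open scoped Classical

theorem p_TS :
    S_TS := by
  intro v r e 𝓖 hs hc i hi _
  have h1 : i ≠ r := by omega
  simp only [h1, if_false]
  refine ⟨fun T hT => ?_, fun T hT a b ha hab hb hna => ?_, ?_⟩
  · obtain ⟨h, F, -, rfl⟩ := mem_tails.1 hT
    exact ⟨fun x hx => not_lt.1 fun h' => (mem_sdiff.1 hx).2 (mem_range.2 h'), h⟩
  · obtain ⟨h, F, hF, rfl⟩ := mem_tails.1 hT
    have haF : a ∉ F := fun h' => hna (mem_sdiff.2 ⟨h', fun h'' => by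
      have := mem_range.1 h''; omega⟩)
    refine mem_tails.2 ⟨by rw [card_shift hna hb]; exact h, _,
      hs F hF a b hab (mem_sdiff.1 hb).1 haF, ?_⟩
    ext y
    simp only [mem_sdiff, mem_insert, mem_erase, mem_range]
    grind
  · split_ifs with h2
    · rw [show i = r + 1 by omega]
    · intro G hG
      obtain ⟨T, hT, y, hy, rfl⟩ := mem_shadow_iff.1 hG
      obtain ⟨h, F, hF, rfl⟩ := mem_tails.1 hT
      have h3 := card_head_tail F v
      have h4 := hc F hF
      have h5 : (F ∩ range v).card < (range v).card := by rw [card_range]; omega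
      obtain ⟨z, hz, hz'⟩ := exists_mem_notMem_of_card_lt_card h5
      have hzF : z ∉ F := fun h' => hz' (mem_inter.2 ⟨h', hz⟩)
      have hyv : v ≤ y := not_lt.1 fun h' => (mem_sdiff.1 hy).2 (mem_range.2 h')
      have hzv := mem_range.1 hz
      refine mem_tails.2 ⟨by rw [card_erase_of_mem hy, h], _,
        hs F hF z y (by omega) (mem_sdiff.1 hy).1 hzF, ?_⟩
      ext w
      simp only [mem_sdiff, mem_insert, mem_erase, mem_range]
      grind

end Pool.Agent.P.MP_ed1e41_co.AS
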