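import Pool.Agent.P.MP_ed1e41_co.AS.Iface

/-! Step UA. -/

namespace Pool.Agent.P.MP_ed1e41_co.AS

open Finset
open scoped Classical

theorem UA_ratio {K e q : ℕ} (he : 1 ≤ e) (hq : 2 * e + 1 ≤ q)
    (h : K * (q - 2).choose (e - 1) ≤ (q - 2).choose e) : K * e + e ≤ q + 1 := by
  obtain ⟨y, rfl⟩ : ∃ y, e = y + 1 := ⟨e - 1, by omega⟩
  rw [Nat.add_sub_cancel] at h
  have h1 := Nat.choose_succ_right_eq (q - 2) y
  have h2 : 0 < (q - 2).choose y := Nat.choose_pos (by omega)
  have h3 : K * (y + 1) ≤ q - 2 - y := by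
    refine Nat.le_of_mul_le_mul_left ?_ h2
    calc (q - 2).choose y * (K * (y + 1)) = K * (q - 2).choose y * (y + 1) := by ring
      _ ≤ (q - 2).choose (y + 1) * (y + 1) := Nat.mul_le_mul_right _ h
      _ = _ := h1
  omega

theorem p_UA (hPZ : S_PZ) (hPT : S_PT) (hNP : S_NP) (hUPM : S_UPM) (hHIA : S_HIA) :
    S_UA := by
  intro n t d j m e q hs K hK hc
  obtain ⟨q', h1, h2, h3, h4⟩ := hNP n t d j m e q hs
  have t1 := hs.t1
  have hd := hs.hd
  have e1 := hs.e1
  have hn := hs.hn
  have h5 : (frankl (t + 2 * j + q') (t + d) t (j + 1)).card ≤ (frankl n (t + d) t (j + 1)).card :=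
    card_le_card (frankl_mono (by omega) _ _ _)
  have h6 : K * e + e ≤ q' + 1 := by
    rcases hc with hc | hc
    · have h7 := (hPZ _ t d j e q' t1 hd e1 rfl h2 ((h5.trans_lt hs.lo).trans_le h3)).1
      have h8 : (j + 1) * (K * e + e + 1) < (j + 1) * q' :=
        calc (j + 1) * (K * e + e + 1) = K * (j + 1) * e + (j + 1) * (e + 1) := by ring
          _ ≤ (t + j) * e + (j + 1) * (e + 1) :=
            Nat.add_le_add_right (Nat.mul_le_mul_right _ hc) _
          _ < _ := h7
      have := Nat.lt_of_mul_lt_mul_left h8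
      omega
    · obtain ⟨h7, h8⟩ := hPT _ t d j e q' t1 hd e1 rfl (by omega)
      have h9 : (t + 2 * j).choose j * (q' - 2).choose (e - 1) ≤
          (frankl (t + 2 * j + q') (t + d) t (j + 1)).card :=
        Nat.le_of_mul_le_mul_left ((Nat.mul_le_mul_right _ (by omega)).trans h7)
          (show 0 < j + 1 by omega)
      have h10 := (Nat.mul_le_mul_left (K + 1) h5).trans (hc.trans (h3.trans h8))
      have h11 := Nat.mul_le_mul_left K h9
      refine UA_ratio e1 h2 (Nat.le_of_mul_le_mul_left ?_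
        (Nat.choose_pos (show j ≤ t + 2 * j by omega)))
      rw [add_mul, one_mul] at h10
      rw [mul_left_comm]
      omega
  have h7 := hUPM n (t + 2 * j + q') t d j m 0 0 ((t + 2 * j).choose j) (j + 1) t1 (by omega)
    (by omega) (by omega) (by omega) (by omega) h3
    fun r hr => choose_anti (by omega) (by omega)
  have h8 := hHIA _ t d j e q' K t1 hd rfl hK h6
  rw [add_zero] at h7
  calc K * (j + 1) * (shadow (colexInit (frankl n (t + d) t j) m)).card
      = K * ((j + 1) * (shadow (colexInit (frankl n (t + d) t j) m)).card) := by ring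
    _ ≤ K * ((t + j) * (m + (t + 2 * j).choose j) +
        (j + 1) * (Hull.big (t + 2 * j + q') (t + d - 1) (t + 2 * j) (t + j)).card) :=
      Nat.mul_le_mul_left _ h7
    _ = K * (t + j) * m + K * (t + j) * (t + 2 * j).choose j + (j + 1) *
        (K * (Hull.big (t + 2 * j + q') (t + d - 1) (t + 2 * j) (t + j)).card) := by ring
    _ ≤ K * (t + j) * m + K * (t + j) * (t + 2 * j).choose j + (j + 1) * (4 * m) :=
      Nat.add_le_add_left (Nat.mul_le_mul_left _ (by omega)) _
    _ = _ := by ring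

end Pool.Agent.P.MP_ed1e41_co.AS
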